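import Mathlib

/-!
# The critical self-avoiding walk with Yang–Baxter weights on the square lattice cylinder: definitions

Vertices `ℤ × ZMod N` (column, row).  A half edge is a pair (vertex, direction).  A word is a list of directions: the
walk crosses the edge of the half edge `h`, leaves the next vertex in the first direction of the list, and so on.
-/

set_option autoImplicit false

namespace Pool.Agent.YBC

/-- The four directions. -/
inductive Dir
  | E
  | N
  | W
  | S
  deriving DecidableEq, Fintype

/-- The opposite direction. -/
def Dir.op : Dir → Dir
  | .E => .W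
  | .N => .S
  | .W => .E
  | .S => .N

/-- The vertices of the cylinder with `N` rows. -/
abbrev Vx (N : ℕ) := ℤ × ZMod N

/-- The neighbour of a vertex. -/
def nx {N : ℕ} (v : Vx N) : Dir → Vx N
  | .E => (v.1 + 1, v.2)
  | .N => (v.1, v.2 + 1)
  | .W => (v.1 - 1, v.2)
  | .S => (v.1, v.2 - 1)

/-- The half edges. -/
abbrev He (N : ℕ) := Vx N × Dir

/-- The other half of the edge. -/
def rv {N : ℕ} (h : He N) : He N := (nx h.1 h.2, h.2.op)

/-- The weights of a crossing. -/
structure W5 (K : Type*) where
  /-- straight -/
  v : K
  /-- turn south-west or north-east -/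
  u1 : K
  /-- turn south-east or north-west -/
  u2 : K
  /-- both turns south-west and north-east -/
  w1 : K
  /-- both turns south-east and north-west -/
  w2 : K

section wt

variable {K : Type*} [CommRing K] (w : W5 K)

/-- The weight of one passage between the sides `a` and `b`. -/
def W5.one (a b : Dir) : K :=
  match a, b with
  | .E, .W | .W, .E | .N, .S | .S, .N => w.v
  | .S, .W | .W, .S | .E, .N | .N, .E => w.u1
  | .S, .E | .E, .S | .N, .W | .W, .N => w.u2
  | _, _ => 0

/-- The weight of two passages, the first one between the sides `a` and `b`, the second one between the sides `c`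
and `d`: only two disjoint turns are possible. -/
def W5.two (a b c d : Dir) : K :=
  if ¬ [a, b, c, d].Nodup then 0
  else
    match a, b with
    | .S, .W | .W, .S | .E, .N | .N, .E => w.w1
    | .S, .E | .E, .S | .N, .W | .W, .N => w.w2
    | _, _ => 0

/-- **The weight of a vertex** with the list of the passages. -/
def W5.lw : List (Dir × Dir) → K
  | [] => 1
  | [x] => w.one x.1 x.2
  | [x, y] => w.two x.1 x.2 y.1 y.2
  | _ => 0

end wt

variable {N : ℕ}

/-- The passages of the word `t` starting through the half edge `h`: (vertex, (side of entry, side of exit)). -/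
def pass : He N → List Dir → List (Vx N × (Dir × Dir))
  | _, [] => []
  | h, d :: t => ((rv h).1, ((rv h).2, d)) :: pass ((rv h).1, d) t

/-- The last half edge of the word. -/
def fin : He N → List Dir → He N
  | h, [] => h
  | h, d :: t => fin ((rv h).1, d) t

/-- The passages at the vertex `v`. -/
def psAt (l : List (Vx N × (Dir × Dir))) (v : Vx N) : List (Dir × Dir) := (l.filter fun x => x.1 = v).map Prod.snd

/-- The words with at most `n` letters. -/
def words : ℕ → Finset (List Dir)
  | 0 => {[]}
  | n + 1 => {[]} ∪ (Finset.univ ×ˢ words n).image fun x => x.1 :: x.2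

/-- **The sum over the walks** in the finite set `A` of vertices which enter through the half edge `rv h` and leave
through the half edge `b`, with at most `n` passages. -/
noncomputable def Zw {K : Type*} [CommRing K] (w : Vx N → W5 K) (A : Finset (Vx N)) (n : ℕ) (h b : He N) : K :=
  open scoped Classical in
  ∑ t ∈ (words n).filter (fun t => (∀ x ∈ pass h t, x.1 ∈ A) ∧ fin h t = b), ∏ v ∈ A, (w v).lw (psAt (pass h t) v)

end Pool.Agent.YBC
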