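import Pool.Agent.YBC.Def4

/-!
# The sums over the walks with non-negative weights: monotonicity, limits over boxes
-/

set_option autoImplicit false

open Filter Topology

namespace Pool.Agent.YBC

variable {N : ℕ}

/-- All weights are non-negative. -/
def W5.Nn (w : W5 ℝ) : Prop := 0 ≤ w.v ∧ 0 ≤ w.u1 ∧ 0 ≤ w.u2 ∧ 0 ≤ w.w1 ∧ 0 ≤ w.w2

theorem W5.Nn.one {w : W5 ℝ} (h : w.Nn) (a b : Dir) : 0 ≤ w.one a b := by
  obtain ⟨h1, h2, h3, h4, h5⟩ := h
  cases a <;> cases b <;> simp only [W5.one] <;> first | assumption | exact le_rfl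

theorem W5.Nn.two {w : W5 ℝ} (h : w.Nn) (a b c d : Dir) : 0 ≤ w.two a b c d := by
  obtain ⟨h1, h2, h3, h4, h5⟩ := h
  unfold W5.two
  by_cases e : ¬ [a, b, c, d].Nodup
  · rw [if_pos e]
  · rw [if_neg e]
    cases a <;> cases b <;> first | assumption | exact le_rfl

theorem W5.Nn.lw {w : W5 ℝ} (h : w.Nn) : ∀ l : List (Dir × Dir), 0 ≤ w.lw l
  | [] => zero_le_one
  | [_] => h.one _ _
  | [_, _] => h.two _ _ _ _
  | _ :: _ :: _ :: _ => le_rfl

theorem mem_words {n : ℕ} : ∀ {t : List Dir}, t ∈ words n ↔ t.length ≤ n := by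
  induction n with
  | zero => intro t; simp [words]
  | succ n ih =>
    intro t
    rw [words, Finset.mem_union, Finset.mem_singleton, Finset.mem_image]
    cases t with
    | nil => simp
    | cons d t =>
      simp only [reduceCtorEq, false_or, Finset.mem_product, Finset.mem_univ, true_and, Prod.exists,
        List.cons.injEq, List.length_cons, Nat.add_le_add_iff_right]
      constructor
      · rintro ⟨a, b, h1, -, rfl⟩
        exact ih.1 h1
      · intro h
        exact ⟨d, t, ih.2 h, rfl, rfl⟩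

theorem psAt_nil {l : List (Vx N × (Dir × Dir))} {v : Vx N} (h : ∀ x ∈ l, x.1 ≠ v) : psAt l v = [] := by
  unfold psAt
  rw [List.map_eq_nil_iff, List.filter_eq_nil_iff]
  intro x hx
  simpa using h x hx

/-- The visited vertices. -/
def vis (h : He N) (t : List Dir) : Finset (Vx N) := ((pass h t).map Prod.fst).toFinset

theorem mem_vis {h : He N} {t : List Dir} {v : Vx N} : v ∈ vis h t ↔ ∃ x ∈ pass h t, x.1 = v := by
  unfold vis
  rw [List.mem_toFinset, List.mem_map]

theorem vis_sub {h : He N} {t : List Dir} {A : Finset (Vx N)} :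
    vis h t ⊆ A ↔ ∀ x ∈ pass h t, x.1 ∈ A := by
  constructor
  · intro hs x hx
    exact hs (mem_vis.2 ⟨x, hx, rfl⟩)
  · intro hx v hv
    obtain ⟨x, h1, rfl⟩ := mem_vis.1 hv
    exact hx x h1

/-- **The weight of a walk**: the product over the visited vertices. -/
noncomputable def wt {K : Type*} [CommRing K] (w : Vx N → W5 K) (h : He N) (t : List Dir) : K :=
  ∏ v ∈ vis h t, (w v).lw (psAt (pass h t) v)

theorem prod_eq_wt {K : Type*} [CommRing K] (w : Vx N → W5 K) {h : He N} {t : List Dir}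
    {A : Finset (Vx N)} (hA : vis h t ⊆ A) : ∏ v ∈ A, (w v).lw (psAt (pass h t) v) = wt w h t := by
  unfold wt
  refine (Finset.prod_subset hA fun v _ hv => ?_).symm
  rw [psAt_nil]
  · rfl
  · intro x hx e
    exact hv (mem_vis.2 ⟨x, hx, e⟩)

theorem wt_nonneg {w : Vx N → W5 ℝ} (hw : ∀ v, (w v).Nn) (h : He N) (t : List Dir) : 0 ≤ wt w h t :=
  Finset.prod_nonneg fun v _ => (hw v).lw _

open scoped Classical in
/-- `Zw` as a sum of weights of walks. -/
theorem Zw_eq_wt {K : Type*} [CommRing K] (w : Vx N → W5 K) (A : Finset (Vx N)) (n : ℕ) (h b : He N) :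
    Zw w A n h b = ∑ t ∈ (words n).filter (fun t => vis h t ⊆ A ∧ fin h t = b), wt w h t := by
  unfold Zw
  have e : (words n).filter (fun t => (∀ x ∈ pass h t, x.1 ∈ A) ∧ fin h t = b) =
      (words n).filter (fun t => vis h t ⊆ A ∧ fin h t = b) :=
    Finset.filter_congr fun t _ => by rw [vis_sub]
  rw [e]
  exact Finset.sum_congr rfl fun t ht => prod_eq_wt w (Finset.mem_filter.1 ht).2.1

theorem Zw_nonneg {w : Vx N → W5 ℝ} (hw : ∀ v, (w v).Nn) (A : Finset (Vx N)) (n : ℕ) (h b : He N) :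
    0 ≤ Zw w A n h b := by
  classical
  rw [Zw_eq_wt]
  exact Finset.sum_nonneg fun t _ => wt_nonneg hw h t

theorem Zw_mono {w : Vx N → W5 ℝ} (hw : ∀ v, (w v).Nn) {A B : Finset (Vx N)} (hAB : A ⊆ B) {n m : ℕ}
    (hnm : n ≤ m) (h b : He N) : Zw w A n h b ≤ Zw w B m h b := by
  classical
  rw [Zw_eq_wt, Zw_eq_wt]
  refine Finset.sum_le_sum_of_subset_of_nonneg ?_ fun t _ _ => wt_nonneg hw h t
  intro t ht
  rw [Finset.mem_filter, mem_words] at ht ⊢
  exact ⟨ht.1.trans hnm, ht.2.1.trans hAB, ht.2.2⟩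

open scoped Classical in
/-- The weights of the walks which end through the half edge `b`. -/
noncomputable def wb (w : Vx N → W5 ℝ) (h b : He N) (t : List Dir) : ℝ :=
  if fin h t = b then wt w h t else 0

theorem wb_nonneg {w : Vx N → W5 ℝ} (hw : ∀ v, (w v).Nn) (h b : He N) (t : List Dir) :
    0 ≤ wb w h b t := by
  unfold wb
  split_ifs
  · exact wt_nonneg hw h t
  · exact le_rfl

/-- a finite sum of weights is at most `Zw` of a box that contains the walks. -/
theorem sum_wb_le {w : Vx N → W5 ℝ} (hw : ∀ v, (w v).Nn) (h b : He N) (s : Finset (List Dir))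
    {A : Finset (Vx N)} {n : ℕ} (h1 : ∀ t ∈ s, vis h t ⊆ A) (h2 : ∀ t ∈ s, t.length ≤ n) :
    ∑ t ∈ s, wb w h b t ≤ Zw w A n h b := by
  classical
  rw [Zw_eq_wt]
  unfold wb
  rw [← Finset.sum_filter]
  refine Finset.sum_le_sum_of_subset_of_nonneg ?_ fun t _ _ => wt_nonneg hw h t
  intro t ht
  rw [Finset.mem_filter] at ht ⊢
  exact ⟨mem_words.2 (h2 t ht.1), h1 t ht.1, ht.2⟩

/-- `Zw` is a finite sum of weights. -/
theorem Zw_eq_sum_wb (w : Vx N → W5 ℝ) (A : Finset (Vx N)) (n : ℕ) (h b : He N) :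
    ∃ s : Finset (List Dir), Zw w A n h b = ∑ t ∈ s, wb w h b t := by
  classical
  refine ⟨(words n).filter (fun t => vis h t ⊆ A ∧ fin h t = b), ?_⟩
  rw [Zw_eq_wt]
  refine Finset.sum_congr rfl fun t ht => ?_
  unfold wb
  rw [if_pos (Finset.mem_filter.1 ht).2.2]

/-- **The sum over all walks**: if the sums over the walks in growing boxes converge, then the sum over all walks
converges to the same limit. -/
theorem hasSum_Zw {w : Vx N → W5 ℝ} (hw : ∀ v, (w v).Nn) {h b : He N} {A : ℕ → Finset (Vx N)} {n : ℕ → ℕ}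
    (hA : ∀ v, ∀ᶠ m in atTop, v ∈ A m) (hn : Tendsto n atTop atTop) {W : ℝ}
    (hl : Tendsto (fun m => Zw w (A m) (n m) h b) atTop (𝓝 W)) : HasSum (wb w h b) W := by
  classical
  -- the finite sums
  have fin_le : ∀ s : Finset (List Dir), ∀ᶠ m in atTop, ∑ t ∈ s, wb w h b t ≤ Zw w (A m) (n m) h b := by
    intro s
    have e1 : ∀ᶠ m in atTop, ∀ v ∈ s.biUnion (fun t => vis h t), v ∈ A m :=
      (Filter.eventually_all_finset _).2 fun v _ => hA v
    have e2 : ∀ᶠ m in atTop, s.sup List.length ≤ n m := hn.eventually_ge_atTop _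
    filter_upwards [e1, e2] with m m1 m2
    refine sum_wb_le hw h b s (fun t ht v hv => ?_) (fun t ht => ?_)
    · exact m1 v (Finset.mem_biUnion.2 ⟨t, ht, hv⟩)
    · exact (Finset.le_sup (f := List.length) ht).trans m2
  have hub : ∀ s : Finset (List Dir), ∑ t ∈ s, wb w h b t ≤ W := by
    intro s
    exact ge_of_tendsto hl (fin_le s)
  have hsum : Summable (wb w h b) := summable_of_sum_le (wb_nonneg hw h b) hub
  have h1 : ∑' t, wb w h b t ≤ W := hsum.tsum_le_of_sum_le hub
  have h2 : W ≤ ∑' t, wb w h b t := by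
    refine le_of_tendsto hl (Filter.Eventually.of_forall fun m => ?_)
    obtain ⟨s, hs⟩ := Zw_eq_sum_wb w (A m) (n m) h b
    rw [hs]
    exact hsum.sum_le_tsum s fun t _ => wb_nonneg hw h b t
  have h3 : ∑' t, wb w h b t = W := le_antisymm h1 h2
  rw [← h3]
  exact hsum.hasSum

end Pool.Agent.YBC
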