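import Pool.Agent.YBC.AngD
import Pool.Agent.YBC.Pub
import Pool.Agent.UNI.WtR

/-!
# The Yang–Baxter weights with the angle `θ`: relation to `wR`, signs, special angles
-/

set_option autoImplicit false

namespace Pool.Agent.YBC

open Pool.Agent.EXL Pool.Agent.UNI

/-- The five weights of a rhombus of the operators. -/
def ofWt5 {K : Type*} (w : Wt K) : W5 K := ⟨w.v, w.u1, w.u2, w.w1, w.w2⟩

theorem yb_eq (θ : ℝ) : yb θ = ofWt5 (wR (3 * θ / 8)) := rfl

theorem yb_nn {θ : ℝ} (h1 : Real.pi / 3 ≤ θ) (h2 : θ ≤ 2 * Real.pi / 3) : (yb θ).Nn := by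
  obtain ⟨a, b, c, d, e⟩ := wR_nn (u := 3 * θ / 8) (by linarith) (by linarith)
  exact ⟨a, b, c, d, e⟩

/-- the angle `π / 3`: the honeycomb lattice. -/
theorem yb_hex : yb (Real.pi / 3) =
    ⟨HexObs.xc ^ 2, HexObs.xc, HexObs.xc ^ 2, HexObs.xc ^ 2, 0⟩ := by
  rw [yb_eq, show 3 * (Real.pi / 3) / 8 = Real.pi / 8 by ring, wR_hex]
  rfl

/-- The reflection exchanges the two pairs of corners. -/
theorem yb_mirror (θ : ℝ) : yb (Real.pi - θ) =
    ⟨(yb θ).v, (yb θ).u2, (yb θ).u1, (yb θ).w2, (yb θ).w1⟩ := by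
  have e0 : den (Real.pi - θ) = den θ := by
    unfold den
    rw [show 3 * (Real.pi - θ) / 8 + Real.pi / 4 = Real.pi - (3 * θ / 8 + 3 * Real.pi / 8) by ring,
      show 3 * (Real.pi - θ) / 8 + 3 * Real.pi / 8 = Real.pi - (3 * θ / 8 + Real.pi / 4) by ring,
      Real.sin_pi_sub, Real.sin_pi_sub, mul_comm]
  have e1 : 3 * (Real.pi - θ) / 8 = 3 * Real.pi / 8 - 3 * θ / 8 := by ring
  have e2 : 3 * Real.pi / 8 - 3 * (Real.pi - θ) / 8 = 3 * θ / 8 := by ring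
  have e3 : Real.pi / 4 - 3 * (Real.pi - θ) / 8 = 3 * θ / 8 - Real.pi / 8 := by ring
  have e4 : 3 * (Real.pi - θ) / 8 - Real.pi / 8 = Real.pi / 4 - 3 * θ / 8 := by ring
  unfold yb
  rw [e0, e2, e3, e4, e1]
  simp only [W5.mk.injEq]
  exact ⟨by ring, trivial, trivial, by ring, by ring⟩

/-- the angle `2 π / 3`: the honeycomb lattice in the other position. -/
theorem yb_hex' : yb (2 * Real.pi / 3) =
    ⟨HexObs.xc ^ 2, HexObs.xc ^ 2, HexObs.xc, 0, HexObs.xc ^ 2⟩ := by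
  have h := yb_mirror (Real.pi / 3)
  rw [yb_hex, show Real.pi - Real.pi / 3 = 2 * Real.pi / 3 by ring] at h
  exact h

/-- the angle `π / 2`: the weights have the symmetry of the square. -/
theorem yb_sq : (yb (Real.pi / 2)).u1 = (yb (Real.pi / 2)).u2 ∧ (yb (Real.pi / 2)).w1 = (yb (Real.pi / 2)).w2 := by
  have h := yb_mirror (Real.pi / 2)
  rw [show Real.pi - Real.pi / 2 = Real.pi / 2 by ring] at h
  exact ⟨congrArg W5.u1 h, congrArg W5.w1 h⟩

theorem yb_pos {θ : ℝ} (h1 : 0 < θ) (h2 : θ < Real.pi) :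
    0 < (yb θ).v ∧ 0 < (yb θ).u1 ∧ 0 < (yb θ).u2 := by
  have a := wR_v_pos (u := 3 * θ / 8) (by linarith) (by linarith)
  have b := wR_u1_pos (u := 3 * θ / 8) (by linarith) (by linarith)
  have c := wR_u2_pos (u := 3 * θ / 8) (by linarith) (by linarith)
  exact ⟨a, b, c⟩

end Pool.Agent.YBC
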