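import Pool.Agent.YBC.Def4

/-!
# The Yang–Baxter weights with the angle `θ`
-/

set_option autoImplicit false

namespace Pool.Agent.YBC

/-- The common denominator. -/
noncomputable def den (θ : ℝ) : ℝ := Real.sin (3 * θ / 8 + Real.pi / 4) * Real.sin (3 * θ / 8 + 3 * Real.pi / 8)

/-- **The critical Yang–Baxter weights** (Nienhuis, Glazman–Manolescu) of a rhombus whose corners south-west and
north-east have the angle `θ`. -/
noncomputable def yb (θ : ℝ) : W5 ℝ where
  v := Real.sin (3 * θ / 8) * Real.sin (3 * Real.pi / 8 - 3 * θ / 8) / den θ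
  u1 := Real.sin (Real.pi / 4) * Real.sin (3 * Real.pi / 8 - 3 * θ / 8) / den θ
  u2 := Real.sin (Real.pi / 4) * Real.sin (3 * θ / 8) / den θ
  w1 := Real.sin (Real.pi / 4 - 3 * θ / 8) * Real.sin (3 * Real.pi / 8 - 3 * θ / 8) / den θ
  w2 := Real.sin (3 * θ / 8) * Real.sin (3 * θ / 8 - Real.pi / 8) / den θ

end Pool.Agent.YBC
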