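import Pool.Agent.YBC.Expl1

/-!
# The exploration theorem for the network of the crossings

The network without the two edges of the half edges `a`, `b`, evaluated at the empty state on the arc of `a` and `b`,
is the sum over the walks which enter through `a` and leave through `b`.
-/

set_option autoImplicit false

namespace Pool.Agent.YBC

open Pool.Agent.EXL Pool.Agent.EXL.Pat
open Pool.Agent.EXL.Net (Op cupO Co cupO_apply Co_apply cupO_comm cupO_Co_comm Co_comm cupO_symm Co_symm)
open Pool.Agent.UNI (Cell fin4)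

variable {N : ℕ} {K : Type*} [CommRing K]

/-! ### directions and half edges -/

/-- The number of a direction. -/
def Dir.i : Dir → Fin 4
  | .E => 0
  | .N => 1
  | .W => 2
  | .S => 3

/-- The direction of a number. -/
def dr (a : Fin 4) : Dir := if a = 0 then .E else if a = 1 then .N else if a = 2 then .W else .S

theorem dr_i (d : Dir) : dr d.i = d := by cases d <;> rfl

theorem i_dr (a : Fin 4) : (dr a).i = a := by
  rcases fin4 a with rfl | rfl | rfl | rfl <;> rfl

theorem dr_inj {a b : Fin 4} (h : dr a = dr b) : a = b := by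
  rw [← i_dr a, h, i_dr]

/-- directions and numbers. -/
def dE : Fin 4 ≃ Dir := ⟨dr, Dir.i, i_dr, dr_i⟩

theorem op_op (d : Dir) : d.op.op = d := by cases d <;> rfl

theorem op_ne (d : Dir) : d.op ≠ d := by cases d <;> decide

theorem nx_nx (v : Vx N) (d : Dir) : nx (nx v d) d.op = v := by
  cases d <;> simp [nx, Dir.op]

theorem rv_rv (h : He N) : rv (rv h) = h := by
  unfold rv
  exact Prod.ext (nx_nx _ _) (op_op _)

theorem rv_ne (h : He N) : rv h ≠ h := fun e => op_ne h.2 (congrArg Prod.snd e)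

theorem rv_inj {h k : He N} (e : rv h = rv k) : h = k := by rw [← rv_rv h, e, rv_rv]

/-- The half edges of a vertex. -/
def hl (v : Vx N) (i : Fin 4) : He N := (v, dr i)

theorem hl_inj (v : Vx N) : Function.Injective (hl v) := fun _ _ h => dr_inj (congrArg Prod.snd h)

theorem hl_ne {v w : Vx N} (h : v ≠ w) (a b : Fin 4) : hl v a ≠ hl w b :=
  fun e => h (congrArg Prod.fst e)

theorem hl_i (h : He N) : hl h.1 h.2.i = h := Prod.ext rfl (dr_i _)

theorem hl_eq {v : Vx N} {a : Fin 4} {h : He N} (e : hl v a = h) : v = h.1 ∧ a = h.2.i := by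
  subst e
  exact ⟨rfl, (i_dr a).symm⟩

/-- The cell of the weights. -/
def ofW (w : W5 K) : Cell K := ⟨1, w.u1, w.v, w.u2, w.u2, w.v, w.u1, w.w1, w.w2⟩

theorem Vt_eq (w : W5 K) (v : Vx N) : (Vt w v : Op (He N) K) = Fc (ofW w) (hl v) := by
  have e0 : (hl v 0 : He N) = (v, .E) := rfl
  have e1 : (hl v 1 : He N) = (v, .N) := rfl
  have e2 : (hl v 2 : He N) = (v, .W) := rfl
  have e3 : (hl v 3 : He N) = (v, .S) := rfl
  have c1 : Commute (cupO (v, Dir.S) (v, Dir.W) : Op (He N) K) (cupO (v, .E) (v, .N)) := by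
    apply cupO_comm <;> simp
  have c2 : Commute (cupO (v, Dir.S) (v, Dir.E) : Op (He N) K) (cupO (v, .N) (v, .W)) := by
    apply cupO_comm <;> simp
  unfold Vt Vt4 Fc ofW
  rw [e0, e1, e2, e3, c1.eq, c2.eq]
  simp only
  rw [cupO_symm (v, Dir.S) (v, Dir.W), cupO_symm (v, Dir.E) (v, Dir.S), one_smul, smul_add, smul_add, smul_add]
  abel

/-! ### products -/

/-- All vertices of `A`. -/
noncomputable def FA (σ : Vx N → Cell K) (A : Finset (Vx N)) : Op (He N) K :=
  A.noncommProd (fun v => Fc (σ v) (hl v)) (fun _ _ _ _ h => Fc_comm (hl_ne h))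

theorem FA_insert (σ : Vx N → Cell K) {A : Finset (Vx N)} {v : Vx N} (hv : v ∉ A) :
    (FA σ (insert v A) : Op (He N) K) = Fc (σ v) (hl v) * FA σ A :=
  Finset.noncommProd_insert_of_notMem _ _ _ _ hv

theorem FA_erase (σ : Vx N → Cell K) {A : Finset (Vx N)} {v : Vx N} (hv : v ∈ A) :
    (FA σ A : Op (He N) K) = Fc (σ v) (hl v) * FA σ (A.erase v) :=
  (Finset.mul_noncommProd_erase A hv _ _).symm

theorem FA_congr {σ τ : Vx N → Cell K} {A : Finset (Vx N)} (h : ∀ v ∈ A, σ v = τ v) :
    (FA σ A : Op (He N) K) = FA τ A :=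
  Finset.noncommProd_congr rfl (fun v hv => by rw [h v hv]) _

theorem FA_empty (σ : Vx N → Cell K) : (FA σ ∅ : Op (He N) K) = 1 :=
  Finset.noncommProd_empty _ _

theorem FA_zero {σ : Vx N → Cell K} {A : Finset (Vx N)} {v : Vx N} (hv : v ∈ A) (h : σ v = 0) :
    (FA σ A : Op (He N) K) = 0 := by
  rw [FA_erase σ hv, h, Fc_zero, zero_mul]

theorem CoE_comm {h k : He N} (h1 : h ≠ k) (h2 : rv h ≠ k) :
    Commute (CoE K h : Op (He N) K) (CoE K k) := by
  have h3 : h ≠ rv k := fun e => h2 (by rw [e, rv_rv])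
  have h4 : rv h ≠ rv k := fun e => h1 (rv_inj e)
  exact Co_comm h1 h3 h2 h4

/-- One half edge of every edge. -/
def EE (E : Finset (He N)) : Prop := ∀ h ∈ E, rv h ∉ E

/-- The contraction of the edges `E`. -/
noncomputable def CE (K : Type*) [CommRing K] (E : Finset (He N)) (hE : EE E) : Op (He N) K :=
  E.noncommProd (CoE K) (fun h hh k hk e => CoE_comm e (fun e' => hE h hh (by rw [e']; exact hk)))

theorem EE.sub {E E' : Finset (He N)} (hE : EE E) (h : E' ⊆ E) : EE E' :=
  fun k hk h' => hE k (h hk) (h h')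

/-- The edges without the one of `p`. -/
def er (E : Finset (He N)) (p : He N) : Finset (He N) := (E.erase p).erase (rv p)

theorem er_sub (E : Finset (He N)) (p : He N) : er E p ⊆ E :=
  (Finset.erase_subset _ _).trans (Finset.erase_subset _ _)

theorem mem_er {E : Finset (He N)} {p k : He N} : k ∈ er E p ↔ k ≠ rv p ∧ k ≠ p ∧ k ∈ E := by
  unfold er
  rw [Finset.mem_erase, Finset.mem_erase]

theorem er_left {E : Finset (He N)} (hE : EE E) {p : He N} (hp : p ∈ E) : er E p = E.erase p := by
  unfold er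
  rw [Finset.erase_eq_of_notMem]
  intro h
  exact hE p hp (Finset.mem_of_mem_erase h)

theorem er_right {E : Finset (He N)} (hE : EE E) {p : He N} (hp : rv p ∈ E) :
    er E p = E.erase (rv p) := by
  unfold er
  rw [Finset.erase_right_comm, Finset.erase_eq_of_notMem]
  intro h
  apply hE _ hp
  rw [rv_rv]
  exact Finset.mem_of_mem_erase h

theorem er_card {E : Finset (He N)} (hE : EE E) {p : He N} (hp : p ∈ E ∨ rv p ∈ E) :
    (er E p).card + 1 = E.card := by
  rcases hp with hp | hp
  · rw [er_left hE hp, Finset.card_erase_add_one hp]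
  · rw [er_right hE hp, Finset.card_erase_add_one hp]

theorem CE_pull {E : Finset (He N)} (hE : EE E) {p : He N} (hp : p ∈ E) {E' : Finset (He N)}
    (hE' : EE E') (e : E' = E.erase p) : (CE K E hE : Op (He N) K) = CoE K p * CE K E' hE' := by
  subst e
  exact (Finset.mul_noncommProd_erase E hp _ _).symm

theorem CE_er {E : Finset (He N)} (hE : EE E) {p : He N} (hp : p ∈ E ∨ rv p ∈ E) :
    (CE K E hE : Op (He N) K) = Co p (rv p) * CE K (er E p) (hE.sub (er_sub E p)) := by
  rcases hp with hp | hp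
  · exact CE_pull hE hp _ (er_left hE hp)
  · rw [CE_pull hE hp (hE.sub (er_sub E p)) (er_right hE hp)]
    unfold CoE
    rw [rv_rv, Co_symm]

/-! ### the invariant classes -/

theorem vn_CE {E : Finset (He N)} (hE : EE E) {a b : He N}
    (nE : ∀ k ∈ E, k ≠ a ∧ k ≠ b ∧ rv k ≠ a ∧ rv k ≠ b) {F : Pat (He N) → K} (hF : Vn a b F) :
    Vn a b (CE K E hE F) ∧ CE K E hE F (sa a b) = F (sa a b) := by
  refine Finset.noncommProd_induction E _ _
    (fun B : Op (He N) K => ∀ F, Vn a b F → Vn a b (B F) ∧ B F (sa a b) = F (sa a b))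
    (fun x y hx hy F hF => ?_) (fun F hF => ⟨hF, rfl⟩) (fun k hk F hF => ?_) F hF
  · obtain ⟨h1, h2⟩ := hy F hF
    obtain ⟨h3, h4⟩ := hx _ h1
    exact ⟨h3, h4.trans h2⟩
  · obtain ⟨n1, n2, n3, n4⟩ := nE k hk
    exact vn_Co (rv_ne k).symm n1 n2 n3 n4 hF

theorem vn_FA (σ : Vx N → Cell K) (A : Finset (Vx N)) {a b : He N} (hab : a ≠ b)
    {F : Pat (He N) → K} (hF : Vn a b F) :
    Vn a b (FA σ A F) ∧ FA σ A F (sa a b) = (∏ v ∈ A, (σ v).e) * F (sa a b) := by
  classical
  induction A using Finset.induction_on with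
  | empty =>
    rw [FA_empty]
    exact ⟨hF, by simp⟩
  | insert v A hv ih =>
    rw [FA_insert σ hv, Finset.prod_insert hv]
    refine ⟨vn_Fc _ (hl_inj v) hab ih.1, ?_⟩
    have h1 : (Fc (σ v) (hl v) * FA σ A : Op (He N) K) F (sa a b) = (σ v).e * FA σ A F (sa a b) :=
      Fc_joined _ (hl_inj v) hab ih.1 sa_z
    rw [h1, ih.2]
    ring

theorem oc_CE {E : Finset (He N)} (hE : EE E) {x : He N} (h1 : x ∉ E) (h2 : rv x ∉ E)
    {F : Pat (He N) → K} (hF : Oc x F) : Oc x (CE K E hE F) := by
  refine Finset.noncommProd_induction E _ _ (fun B : Op (He N) K => ∀ F, Oc x F → Oc x (B F))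
    (fun _ _ hx hy F hF => hx _ (hy F hF)) (fun F hF => hF) (fun k hk F hF => ?_) F hF
  refine oc_Co (fun e => h1 (by rw [← e]; exact hk)) (fun e => h2 ?_) hF
  rw [← e, rv_rv]
  exact hk

theorem oc_FA (σ : Vx N → Cell K) (A : Finset (Vx N)) {x : He N} {F : Pat (He N) → K}
    (hF : Oc x F) : Oc x (FA σ A F) :=
  Finset.noncommProd_induction A _ _ (fun B : Op (He N) K => ∀ F, Oc x F → Oc x (B F))
    (fun _ _ hx hy F hF => hx _ (hy F hF)) (fun F hF => hF) (fun v _ F hF => oc_Fc _ _ hF) F hF

theorem fr_CE {E : Finset (He N)} (hE : EE E) {x : He N} (h : ∀ k ∈ E, k ≠ x ∧ rv k ≠ x)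
    {F : Pat (He N) → K} (hF : Fr x F) : Fr x (CE K E hE F) :=
  Finset.noncommProd_induction E _ _ (fun B : Op (He N) K => ∀ F, Fr x F → Fr x (B F))
    (fun _ _ hx hy F hF => hx _ (hy F hF)) (fun F hF => hF)
    (fun k hk F hF => fr_Co (h k hk).1 (h k hk).2 hF) F hF

theorem fr_FA (σ : Vx N → Cell K) (A : Finset (Vx N)) {x : He N} (h : x.1 ∉ A)
    {F : Pat (He N) → K} (hF : Fr x F) : Fr x (FA σ A F) :=
  Finset.noncommProd_induction A _ _ (fun B : Op (He N) K => ∀ F, Fr x F → Fr x (B F))
    (fun _ _ hx hy F hF => hx _ (hy F hF)) (fun F hF => hF)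
    (fun v hv F hF => fr_Fc _ (fun i e => h (by rw [← (hl_eq e).1]; exact hv)) hF) F hF

theorem vn_ind (a b : He N) : Vn a b (HS.ind (sa a b) : Pat (He N) → K) :=
  fun _ _ h2 => HS.ind_ne h2

theorem oc_ind {a b x : He N} (h1 : x ≠ a) (h2 : x ≠ b) :
    Oc x (HS.ind (sa a b) : Pat (He N) → K) := by
  intro q hq
  apply HS.ind_ne
  rintro rfl
  exact hq (sa_o h1 h2)

theorem fr_ind {a b : He N} (hab : a ≠ b) : Fr a (HS.ind (sa a b) : Pat (He N) → K) := by
  intro q hq
  apply HS.ind_ne
  rintro rfl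
  rw [sa_z] at hq
  exact hab hq.symm

/-! ### the sum in the order of the exploration -/

/-- The histories after the passage from the half edge `x` to the side `d` of the same vertex. -/
def up (σ : Vx N → Cell K) (x : He N) (d : Dir) : Vx N → Cell K :=
  Function.update σ x.1 ((σ x.1).res x.2.i d.i)

theorem up_self (σ : Vx N → Cell K) (x : He N) (d : Dir) : up σ x d x.1 = (σ x.1).res x.2.i d.i :=
  Function.update_self _ _ _

theorem up_ne (σ : Vx N → Cell K) (x : He N) (d : Dir) {v : Vx N} (h : v ≠ x.1) :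
    up σ x d v = σ v := Function.update_of_ne h _ _

theorem up_off {σ : Vx N → Cell K} {v : Vx N} {i : Fin 4} (h : (σ v).Off i) (x : He N) (d : Dir) :
    (up σ x d v).Off i := by
  by_cases e : v = x.1
  · subst e
    rw [up_self]
    exact UNI.Cell.off_res h _ _
  · rw [up_ne σ x d e]
    exact h

theorem up_zero {σ : Vx N → Cell K} {v : Vx N} (h : σ v = 0) (x : He N) (d : Dir) :
    up σ x d v = 0 := by
  by_cases e : v = x.1
  · subst e
    rw [up_self, h, UNI.Cell.zero_res]
  · rw [up_ne σ x d e, h]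

open scoped Classical in
/-- The total weight of the continuations which enter through the half edge `x` and end through `b`, with at most `n`
passages. -/
noncomputable def Wr (A : Finset (Vx N)) (b : He N) : ℕ → (Vx N → Cell K) → He N → K
  | 0, _, _ => 0
  | n + 1, σ, x => if x.1 ∈ A then ∑ d : Dir, ((if (x.1, d) = b then ∏ u ∈ A, (up σ x d u).e else 0) +
      Wr A b n (up σ x d) (rv (x.1, d))) else 0

section Wr

variable {A : Finset (Vx N)} {b : He N}

theorem Wr_notMem {x : He N} (h : x.1 ∉ A) (n : ℕ) (σ : Vx N → Cell K) : Wr A b n σ x = 0 := by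
  cases n with
  | zero => rfl
  | succ n => rw [Wr, if_neg h]

theorem prod_zero {σ : Vx N → Cell K} {v : Vx N} (hv : v ∈ A) (h : σ v = 0) :
    ∏ u ∈ A, (σ u).e = 0 := Finset.prod_eq_zero hv (by rw [h]; rfl)

theorem Wr_zero_cell {v : Vx N} (hv : v ∈ A) : ∀ (n : ℕ) (σ : Vx N → Cell K) (x : He N),
    σ v = 0 → Wr A b n σ x = 0
  | 0, _, _, _ => rfl
  | n + 1, σ, x, h => by
    rw [Wr]
    split_ifs with hx
    · refine Finset.sum_eq_zero fun d _ => ?_
      rw [prod_zero hv (up_zero h x d), Wr_zero_cell hv n _ _ (up_zero h x d), ite_self, add_zero]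
    · rfl

theorem Wr_off {x : He N} {σ : Vx N → Cell K} (h : (σ x.1).Off x.2.i) (n : ℕ) :
    Wr A b n σ x = 0 := by
  by_cases hx : x.1 ∈ A
  · cases n with
    | zero => rfl
    | succ n =>
      rw [Wr, if_pos hx]
      refine Finset.sum_eq_zero fun d _ => ?_
      have h0 : up σ x d x.1 = 0 := by rw [up_self, res_of_off_left h]
      rw [prod_zero hx h0, Wr_zero_cell hx n _ _ h0, ite_self, add_zero]
  · exact Wr_notMem hx n σ

theorem Wr_offb (hb : b.1 ∈ A) : ∀ (n : ℕ) (σ : Vx N → Cell K) (x : He N),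
    (σ b.1).Off b.2.i → Wr A b n σ x = 0
  | 0, _, _, _ => rfl
  | n + 1, σ, x, h => by
    rw [Wr]
    split_ifs with hx
    · refine Finset.sum_eq_zero fun d _ => ?_
      rw [Wr_offb hb n _ _ (up_off h x d), add_zero]
      split_ifs with e
      · apply prod_zero hb
        subst e
        rw [up_self]
        exact UNI.Cell.res_of_off h
      · rfl
    · rfl

theorem Wr_b (hb : b.1 ∈ A) (n : ℕ) (σ : Vx N → Cell K) : Wr A b n σ b = 0 := by
  cases n with
  | zero => rfl
  | succ n =>
    rw [Wr, if_pos hb]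
    refine Finset.sum_eq_zero fun d _ => ?_
    have h0 : (up σ b d b.1).Off b.2.i := by
      rw [up_self]
      exact UNI.Cell.res_off_left _ _
    rw [Wr_offb hb n _ _ h0, add_zero]
    split_ifs with e
    · apply prod_zero hb
      have e2 : d = b.2 := congrArg Prod.snd e
      rw [up_self, e2, UNI.Cell.res_self]
    · rfl

end Wr

/-! ### the exploration -/

open scoped Classical in
/-- The sum over the first vertex. -/
theorem sum_step {A : Finset (Vx N)} (σ : Vx N → Cell K) {E : Finset (He N)} (hE : EE E) (x : He N)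
    (hx : x.1 ∈ A) (z : He N) (F : Pat (He N) → K) :
    ∑ i, Fc ((σ x.1).res x.2.i i) (hl x.1) (FA σ (A.erase x.1) (CE K E hE F)) (sa z (hl x.1 i)) =
      ∑ d : Dir, FA (up σ x d) A (CE K E hE F) (sa z (x.1, d)) := by
  rw [← Equiv.sum_comp dE]
  refine Finset.sum_congr rfl fun i _ => ?_
  have e1 : (FA (up σ x (dE i)) A : Op (He N) K) =
      Fc ((σ x.1).res x.2.i i) (hl x.1) * FA σ (A.erase x.1) := by
    rw [FA_erase _ hx, up_self]
    have : (dE i).i = i := i_dr i
    rw [this]
    congr 1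
    exact FA_congr fun u hu => up_ne _ _ _ (Finset.ne_of_mem_erase hu)
  rw [e1, Module.End.mul_apply]
  rfl

open scoped Classical in
theorem main {A : Finset (Vx N)} {a b : He N} (hb : b.1 ∈ A) (hab : a ≠ b) : ∀ (n : ℕ)
    (σ : Vx N → Cell K) (E : Finset (He N)) (hE : EE E) (h : He N), E.card ≤ n → h.1 ∈ A →
    (σ h.1).Off h.2.i → (σ a.1).Off a.2.i → h ≠ a →
    (∀ k ∈ E, k.1 ∈ A ∧ (rv k).1 ∈ A) → (∀ k ∈ E, k ≠ a ∧ k ≠ b ∧ rv k ≠ a ∧ rv k ≠ b) →
    (∀ k : He N, k.1 ∈ A → (rv k).1 ∈ A → k ∈ E ∨ rv k ∈ E ∨ k = a ∨ k = rv a ∨ k = b ∨ k = rv b ∨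
      ((σ k.1).Off k.2.i ∧ (σ (rv k).1).Off (rv k).2.i)) →
    FA σ A (CE K E hE (HS.ind (sa a b))) (sa a h) =
      (if h = b then ∏ u ∈ A, (σ u).e else 0) + Wr A b n σ (rv h) := by
  intro n
  induction n with
  | zero =>
    intro σ E hE h hn h1 hoff aoff ha memE nE hall
    by_cases hhb : h = b
    · subst hhb
      rw [if_pos rfl]
      have k1 := vn_CE hE nE (vn_ind (K := K) a h)
      rw [(vn_FA σ A hab k1.1).2, k1.2, HS.ind_self, mul_one]
      simp [Wr]
    · rw [if_neg hhb]
      have hE0 : E = ∅ := Finset.card_eq_zero.1 (by omega)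
      have e1 : h ∉ E := by rw [hE0]; exact Finset.notMem_empty _
      have e2 : rv h ∉ E := by rw [hE0]; exact Finset.notMem_empty _
      rw [oc_FA σ A (oc_CE hE e1 e2 (oc_ind ha hhb)) (sa a h) (by rw [sa_p]; exact ha.symm)]
      simp [Wr]
  | succ n ih =>
    intro σ E hE h hn h1 hoff aoff ha memE nE hall
    by_cases hhb : h = b
    · subst hhb
      rw [if_pos rfl, Wr_offb hb _ _ _ hoff, add_zero]
      have k1 := vn_CE hE nE (vn_ind (K := K) a h)
      rw [(vn_FA σ A hab k1.1).2, k1.2, HS.ind_self, mul_one]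
    · rw [if_neg hhb, zero_add]
      by_cases he : h ∈ E ∨ rv h ∈ E
      · have hw : (rv h).1 ∈ A := by
          rcases he with he | he
          · exact (memE h he).2
          · exact (memE _ he).1
        have hra : rv h ≠ a := by
          rcases he with he | he
          · exact (nE h he).2.2.1
          · exact (nE _ he).1
        rw [Wr, if_pos hw]
        -- the operator
        have c1 : Commute (Co h (rv h) : Op (He N) K) (FA σ (A.erase (rv h).1)) := by
          refine Finset.noncommProd_commute _ _ _ _ (fun u hu => ?_)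
          refine (Fc_Co_comm (fun i e => ?_) (fun i e => ?_)).symm
          · obtain ⟨e1, e2⟩ := hl_eq e
            rw [e1, e2]
            exact hoff
          · exact absurd (hl_eq e).1 (Finset.ne_of_mem_erase hu)
        have e1 : FA σ A (CE K E hE (HS.ind (sa a b))) =
            Fc (σ (rv h).1) (hl (rv h).1) (Co h (hl (rv h).1 (rv h).2.i) (FA σ (A.erase (rv h).1)
              (CE K (er E h) (hE.sub (er_sub E h)) (HS.ind (sa a b))))) := by
          rw [hl_i, FA_erase σ hw, CE_er hE he]
          have c2 := congrArg (fun X : Op (He N) K =>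
            X (CE K (er E h) (hE.sub (er_sub E h)) (HS.ind (sa a b)))) c1.eq
          simp only [Module.End.mul_apply] at c2 ⊢
          rw [c2]
        rw [e1, step_Fc (hl_inj _) ha.symm (fun i e => ?_) (fun i e => ?_) (by rw [hl_i]; exact hra)
          (by rw [hl_i]; exact rv_ne h), sum_step σ _ (rv h) hw]
        · refine Finset.sum_congr rfl fun d _ => ?_
          by_cases hz : (σ (rv h).1).res (rv h).2.i d.i = 0
          · have h0 : up σ (rv h) d (rv h).1 = 0 := by rw [up_self, hz]
            rw [FA_zero hw h0, prod_zero hw h0, Wr_zero_cell hw _ _ _ h0, ite_self, add_zero]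
            rfl
          · have hoffd : ¬ (σ (rv h).1).Off d.i := fun o => hz (UNI.Cell.res_of_off o)
            refine ih (up σ (rv h) d) (er E h) _ ((rv h).1, d) ?_ hw ?_ ?_ ?_ ?_ ?_ ?_
            · have := er_card hE he
              omega
            · rw [up_self]
              exact UNI.Cell.res_off_right _ _
            · exact up_off aoff _ _
            · rintro rfl
              exact hoffd aoff
            · exact fun k hk => memE k (er_sub E h hk)
            · exact fun k hk => nE k (er_sub E h hk)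
            · intro k k1 k2
              -- the edge of `h`
              have used : ∀ k, k = h ∨ k = rv h →
                  (up σ (rv h) d k.1).Off k.2.i := by
                rintro k (rfl | rfl)
                · exact up_off hoff _ _
                · rw [up_self]
                  exact UNI.Cell.res_off_left _ _
              by_cases c : k = h ∨ k = rv h
              · refine Or.inr (Or.inr (Or.inr (Or.inr (Or.inr (Or.inr ⟨used k c, used (rv k) ?_⟩)))))
                rcases c with rfl | rfl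
                · exact Or.inr rfl
                · exact Or.inl (rv_rv h)
              · rw [not_or] at c
                rcases hall k k1 k2 with q | q | q | q | q | q | ⟨q1, q2⟩
                · exact Or.inl (mem_er.2 ⟨c.2, c.1, q⟩)
                · refine Or.inr (Or.inl (mem_er.2 ⟨fun e => c.1 (rv_inj e), fun e => c.2 ?_, q⟩))
                  rw [← e, rv_rv]
                · exact Or.inr (Or.inr (Or.inl q))
                · exact Or.inr (Or.inr (Or.inr (Or.inl q)))
                · exact Or.inr (Or.inr (Or.inr (Or.inr (Or.inl q))))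
                · exact Or.inr (Or.inr (Or.inr (Or.inr (Or.inr (Or.inl q)))))
                · exact Or.inr (Or.inr (Or.inr (Or.inr (Or.inr (Or.inr
                    ⟨up_off q1 _ _, up_off q2 _ _⟩)))))
        · obtain ⟨e2, e3⟩ := hl_eq e
          rw [e2, e3]
          exact aoff
        · obtain ⟨e2, e3⟩ := hl_eq e
          rw [e2, e3]
          exact hoff
      · rw [not_or] at he
        rw [oc_FA σ A (oc_CE hE he.1 he.2 (oc_ind ha hhb)) (sa a h) (by rw [sa_p]; exact ha.symm)]
        symm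
        by_cases hw : (rv h).1 ∈ A
        · rcases hall h h1 hw with q | q | q | q | q | q | ⟨-, q⟩
          · exact absurd q he.1
          · exact absurd q he.2
          · exact absurd q ha
          · rw [q, rv_rv]
            exact Wr_off aoff _
          · exact absurd q hhb
          · rw [q, rv_rv]
            exact Wr_b hb _ _
          · exact Wr_off q _
        · exact Wr_notMem hw _ _

/-- The first step. -/
theorem expl_first {A : Finset (Vx N)} {a b : He N} (hA : a.1 ∈ A) (hb : b.1 ∈ A) (hab : a ≠ b)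
    (σ : Vx N → Cell K) {E : Finset (He N)} (hE : EE E) {n : ℕ} (hn : E.card ≤ n)
    (memE : ∀ k ∈ E, k.1 ∈ A ∧ (rv k).1 ∈ A) (nE : ∀ k ∈ E, k ≠ a ∧ k ≠ b ∧ rv k ≠ a ∧ rv k ≠ b)
    (hall : ∀ k : He N, k.1 ∈ A → (rv k).1 ∈ A →
      k ∈ E ∨ rv k ∈ E ∨ k = a ∨ k = rv a ∨ k = b ∨ k = rv b) :
    FA σ A (CE K E hE (HS.ind (sa a b))) Pat.empty = Wr A b (n + 1) σ a := by
  classical
  rw [Wr, if_pos hA]
  have e1 : FA σ A (CE K E hE (HS.ind (sa a b))) =
      Fc (σ a.1) (hl a.1) (FA σ (A.erase a.1) (CE K E hE (HS.ind (sa a b)))) := by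
    rw [FA_erase σ hA]
    rfl
  have hG : ∀ q : Pat (He N), q (hl a.1 a.2.i) = hl a.1 a.2.i →
      FA σ (A.erase a.1) (CE K E hE (HS.ind (sa a b))) q = 0 := by
    rw [hl_i]
    exact fr_FA σ _ (Finset.notMem_erase _ _) (fr_CE hE (fun k hk => ⟨(nE k hk).1, (nE k hk).2.2.1⟩)
      (fr_ind hab))
  rw [e1, first_Fc (hl_inj _) (a := a.2.i) hG, hl_i, sum_step σ hE a hA]
  refine Finset.sum_congr rfl fun d _ => ?_
  by_cases hz : (σ a.1).res a.2.i d.i = 0
  · have h0 : up σ a d a.1 = 0 := by rw [up_self, hz]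
    rw [FA_zero hA h0, prod_zero hA h0, Wr_zero_cell hA _ _ _ h0, ite_self, add_zero]
    rfl
  · refine main hb hab n (up σ a d) E hE (a.1, d) hn hA ?_ ?_ ?_ memE nE ?_
    · rw [up_self]
      exact UNI.Cell.res_off_right _ _
    · rw [up_self]
      exact UNI.Cell.res_off_left _ _
    · intro e
      have e2 : d = a.2 := congrArg Prod.snd e
      exact hz (by rw [e2, UNI.Cell.res_self])
    · intro k k1 k2
      rcases hall k k1 k2 with q | q | q | q | q | q
      · exact Or.inl q
      · exact Or.inr (Or.inl q)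
      · exact Or.inr (Or.inr (Or.inl q))
      · exact Or.inr (Or.inr (Or.inr (Or.inl q)))
      · exact Or.inr (Or.inr (Or.inr (Or.inr (Or.inl q))))
      · exact Or.inr (Or.inr (Or.inr (Or.inr (Or.inr (Or.inl q)))))

/-! ### words -/

/-- The weight of a cell with a list of passages. -/
def pwD : Cell K → List (Dir × Dir) → K
  | c, [] => c.e
  | c, x :: l => pwD (c.res x.1.i x.2.i) l

theorem pwD_zero : ∀ l : List (Dir × Dir), pwD (0 : Cell K) l = 0
  | [] => rfl
  | x :: l => by rw [pwD, UNI.Cell.zero_res]; exact pwD_zero l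

theorem pwD_ofW (w : W5 K) : ∀ l : List (Dir × Dir), pwD (ofW w) l = w.lw l
  | [] => rfl
  | [x] => by
    obtain ⟨a, b⟩ := x
    cases a <;> cases b <;> rfl
  | [x, y] => by
    obtain ⟨a, b⟩ := x
    obtain ⟨c, d⟩ := y
    show (((ofW w).res a.i b.i).res c.i d.i).e = w.two a b c d
    cases a <;> cases b <;> cases c <;> cases d <;> rfl
  | x :: y :: z :: l => by
    have h1 : (((ofW w).res x.1.i x.2.i).res y.1.i y.2.i).Cap 0 :=
      UNI.Cell.res_cap (UNI.Cell.res_cap (UNI.Cell.cap_two _) _ _) _ _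
    rw [pwD, pwD, pwD, UNI.Cell.res_cap_zero h1, pwD_zero]
    rfl

theorem psAt_cons (x : Vx N × (Dir × Dir)) (l : List (Vx N × (Dir × Dir))) (v : Vx N) :
    psAt (x :: l) v = if x.1 = v then x.2 :: psAt l v else psAt l v := by
  unfold psAt
  by_cases h : x.1 = v
  · simp [h]
  · simp [h]

theorem sum_words_succ (n : ℕ) (f : List Dir → K) :
    ∑ t ∈ words (n + 1), f t = f [] + ∑ d : Dir, ∑ t ∈ words n, f (d :: t) := by
  have hd : Disjoint ({[]} : Finset (List Dir))
      ((Finset.univ ×ˢ words n).image fun x : Dir × List Dir => x.1 :: x.2) := by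
    rw [Finset.disjoint_left]
    intro t h1 h2
    rw [Finset.mem_singleton] at h1
    subst h1
    obtain ⟨x, -, hx⟩ := Finset.mem_image.1 h2
    exact absurd hx (by simp)
  rw [words, Finset.sum_union hd, Finset.sum_singleton, Finset.sum_image, Finset.sum_product]
  intro x _ y _ h
  obtain ⟨h1, h2⟩ := List.cons.inj h
  exact Prod.ext h1 h2

open scoped Classical in
theorem Wr_words (A : Finset (Vx N)) (b : He N) : ∀ (n : ℕ) (σ : Vx N → Cell K) (h : He N),
    (∑ t ∈ words n, if (∀ x ∈ pass h t, x.1 ∈ A) ∧ fin h t = b then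
      ∏ v ∈ A, pwD (σ v) (psAt (pass h t) v) else 0) =
      (if h = b then ∏ u ∈ A, (σ u).e else 0) + Wr A b n σ (rv h) := by
  have nil : ∀ (σ : Vx N → Cell K) (h : He N), (if (∀ x ∈ pass h [], x.1 ∈ A) ∧ fin h [] = b then
      ∏ v ∈ A, pwD (σ v) (psAt (pass h []) v) else 0) = if h = b then ∏ u ∈ A, (σ u).e else 0 := by
    intro σ h
    have e : ((∀ x ∈ pass h [], x.1 ∈ A) ∧ fin h [] = b) ↔ h = b := by
      simp [pass, fin]
    simp only [e]
    rfl
  intro n
  induction n with
  | zero =>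
    intro σ h
    rw [words, Finset.sum_singleton, nil]
    simp [Wr]
  | succ n ih =>
    intro σ h
    rw [sum_words_succ, nil, Wr]
    congr 1
    by_cases hw : (rv h).1 ∈ A
    · rw [if_pos hw]
      refine Finset.sum_congr rfl fun d _ => ?_
      rw [← ih]
      refine Finset.sum_congr rfl fun t _ => ?_
      have e : ((∀ x ∈ pass h (d :: t), x.1 ∈ A) ∧ fin h (d :: t) = b) ↔
          ((∀ x ∈ pass ((rv h).1, d) t, x.1 ∈ A) ∧ fin ((rv h).1, d) t = b) := by
        rw [pass, fin]
        simp [hw]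
      simp only [e]
      have e2 : ∏ v ∈ A, pwD (σ v) (psAt (pass h (d :: t)) v) =
          ∏ v ∈ A, pwD (up σ (rv h) d v) (psAt (pass ((rv h).1, d) t) v) := by
        refine Finset.prod_congr rfl fun v _ => ?_
        rw [pass, psAt_cons]
        by_cases hv : (rv h).1 = v
        · subst hv
          rw [if_pos rfl, up_self, pwD]
        · rw [if_neg hv, up_ne _ _ _ (Ne.symm hv)]
      rw [e2]
    · rw [if_neg hw]
      refine Finset.sum_eq_zero fun d _ => Finset.sum_eq_zero fun t _ => ?_
      rw [if_neg]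
      rintro ⟨h1, -⟩
      exact hw (h1 _ (by rw [pass]; exact List.mem_cons_self))

theorem FA_toFinset (σ : Vx N → Cell K) {LA : List (Vx N)} (h1 : LA.Nodup) :
    (FA σ LA.toFinset : Op (He N) K) = (LA.map fun v => Fc (σ v) (hl v)).prod :=
  Finset.noncommProd_toFinset _ _ _ h1

theorem CE_toFinset {LE : List (He N)} (h2 : LE.Nodup) (hE : EE LE.toFinset) :
    (CE K LE.toFinset hE : Op (He N) K) = (LE.map fun h => CoE K h).prod :=
  Finset.noncommProd_toFinset _ _ _ h2

theorem Nt_eq (w : Vx N → W5 K) {LA : List (Vx N)} {LE : List (He N)} (h1 : LA.Nodup)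
    (h2 : LE.Nodup) (hE : EE LE.toFinset) :
    Nt w LA LE = FA (fun v => ofW (w v)) LA.toFinset * CE K LE.toFinset hE := by
  rw [FA_toFinset _ h1, CE_toFinset h2 hE]
  unfold Nt
  congr 3
  funext v
  exact Vt_eq _ _

/-- **The exploration theorem.** -/
theorem expl (w : Vx N → W5 K) {LA : List (Vx N)} {LE : List (He N)} {a b : He N}
    (h : ExH LA LE a b) {n : ℕ} (hn : LE.length + 1 ≤ n) :
    Nt w LA LE (HS.ind (cup a b Pat.empty)) Pat.empty = Zw w LA.toFinset n (rv a) b := by
  classical
  have hE : EE LE.toFinset := fun k hk h' => h.rvE k (List.mem_toFinset.1 hk) (List.mem_toFinset.1 h')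
  rw [Nt_eq w h.ndA h.ndE hE]
  obtain ⟨m, rfl⟩ : ∃ m, n = m + 1 := ⟨n - 1, by omega⟩
  have hc : LE.toFinset.card ≤ m := by
    rw [List.toFinset_card_of_nodup h.ndE]
    omega
  have e1 := expl_first (K := K) (List.mem_toFinset.2 h.ha) (List.mem_toFinset.2 h.hb) h.hab
    (fun v => ofW (w v)) hE hc
    (fun k hk => by
      have := h.memE k (List.mem_toFinset.1 hk)
      exact ⟨List.mem_toFinset.2 this.1, List.mem_toFinset.2 this.2⟩)
    (fun k hk => h.nE k (List.mem_toFinset.1 hk))
    (fun k k1 k2 => by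
      simp only [List.mem_toFinset] at k1 k2 ⊢
      exact h.all k k1 k2)
  rw [Module.End.mul_apply]
  refine e1.trans ?_
  have e2 := Wr_words LA.toFinset b (m + 1) (fun v => ofW (w v)) (rv a)
  rw [if_neg h.hab', rv_rv, zero_add] at e2
  rw [← e2]
  unfold Zw
  rw [Finset.sum_filter]
  refine Finset.sum_congr rfl fun t _ => ?_
  simp only [pwD_ofW]

end Pool.Agent.YBC
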