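import Pool.Agent.YBC.Fin4
import Pool.Agent.YBC.Expl

/-!
# The rings of the line operators = the sum over the walks
-/

set_option autoImplicit false

namespace Pool.Agent.YBC

open Pool.Agent.EXL hiding cc
open Pool.Agent.EXL.Pat Pool.Agent.EXL.Net
open Pool.Agent.NUF.Cyl (UO PO PL PL_apply PL_cons seam UO_apply PO_apply Co_eq_glue)
open Pool.Agent.MXR (gS Rest Co_lft ind_lft lft_empty)
open Pool.Agent.NUN (fr Fr fr_inj Fr_move Fr_empty Xr Xl cc)
open Pool.Agent.NUNC (dd)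

variable {K : Type*} [CommRing K] {N : ℕ}

/-! ### the outer edges -/

/-- the states with empty labels outside. -/
def Qt (N m : ℕ) (q : Pat Lab) : Prop :=
  ∀ i : ℕ, i < N → q (lW m i) = lW m i ∧ q (lE (-(m : ℤ) - 1) i) = lE (-(m : ℤ) - 1) i

theorem ind_occ {x a b : Lab} (h1 : x ≠ a) (h2 : x ≠ b) {q : Pat Lab} (hq : q x ≠ x) :
    (HS.ind (cup a b Pat.empty) : Pat Lab → K) q = 0 := by
  rw [HS.ind_ne]
  rintro rfl
  apply hq
  show (if (Pat.empty : Pat Lab) a = a ∧ (Pat.empty : Pat Lab) b = b then _ else _) = x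
  split_ifs
  · rfl
  · rfl

theorem outer_one {m : ℕ} (hm : 1 ≤ m) {i j : ℤ} {e : ℤ × ℕ × Bool} (he : e.2.1 < N)
    (h0 : e.2.2 = false) (h1 : e.1 = -(m : ℤ) - 1 ∨ e.1 = (m : ℤ) - 1) {F : Pat Lab → K}
    (hF : ∀ q, Qt N m q → F q = HS.ind (cup (lW 0 i) (lW 0 j) Pat.empty) q) :
    ∀ q, Qt N m q → eo N K e F q = HS.ind (cup (lW 0 i) (lW 0 j) Pat.empty) q := by
  intro q hq
  obtain ⟨k, r, b⟩ := e
  simp only at he h0 h1
  subst h0
  unfold eo Eh
  simp only [Bool.false_eq_true, if_false]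
  rw [Co_apply]
  obtain ⟨q1, q2⟩ := hq r he
  rcases h1 with rfl | rfl
  · -- left
    by_cases c : q (lW (-(m : ℤ) - 1 + 1) r) = lW (-(m : ℤ) - 1 + 1) r
    · rw [if_pos ⟨q2, c⟩]
      exact hF q hq
    · rw [if_neg (fun h => c h.2), if_pos (Or.inl q2)]
      refine (ind_occ ?_ ?_ c).symm
      · simp only [Ne, lW_inj]
        omega
      · simp only [Ne, lW_inj]
        omega
  · -- right
    have e1 : (m : ℤ) - 1 + 1 = m := by ring
    rw [e1]
    by_cases c : q (lE ((m : ℤ) - 1) r) = lE ((m : ℤ) - 1) r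
    · rw [if_pos ⟨c, q1⟩]
      exact hF q hq
    · rw [if_neg (fun h => c h.1), if_pos (Or.inr (Or.inl q1))]
      exact (ind_occ (by simp) (by simp) c).symm

theorem outer_list {m : ℕ} (hm : 1 ≤ m) {i j : ℤ} {L : List (ℤ × ℕ × Bool)}
    (hL : ∀ e ∈ L, e.2.1 < N ∧ e.2.2 = false ∧ (e.1 = -(m : ℤ) - 1 ∨ e.1 = (m : ℤ) - 1)) :
    ∀ q, Qt N m q → ((L.map (eo N K)).prod) (HS.ind (cup (lW 0 i) (lW 0 j) Pat.empty)) q =
      HS.ind (cup (lW 0 i) (lW 0 j) Pat.empty) q := by
  induction L with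
  | nil => intro q _; rfl
  | cons e L ih =>
    intro q hq
    rw [List.map_cons, List.prod_cons, Module.End.mul_apply]
    obtain ⟨h1, h2, h3⟩ := hL e (by simp)
    exact outer_one hm h1 h2 h3 (ih fun e he => hL e (by simp [he])) q hq

/-- the outside labels. -/
noncomputable def YL (N m : ℕ) : List Lab :=
  (List.range N).map (fun i : ℕ => lW m i) ++ (List.range N).map (fun i : ℕ => lE (-(m : ℤ) - 1) i)

theorem PL_if (L : List Lab) (F : Pat Lab → K) (q : Pat Lab) (h : ¬ ∀ a ∈ L, q a = a) : PL K L F q = 0 := by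
  induction L with
  | nil => exact (h (by simp)).elim
  | cons a L ih =>
    rw [PL_cons, Module.End.mul_apply, PO_apply]
    by_cases c : q a = a
    · rw [if_pos c]
      apply ih
      intro h'
      apply h
      intro b hb
      rcases List.mem_cons.1 hb with rfl | hb
      · exact c
      · exact h' b hb
    · rw [if_neg c]

theorem qt_YL {m : ℕ} {q : Pat Lab} (h : ∀ a ∈ YL N m, q a = a) : Qt N m q := by
  intro i hi
  constructor
  · apply h
    unfold YL
    exact List.mem_append.2 (Or.inl (List.mem_map.2 ⟨i, List.mem_range.2 hi, rfl⟩))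
  · apply h
    unfold YL
    exact List.mem_append.2 (Or.inr (List.mem_map.2 ⟨i, List.mem_range.2 hi, rfl⟩))

theorem loc_PL {S : Set Lab} {L : List Lab} (h : ∀ a ∈ L, a ∈ S) : (PL K L : Op Lab K) ∈ Loc K S := by
  unfold PL
  refine loc_prod fun a ha => Loc.mono ?_ (loc_PO a)
  rintro x rfl
  exact h _ ha

/-- **The outer edges may be removed.** -/
theorem outer_remove {m : ℕ} (hm : 1 ≤ m) {i j : ℤ} {A : Op Lab K} (hA : A ∈ Loc K (Us N (-m) m))
    {L : List (ℤ × ℕ × Bool)}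
    (hL : ∀ e ∈ L, e.2.1 < N ∧ e.2.2 = false ∧ (e.1 = -(m : ℤ) - 1 ∨ e.1 = (m : ℤ) - 1)) :
    (A * (L.map (eo N K)).prod) (HS.ind (cup (lW 0 i) (lW 0 j) Pat.empty)) Pat.empty =
      A (HS.ind (cup (lW 0 i) (lW 0 j) Pat.empty)) Pat.empty := by
  set F0 : Pat Lab → K := HS.ind (cup (lW 0 i) (lW 0 j) Pat.empty) with hF0
  set O := (L.map (eo N K)).prod with hO
  have hd : Disjoint (Cs N m ∪ Cs N (-(m : ℤ) - 1)) (Us N (-m) m) := by
    rw [Set.disjoint_left]
    rintro x hx ⟨k, h1, h2, h3⟩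
    rcases hx with hx | hx
    · exact Set.disjoint_left.1 (cs_disj (N := N) (k := m) (k' := k) (by omega)) hx h3
    · exact Set.disjoint_left.1 (cs_disj (N := N) (k := -(m : ℤ) - 1) (k' := k) (by omega)) hx h3
  have hP : (PL K (YL N m) : Op Lab K) ∈ Loc K (Cs N m ∪ Cs N (-(m : ℤ) - 1)) := by
    apply loc_PL
    intro a ha
    unfold YL at ha
    rcases List.mem_append.1 ha with ha | ha
    · obtain ⟨i, hi, rfl⟩ := List.mem_map.1 ha
      rw [List.mem_range] at hi
      exact Or.inl ⟨i, by omega, by omega, Or.inr (Or.inr (Or.inl rfl))⟩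
    · obtain ⟨i, hi, rfl⟩ := List.mem_map.1 ha
      rw [List.mem_range] at hi
      exact Or.inr ⟨i, by omega, by omega, Or.inl rfl⟩
  have hc : Commute (PL K (YL N m) : Op Lab K) A := Loc.commute hd hP hA
  have he : ∀ F : Pat Lab → K, PL K (YL N m) F Pat.empty = F Pat.empty := fun F =>
    PL_apply _ _ _ fun _ _ => rfl
  have hPO : PL K (YL N m) (O F0) = PL K (YL N m) F0 := by
    funext q
    by_cases h : ∀ a ∈ YL N m, q a = a
    · rw [PL_apply _ _ _ h, PL_apply _ _ _ h]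
      exact outer_list hm hL q (qt_YL h)
    · rw [PL_if _ _ _ h, PL_if _ _ _ h]
  calc (A * O) F0 Pat.empty = (PL K (YL N m) * A) (O F0) Pat.empty := by
        rw [Module.End.mul_apply, Module.End.mul_apply, he]
    _ = A (PL K (YL N m) (O F0)) Pat.empty := by rw [hc.eq, Module.End.mul_apply]
    _ = (A * PL K (YL N m)) F0 Pat.empty := by rw [hPO, Module.End.mul_apply]
    _ = _ := by rw [← hc.eq, Module.End.mul_apply, he]

/-! ### the half edges as labels -/

/-- the label of a half edge. -/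
noncomputable def ps (N : ℕ) : He N → Lab
  | ((x, r), Dir.E) => lE x (r.val : ℤ)
  | ((x, r), Dir.N) => lN x (r.val : ℤ)
  | ((x, r), Dir.W) => lW x (r.val : ℤ)
  | ((x, r), Dir.S) => lS x (r.val : ℤ)

theorem ps_inj (N : ℕ) [NeZero N] : Function.Injective (ps N) := by
  rintro ⟨⟨x, r⟩, d⟩ ⟨⟨x', r'⟩, d'⟩ h
  have key : ∀ {a b : ZMod N}, ((a.val : ℕ) : ℤ) = ((b.val : ℕ) : ℤ) → a = b := by
    intro a b h
    exact ZMod.val_injective N (by exact_mod_cast h)
  cases d <;> cases d'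
  case E.E =>
    simp only [ps, lE_inj] at h
    obtain ⟨rfl, h2⟩ := h
    rw [key h2]
  case N.N =>
    simp only [ps, lN_inj] at h
    obtain ⟨rfl, h2⟩ := h
    rw [key h2]
  case W.W =>
    simp only [ps, lW_inj] at h
    obtain ⟨rfl, h2⟩ := h
    rw [key h2]
  case S.S =>
    simp only [ps, lS_inj] at h
    obtain ⟨rfl, h2⟩ := h
    rw [key h2]
  all_goals
    exfalso
    simp [ps] at h

/-- the vertex. -/
def toV (N : ℕ) (v : ℤ × ℕ) : Vx N := (v.1, (v.2 : ZMod N))

/-- the half edge. -/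
def toE (N : ℕ) (e : ℤ × ℕ × Bool) : He N := ((e.1, (e.2.1 : ZMod N)), if e.2.2 then Dir.N else Dir.E)

/-- the weights on the vertices of the cylinder. -/
def wV (W : ℤ → ℕ → W5 K) (N : ℕ) (v : Vx N) : W5 K := W v.1 v.2.val

theorem val_cast [NeZero N] {i : ℕ} (h : i < N) : ((i : ZMod N)).val = i := ZMod.val_cast_of_lt h

theorem Vo_lft [NeZero N] (W : ℤ → ℕ → W5 K) {v : ℤ × ℕ} (h : v.2 < N) (F : Pat Lab → K) (q : Pat (He N)) :
    Vo (W v.1 v.2) v.1 v.2 F (lft (ps N) (ps_inj N) q) =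
      Vt (wV W N (toV N v)) (toV N v) (fun q => F (lft (ps N) (ps_inj N) q)) q := by
  obtain ⟨k, i⟩ := v
  simp only at h
  have e1 : lE k (i : ℤ) = ps N ((k, (i : ZMod N)), Dir.E) := by simp only [ps, val_cast h]
  have e2 : lN k (i : ℤ) = ps N ((k, (i : ZMod N)), Dir.N) := by simp only [ps, val_cast h]
  have e3 : lW k (i : ℤ) = ps N ((k, (i : ZMod N)), Dir.W) := by simp only [ps, val_cast h]
  have e4 : lS k (i : ℤ) = ps N ((k, (i : ZMod N)), Dir.S) := by simp only [ps, val_cast h]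
  have e5 : wV W N (toV N (k, i)) = W k i := by unfold wV toV; simp only [val_cast h]
  unfold Vo Vt
  rw [e5]
  simp only
  rw [e1, e2, e3, e4, Vt4_eq, Vt4_eq]
  exact VtF_st (femb (ps N) (ps_inj N)) F q (W k i) ((k, (i : ZMod N)), Dir.E) ((k, (i : ZMod N)), Dir.N)
    ((k, (i : ZMod N)), Dir.W) ((k, (i : ZMod N)), Dir.S)

theorem sc_val [NeZero N] {i : ℕ} (h : i < N) : ((i : ZMod N) + 1).val = sc N i := by
  unfold sc
  have e : ((i : ZMod N) + 1) = ((i + 1 : ℕ) : ZMod N) := by push_cast; rfl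
  split_ifs with h1
  · rw [e, h1, ZMod.natCast_self, ZMod.val_zero]
  · rw [e]
    exact val_cast (by omega)

theorem eo_lft [NeZero N] {e : ℤ × ℕ × Bool} (h : e.2.1 < N) (F : Pat Lab → K) (q : Pat (He N)) :
    eo N K e F (lft (ps N) (ps_inj N) q) = CoE K (toE N e) (fun q => F (lft (ps N) (ps_inj N) q)) q := by
  obtain ⟨k, i, b⟩ := e
  simp only at h
  unfold eo CoE toE
  cases b
  · simp only [Bool.false_eq_true, if_false]
    have e1 : lE k (i : ℤ) = ps N ((k, (i : ZMod N)), Dir.E) := by simp only [ps, val_cast h]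
    have e2 : lW (k + 1) (i : ℤ) = ps N (rv ((k, (i : ZMod N)), Dir.E)) := by
      simp only [rv, nx, Dir.op, ps, val_cast h]
    unfold Eh
    rw [e1, e2]
    exact Co_lft _ _ _ _ _ _
  · simp only [if_true]
    have e1 : lN k (i : ℤ) = ps N ((k, (i : ZMod N)), Dir.N) := by simp only [ps, val_cast h]
    have e2 : lS k (sc N i : ℤ) = ps N (rv ((k, (i : ZMod N)), Dir.N)) := by
      simp only [rv, nx, Dir.op, ps, sc_val h]
    rw [Ev_eq, e1, e2]
    exact Co_lft _ _ _ _ _ _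

theorem list_lft [NeZero N] {ι : Type*} {f : ι → Op Lab K} {g : ι → Op (He N) K} (L : List ι)
    (h : ∀ a ∈ L, ∀ (F : Pat Lab → K) (q : Pat (He N)),
      f a F (lft (ps N) (ps_inj N) q) = g a (fun q => F (lft (ps N) (ps_inj N) q)) q)
    (F : Pat Lab → K) (q : Pat (He N)) :
    (L.map f).prod F (lft (ps N) (ps_inj N) q) = (L.map g).prod (fun q => F (lft (ps N) (ps_inj N) q)) q := by
  induction L generalizing q with
  | nil => rfl
  | cons a L ih =>
    rw [List.map_cons, List.prod_cons, List.map_cons, List.prod_cons, Module.End.mul_apply,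
      Module.End.mul_apply, h a (by simp)]
    have e : (fun q => (L.map f).prod F (lft (ps N) (ps_inj N) q)) =
        (L.map g).prod (fun q => F (lft (ps N) (ps_inj N) q)) :=
      funext fun q => ih (fun b hb => h b (by simp [hb])) q
    rw [e]

end Pool.Agent.YBC
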