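import Pool.Agent.YBC.Main4
import Pool.Agent.WND.RingsW

/-!
# The rings of the line operators on the function of the cut with the winding weight
-/

set_option autoImplicit false

namespace Pool.Agent.YBC

open Pool.Agent.EXL hiding cc
open Pool.Agent.EXL.Pat Pool.Agent.EXL.Net
open Pool.Agent.NUF.Cyl (UO PO PL PL_apply PL_cons seam UO_apply PO_apply Co_eq_glue)
open Pool.Agent.MXR (gS Rest Co_lft ind_lft lft_empty prs)
open Pool.Agent.NUN (fr Fr fr_inj Fr_move Fr_empty Xr Xl cc)
open Pool.Agent.NUNC (dd)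
open Pool.Agent.NUF (Gd)
open Pool.Agent.WND (PG PG_Fr PG_lft PG_off lnL gd_lnL cS_off)
open Pool.Agent.WND (cS)

variable {K : Type*} [CommRing K] {N : ℕ}

/-! ### the outer edges -/

/-- the function vanishes at the states in which an outer half edge is occupied. -/
def OffO (N m : ℕ) (F : Pat Lab → K) : Prop :=
  ∀ (q : Pat Lab) (r : ℕ), r < N →
    (q (lW (-(m : ℤ)) r) ≠ lW (-(m : ℤ)) r ∨ q (lE ((m : ℤ) - 1) r) ≠ lE ((m : ℤ) - 1) r) → F q = 0

theorem outer_oneL {m : ℕ} {e : ℤ × ℕ × Bool} (he : e.2.1 < N)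
    (h0 : e.2.2 = false) (h1 : e.1 = -(m : ℤ) - 1 ∨ e.1 = (m : ℤ) - 1) {F F0 : Pat Lab → K} (hO : OffO N m F0)
    (hF : ∀ q, Qt N m q → F q = F0 q) :
    ∀ q, Qt N m q → eo N K e F q = F0 q := by
  intro q hq
  obtain ⟨k, r, b⟩ := e
  simp only at he h0 h1
  subst h0
  unfold eo Eh
  simp only [Bool.false_eq_true, if_false]
  rw [Co_apply]
  obtain ⟨q1, q2⟩ := hq r he
  rcases h1 with rfl | rfl
  · -- left
    have e0 : -(m : ℤ) - 1 + 1 = -(m : ℤ) := by ring
    rw [e0]
    by_cases c : q (lW (-(m : ℤ)) r) = lW (-(m : ℤ)) r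
    · rw [if_pos ⟨q2, c⟩]
      exact hF q hq
    · rw [if_neg (fun h => c h.2), if_pos (Or.inl q2)]
      exact (hO q r he (Or.inl c)).symm
  · -- right
    have e1 : (m : ℤ) - 1 + 1 = m := by ring
    rw [e1]
    by_cases c : q (lE ((m : ℤ) - 1) r) = lE ((m : ℤ) - 1) r
    · rw [if_pos ⟨c, q1⟩]
      exact hF q hq
    · rw [if_neg (fun h => c h.1), if_pos (Or.inr (Or.inl q1))]
      exact (hO q r he (Or.inr c)).symm

theorem outer_listL {m : ℕ} {L : List (ℤ × ℕ × Bool)}
    (hL : ∀ e ∈ L, e.2.1 < N ∧ e.2.2 = false ∧ (e.1 = -(m : ℤ) - 1 ∨ e.1 = (m : ℤ) - 1)) {F0 : Pat Lab → K}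
    (hO : OffO N m F0) : ∀ q, Qt N m q → ((L.map (eo N K)).prod) F0 q = F0 q := by
  induction L with
  | nil => intro q _; rfl
  | cons e L ih =>
    intro q hq
    rw [List.map_cons, List.prod_cons, Module.End.mul_apply]
    obtain ⟨h1, h2, h3⟩ := hL e (by simp)
    exact outer_oneL h1 h2 h3 hO (ih fun e he => hL e (by simp [he])) q hq

/-- **The outer edges may be removed.** -/
theorem outer_removeL {m : ℕ} {A : Op Lab K} (hA : A ∈ Loc K (Us N (-m) m))
    {L : List (ℤ × ℕ × Bool)}
    (hL : ∀ e ∈ L, e.2.1 < N ∧ e.2.2 = false ∧ (e.1 = -(m : ℤ) - 1 ∨ e.1 = (m : ℤ) - 1)) {F0 : Pat Lab → K}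
    (hO : OffO N m F0) :
    (A * (L.map (eo N K)).prod) F0 Pat.empty = A F0 Pat.empty := by
  set O := (L.map (eo N K)).prod with hO'
  have hd : Disjoint (Cs N m ∪ Cs N (-(m : ℤ) - 1)) (Us N (-m) m) := by
    rw [Set.disjoint_left]
    rintro x hx ⟨k, h1, h2, h3⟩
    rcases hx with hx | hx
    · exact Set.disjoint_left.1 (cs_disj (N := N) (k := m) (k' := k) (by omega)) hx h3
    · exact Set.disjoint_left.1 (cs_disj (N := N) (k := -(m : ℤ) - 1) (k' := k) (by omega)) hx h3
  have hP : (PL K (YL N m) : Op Lab K) ∈ Loc K (Cs N m ∪ Cs N (-(m : ℤ) - 1)) := by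
    apply loc_PL
    intro a ha
    unfold YL at ha
    rcases List.mem_append.1 ha with ha | ha
    · obtain ⟨i, hi, rfl⟩ := List.mem_map.1 ha
      rw [List.mem_range] at hi
      exact Or.inl ⟨i, by omega, by omega, Or.inr (Or.inr (Or.inl rfl))⟩
    · obtain ⟨i, hi, rfl⟩ := List.mem_map.1 ha
      rw [List.mem_range] at hi
      exact Or.inr ⟨i, by omega, by omega, Or.inl rfl⟩
  have hc : Commute (PL K (YL N m) : Op Lab K) A := Loc.commute hd hP hA
  have he : ∀ F : Pat Lab → K, PL K (YL N m) F Pat.empty = F Pat.empty := fun F =>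
    PL_apply _ _ _ fun _ _ => rfl
  have hPO : PL K (YL N m) (O F0) = PL K (YL N m) F0 := by
    funext q
    by_cases h : ∀ a ∈ YL N m, q a = a
    · rw [PL_apply _ _ _ h, PL_apply _ _ _ h]
      exact outer_listL hL hO q (qt_YL h)
    · rw [PL_if _ _ _ h, PL_if _ _ _ h]
  calc (A * O) F0 Pat.empty = (PL K (YL N m) * A) (O F0) Pat.empty := by
        rw [Module.End.mul_apply, Module.End.mul_apply, he]
    _ = A (PL K (YL N m) (O F0)) Pat.empty := by rw [hc.eq, Module.End.mul_apply]
    _ = (A * PL K (YL N m)) F0 Pat.empty := by rw [hPO, Module.End.mul_apply]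
    _ = _ := by rw [← hc.eq, Module.End.mul_apply, he]

/-! ### the labels and the lines on the half edges -/

variable {I J : List (Fin N)} {i j : Fin N} {χ : ℂ}

/-- the labels of the half edges. -/
noncomputable def cH (I J : List (Fin N)) (h : He N) : ℤ := cS (I.map lnL) (J.map lnL) (ps N h)

/-- the seam lines of the rows. -/
def lnH (l : List (Fin N)) : List (He N × He N) := l.map fun a => (hs a, rv (hs a))

theorem ps_hs (a : Fin N) : ps N (hs a) = lW 0 ((a : ℕ) : ℤ) := by
  have : NeZero N := ⟨by have := a.2; omega⟩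
  unfold hs
  simp only [ps, val_cast a.2]

theorem ps_rv_hs (a : Fin N) : ps N (rv (hs a)) = lE (-1) ((a : ℕ) : ℤ) := by
  have : NeZero N := ⟨by have := a.2; omega⟩
  rw [rv_hs]
  simp only [ps, val_cast a.2]

theorem lnH_map [NeZero N] (l : List (Fin N)) : (lnH l).map (Prod.map (ps N) (ps N)) = l.map lnL := by
  unfold lnH
  rw [List.map_map]
  refine List.map_congr_left fun a _ => ?_
  show (ps N (hs a), ps N (rv (hs a))) = lnL a
  rw [ps_hs, ps_rv_hs]
  rfl

theorem gd_of_map {α β : Type*} [DecidableEq α] [DecidableEq β] {κ : β → α}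
    {L : List (β × β)} (h : Gd (L.map (Prod.map κ κ))) : Gd L := by
  unfold Gd at h ⊢
  have e : (L.map (Prod.map κ κ)).map Prod.fst ++ (L.map (Prod.map κ κ)).map Prod.snd =
      (L.map Prod.fst ++ L.map Prod.snd).map κ := by
    rw [List.map_append, List.map_map, List.map_map, List.map_map, List.map_map]
    rfl
  rw [e] at h
  exact h.of_map _

theorem gd_lnH [NeZero N] {l : List (Fin N)} (hl : l.Nodup) (hij : i ≠ j) (hi : i ∉ l) (hj : j ∉ l) :
    Gd ((hs i, hs j) :: lnH l) := by
  apply gd_of_map (κ := ps N)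
  rw [List.map_cons, lnH_map]
  have h := gd_lnL hl hij hi hj
  have e : Prod.map (ps N) (ps N) (hs i, hs j) = (lW 0 ((i : ℕ) : ℤ), lW 0 ((j : ℕ) : ℤ)) := by
    show (ps N (hs i), ps N (hs j)) = _
    rw [ps_hs, ps_hs]
  rw [e]
  exact h

/-! ### the rings -/

theorem offO_PG {m : ℕ} (hm : 1 ≤ m) (c : Lab → ℤ) (l : List (Fin N)) :
    OffO N m (PG χ c (lW 0 ((i : ℕ) : ℤ)) (lW 0 ((j : ℕ) : ℤ)) (l.map lnL)) := by
  intro q r _ h
  rcases h with h | h
  · refine PG_off ?_ ?_ ?_ h
    · simp only [Ne, lW_inj]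
      omega
    · simp only [Ne, lW_inj]
      omega
    · intro t ht
      obtain ⟨a, -, rfl⟩ := List.mem_map.1 ht
      refine ⟨?_, ?_⟩
      · simp only [lnL, Ne, lW_inj]
        omega
      · simp [lnL]
  · refine PG_off ?_ ?_ ?_ h
    · simp
    · simp
    · intro t ht
      obtain ⟨a, -, rfl⟩ := List.mem_map.1 ht
      refine ⟨?_, ?_⟩
      · simp [lnL]
      · simp only [lnL, Ne, lE_inj]
        omega

/-- **The rings of the line operators on the function of the cut = the network of the half edges.** -/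
theorem rings_NtL [NeZero N] (W : ℤ → ℕ → W5 ℂ) {m : ℕ} (hm : 1 ≤ m) (hl : (I ++ J).Nodup)
    (hij : i ≠ j) (hi : i ∉ I ++ J) (hj : j ∉ I ++ J) :
    seqF (RR W N) m (seqF (RL W N) m
      (PG χ (cS (prs I) (prs J)) (Xr i) (Xr j) (prs I ++ prs J))) Pat.empty =
      Nt (wV W N) (LAh N m) (LEh m []) (PG χ (cH I J) (hs i) (hs j) (lnH (I ++ J))) Pat.empty := by
  have hN : 1 ≤ N := one_le
  set c : Lab → ℤ := cS (I.map lnL) (J.map lnL) with hc
  set G : Pat Lab → ℂ := PG χ c (lW 0 ((i : ℕ) : ℤ)) (lW 0 ((j : ℕ) : ℤ)) ((I ++ J).map lnL) with hG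
  have t := tot4_eq W N m G
  have e : (fun q => G (NUN.Fr (fun _ => 0) (fun _ => -1) false 0 0 q)) =
      PG χ (cS (prs I) (prs J)) (Xr i) (Xr j) (prs I ++ prs J) := funext fun q => PG_Fr hl hij hi hj q
  rw [e] at t
  rw [← t, tot4_sorted W hN]
  have e2 : ((VVr W N m * VVl W N m) * (CCr ℂ N m * CCl ℂ N m)) G Pat.empty =
      ((VVr W N m * VVl W N m) * (((LT N m []).filter (inn m)).map (eo N ℂ)).prod *
        (((LT N m []).filter (fun e => ! inn m e)).map (eo N ℂ)).prod) G Pat.empty := by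
    rw [mul_assoc (VVr W N m * VVl W N m) _ ((((LT N m []).filter (fun e => ! inn m e)).map (eo N ℂ)).prod),
      ← prod_LT hN m List.nodup_nil, CCr_list, CCl_list]
    unfold LT LS
    rw [List.map_nil, List.append_nil, List.map_append, List.prod_append]
  rw [e2, outer_removeL _ _ (offO_PG hm c (I ++ J))]
  · -- the network on the half edges
    have e3 : (Pat.empty : Pat Lab) = lft (ps N) (ps_inj N) Pat.empty := (lft_empty _ _).symm
    have e4 : ∀ q : Pat (He N), G (lft (ps N) (ps_inj N) q) =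
        PG χ (cH I J) (hs i) (hs j) (lnH (I ++ J)) q := by
      intro q
      have h := PG_lft (χ := χ) (κ := ps N) (c := cH I J) (c' := c) (ps_inj N) (fun b => rfl)
        (gd_lnH hl hij hi hj) q
      rw [lnH_map, ps_hs, ps_hs] at h
      exact h
    rw [Module.End.mul_apply, VVr_list, VVl_list, ← List.prod_append, ← List.map_append]
    have key : ∀ G : Pat Lab → ℂ, ((LVr N m ++ LVl N m).map fun v => Vo (W v.1 v.2) v.1 v.2).prod G Pat.empty =
        ((LVr N m ++ LVl N m).map (fun v => Vt (wV W N (toV N v)) (toV N v))).prod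
          (fun q => G (lft (ps N) (ps_inj N) q)) Pat.empty := by
      intro G
      conv_lhs => rw [e3]
      exact list_lft (g := fun v => Vt (wV W N (toV N v)) (toV N v)) _ (fun v hv F q =>
        Vo_lft W (mem_LV.1 hv).2.2 F q) G Pat.empty
    rw [key]
    have e5 : (fun q => ((((LT N m []).filter (inn m)).map (eo N ℂ)).prod) G (lft (ps N) (ps_inj N) q)) =
        ((((LT N m []).filter (inn m)).map (fun e => CoE ℂ (toE N e))).prod)
          (PG χ (cH I J) (hs i) (hs j) (lnH (I ++ J))) := by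
      funext q
      rw [list_lft (g := fun e => CoE ℂ (toE N e)) _ (fun e he F q =>
        eo_lft (lt_of_LT hN (List.mem_of_mem_filter he)) F q), funext e4]
    rw [e5]
    unfold Nt LAh LEh
    rw [List.map_map, List.map_map, Module.End.mul_apply]
    rfl
  · refine mul_mem (loc_Vlist W m) (loc_prod fun e he => ?_)
    rw [List.mem_filter, mem_LT hN] at he
    obtain ⟨k, r, b⟩ := e
    simp only [inn] at he
    unfold eo
    cases b
    · simp only [Bool.false_eq_true, false_and, true_and, false_or, Bool.false_or, Bool.and_eq_true,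
        decide_eq_true_eq, if_false] at he ⊢
      obtain ⟨⟨_, _, h3, _⟩, h5, h6⟩ := he
      refine Loc.mono ?_ (loc_Eh k h3)
      exact Set.union_subset (cs_us h5 (by omega)) (cs_us (by omega) h6)
    · simp only [Bool.true_eq_false, false_and, true_and, or_false, if_true] at he ⊢
      exact Loc.mono (cs_us he.1.1 he.1.2.1) (loc_Ev k he.1.2.2)
  · intro e he
    rw [List.mem_filter, mem_LT hN] at he
    obtain ⟨k, r, b⟩ := e
    simp only [inn] at he ⊢
    cases b
    · simp only [Bool.false_eq_true, false_and, true_and, false_or, Bool.false_or, Bool.not_eq_true',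
        Bool.and_eq_false_iff, decide_eq_false_iff_not, not_le, not_lt] at he ⊢
      obtain ⟨⟨h1, h2, h3, _⟩, h5⟩ := he
      exact ⟨h3, by omega⟩
    · simp at he

end Pool.Agent.YBC
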