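import Pool.Agent.EXL.Net0
import Pool.Agent.EXL.H1b
import Pool.Agent.YBC.Def4

/-!
# The network of the crossings: operators on the half edges
-/

set_option autoImplicit false

namespace Pool.Agent.YBC

open Pool.Agent.EXL Pool.Agent.EXL.Pat
open Pool.Agent.EXL.Net (Op cupO Co)

variable {N : ℕ} {K : Type*} [CommRing K]

/-- The crossing with the four half edges `e`, `n`, `w`, `s`. -/
noncomputable def Vt4 {α : Type*} [DecidableEq α] (W : W5 K) (e n w s : α) : Op α K :=
  1 + W.v • (cupO e w + cupO n s) + W.u1 • (cupO s w + cupO e n) + W.u2 • (cupO s e + cupO n w)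
    + W.w1 • (cupO s w * cupO e n) + W.w2 • (cupO s e * cupO n w)

/-- The operator of the vertex `v`. -/
noncomputable def Vt (W : W5 K) (v : Vx N) : Op (He N) K := Vt4 W (v, .E) (v, .N) (v, .W) (v, .S)

/-- The contraction of the edge of the half edge `h`. -/
noncomputable def CoE (K : Type*) [CommRing K] (h : He N) : Op (He N) K := Co h (rv h)

/-- The network with the lists of vertices `LA` and of edges `LE`. -/
noncomputable def Nt (w : Vx N → W5 K) (LA : List (Vx N)) (LE : List (He N)) : Op (He N) K :=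
  (LA.map fun v => Vt (w v) v).prod * (LE.map fun h => CoE K h).prod

/-- The hypotheses of the exploration. -/
structure ExH (LA : List (Vx N)) (LE : List (He N)) (a b : He N) : Prop where
  ndA : LA.Nodup
  ndE : LE.Nodup
  /-- every edge occurs once -/
  rvE : ∀ h ∈ LE, rv h ∉ LE
  memE : ∀ h ∈ LE, h.1 ∈ LA ∧ (rv h).1 ∈ LA
  ha : a.1 ∈ LA
  hb : b.1 ∈ LA
  hab : a ≠ b
  hab' : rv a ≠ b
  nE : ∀ h ∈ LE, h ≠ a ∧ h ≠ b ∧ rv h ≠ a ∧ rv h ≠ b
  /-- all the other inner edges are contracted -/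
  all : ∀ h : He N, h.1 ∈ LA → (rv h).1 ∈ LA → h ∈ LE ∨ rv h ∈ LE ∨ h = a ∨ h = rv a ∨ h = b ∨ h = rv b

end Pool.Agent.YBC
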