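import Pool.Agent.UNI.Cells
import Pool.Agent.YBC.Net4

/-!
# The exploration theorem for the network of the crossings, part 1: one vertex

`Fc c l`: the operator of a vertex with the four half edges `l 0, ..., l 3` and the local weights `c`.
The marked half edge `z` is joined to the end `p` of the walk.
-/

set_option autoImplicit false

namespace Pool.Agent.YBC

open Pool.Agent.EXL Pool.Agent.EXL.Pat
open Pool.Agent.EXL.Net (Op cupO Co cupO_apply Co_apply cupO_comm cupO_Co_comm Co_comm cupO_symm)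
open Pool.Agent.UNI (Cell fin4)

variable {α : Type*} [DecidableEq α] {K : Type*} [CommRing K]

/-- The operator of a vertex with the half edges `l 0, ..., l 3`. -/
noncomputable def Fc (c : Cell K) (l : Fin 4 → α) : Op α K :=
  c.e • 1 + (c.s01 • cupO (l 0) (l 1) + c.s02 • cupO (l 0) (l 2) +
    c.s03 • cupO (l 0) (l 3) + c.s12 • cupO (l 1) (l 2) +
    c.s13 • cupO (l 1) (l 3) + c.s23 • cupO (l 2) (l 3)) +
    (c.d1 • (cupO (l 0) (l 1) * cupO (l 2) (l 3)) +
     c.d2 • (cupO (l 1) (l 2) * cupO (l 3) (l 0)))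

theorem Fc_apply (c : Cell K) (l : Fin 4 → α) (F : Pat α → K) (q : Pat α) :
    Fc c l F q = c.e * F q + (c.s01 * cupO (l 0) (l 1) F q + c.s02 * cupO (l 0) (l 2) F q +
      c.s03 * cupO (l 0) (l 3) F q + c.s12 * cupO (l 1) (l 2) F q +
      c.s13 * cupO (l 1) (l 3) F q + c.s23 * cupO (l 2) (l 3) F q) +
      (c.d1 * cupO (l 0) (l 1) (cupO (l 2) (l 3) F) q +
        c.d2 * cupO (l 1) (l 2) (cupO (l 3) (l 0) F) q) := by
  unfold Fc
  simp only [LinearMap.add_apply, Module.End.one_apply, LinearMap.smul_apply, Pi.add_apply,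
    Pi.smul_apply, Module.End.mul_apply, smul_eq_mul]

theorem Fc_zero (l : Fin 4 → α) : (Fc (0 : Cell K) l : Op α K) = 0 := by
  unfold Fc
  simp [UNI.Cell.zero_def]

theorem res_comm (c : Cell K) (a b : Fin 4) : c.res a b = c.res b a := by
  rcases fin4 a with rfl | rfl | rfl | rfl <;> rcases fin4 b with rfl | rfl | rfl | rfl <;> rfl

theorem res_of_off_left {c : Cell K} {a b : Fin 4} (h : c.Off a) : c.res a b = 0 := by
  rw [res_comm]
  exact UNI.Cell.res_of_off h

theorem s_comm (c : Cell K) (a b : Fin 4) : c.s a b = c.s b a := by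
  rcases fin4 a with rfl | rfl | rfl | rfl <;> rcases fin4 b with rfl | rfl | rfl | rfl <;> rfl

/-! ### commutation -/

theorem Fc_commute {c : Cell K} {l : Fin 4 → α} {X : Op α K}
    (h : ∀ a b : Fin 4, c.s a b ≠ 0 ∨ c.d1 ≠ 0 ∨ c.d2 ≠ 0 → a ≠ b →
      Commute (cupO (l a) (l b) : Op α K) X) : Commute (Fc c l) X := by
  have h1 : ∀ (r : K) (a b : Fin 4), a ≠ b → (r ≠ 0 → c.s a b ≠ 0 ∨ c.d1 ≠ 0 ∨ c.d2 ≠ 0) →
      Commute (r • cupO (l a) (l b) : Op α K) X := by
    intro r a b hab hr
    by_cases h0 : r = 0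
    · rw [h0, zero_smul]
      exact Commute.zero_left _
    · exact (h a b (hr h0) hab).smul_left _
  have h2 : ∀ (r : K) (a b x y : Fin 4), a ≠ b → x ≠ y → (r ≠ 0 → c.d1 ≠ 0 ∨ c.d2 ≠ 0) →
      Commute (r • (cupO (l a) (l b) * cupO (l x) (l y)) : Op α K) X := by
    intro r a b x y hab hxy hr
    by_cases h0 : r = 0
    · rw [h0, zero_smul]
      exact Commute.zero_left _
    · exact ((h a b (Or.inr (hr h0)) hab).mul_left (h x y (Or.inr (hr h0)) hxy)).smul_left _
  unfold Fc
  refine (((Commute.one_left _).smul_left _).add_left ?_).add_left ?_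
  · exact ((((((h1 _ 0 1 (by decide) (fun h => Or.inl h)).add_left
      (h1 _ 0 2 (by decide) (fun h => Or.inl h))).add_left
      (h1 _ 0 3 (by decide) (fun h => Or.inl h))).add_left
      (h1 _ 1 2 (by decide) (fun h => Or.inl h))).add_left
      (h1 _ 1 3 (by decide) (fun h => Or.inl h))).add_left
      (h1 _ 2 3 (by decide) (fun h => Or.inl h)))
  · exact (h2 _ 0 1 2 3 (by decide) (by decide) (fun h => Or.inl h)).add_left
      (h2 _ 1 2 3 0 (by decide) (by decide) (fun h => Or.inr h))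

/-- operators of disjoint vertices commute. -/
theorem Fc_comm {c d : Cell K} {l m : Fin 4 → α} (h : ∀ a b, l a ≠ m b) :
    Commute (Fc c l : Op α K) (Fc d m) := by
  refine Fc_commute fun a b _ _ => ?_
  refine (Fc_commute fun x y _ _ => ?_).symm
  exact cupO_comm (h a x).symm (h b x).symm (h a y).symm (h b y).symm

theorem Fc_Co_comm {c : Cell K} {l : Fin 4 → α} {h k : α} (h1 : ∀ a, l a = h → c.Off a)
    (h2 : ∀ a, l a = k → c.Off a) : Commute (Fc c l : Op α K) (Co h k) := by
  refine Fc_commute fun a b hab hne => ?_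
  have key : ∀ x : Fin 4, (x = a ∨ x = b) → ¬ c.Off x := by
    rintro x hx ⟨o1, o2, o3⟩
    rcases hab with h | h | h
    · rcases hx with rfl | rfl
      · exact h (o1 b)
      · exact h (by rw [s_comm]; exact o1 a)
    · exact h o2
    · exact h o3
  have g1 : ∀ x : Fin 4, (x = a ∨ x = b) → l x ≠ h := fun x hx e => key x hx (h1 x e)
  have g2 : ∀ x : Fin 4, (x = a ∨ x = b) → l x ≠ k := fun x hx e => key x hx (h2 x e)
  exact cupO_Co_comm (g1 a (Or.inl rfl)) (g2 a (Or.inl rfl)) (g1 b (Or.inr rfl)) (g2 b (Or.inr rfl))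

/-! ### one step -/

/-- the state with one arc. -/
abbrev sa (z p : α) : Pat α := cup z p Pat.empty

theorem sa_z {z p : α} : sa z p z = p := by
  simp [cup, Pat.empty]

theorem sa_p {z p : α} : sa z p p = z := by
  simp only [cup, Pat.empty]
  grind

theorem sa_o {z p x : α} (h1 : x ≠ z) (h2 : x ≠ p) : sa z p x = x := by
  simp [cup, Pat.empty, h1, h2]

theorem sa_Co {z p a : α} (zp : z ≠ p) (h1 : a ≠ p) (h2 : a ≠ z) (G : Pat α → K) :
    Co p a G (sa z p) = 0 := by
  rw [Co_apply, if_neg, if_pos]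
  · exact Or.inr (Or.inl (sa_o h2 h1))
  · rintro ⟨h3, -⟩
    rw [sa_p] at h3
    exact zp h3

/-- a creation at an occupied site. -/
theorem cupO_occ {i j : α} {q : Pat α} (h : q i ≠ i ∨ q j ≠ j) (F : Pat α → K) : cupO i j F q = 0 := by
  rw [cupO_apply, if_neg]
  rintro ⟨h1, h2⟩
  rcases h with h | h
  · exact h h1
  · exact h h2

theorem sa_cup {z p a b : α} (zp : z ≠ p) (h1 : a ≠ p) (h2 : a ≠ z) (h3 : b ≠ p) (h4 : b ≠ z)
    (h5 : a ≠ b) (G : Pat α → K) : cupO a b (Co p a G) (sa z p) = G (sa z b) := by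
  rw [cupO_apply, if_pos ⟨sa_o h2 h1, sa_o h4 h3⟩, Co_apply]
  have e1 : (cup a b (sa z p)) p = z := by
    simp only [cup, Pat.empty]
    grind
  have e2 : (cup a b (sa z p)) a = b := by
    simp only [cup, Pat.empty]
    grind
  rw [e1, e2]
  rw [if_neg (fun h => zp h.1), if_neg]
  · congr 1
    ext y
    simp only [cup, cut, Pat.empty]
    grind (splits := 30)
  · simp only [not_or]
    exact ⟨zp, h5.symm, h2.symm⟩

theorem sa_cup' {z p a b c : α} (zp : z ≠ p) (h1 : a ≠ p) (h2 : a ≠ z) (h5 : a ≠ b) (h6 : a ≠ c)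
    (G : Pat α → K) : cupO b c (Co p a G) (sa z p) = 0 := by
  by_cases o : (sa z p) b = b ∧ (sa z p) c = c
  swap
  · exact cupO_occ (not_and_or.1 o) _
  rw [cupO_apply, if_pos o, Co_apply]
  have e1 : (cup b c (sa z p)) p ≠ p := by
    obtain ⟨o1, o2⟩ := o
    simp only [cup, Pat.empty] at o1 o2 ⊢
    grind
  have e2 : (cup b c (sa z p)) a = a := by
    obtain ⟨o1, o2⟩ := o
    simp only [cup, Pat.empty] at o1 o2 ⊢
    grind
  rw [if_neg (fun h => e1 h.1), if_pos (Or.inr (Or.inl e2))]

/-- **One step of the exploration.** -/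
theorem step_Fc {c : Cell K} {l : Fin 4 → α} (hl : Function.Injective l) {z p : α} (zp : z ≠ p)
    (hz : ∀ b, l b = z → c.Off b) (hp : ∀ b, l b = p → c.Off b) {a : Fin 4} (az : l a ≠ z)
    (ap : l a ≠ p) (G : Pat α → K) :
    Fc c l (Co p (l a) G) (sa z p) = ∑ b, Fc (c.res a b) l G (sa z (l b)) := by
  have ne : ∀ {x y : Fin 4}, x ≠ y → l x ≠ l y := fun h e => h (hl e)
  have ez : Co p (l a) G (sa z p) = 0 := sa_Co zp ap az G
  have e1 : ∀ b, a ≠ b → l b ≠ z → l b ≠ p → ∀ H : Pat α → K,
      cupO (l a) (l b) (Co p (l a) H) (sa z p) = H (sa z (l b)) :=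
    fun b hb h1 h2 H => sa_cup zp ap az h2 h1 (ne hb) H
  have e0 : ∀ b d, a ≠ b → a ≠ d → cupO (l b) (l d) (Co p (l a) G) (sa z p) = 0 :=
    fun b d hb hd => sa_cup' zp ap az (ne hb) (ne hd) G
  -- the single arcs at `a`
  have m1 : ∀ b, a ≠ b → c.s a b * cupO (l a) (l b) (Co p (l a) G) (sa z p) =
      c.s a b * G (sa z (l b)) := by
    intro b hb
    by_cases h1 : l b = z
    · rw [s_comm, (hz b h1).1 a, zero_mul, zero_mul]
    by_cases h2 : l b = p
    · rw [s_comm, (hp b h2).1 a, zero_mul, zero_mul]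
    rw [e1 b hb h1 h2]
  -- two arcs
  have m2 : ∀ r : K, (r ≠ 0 → c.d1 ≠ 0 ∨ c.d2 ≠ 0) → ∀ b x y, a ≠ b → a ≠ x → a ≠ y → b ≠ x →
      b ≠ y → x ≠ y → r * cupO (l x) (l y) (cupO (l a) (l b) (Co p (l a) G)) (sa z p) =
        r * cupO (l x) (l y) G (sa z (l b)) := by
    intro r hr b x y hab hax hay hbx hby hxy
    by_cases r0 : r = 0
    · rw [r0, zero_mul, zero_mul]
    have off : ∀ t, ¬ c.Off t := by
      intro t ht
      rcases hr r0 with h | h
      · exact h ht.2.1
      · exact h ht.2.2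
    have nz : ∀ t, l t ≠ z := fun t h => off t (hz t h)
    have np : ∀ t, l t ≠ p := fun t h => off t (hp t h)
    have c1 : Commute (cupO (l x) (l y) : Op α K) (cupO (l a) (l b)) :=
      cupO_comm (ne hax.symm) (ne hbx.symm) (ne hay.symm) (ne hby.symm)
    have c2 : Commute (cupO (l x) (l y) : Op α K) (Co p (l a)) :=
      cupO_Co_comm (np x) (ne hax.symm) (np y) (ne hay.symm)
    have h1 : (cupO (l x) (l y) * (cupO (l a) (l b) * Co p (l a)) : Op α K) =
        cupO (l a) (l b) * (Co p (l a) * cupO (l x) (l y)) := by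
      rw [← mul_assoc, c1.eq, mul_assoc, c2.eq]
    have h2 := congrFun (congrArg (fun X : Op α K => X G) h1) (sa z p)
    simp only [Module.End.mul_apply] at h2
    rw [h2, e1 b hab (nz b) (np b)]
  have sy : ∀ x y : Fin 4, ∀ H : Pat α → K, cupO (l x) (l y) H = cupO (l y) (l x) H :=
    fun x y H => by rw [cupO_symm]
  have cc : ∀ x y t w : Fin 4, x ≠ t → x ≠ w → y ≠ t → y ≠ w → ∀ H : Pat α → K,
      cupO (l x) (l y) (cupO (l t) (l w) H) = cupO (l t) (l w) (cupO (l x) (l y) H) := by
    intro x y t w h1 h2 h3 h4 H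
    have c1 : Commute (cupO (l x) (l y) : Op α K) (cupO (l t) (l w)) :=
      cupO_comm (ne h1) (ne h2) (ne h3) (ne h4)
    exact congrArg (fun X : Op α K => X H) c1.eq
  rw [Fin.sum_univ_four, Fc_apply]
  rcases fin4 a with rfl | rfl | rfl | rfl
  · have f1 := m2 c.d1 (fun h => Or.inl h) 1 2 3 (by decide) (by decide) (by decide) (by decide) (by decide)
      (by decide)
    have f2 := m2 c.d2 (fun h => Or.inr h) 3 1 2 (by decide) (by decide) (by decide) (by decide) (by decide)
      (by decide)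
    rw [cc 2 3 0 1 (by decide) (by decide) (by decide) (by decide)] at f1
    rw [sy 0 3] at f2
    have g1 := m1 1 (by decide)
    have g2 := m1 2 (by decide)
    have g3 := m1 3 (by decide)
    simp only [Fc_apply, Cell.res, Cell.s] at g1 g2 g3 ⊢
    rw [ez, e0 1 2 (by decide) (by decide), e0 1 3 (by decide) (by decide), e0 2 3 (by decide) (by decide)]
    linear_combination g1 + g2 + g3 + f1 + f2
  · have f1 := m2 c.d1 (fun h => Or.inl h) 0 2 3 (by decide) (by decide) (by decide) (by decide) (by decide)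
      (by decide)
    have f2 := m2 c.d2 (fun h => Or.inr h) 2 3 0 (by decide) (by decide) (by decide) (by decide) (by decide)
      (by decide)
    rw [cc 2 3 1 0 (by decide) (by decide) (by decide) (by decide), sy 1 0] at f1
    rw [cc 3 0 1 2 (by decide) (by decide) (by decide) (by decide), sy 3 0 G] at f2
    have g1 := m1 0 (by decide)
    have g2 := m1 2 (by decide)
    have g3 := m1 3 (by decide)
    rw [sy 1 0] at g1
    simp only [Fc_apply, Cell.res, Cell.s] at g1 g2 g3 ⊢
    rw [ez, e0 0 2 (by decide) (by decide), e0 0 3 (by decide) (by decide), e0 2 3 (by decide) (by decide)]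
    linear_combination g1 + g2 + g3 + f1 + f2
  · have f1 := m2 c.d1 (fun h => Or.inl h) 3 0 1 (by decide) (by decide) (by decide) (by decide) (by decide)
      (by decide)
    have f2 := m2 c.d2 (fun h => Or.inr h) 1 3 0 (by decide) (by decide) (by decide) (by decide) (by decide)
      (by decide)
    rw [cc 3 0 2 1 (by decide) (by decide) (by decide) (by decide), sy 2 1, sy 3 0 G] at f2
    have g1 := m1 0 (by decide)
    have g2 := m1 1 (by decide)
    have g3 := m1 3 (by decide)
    rw [sy 2 0] at g1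
    rw [sy 2 1] at g2
    simp only [Fc_apply, Cell.res, Cell.s] at g1 g2 g3 ⊢
    rw [ez, e0 0 1 (by decide) (by decide), e0 0 3 (by decide) (by decide), e0 1 3 (by decide) (by decide)]
    linear_combination g1 + g2 + g3 + f1 + f2
  · have f1 := m2 c.d1 (fun h => Or.inl h) 2 0 1 (by decide) (by decide) (by decide) (by decide) (by decide)
      (by decide)
    have f2 := m2 c.d2 (fun h => Or.inr h) 0 1 2 (by decide) (by decide) (by decide) (by decide) (by decide)
      (by decide)
    rw [sy 3 2] at f1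
    have g1 := m1 0 (by decide)
    have g2 := m1 1 (by decide)
    have g3 := m1 2 (by decide)
    rw [sy 3 0] at g1
    rw [sy 3 1] at g2
    rw [sy 3 2] at g3
    simp only [Fc_apply, Cell.res, Cell.s] at g1 g2 g3 ⊢
    rw [ez, e0 0 1 (by decide) (by decide), e0 0 2 (by decide) (by decide), e0 1 2 (by decide) (by decide)]
    linear_combination g1 + g2 + g3 + f1 + f2

/-- **The first step**: the half edge `l a` has to be occupied at the end. -/
theorem first_Fc {c : Cell K} {l : Fin 4 → α} (hl : Function.Injective l) {a : Fin 4} {G : Pat α → K}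
    (hG : ∀ q : Pat α, q (l a) = l a → G q = 0) :
    Fc c l G Pat.empty = ∑ b, Fc (c.res a b) l G (sa (l a) (l b)) := by
  have ne : ∀ {x y : Fin 4}, x ≠ y → l x ≠ l y := fun h e => h (hl e)
  have em : ∀ i : α, (Pat.empty : Pat α) i = i := fun i => rfl
  have e1 : ∀ x y : Fin 4, ∀ H : Pat α → K, cupO (l x) (l y) H Pat.empty = H (sa (l x) (l y)) := by
    intro x y H
    rw [cupO_apply, if_pos ⟨em _, em _⟩]
  have ez : G Pat.empty = 0 := hG _ (em _)
  have e0 : ∀ b d, a ≠ b → a ≠ d → cupO (l b) (l d) G Pat.empty = 0 := by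
    intro b d hb hd
    rw [e1]
    exact hG _ (sa_o (ne hb) (ne hd))
  have sy : ∀ x y : Fin 4, ∀ H : Pat α → K, cupO (l x) (l y) H = cupO (l y) (l x) H :=
    fun x y H => by rw [cupO_symm]
  have sy' : ∀ x y : Fin 4, sa (l x) (l y) = sa (l y) (l x) := fun x y => Net.cup_symm _ _ _
  have cc : ∀ x y t w : Fin 4, x ≠ t → x ≠ w → y ≠ t → y ≠ w → ∀ H : Pat α → K,
      cupO (l x) (l y) (cupO (l t) (l w) H) = cupO (l t) (l w) (cupO (l x) (l y) H) := by
    intro x y t w h1 h2 h3 h4 H
    have c1 : Commute (cupO (l x) (l y) : Op α K) (cupO (l t) (l w)) :=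
      cupO_comm (ne h1) (ne h2) (ne h3) (ne h4)
    exact congrArg (fun X : Op α K => X H) c1.eq
  rw [Fin.sum_univ_four, Fc_apply]
  rcases fin4 a with rfl | rfl | rfl | rfl
  · rw [sy 3 0, cc 1 2 0 3 (by decide) (by decide) (by decide) (by decide)]
    simp only [Fc_apply, Cell.res]
    rw [ez, e0 1 2 (by decide) (by decide), e0 1 3 (by decide) (by decide), e0 2 3 (by decide) (by decide)]
    simp only [e1 0]
    ring
  · rw [sy 0 1 G, sy 0 1 (cupO (l 2) (l 3) G), sy 3 0 G]
    simp only [Fc_apply, Cell.res]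
    rw [ez, e0 0 2 (by decide) (by decide), e0 0 3 (by decide) (by decide), e0 2 3 (by decide) (by decide)]
    simp only [e1 1]
    ring
  · rw [cc 0 1 2 3 (by decide) (by decide) (by decide) (by decide), sy 3 0 G, sy 1 2 G,
      sy 1 2 (cupO (l 0) (l 3) G), sy 0 2 G]
    simp only [Fc_apply, Cell.res]
    rw [ez, e0 0 1 (by decide) (by decide), e0 0 3 (by decide) (by decide), e0 1 3 (by decide) (by decide)]
    simp only [e1 2]
    ring
  · rw [sy 2 3, cc 0 1 3 2 (by decide) (by decide) (by decide) (by decide),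
      cc 1 2 3 0 (by decide) (by decide) (by decide) (by decide), sy 0 3, sy 1 3]
    simp only [Fc_apply, Cell.res]
    rw [ez, e0 0 1 (by decide) (by decide), e0 0 2 (by decide) (by decide), e0 1 2 (by decide) (by decide)]
    simp only [e1 3]
    ring

/-! ### invariant classes of functions -/

/-- `F` vanishes at the states, different from the arc `z b`, in which `z` and `b` are joined. -/
def Vn (z b : α) (F : Pat α → K) : Prop := ∀ q : Pat α, q z = b → q ≠ sa z b → F q = 0

theorem vn_cupO {z b : α} {F : Pat α → K} (hF : Vn z b F) {h k : α} (hk : h ≠ k) (zb : z ≠ b)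
    {q : Pat α} (hq : q z = b) : cupO h k F q = 0 := by
  rw [cupO_apply]
  split_ifs with c
  · obtain ⟨c1, c2⟩ := c
    have hb : q b = z := by rw [← hq, q.inv]
    have n1 : h ≠ z := by rintro rfl; exact zb (c1.symm.trans hq)
    have n2 : k ≠ z := by rintro rfl; exact zb (c2.symm.trans hq)
    have n3 : h ≠ b := by rintro rfl; exact zb (hb.symm.trans c1)
    have n4 : k ≠ b := by rintro rfl; exact zb (hb.symm.trans c2)
    apply hF
    · simp only [cup]
      grind
    · intro e
      have e1 : (cup h k q) h = k := by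
        simp only [cup]
        grind
      rw [e, sa_o n1 n3] at e1
      exact hk e1
  · rfl

theorem Fc_joined (c : Cell K) {l : Fin 4 → α} (hl : Function.Injective l) {z b : α} (zb : z ≠ b)
    {F : Pat α → K} (hF : Vn z b F) {q : Pat α} (hq : q z = b) : Fc c l F q = c.e * F q := by
  have ne : ∀ {x y : Fin 4}, x ≠ y → l x ≠ l y := fun h e => h (hl e)
  have h1 : ∀ x y : Fin 4, x ≠ y → cupO (l x) (l y) F q = 0 := fun x y h => vn_cupO hF (ne h) zb hq
  have h2 : ∀ x y i j : Fin 4, i ≠ j → cupO (l x) (l y) (cupO (l i) (l j) F) q = 0 := by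
    intro x y i j h
    rw [cupO_apply]
    split_ifs with c
    · obtain ⟨c1, c2⟩ := c
      have hb : q b = z := by rw [← hq, q.inv]
      have n1 : l x ≠ z := by rintro rfl; exact zb (c1.symm.trans hq)
      have n2 : l y ≠ z := by rintro rfl; exact zb (c2.symm.trans hq)
      apply vn_cupO hF (ne h) zb
      simp only [cup]
      grind
    · rfl
  rw [Fc_apply, h1 0 1 (by decide), h1 0 2 (by decide), h1 0 3 (by decide), h1 1 2 (by decide),
    h1 1 3 (by decide), h1 2 3 (by decide), h2 0 1 2 3 (by decide), h2 1 2 3 0 (by decide)]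
  ring

theorem vn_Fc (c : Cell K) {l : Fin 4 → α} (hl : Function.Injective l) {z b : α} (zb : z ≠ b)
    {F : Pat α → K} (hF : Vn z b F) : Vn z b (Fc c l F) := by
  intro q h1 h2
  rw [Fc_joined c hl zb hF h1, hF q h1 h2, mul_zero]

theorem vn_Co {z b h k : α} (hk : h ≠ k) (h1 : h ≠ z) (h2 : h ≠ b) (k1 : k ≠ z)
    (k2 : k ≠ b) {F : Pat α → K} (hF : Vn z b F) :
    Vn z b (Co h k F) ∧ Co h k F (sa z b) = F (sa z b) := by
  refine ⟨fun q g1 g2 => ?_, ?_⟩
  · rw [Co_apply]
    split_ifs with c1 c2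
    · exact hF q g1 g2
    · rfl
    · rw [not_or, not_or] at c2
      obtain ⟨c3, c4, c5⟩ := c2
      have e0 := q.inv h
      have e1 := q.inv k
      have e2 : q b = z := by rw [← g1, q.inv]
      have n1 : q h ≠ z := fun e => h2 (by rw [← e0, e, g1])
      have n2 : q h ≠ b := fun e => h1 (by rw [← e0, e, e2])
      apply hF
      · simp only [cut]
        grind
      · intro e
        have e3 : (cut h k q) (q h) = q k := by
          simp only [cut]
          grind
        rw [e, sa_o n1 n2] at e3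
        exact hk (q.inj e3)
  · rw [Co_apply, if_pos ⟨sa_o h1 h2, sa_o k1 k2⟩]

/-- `F` vanishes at the states in which `x` is occupied. -/
def Oc (x : α) (F : Pat α → K) : Prop := ∀ q : Pat α, q x ≠ x → F q = 0

theorem oc_cupO {x : α} {F : Pat α → K} (hF : Oc x F) (i j : α) : Oc x (cupO i j F) := by
  intro q hq
  rw [cupO_apply]
  split_ifs with c
  · obtain ⟨c1, c2⟩ := c
    apply hF
    simp only [cup]
    grind
  · rfl

theorem oc_Fc {x : α} (c : Cell K) (l : Fin 4 → α) {F : Pat α → K} (hF : Oc x F) : Oc x (Fc c l F) := by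
  intro q hq
  rw [Fc_apply]
  have h1 : ∀ i j : Fin 4, cupO (l i) (l j) F q = 0 := fun i j => oc_cupO hF _ _ q hq
  have h2 : ∀ i j r s : Fin 4, cupO (l i) (l j) (cupO (l r) (l s) F) q = 0 :=
    fun i j r s => oc_cupO (oc_cupO hF _ _) _ _ q hq
  simp only [h1, h2, hF q hq]
  ring

theorem oc_Co {x h k : α} (h1 : h ≠ x) (h2 : k ≠ x) {F : Pat α → K} (hF : Oc x F) :
    Oc x (Co h k F) := by
  intro q hq
  rw [Co_apply]
  split_ifs with c1 c2
  · exact hF q hq
  · rfl
  · rw [not_or, not_or] at c2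
    obtain ⟨c3, c4, c5⟩ := c2
    have e0 := q.inv h
    have e1 := q.inv k
    have e2 := q.inv x
    apply hF
    simp only [cut]
    grind

/-- `F` vanishes at the states in which `x` is free. -/
def Fr (x : α) (F : Pat α → K) : Prop := ∀ q : Pat α, q x = x → F q = 0

theorem fr_cupO {x i j : α} (h1 : i ≠ x) (h2 : j ≠ x) {F : Pat α → K} (hF : Fr x F) :
    Fr x (cupO i j F) := by
  intro q hq
  rw [cupO_apply]
  split_ifs with c
  · apply hF
    simp only [cup]
    grind
  · rfl

theorem fr_Fc {x : α} (c : Cell K) {l : Fin 4 → α} (h : ∀ i, l i ≠ x) {F : Pat α → K} (hF : Fr x F) :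
    Fr x (Fc c l F) := by
  intro q hq
  rw [Fc_apply]
  have h1 : ∀ i j : Fin 4, cupO (l i) (l j) F q = 0 := fun i j => fr_cupO (h i) (h j) hF q hq
  have h2 : ∀ i j r s : Fin 4, cupO (l i) (l j) (cupO (l r) (l s) F) q = 0 :=
    fun i j r s => fr_cupO (h i) (h j) (fr_cupO (h r) (h s) hF) q hq
  simp only [h1, h2, hF q hq]
  ring

theorem fr_Co {x h k : α} (h1 : h ≠ x) (h2 : k ≠ x) {F : Pat α → K} (hF : Fr x F) :
    Fr x (Co h k F) := by
  intro q hq
  rw [Co_apply]
  split_ifs with c1 c2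
  · exact hF q hq
  · rfl
  · have e0 := q.inv h
    have e1 := q.inv k
    apply hF
    simp only [cut]
    grind

end Pool.Agent.YBC
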