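import Pool.Agent.YBC.Expl

/-!
# The exploration theorem with labelled edges

The contraction of the edges is replaced by a family of functions `Φ E` of the states; the edge of the half edge `h`
gets the factor `lam h` when the walk crosses it from `h` to `rv h`.
-/

set_option autoImplicit false

namespace Pool.Agent.YBC

open Pool.Agent.EXL Pool.Agent.EXL.Pat
open Pool.Agent.EXL.Net (Op cupO Co cupO_apply Co_apply cupO_comm cupO_Co_comm Co_comm cupO_symm Co_symm)
open Pool.Agent.UNI (Cell fin4)

variable {N : ℕ} {K : Type*} [CommRing K]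

/-- The label of a word starting through the half edge `h`: the product of the labels of the edges crossed before
every passage. -/
def lamW (lam : He N → K) : He N → List Dir → K
  | _, [] => 1
  | h, d :: t => lam h * lamW lam ((rv h).1, d) t

/-- **The family of functions** `Φ E` (`E` = the edges still contracted) with the labels `lam`. -/
structure FamL (a b : He N) (lam : He N → K) (Φ : Finset (He N) → Pat (He N) → K)
    (E0 : Finset (He N)) : Prop where
  vn : ∀ E ⊆ E0, Vn a b (Φ E) ∧ Φ E (sa a b) = 1
  oc : ∀ E ⊆ E0, ∀ x, x ∉ E → rv x ∉ E → x ≠ a → x ≠ b → Oc x (Φ E)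
  fr : ∀ E ⊆ E0, Fr a (Φ E)
  step : ∀ E ⊆ E0, ∀ h, (h ∈ E ∨ rv h ∈ E) → ∀ q : Pat (He N), q a = h →
    Φ E q = lam h * Co h (rv h) (Φ (er E h)) q

/-! ### functions which agree at the states in which `u` is joined to `v` -/

section agree

variable {α : Type*} [DecidableEq α]

/-- The functions agree at the states in which `u` is joined to `v`. -/
def AgrS (u v : α) (F F' : Pat α → K) : Prop := ∀ q : Pat α, q u = v → F q = F' q

theorem agrS_cupO {u v : α} (uv : u ≠ v) {F F' : Pat α → K} (h : AgrS u v F F') (i j : α) :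
    AgrS u v (cupO i j F) (cupO i j F') := by
  intro q hq
  rw [cupO_apply, cupO_apply]
  split_ifs with c
  · obtain ⟨c1, c2⟩ := c
    apply h
    have n1 : u ≠ i := by rintro rfl; exact uv (c1.symm.trans hq)
    have n2 : u ≠ j := by rintro rfl; exact uv (c2.symm.trans hq)
    simp only [cup]
    grind
  · rfl

theorem agrS_Fc {u v : α} (uv : u ≠ v) (c : Cell K) (l : Fin 4 → α) {F F' : Pat α → K}
    (h : AgrS u v F F') : AgrS u v (Fc c l F) (Fc c l F') := by
  intro q hq
  rw [Fc_apply, Fc_apply]
  have h1 : ∀ i j : Fin 4, cupO (l i) (l j) F q = cupO (l i) (l j) F' q :=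
    fun i j => agrS_cupO uv h _ _ q hq
  have h2 : ∀ i j r s : Fin 4, cupO (l i) (l j) (cupO (l r) (l s) F) q =
      cupO (l i) (l j) (cupO (l r) (l s) F') q :=
    fun i j r s => agrS_cupO uv (agrS_cupO uv h _ _) _ _ q hq
  rw [h q hq]
  simp only [h1, h2]

end agree

theorem agrS_FA (σ : Vx N → Cell K) (A : Finset (Vx N)) {u v : He N} (uv : u ≠ v)
    {F F' : Pat (He N) → K} (h : AgrS u v F F') : AgrS u v (FA σ A F) (FA σ A F') := by
  classical
  induction A using Finset.induction_on with
  | empty =>
    rw [FA_empty]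
    exact h
  | insert w A hw ih =>
    rw [FA_insert σ hw]
    exact agrS_Fc uv _ _ ih

/-! ### the sum in the order of the exploration -/

open scoped Classical in
/-- The total weight of the continuations which enter through the half edge `x` and end through `b`, with at most `n`
passages. -/
noncomputable def WrL (lam : He N → K) (A : Finset (Vx N)) (b : He N) :
    ℕ → (Vx N → Cell K) → He N → K
  | 0, _, _ => 0
  | n + 1, σ, x => if x.1 ∈ A then ∑ d : Dir, ((if (x.1, d) = b then ∏ u ∈ A, (up σ x d u).e else 0) +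
      lam (x.1, d) * WrL lam A b n (up σ x d) (rv (x.1, d))) else 0

section WrL

variable {lam : He N → K} {A : Finset (Vx N)} {b : He N}

theorem WrL_notMem {x : He N} (h : x.1 ∉ A) (n : ℕ) (σ : Vx N → Cell K) : WrL lam A b n σ x = 0 := by
  cases n with
  | zero => rfl
  | succ n => rw [WrL, if_neg h]

theorem WrL_zero_cell {v : Vx N} (hv : v ∈ A) : ∀ (n : ℕ) (σ : Vx N → Cell K) (x : He N),
    σ v = 0 → WrL lam A b n σ x = 0
  | 0, _, _, _ => rfl
  | n + 1, σ, x, h => by
    rw [WrL]
    split_ifs with hx
    · refine Finset.sum_eq_zero fun d _ => ?_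
      rw [prod_zero hv (up_zero h x d), WrL_zero_cell hv n _ _ (up_zero h x d), ite_self, mul_zero,
        add_zero]
    · rfl

theorem WrL_off {x : He N} {σ : Vx N → Cell K} (h : (σ x.1).Off x.2.i) (n : ℕ) :
    WrL lam A b n σ x = 0 := by
  by_cases hx : x.1 ∈ A
  · cases n with
    | zero => rfl
    | succ n =>
      rw [WrL, if_pos hx]
      refine Finset.sum_eq_zero fun d _ => ?_
      have h0 : up σ x d x.1 = 0 := by rw [up_self, res_of_off_left h]
      rw [prod_zero hx h0, WrL_zero_cell hx n _ _ h0, ite_self, mul_zero, add_zero]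
  · exact WrL_notMem hx n σ

theorem WrL_offb (hb : b.1 ∈ A) : ∀ (n : ℕ) (σ : Vx N → Cell K) (x : He N),
    (σ b.1).Off b.2.i → WrL lam A b n σ x = 0
  | 0, _, _, _ => rfl
  | n + 1, σ, x, h => by
    rw [WrL]
    split_ifs with hx
    · refine Finset.sum_eq_zero fun d _ => ?_
      rw [WrL_offb hb n _ _ (up_off h x d), mul_zero, add_zero]
      split_ifs with e
      · apply prod_zero hb
        subst e
        rw [up_self]
        exact UNI.Cell.res_of_off h
      · rfl
    · rfl

theorem WrL_b (hb : b.1 ∈ A) (n : ℕ) (σ : Vx N → Cell K) : WrL lam A b n σ b = 0 := by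
  cases n with
  | zero => rfl
  | succ n =>
    rw [WrL, if_pos hb]
    refine Finset.sum_eq_zero fun d _ => ?_
    have h0 : (up σ b d b.1).Off b.2.i := by
      rw [up_self]
      exact UNI.Cell.res_off_left _ _
    rw [WrL_offb hb n _ _ h0, mul_zero, add_zero]
    split_ifs with e
    · apply prod_zero hb
      have e2 : d = b.2 := congrArg Prod.snd e
      rw [up_self, e2, UNI.Cell.res_self]
    · rfl

end WrL

/-! ### the exploration -/

open scoped Classical in
/-- The sum over the first vertex, any function. -/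
theorem sum_stepF {A : Finset (Vx N)} (σ : Vx N → Cell K) (x : He N) (hx : x.1 ∈ A) (z : He N)
    (F : Pat (He N) → K) :
    ∑ i, Fc ((σ x.1).res x.2.i i) (hl x.1) (FA σ (A.erase x.1) F) (sa z (hl x.1 i)) =
      ∑ d : Dir, FA (up σ x d) A F (sa z (x.1, d)) := by
  rw [← Equiv.sum_comp dE]
  refine Finset.sum_congr rfl fun i _ => ?_
  have e1 : (FA (up σ x (dE i)) A : Op (He N) K) =
      Fc ((σ x.1).res x.2.i i) (hl x.1) * FA σ (A.erase x.1) := by
    rw [FA_erase _ hx, up_self]
    have : (dE i).i = i := i_dr i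
    rw [this]
    congr 1
    exact FA_congr fun u hu => up_ne _ _ _ (Finset.ne_of_mem_erase hu)
  rw [e1, Module.End.mul_apply]
  rfl

section mainL

variable {a b : He N} {lam : He N → K} {Φ : Finset (He N) → Pat (He N) → K} {E0 : Finset (He N)}

open scoped Classical in
theorem mainL (hP : FamL a b lam Φ E0) {A : Finset (Vx N)} (hb : b.1 ∈ A) (hab : a ≠ b) : ∀ (n : ℕ)
    (σ : Vx N → Cell K) (E : Finset (He N)) (_ : E ⊆ E0) (_ : EE E) (h : He N), E.card ≤ n →
    h.1 ∈ A → (σ h.1).Off h.2.i → (σ a.1).Off a.2.i → h ≠ a →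
    (∀ k ∈ E, k.1 ∈ A ∧ (rv k).1 ∈ A) → (∀ k ∈ E, k ≠ a ∧ k ≠ b ∧ rv k ≠ a ∧ rv k ≠ b) →
    (∀ k : He N, k.1 ∈ A → (rv k).1 ∈ A → k ∈ E ∨ rv k ∈ E ∨ k = a ∨ k = rv a ∨ k = b ∨ k = rv b ∨
      ((σ k.1).Off k.2.i ∧ (σ (rv k).1).Off (rv k).2.i)) →
    FA σ A (Φ E) (sa a h) =
      (if h = b then ∏ u ∈ A, (σ u).e else 0) + lam h * WrL lam A b n σ (rv h) := by
  intro n
  induction n with
  | zero =>
    intro σ E hs hE h hn h1 hoff aoff ha memE nE hall
    by_cases hhb : h = b
    · subst hhb
      rw [if_pos rfl]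
      have k1 := hP.vn E hs
      rw [(vn_FA σ A hab k1.1).2, k1.2, mul_one]
      simp [WrL]
    · rw [if_neg hhb]
      have hE0 : E = ∅ := Finset.card_eq_zero.1 (by omega)
      have e1 : h ∉ E := by rw [hE0]; exact Finset.notMem_empty _
      have e2 : rv h ∉ E := by rw [hE0]; exact Finset.notMem_empty _
      rw [oc_FA σ A (hP.oc E hs h e1 e2 ha hhb) (sa a h) (by rw [sa_p]; exact ha.symm)]
      simp [WrL]
  | succ n ih =>
    intro σ E hs hE h hn h1 hoff aoff ha memE nE hall
    by_cases hhb : h = b
    · subst hhb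
      rw [if_pos rfl, WrL_offb hb _ _ _ hoff, mul_zero, add_zero]
      have k1 := hP.vn E hs
      rw [(vn_FA σ A hab k1.1).2, k1.2, mul_one]
    · rw [if_neg hhb, zero_add]
      by_cases he : h ∈ E ∨ rv h ∈ E
      · have hw : (rv h).1 ∈ A := by
          rcases he with he | he
          · exact (memE h he).2
          · exact (memE _ he).1
        have hra : rv h ≠ a := by
          rcases he with he | he
          · exact (nE h he).2.2.1
          · exact (nE _ he).1
        rw [WrL, if_pos hw]
        -- the operator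
        have c1 : Commute (Co h (rv h) : Op (He N) K) (FA σ (A.erase (rv h).1)) := by
          refine Finset.noncommProd_commute _ _ _ _ (fun u hu => ?_)
          refine (Fc_Co_comm (fun i e => ?_) (fun i e => ?_)).symm
          · obtain ⟨e1, e2⟩ := hl_eq e
            rw [e1, e2]
            exact hoff
          · exact absurd (hl_eq e).1 (Finset.ne_of_mem_erase hu)
        have e1 : FA σ A (Co h (rv h) (Φ (er E h))) =
            Fc (σ (rv h).1) (hl (rv h).1) (Co h (hl (rv h).1 (rv h).2.i) (FA σ (A.erase (rv h).1)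
              (Φ (er E h)))) := by
          rw [hl_i, FA_erase σ hw]
          have c2 := congrArg (fun X : Op (He N) K => X (Φ (er E h))) c1.eq
          simp only [Module.End.mul_apply] at c2 ⊢
          rw [c2]
        have e0 : FA σ A (Φ E) (sa a h) = lam h * FA σ A (Co h (rv h) (Φ (er E h))) (sa a h) := by
          have k1 : AgrS a h (Φ E) (lam h • Co h (rv h) (Φ (er E h))) := fun q hq => by
            rw [hP.step E hs h he q hq]
            rfl
          rw [agrS_FA σ A ha.symm k1 (sa a h) sa_z, LinearMap.map_smul]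
          rfl
        rw [e0, e1, step_Fc (hl_inj _) ha.symm (fun i e => ?_) (fun i e => ?_)
          (by rw [hl_i]; exact hra) (by rw [hl_i]; exact rv_ne h), sum_stepF σ (rv h) hw]
        · congr 1
          refine Finset.sum_congr rfl fun d _ => ?_
          by_cases hz : (σ (rv h).1).res (rv h).2.i d.i = 0
          · have h0 : up σ (rv h) d (rv h).1 = 0 := by rw [up_self, hz]
            rw [FA_zero hw h0, prod_zero hw h0, WrL_zero_cell hw _ _ _ h0, ite_self, mul_zero,
              add_zero]
            rfl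
          · have hoffd : ¬ (σ (rv h).1).Off d.i := fun o => hz (UNI.Cell.res_of_off o)
            refine ih (up σ (rv h) d) (er E h) ((er_sub E h).trans hs) (hE.sub (er_sub E h))
              ((rv h).1, d) ?_ hw ?_ ?_ ?_ ?_ ?_ ?_
            · have := er_card hE he
              omega
            · rw [up_self]
              exact UNI.Cell.res_off_right _ _
            · exact up_off aoff _ _
            · rintro rfl
              exact hoffd aoff
            · exact fun k hk => memE k (er_sub E h hk)
            · exact fun k hk => nE k (er_sub E h hk)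
            · intro k k1 k2
              -- the edge of `h`
              have used : ∀ k, k = h ∨ k = rv h →
                  (up σ (rv h) d k.1).Off k.2.i := by
                rintro k (rfl | rfl)
                · exact up_off hoff _ _
                · rw [up_self]
                  exact UNI.Cell.res_off_left _ _
              by_cases c : k = h ∨ k = rv h
              · refine Or.inr (Or.inr (Or.inr (Or.inr (Or.inr (Or.inr ⟨used k c, used (rv k) ?_⟩)))))
                rcases c with rfl | rfl
                · exact Or.inr rfl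
                · exact Or.inl (rv_rv h)
              · rw [not_or] at c
                rcases hall k k1 k2 with q | q | q | q | q | q | ⟨q1, q2⟩
                · exact Or.inl (mem_er.2 ⟨c.2, c.1, q⟩)
                · refine Or.inr (Or.inl (mem_er.2 ⟨fun e => c.1 (rv_inj e), fun e => c.2 ?_, q⟩))
                  rw [← e, rv_rv]
                · exact Or.inr (Or.inr (Or.inl q))
                · exact Or.inr (Or.inr (Or.inr (Or.inl q)))
                · exact Or.inr (Or.inr (Or.inr (Or.inr (Or.inl q))))
                · exact Or.inr (Or.inr (Or.inr (Or.inr (Or.inr (Or.inl q)))))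
                · exact Or.inr (Or.inr (Or.inr (Or.inr (Or.inr (Or.inr
                    ⟨up_off q1 _ _, up_off q2 _ _⟩)))))
        · obtain ⟨e2, e3⟩ := hl_eq e
          rw [e2, e3]
          exact aoff
        · obtain ⟨e2, e3⟩ := hl_eq e
          rw [e2, e3]
          exact hoff
      · rw [not_or] at he
        rw [oc_FA σ A (hP.oc E hs h he.1 he.2 ha hhb) (sa a h) (by rw [sa_p]; exact ha.symm)]
        symm
        have z0 : WrL lam A b (n + 1) σ (rv h) = 0 := by
          by_cases hw : (rv h).1 ∈ A
          · rcases hall h h1 hw with q | q | q | q | q | q | ⟨-, q⟩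
            · exact absurd q he.1
            · exact absurd q he.2
            · exact absurd q ha
            · rw [q, rv_rv]
              exact WrL_off aoff _
            · exact absurd q hhb
            · rw [q, rv_rv]
              exact WrL_b hb _ _
            · exact WrL_off q _
          · exact WrL_notMem hw _ _
        rw [z0, mul_zero]

/-- The first step. -/
theorem explL_first (hP : FamL a b lam Φ E0) {A : Finset (Vx N)} (hA : a.1 ∈ A) (hb : b.1 ∈ A)
    (hab : a ≠ b) (σ : Vx N → Cell K) {E : Finset (He N)} (hs : E ⊆ E0) (hE : EE E) {n : ℕ}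
    (hn : E.card ≤ n)
    (memE : ∀ k ∈ E, k.1 ∈ A ∧ (rv k).1 ∈ A) (nE : ∀ k ∈ E, k ≠ a ∧ k ≠ b ∧ rv k ≠ a ∧ rv k ≠ b)
    (hall : ∀ k : He N, k.1 ∈ A → (rv k).1 ∈ A →
      k ∈ E ∨ rv k ∈ E ∨ k = a ∨ k = rv a ∨ k = b ∨ k = rv b) :
    FA σ A (Φ E) Pat.empty = WrL lam A b (n + 1) σ a := by
  classical
  rw [WrL, if_pos hA]
  have e1 : FA σ A (Φ E) = Fc (σ a.1) (hl a.1) (FA σ (A.erase a.1) (Φ E)) := by
    rw [FA_erase σ hA]
    rfl
  have hG : ∀ q : Pat (He N), q (hl a.1 a.2.i) = hl a.1 a.2.i →
      FA σ (A.erase a.1) (Φ E) q = 0 := by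
    rw [hl_i]
    exact fr_FA σ _ (Finset.notMem_erase _ _) (hP.fr E hs)
  rw [e1, first_Fc (hl_inj _) (a := a.2.i) hG, hl_i, sum_stepF σ a hA]
  refine Finset.sum_congr rfl fun d _ => ?_
  by_cases hz : (σ a.1).res a.2.i d.i = 0
  · have h0 : up σ a d a.1 = 0 := by rw [up_self, hz]
    rw [FA_zero hA h0, prod_zero hA h0, WrL_zero_cell hA _ _ _ h0, ite_self, mul_zero, add_zero]
    rfl
  · refine mainL hP hb hab n (up σ a d) E hs hE (a.1, d) hn hA ?_ ?_ ?_ memE nE ?_
    · rw [up_self]
      exact UNI.Cell.res_off_right _ _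
    · rw [up_self]
      exact UNI.Cell.res_off_left _ _
    · intro e
      have e2 : d = a.2 := congrArg Prod.snd e
      exact hz (by rw [e2, UNI.Cell.res_self])
    · intro k k1 k2
      rcases hall k k1 k2 with q | q | q | q | q | q
      · exact Or.inl q
      · exact Or.inr (Or.inl q)
      · exact Or.inr (Or.inr (Or.inl q))
      · exact Or.inr (Or.inr (Or.inr (Or.inl q)))
      · exact Or.inr (Or.inr (Or.inr (Or.inr (Or.inl q))))
      · exact Or.inr (Or.inr (Or.inr (Or.inr (Or.inr (Or.inl q)))))

end mainL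

/-! ### words -/

open scoped Classical in
theorem WrL_words (lam : He N → K) (A : Finset (Vx N)) (b : He N) : ∀ (n : ℕ) (σ : Vx N → Cell K)
    (h : He N),
    (∑ t ∈ words n, if (∀ x ∈ pass h t, x.1 ∈ A) ∧ fin h t = b then
      (∏ v ∈ A, pwD (σ v) (psAt (pass h t) v)) * lamW lam h t else 0) =
      (if h = b then ∏ u ∈ A, (σ u).e else 0) + lam h * WrL lam A b n σ (rv h) := by
  have nil : ∀ (σ : Vx N → Cell K) (h : He N), (if (∀ x ∈ pass h [], x.1 ∈ A) ∧ fin h [] = b then
      (∏ v ∈ A, pwD (σ v) (psAt (pass h []) v)) * lamW lam h [] else 0) =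
        if h = b then ∏ u ∈ A, (σ u).e else 0 := by
    intro σ h
    have e : ((∀ x ∈ pass h [], x.1 ∈ A) ∧ fin h [] = b) ↔ h = b := by
      simp [pass, fin]
    simp only [e, lamW, mul_one]
    rfl
  intro n
  induction n with
  | zero =>
    intro σ h
    rw [words, Finset.sum_singleton, nil]
    simp [WrL]
  | succ n ih =>
    intro σ h
    rw [sum_words_succ, nil, WrL]
    congr 1
    by_cases hw : (rv h).1 ∈ A
    · rw [if_pos hw, Finset.mul_sum]
      refine Finset.sum_congr rfl fun d _ => ?_
      rw [← ih, Finset.mul_sum]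
      refine Finset.sum_congr rfl fun t _ => ?_
      have e : ((∀ x ∈ pass h (d :: t), x.1 ∈ A) ∧ fin h (d :: t) = b) ↔
          ((∀ x ∈ pass ((rv h).1, d) t, x.1 ∈ A) ∧ fin ((rv h).1, d) t = b) := by
        rw [pass, fin]
        simp [hw]
      simp only [e]
      have e2 : ∏ v ∈ A, pwD (σ v) (psAt (pass h (d :: t)) v) =
          ∏ v ∈ A, pwD (up σ (rv h) d v) (psAt (pass ((rv h).1, d) t) v) := by
        refine Finset.prod_congr rfl fun v _ => ?_
        rw [pass, psAt_cons]
        by_cases hv : (rv h).1 = v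
        · subst hv
          rw [if_pos rfl, up_self, pwD]
        · rw [if_neg hv, up_ne _ _ _ (Ne.symm hv)]
      rw [e2, lamW]
      split_ifs
      · ring
      · ring
    · rw [if_neg hw, mul_zero]
      refine Finset.sum_eq_zero fun d _ => Finset.sum_eq_zero fun t _ => ?_
      rw [if_neg]
      rintro ⟨h1, -⟩
      exact hw (h1 _ (by rw [pass]; exact List.mem_cons_self))

/-- All vertices of the list. -/
theorem Vt_prod (w : Vx N → W5 K) {LA : List (Vx N)} (h1 : LA.Nodup) :
    ((LA.map fun v => Vt (w v) v).prod : Op (He N) K) = FA (fun v => ofW (w v)) LA.toFinset := by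
  rw [FA_toFinset _ h1]
  congr 2
  funext v
  exact Vt_eq _ _

open scoped Classical in
/-- **The exploration theorem with labelled edges.** -/
theorem explL (w : Vx N → W5 K) {LA : List (Vx N)} {LE : List (He N)} {a b : He N}
    (h : ExH LA LE a b) {lam : He N → K} {Φ : Finset (He N) → Pat (He N) → K}
    (hP : FamL a b lam Φ LE.toFinset) (h1 : lam (rv a) = 1) {n : ℕ} (hn : LE.length + 1 ≤ n) :
    (LA.map fun v => Vt (w v) v).prod (Φ LE.toFinset) Pat.empty =
      ∑ t ∈ (words n).filter (fun t => (∀ x ∈ pass (rv a) t, x.1 ∈ LA.toFinset) ∧ fin (rv a) t = b),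
        (∏ v ∈ LA.toFinset, (w v).lw (psAt (pass (rv a) t) v)) * lamW lam (rv a) t := by
  have hE : EE LE.toFinset := fun k hk h' => h.rvE k (List.mem_toFinset.1 hk) (List.mem_toFinset.1 h')
  rw [Vt_prod w h.ndA]
  obtain ⟨m, rfl⟩ : ∃ m, n = m + 1 := ⟨n - 1, by omega⟩
  have hc : LE.toFinset.card ≤ m := by
    rw [List.toFinset_card_of_nodup h.ndE]
    omega
  have e1 := explL_first hP (List.mem_toFinset.2 h.ha) (List.mem_toFinset.2 h.hb) h.hab
    (fun v => ofW (w v)) (Finset.Subset.refl _) hE hc
    (fun k hk => by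
      have := h.memE k (List.mem_toFinset.1 hk)
      exact ⟨List.mem_toFinset.2 this.1, List.mem_toFinset.2 this.2⟩)
    (fun k hk => h.nE k (List.mem_toFinset.1 hk))
    (fun k k1 k2 => by
      simp only [List.mem_toFinset] at k1 k2 ⊢
      exact h.all k k1 k2)
  refine e1.trans ?_
  have e2 := WrL_words lam LA.toFinset b (m + 1) (fun v => ofW (w v)) (rv a)
  rw [if_neg h.hab', rv_rv, zero_add, h1, one_mul] at e2
  rw [← e2, Finset.sum_filter]
  refine Finset.sum_congr rfl fun t _ => ?_
  simp only [pwD_ofW]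

end Pool.Agent.YBC
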