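import Pool.Agent.YBC.Sum4

/-!
# The lists of the vertices and of the edges
-/

set_option autoImplicit false

namespace Pool.Agent.YBC

open Pool.Agent.EXL hiding cc
open Pool.Agent.EXL.Pat Pool.Agent.EXL.Net
open Pool.Agent.NUF.Cyl (UO PO PL PL_apply PL_cons seam UO_apply PO_apply Co_eq_glue)

variable {K : Type*} [CommRing K] {N : ℕ}

theorem mem_LVr {m : ℕ} {v : ℤ × ℕ} : v ∈ LVr N m ↔ 0 ≤ v.1 ∧ v.1 < m ∧ v.2 < N := by
  induction m with
  | zero =>
    simp only [LVr, List.not_mem_nil, false_iff]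
    push_cast
    omega
  | succ m ih =>
    have e : LVr N (m + 1) = (List.range N).map (fun i => ((m : ℤ), i)) ++ LVr N m := rfl
    rw [e, List.mem_append, ih, List.mem_map]
    constructor
    · rintro (⟨i, hi, rfl⟩ | h)
      · rw [List.mem_range] at hi
        push_cast
        exact ⟨by simp, by simp, hi⟩
      · push_cast
        omega
    · intro h
      push_cast at h
      by_cases h1 : v.1 = m
      · exact Or.inl ⟨v.2, List.mem_range.2 h.2.2, by rw [← h1]⟩
      · exact Or.inr (by omega)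

theorem nodup_LVr (m : ℕ) : (LVr N m).Nodup := by
  induction m with
  | zero => exact List.nodup_nil
  | succ m ih =>
    have e : LVr N (m + 1) = (List.range N).map (fun i => ((m : ℤ), i)) ++ LVr N m := rfl
    rw [e, List.nodup_append]
    refine ⟨List.nodup_range.map fun i j h => (Prod.ext_iff.1 h).2, ih, ?_⟩
    intro a ha b hb hab
    obtain ⟨i, _, rfl⟩ := List.mem_map.1 ha
    rw [mem_LVr, ← hab] at hb
    simp at hb

theorem mem_LVl {m : ℕ} {v : ℤ × ℕ} : v ∈ LVl N m ↔ -(m : ℤ) ≤ v.1 ∧ v.1 < 0 ∧ v.2 < N := by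
  induction m with
  | zero =>
    simp only [LVl, List.not_mem_nil, false_iff]
    push_cast
    omega
  | succ m ih =>
    have e : LVl N (m + 1) = (List.range N).reverse.map (fun i => (-(m : ℤ) - 1, i)) ++ LVl N m := rfl
    rw [e, List.mem_append, ih, List.mem_map]
    constructor
    · rintro (⟨i, hi, rfl⟩ | h)
      · rw [List.mem_reverse, List.mem_range] at hi
        push_cast
        refine ⟨?_, ?_, hi⟩
        · omega
        · omega
      · push_cast
        omega
    · intro h
      push_cast at h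
      by_cases h1 : v.1 = -(m : ℤ) - 1
      · exact Or.inl ⟨v.2, List.mem_reverse.2 (List.mem_range.2 h.2.2), by rw [← h1]⟩
      · exact Or.inr (by omega)

theorem nodup_LVl (m : ℕ) : (LVl N m).Nodup := by
  induction m with
  | zero => exact List.nodup_nil
  | succ m ih =>
    have e : LVl N (m + 1) = (List.range N).reverse.map (fun i => (-(m : ℤ) - 1, i)) ++ LVl N m := rfl
    rw [e, List.nodup_append]
    refine ⟨(List.nodup_reverse.2 List.nodup_range).map fun i j h => (Prod.ext_iff.1 h).2, ih, ?_⟩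
    intro a ha b hb hab
    obtain ⟨i, _, rfl⟩ := List.mem_map.1 ha
    rw [mem_LVl, ← hab] at hb
    simp only at hb
    omega

theorem mem_LEr (hN : 1 ≤ N) {m : ℕ} {e : ℤ × ℕ × Bool} : e ∈ LEr N m ↔ 0 ≤ e.1 ∧ e.1 < m ∧ e.2.1 < N := by
  induction m with
  | zero =>
    simp only [LEr, List.not_mem_nil, false_iff]
    push_cast
    omega
  | succ m ih =>
    have e0 : LEr N (m + 1) = (((m : ℤ), N - 1, true) :: ((List.range (N - 1)).map (fun i => ((m : ℤ), i, true)) ++
      (List.range N).map (fun i => ((m : ℤ), i, false)))) ++ LEr N m := rfl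
    rw [e0, List.mem_append, ih, List.mem_cons, List.mem_append, List.mem_map, List.mem_map]
    constructor
    · rintro ((rfl | ⟨i, hi, rfl⟩ | ⟨i, hi, rfl⟩) | h)
      · push_cast
        refine ⟨by simp, by simp, ?_⟩
        omega
      · rw [List.mem_range] at hi
        push_cast
        refine ⟨by simp, by simp, ?_⟩
        omega
      · rw [List.mem_range] at hi
        push_cast
        exact ⟨by simp, by simp, hi⟩
      · push_cast
        omega
    · intro h
      push_cast at h
      obtain ⟨k, i, b⟩ := e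
      simp only at h ⊢
      by_cases h1 : k = m
      · left
        subst h1
        cases b
        · exact Or.inr (Or.inr ⟨i, List.mem_range.2 h.2.2, rfl⟩)
        · by_cases h2 : i = N - 1
          · exact Or.inl (by rw [h2])
          · exact Or.inr (Or.inl ⟨i, List.mem_range.2 (by omega), rfl⟩)
      · exact Or.inr (by omega)

theorem nodup_LEr (hN : 1 ≤ N) (m : ℕ) : (LEr N m).Nodup := by
  induction m with
  | zero => exact List.nodup_nil
  | succ m ih =>
    have e0 : LEr N (m + 1) = (((m : ℤ), N - 1, true) :: ((List.range (N - 1)).map (fun i => ((m : ℤ), i, true)) ++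
      (List.range N).map (fun i => ((m : ℤ), i, false)))) ++ LEr N m := rfl
    rw [e0, List.nodup_append]
    refine ⟨?_, ih, ?_⟩
    · rw [List.nodup_cons, List.nodup_append]
      refine ⟨?_, List.nodup_range.map fun i j h => ?_, List.nodup_range.map fun i j h => ?_, ?_⟩
      · rw [List.mem_append, List.mem_map, List.mem_map]
        rintro (⟨i, hi, h⟩ | ⟨i, hi, h⟩)
        · rw [List.mem_range] at hi
          simp only [Prod.mk.injEq] at h
          omega
        · simp at h
      · simp only [Prod.mk.injEq] at h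
        exact h.2.1
      · simp only [Prod.mk.injEq] at h
        exact h.2.1
      · intro a ha b hb hab
        obtain ⟨i, _, rfl⟩ := List.mem_map.1 ha
        obtain ⟨j, _, rfl⟩ := List.mem_map.1 hb
        simp at hab
    · intro a ha b hb hab
      have h1 : a.1 = m := by
        rw [List.mem_cons, List.mem_append, List.mem_map, List.mem_map] at ha
        rcases ha with rfl | ⟨i, _, rfl⟩ | ⟨i, _, rfl⟩ <;> rfl
      rw [mem_LEr hN, ← hab] at hb
      omega

theorem mem_LEl (hN : 1 ≤ N) {m : ℕ} {e : ℤ × ℕ × Bool} : e ∈ LEl N m ↔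
    ((e.2.2 = true ∧ -(m : ℤ) ≤ e.1 ∧ e.1 < 0) ∨ (e.2.2 = false ∧ -(m : ℤ) - 1 ≤ e.1 ∧ e.1 < -1)) ∧ e.2.1 < N := by
  induction m with
  | zero =>
    simp only [LEl, List.not_mem_nil, false_iff]
    push_cast
    omega
  | succ m ih =>
    have e0 : LEl N (m + 1) = ((-(m : ℤ) - 1, N - 1, true) ::
      ((List.range (N - 1)).reverse.map (fun i => (-(m : ℤ) - 1, i, true)) ++
      (List.range N).reverse.map (fun i => (-(m : ℤ) - 1 - 1, i, false)))) ++ LEl N m := rfl
    rw [e0, List.mem_append, ih, List.mem_cons, List.mem_append, List.mem_map, List.mem_map]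
    constructor
    · rintro ((rfl | ⟨i, hi, rfl⟩ | ⟨i, hi, rfl⟩) | h)
      · push_cast
        refine ⟨Or.inl ⟨rfl, ?_, ?_⟩, ?_⟩ <;> omega
      · rw [List.mem_reverse, List.mem_range] at hi
        push_cast
        refine ⟨Or.inl ⟨rfl, ?_, ?_⟩, ?_⟩ <;> omega
      · rw [List.mem_reverse, List.mem_range] at hi
        push_cast
        refine ⟨Or.inr ⟨rfl, ?_, ?_⟩, ?_⟩ <;> omega
      · push_cast
        obtain ⟨h1, h2⟩ := h
        refine ⟨?_, h2⟩
        rcases h1 with h1 | h1
        · exact Or.inl ⟨h1.1, by omega, by omega⟩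
        · exact Or.inr ⟨h1.1, by omega, by omega⟩
    · intro h
      push_cast at h
      obtain ⟨k, i, b⟩ := e
      simp only at h ⊢
      cases b
      · by_cases h1 : k = -(m : ℤ) - 1 - 1
        · left
          rw [h1]
          exact Or.inr (Or.inr ⟨i, List.mem_reverse.2 (List.mem_range.2 h.2), rfl⟩)
        · right
          simp only [Bool.false_eq_true, false_and, true_and, false_or] at h ⊢
          omega
      · by_cases h1 : k = -(m : ℤ) - 1
        · left
          rw [h1]
          by_cases h2 : i = N - 1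
          · exact Or.inl (by rw [h2])
          · exact Or.inr (Or.inl ⟨i, List.mem_reverse.2 (List.mem_range.2 (by omega)), rfl⟩)
        · right
          simp only [Bool.true_eq_false, false_and, true_and, or_false] at h ⊢
          omega

theorem nodup_LEl (hN : 1 ≤ N) (m : ℕ) : (LEl N m).Nodup := by
  induction m with
  | zero => exact List.nodup_nil
  | succ m ih =>
    have e0 : LEl N (m + 1) = ((-(m : ℤ) - 1, N - 1, true) ::
      ((List.range (N - 1)).reverse.map (fun i => (-(m : ℤ) - 1, i, true)) ++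
      (List.range N).reverse.map (fun i => (-(m : ℤ) - 1 - 1, i, false)))) ++ LEl N m := rfl
    rw [e0, List.nodup_append]
    refine ⟨?_, ih, ?_⟩
    · rw [List.nodup_cons, List.nodup_append]
      refine ⟨?_, (List.nodup_reverse.2 List.nodup_range).map fun i j h => ?_,
        (List.nodup_reverse.2 List.nodup_range).map fun i j h => ?_, ?_⟩
      · rw [List.mem_append, List.mem_map, List.mem_map]
        rintro (⟨i, hi, h⟩ | ⟨i, hi, h⟩)
        · rw [List.mem_reverse, List.mem_range] at hi
          simp only [Prod.mk.injEq] at h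
          omega
        · simp at h
      · simp only [Prod.mk.injEq] at h
        exact h.2.1
      · simp only [Prod.mk.injEq] at h
        exact h.2.1
      · intro a ha b hb hab
        obtain ⟨i, _, rfl⟩ := List.mem_map.1 ha
        obtain ⟨j, _, rfl⟩ := List.mem_map.1 hb
        simp at hab
    · intro a ha b hb hab
      have h1 : (a.2.2 = true ∧ a.1 = -(m : ℤ) - 1) ∨ (a.2.2 = false ∧ a.1 = -(m : ℤ) - 1 - 1) := by
        rw [List.mem_cons, List.mem_append, List.mem_map, List.mem_map] at ha
        rcases ha with rfl | ⟨i, _, rfl⟩ | ⟨i, _, rfl⟩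
        · exact Or.inl ⟨rfl, rfl⟩
        · exact Or.inl ⟨rfl, rfl⟩
        · exact Or.inr ⟨rfl, rfl⟩
      rw [mem_LEl hN, ← hab] at hb
      obtain ⟨h2, h3⟩ := hb
      rcases h1 with h1 | h1 <;> rcases h2 with h2 | h2
      · omega
      · rw [h1.1] at h2
        exact absurd h2.1 (by decide)
      · rw [h1.1] at h2
        exact absurd h2.1 (by decide)
      · omega

/-- the seam. -/
def LS (l : List (Fin N)) : List (ℤ × ℕ × Bool) := l.map fun a : Fin N => (-1, (a : ℕ), false)

/-- all edges. -/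
def LT (N m : ℕ) (l : List (Fin N)) : List (ℤ × ℕ × Bool) := LEr N m ++ LEl N m ++ LS l

theorem mem_LS {l : List (Fin N)} {e : ℤ × ℕ × Bool} :
    e ∈ LS l ↔ e.1 = -1 ∧ e.2.2 = false ∧ ∃ h : e.2.1 < N, (⟨e.2.1, h⟩ : Fin N) ∈ l := by
  unfold LS
  rw [List.mem_map]
  constructor
  · rintro ⟨a, ha, rfl⟩
    exact ⟨rfl, rfl, a.2, ha⟩
  · rintro ⟨h1, h2, h3, h4⟩
    refine ⟨_, h4, ?_⟩
    rw [← h1, ← h2]

theorem mem_LT (hN : 1 ≤ N) {m : ℕ} {l : List (Fin N)} {e : ℤ × ℕ × Bool} : e ∈ LT N m l ↔
    (e.2.2 = true ∧ -(m : ℤ) ≤ e.1 ∧ e.1 < m ∧ e.2.1 < N) ∨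
    (e.2.2 = false ∧ -(m : ℤ) - 1 ≤ e.1 ∧ e.1 < m ∧ ∃ h : e.2.1 < N, (e.1 = -1 → (⟨e.2.1, h⟩ : Fin N) ∈ l)) := by
  unfold LT
  rw [List.mem_append, List.mem_append, mem_LEr hN, mem_LEl hN, mem_LS]
  obtain ⟨k, i, b⟩ := e
  simp only
  cases b
  · simp only [Bool.false_eq_true, false_and, true_and, false_or]
    constructor
    · rintro ((h | h) | h)
      · exact ⟨by omega, by omega, h.2.2, fun h' => by omega⟩
      · exact ⟨by omega, by omega, h.2, fun h' => by omega⟩
      · obtain ⟨h1, h2, h3⟩ := h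
        exact ⟨by omega, by omega, h2, fun _ => h3⟩
    · rintro ⟨h1, h2, h3, h4⟩
      by_cases c : k = -1
      · exact Or.inr ⟨c, h3, h4 c⟩
      · by_cases c2 : 0 ≤ k
        · exact Or.inl (Or.inl ⟨c2, h2, h3⟩)
        · exact Or.inl (Or.inr ⟨⟨by omega, by omega⟩, h3⟩)
  · simp only [Bool.true_eq_false, false_and, true_and, or_false, and_false]
    omega

theorem nodup_LT (hN : 1 ≤ N) (m : ℕ) {l : List (Fin N)} (hl : l.Nodup) : (LT N m l).Nodup := by
  unfold LT
  rw [List.nodup_append, List.nodup_append]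
  refine ⟨⟨nodup_LEr hN m, nodup_LEl hN m, ?_⟩, hl.map fun a b h => ?_, ?_⟩
  · intro a ha b hb hab
    rw [← hab, mem_LEl hN] at hb
    rw [mem_LEr hN] at ha
    omega
  · simp only [Prod.mk.injEq] at h
    exact Fin.ext h.2.1
  · intro a ha b hb hab
    rw [← hab, mem_LS] at hb
    rw [List.mem_append, mem_LEr hN, mem_LEl hN] at ha
    rcases ha with ha | ⟨ha | ha, _⟩
    · omega
    · rw [hb.2.1] at ha
      exact absurd ha.1 (by decide)
    · omega

/-- the lower end of the upper half edge. -/
def sc (N i : ℕ) : ℕ := if i + 1 = N then 0 else i + 1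

theorem sc_inj {i j : ℕ} (h : sc N i = sc N j) : i = j := by
  unfold sc at h
  split_ifs at h <;> omega

theorem Ev_eq (k : ℤ) (i : ℕ) : Ev N K k i = Co (lN k i) (lS k (sc N i)) := by
  unfold Ev sc
  split_ifs
  · simp
  · push_cast
    rfl

/-- different edges commute. -/
theorem eo_comm {e e' : ℤ × ℕ × Bool} (h : e ≠ e') (h1 : e.2.1 < N) (h2 : e'.2.1 < N) :
    Commute (eo N K e) (eo N K e') := by
  obtain ⟨k, i, b⟩ := e
  obtain ⟨k', i', b'⟩ := e'
  simp only at h1 h2
  unfold eo
  cases b <;> cases b' <;> simp only [Bool.false_eq_true, if_false, if_true]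
  · have h3 : ¬ (k = k' ∧ i = i') := fun h' => h (by rw [h'.1, h'.2])
    unfold Eh
    refine comm_CoCo ?_ (by simp) (by simp) ?_
    · simp only [Ne, lE_inj]
      omega
    · simp only [Ne, lW_inj]
      omega
  · rw [Ev_eq]
    unfold Eh
    exact comm_CoCo (by simp) (by simp) (by simp) (by simp)
  · rw [Ev_eq]
    unfold Eh
    exact comm_CoCo (by simp) (by simp) (by simp) (by simp)
  · have h3 : ¬ (k = k' ∧ i = i') := fun h' => h (by rw [h'.1, h'.2])
    rw [Ev_eq, Ev_eq]
    refine comm_CoCo ?_ (by simp) (by simp) ?_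
    · simp only [Ne, lN_inj]
      omega
    · simp only [Ne, lS_inj]
      rintro ⟨e1, e2⟩
      exact h3 ⟨e1, sc_inj (N := N) (by exact_mod_cast e2)⟩

theorem lt_of_LT (hN : 1 ≤ N) {m : ℕ} {l : List (Fin N)} {e : ℤ × ℕ × Bool} (h : e ∈ LT N m l) : e.2.1 < N := by
  rw [mem_LT hN] at h
  rcases h with h | ⟨_, _, _, h, _⟩
  · exact h.2.2.2
  · exact h

/-- the inner edges. -/
def inn (m : ℕ) (e : ℤ × ℕ × Bool) : Bool := e.2.2 || (decide (-(m : ℤ) ≤ e.1) && decide (e.1 + 1 < m))

/-- the product of all edges = inner edges, then outer edges. -/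
theorem prod_LT (hN : 1 ≤ N) (m : ℕ) {l : List (Fin N)} (hl : l.Nodup) :
    ((LT N m l).map (eo N K)).prod =
      (((LT N m l).filter (inn m)).map (eo N K)).prod *
        (((LT N m l).filter (fun e => ! inn m e)).map (eo N K)).prod := by
  rw [← List.prod_append, ← List.map_append]
  refine List.Perm.prod_eq' ((List.filter_append_perm _ _).symm.map _) ?_
  rw [List.pairwise_map]
  have h1 := nodup_LT hN m hl
  refine List.Pairwise.imp_of_mem (fun {a b} ha hb hab => ?_) h1
  exact eo_comm hab (lt_of_LT hN ha) (lt_of_LT hN hb)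

end Pool.Agent.YBC
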