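import Pool.Agent.GLD.W0

/-!
# The functional of the ring is fixed by the rings with every column angle (universality, (a))

`VR_fix`: the functional `NUT2.VR c d 0 X` (all rows at 0) is fixed by `NUT2.rg 0 c d u X` for every real
`u` in `[π / 8, π / 4]`.
-/

set_option autoImplicit false

namespace Pool.Agent.YBC

open Pool.Agent.EXL hiding cc
open Pool.Agent.EXL.Pat Pool.Agent.EXL.Fm HexObs Filter Topology
open Pool.Agent.NUF Pool.Agent.NUT2

variable {ι : Type*} [DecidableEq ι] {c d e f : ι} {X : List ι}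

/-- The rows are at 0. -/
abbrev z0 : ι → ℂ := fun _ => 0

theorem okR_of {t : ℝ} (h1 : -2 < t) (h2 : t < 5) : okR ((t * (Real.pi / 8) : ℝ) : ℂ) :=
  okR_t h1 h2 (by unfold lam; push_cast; ring)

/-- **The functional is fixed by the rings with every angle** (auxiliary lines `e`, `f`). -/
theorem VR_fix' [Finite ι] {t : ℝ} (ht1 : 1 < t) (ht2 : t ≤ 2) (hn : X.Nodup) (hcd : c ≠ d) (hef : e ≠ f)
    (h1 : c ≠ e) (h2 : c ≠ f) (h3 : d ≠ e) (h4 : d ≠ f) (hc : c ∉ X) (hd : d ∉ X) (he : e ∉ X)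
    (hf : f ∉ X) (hR : RegR c d (z0 : ι → ℂ) X) :
    VR c d (z0 : ι → ℂ) X ∘ₗ rg z0 e f ((t * (Real.pi / 8) : ℝ) : ℂ) X = VR c d z0 X := by
  have hV := isR_VR hn hcd hc hd hR
  have g1 : okR ((Real.pi / 8 : ℂ) - 0) := by
    have := okR_of (t := 1) (by norm_num) (by norm_num)
    rw [one_mul] at this
    push_cast at this
    rwa [sub_zero]
  have g2 : okR (((t * (Real.pi / 8) : ℝ) : ℂ) - 0) := by
    rw [sub_zero]
    exact okR_of (by linarith) (by linarith)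
  have e1 : ((Real.pi / 8 : ℂ) - ((t * (Real.pi / 8) : ℝ) : ℂ)) = (((1 - t) * (Real.pi / 8) : ℝ) : ℂ) := by
    push_cast; ring
  have a1 : okR ((Real.pi / 8 : ℂ) - ((t * (Real.pi / 8) : ℝ) : ℂ)) := by
    rw [e1]; exact okR_of (by linarith) (by linarith)
  have a2 : okR (-((Real.pi / 8 : ℂ) - ((t * (Real.pi / 8) : ℝ) : ℂ))) := by
    have e2 : -((Real.pi / 8 : ℂ) - ((t * (Real.pi / 8) : ℝ) : ℂ)) = (((t - 1) * (Real.pi / 8) : ℝ) : ℂ) := by
      push_cast; ring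
    rw [e2]; exact okR_of (by linarith) (by linarith)
  have a3 : okR (3 * Real.pi / 8 - ((Real.pi / 8 : ℂ) - ((t * (Real.pi / 8) : ℝ) : ℂ))) := by
    have e2 : (3 * Real.pi / 8 - ((Real.pi / 8 : ℂ) - ((t * (Real.pi / 8) : ℝ) : ℂ))) =
        (((2 + t) * (Real.pi / 8) : ℝ) : ℂ) := by
      push_cast; ring
    rw [e2]; exact okR_of (by linarith) (by linarith)
  have a4 : okR (-(3 * Real.pi / 8 - ((Real.pi / 8 : ℂ) - ((t * (Real.pi / 8) : ℝ) : ℂ)))) := by
    rw [EXL.Fm.okR_iff]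
    unfold EXL.Fm.Dn
    have e3 : (2 * lam + -(3 * Real.pi / 8 - ((Real.pi / 8 : ℂ) - ((t * (Real.pi / 8) : ℝ) : ℂ))) : ℂ) =
        -((t * (Real.pi / 8) : ℝ) : ℂ) := by
      unfold lam
      push_cast
      ring
    have e4 : (3 * lam + -(3 * Real.pi / 8 - ((Real.pi / 8 : ℂ) - ((t * (Real.pi / 8) : ℝ) : ℂ))) : ℂ) =
        -(((t - 1) * (Real.pi / 8) : ℝ) : ℂ) := by
      unfold lam
      push_cast
      ring
    rw [e3, e4, Complex.sin_neg, Complex.sin_neg, ← Complex.ofReal_sin, ← Complex.ofReal_sin]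
    have hp := Real.pi_pos
    refine mul_ne_zero (neg_ne_zero.2 ?_) (neg_ne_zero.2 ?_)
    · exact_mod_cast (Real.sin_pos_of_pos_of_lt_pi (by nlinarith) (by nlinarith)).ne'
    · exact_mod_cast (Real.sin_pos_of_pos_of_lt_pi (by nlinarith) (by nlinarith)).ne'
  refine (IsR.comp (z' := z0) (Y := X) hV (pres_rg z0 _ hn hef he hf) ?_ ?_).unique hV hR
  · exact rg_comm hn hcd hef h1 h2 h3 h4 hc hd he hf (fun r _ => g1) (fun r _ => g2) a1 a2 a3 a4
  · intro p _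
    rw [rg_ind z0 _ hef he]

/-- **The functional is fixed by the rings with every angle in `[π / 8, π / 4]`.** -/
theorem VR_fix [Finite ι] {t : ℝ} (ht1 : 1 ≤ t) (ht2 : t ≤ 2) (hn : X.Nodup) (hcd : c ≠ d) (hef : e ≠ f)
    (h1 : c ≠ e) (h2 : c ≠ f) (h3 : d ≠ e) (h4 : d ≠ f) (hc : c ∉ X) (hd : d ∉ X) (he : e ∉ X)
    (hf : f ∉ X) (hR : RegR c d (z0 : ι → ℂ) X) (F : Pat ι → ℂ) :
    VR c d (z0 : ι → ℂ) X (rg z0 c d ((t * (Real.pi / 8) : ℝ) : ℂ) X F) = VR c d z0 X F := by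
  have hV := isR_VR hn hcd hc hd hR
  rcases ht1.eq_or_lt with rfl | ht1
  · have := congrArg (fun V : Fnl ι => V F) hV.fix
    simp only [LinearMap.comp_apply] at this
    have e1 : (((1 : ℝ) * (Real.pi / 8) : ℝ) : ℂ) = (Real.pi / 8 : ℂ) := by push_cast; ring
    rw [e1]
    exact this
  · have h5 := congrArg (fun V : Fnl ι => V F)
      (VR_fix' ht1 ht2 hn hcd hef h1 h2 h3 h4 hc hd he hf hR)
    simp only [LinearMap.comp_apply] at h5
    rw [← h5]
    refine hV.sup.congr fun p hp => ?_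
    rw [rg_ren (c := c) (d := f) (e := e) hn h2 h1 hef.symm hc hf he F hp,
      rg_ren' (c := c) (d := d) (e := f) hn hcd h2 h4 hc hd hf F hp]

end Pool.Agent.YBC
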