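import Pool.Agent.MXR.MajG

/-!
# Products of different rings (universality, (b), abstract part)

`seqF T n F = T (n - 1) (.. (T 0 F))`.  If all `T n` are positive, fix the indicator of the empty state, preserve one
non-negative functional, and dominate one irreducible operator `S`, the products tend to 0 at the non-empty states.
-/

set_option autoImplicit false

namespace Pool.Agent.YBC

open Filter Topology
open _root_.Pool.Agent.EXL hiding cc
open _root_.Pool.Agent.EXL.Pat _root_.Pool.Agent.EXL.HS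
open _root_.Pool.Agent.NUF

/-- the product of the operators `T 0, .., T (n - 1)`; `T 0` is the innermost one. -/
def seqF {β : Type*} (T : ℕ → β → β) : ℕ → β → β
  | 0, F => F
  | n + 1, F => T n (seqF T n F)

theorem seqF_succ {β : Type*} (T : ℕ → β → β) (n : ℕ) (F : β) : seqF T (n + 1) F = T n (seqF T n F) := rfl

theorem seqF_add {β : Type*} (T : ℕ → β → β) (m n : ℕ) (F : β) :
    seqF T (m + n) F = seqF (fun i => T (m + i)) n (seqF T m F) := by
  induction n with
  | zero => rfl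
  | succ n ih => rw [← Nat.add_assoc, seqF_succ, ih, seqF_succ]

section abs

variable {α : Type*} {T : ℕ → (Pat α → ℝ) → (Pat α → ℝ)} {S : (Pat α → ℝ) → (Pat α → ℝ)}
  {A : Pat α → Prop} {V : Fnl α}

theorem seqF_nn (hP : ∀ n, PosOp (T n)) (n : ℕ) {F : Pat α → ℝ} (hF : ∀ p, 0 ≤ F p) (p : Pat α) :
    0 ≤ seqF T n F p := by
  induction n generalizing p with
  | zero => exact hF p
  | succ n ih => exact hP n _ ih p

theorem seqF_mono (hP : ∀ n, PosOp (T n)) (hL : ∀ n, Lin (T n)) (n : ℕ) {F G : Pat α → ℝ} (h : ∀ p, F p ≤ G p)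
    (p : Pat α) : seqF T n F p ≤ seqF T n G p := by
  induction n generalizing p with
  | zero => exact h p
  | succ n ih => exact (hP n).mono (hL n) ih p

/-- domination of the powers of `S`. -/
theorem seqF_ge (hP : ∀ n, PosOp (T n)) (hS : PosOp S) (hSL : Lin S)
    (hd : ∀ n, ∀ G : Pat α → ℝ, (∀ p, 0 ≤ G p) → ∀ p, S G p ≤ T n G p) (n : ℕ) {F : Pat α → ℝ}
    (hF : ∀ p, 0 ≤ F p) (p : Pat α) : S^[n] F p ≤ seqF T n F p := by
  induction n generalizing p with
  | zero => exact le_rfl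
  | succ n ih =>
    rw [Function.iterate_succ_apply', seqF_succ]
    refine (hS.mono hSL ih p).trans (hd n _ (seqF_nn hP n hF) p)

/-- the value at the empty state does not decrease. -/
theorem op_e0 {U : (Pat α → ℝ) → (Pat α → ℝ)} (hP : PosOp U) (hL : Lin U)
    (h0 : U (HS.ind Pat.empty) Pat.empty = 1) {F : Pat α → ℝ} (hF : ∀ p, 0 ≤ F p) :
    F Pat.empty ≤ U F Pat.empty := by
  classical
  have h1 := hP.mono hL (F := fun p => F Pat.empty * HS.ind Pat.empty p) (G := F) (fun p => by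
    by_cases h : p = Pat.empty
    · rw [h, HS.ind_self, mul_one]
    · rw [HS.ind_ne h, mul_zero]; exact hF p) Pat.empty
  rw [PosOp.smul hL (F Pat.empty)] at h1
  simp only [h0, mul_one] at h1
  exact h1

/-- the hypotheses. -/
structure SeqH (T : ℕ → (Pat α → ℝ) → (Pat α → ℝ)) (S : (Pat α → ℝ) → (Pat α → ℝ)) (A : Pat α → Prop)
    (V : Fnl α) : Prop where
  pos : ∀ n, PosOp (T n)
  lin : ∀ n, Lin (T n)
  one : ∀ n, T n (HS.ind Pat.empty) Pat.empty = 1
  fix : ∀ n (F : Pat α → ℝ), V (fun p => ((T n F p : ℝ) : ℂ)) = V (fun p => (F p : ℂ))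
  posS : PosOp S
  linS : Lin S
  oneS : S (HS.ind Pat.empty) Pat.empty = 1
  dom : ∀ n, ∀ G : Pat α → ℝ, (∀ p, 0 ≤ G p) → ∀ p, S G p ≤ T n G p
  reach : ∀ p, p ≠ Pat.empty → A p → ∃ m, 0 < S^[m] (HS.ind p) Pat.empty
  sup : SupF A V
  vone : V (HS.ind Pat.empty) = 1
  posV : NUG.PosC V

theorem SeqH.shift (h : SeqH T S A V) (m : ℕ) : SeqH (fun i => T (m + i)) S A V :=
  ⟨fun _ => h.pos _, fun _ => h.lin _, fun _ => h.one _, fun _ => h.fix _, h.posS, h.linS, h.oneS, fun _ => h.dom _,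
    h.reach, h.sup, h.vone, h.posV⟩

theorem SeqH.fixn (h : SeqH T S A V) (n : ℕ) (F : Pat α → ℝ) :
    V (fun p => ((seqF T n F p : ℝ) : ℂ)) = V (fun p => (F p : ℂ)) := by
  induction n with
  | zero => rfl
  | succ n ih => rw [seqF_succ, h.fix, ih]

/-- the weight of a state. -/
noncomputable def vv (V : Fnl α) (p : Pat α) : ℝ := (V (HS.ind p)).re

theorem ind_ofReal (p : Pat α) : (HS.ind p : Pat α → ℂ) = fun q => ((HS.ind p q : ℝ) : ℂ) := by
  funext q
  by_cases h : q = p
  · rw [h, HS.ind_self, HS.ind_self, Complex.ofReal_one]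
  · rw [HS.ind_ne h, HS.ind_ne h, Complex.ofReal_zero]

theorem ind_nn (p q : Pat α) : (0 : ℝ) ≤ HS.ind p q := by
  by_cases h : q = p
  · rw [h, HS.ind_self]; exact zero_le_one
  · rw [HS.ind_ne h]

theorem SeqH.vv_eq (h : SeqH T S A V) (p : Pat α) : 0 ≤ vv V p ∧ V (HS.ind p) = (vv V p : ℂ) := by
  obtain ⟨r, hr, e⟩ := h.posV (HS.ind p) (ind_nn p)
  rw [← ind_ofReal] at e
  unfold vv
  rw [e, Complex.ofReal_re]
  exact ⟨hr, rfl⟩

theorem SeqH.expand [Finite α] [Fintype (NE A)] (h : SeqH T S A V) (F : Pat α → ℝ) :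
    (V (fun p => (F p : ℂ))).re = F Pat.empty + ∑ p : NE A, F p.1 * vv V p.1 := by
  have h1 := sup_sum h.sup (fun p => (F p : ℂ))
  rw [h1, h.vone, mul_one, Complex.add_re, Complex.ofReal_re, Complex.re_sum]
  congr 1
  refine Finset.sum_congr rfl fun p _ => ?_
  rw [(h.vv_eq p.1).2, ← Complex.ofReal_mul, Complex.ofReal_re]

theorem SeqH.S_mono (h : SeqH T S A V) {F : Pat α → ℝ} (hF : ∀ p, 0 ≤ F p) :
    Monotone (fun n => S^[n] F Pat.empty) := by
  refine monotone_nat_of_le_succ fun n => ?_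
  rw [Function.iterate_succ_apply']
  refine op_e0 h.posS h.linS h.oneS fun p => ?_
  exact NUG.posOp_iter h.posS n F hF p

theorem SeqH.T_mono (h : SeqH T S A V) {F : Pat α → ℝ} (hF : ∀ p, 0 ≤ F p) :
    Monotone (fun n => seqF T n F Pat.empty) := by
  refine monotone_nat_of_le_succ fun n => ?_
  rw [seqF_succ]
  exact op_e0 (h.pos n) (h.lin n) (h.one n) fun p => seqF_nn h.pos n hF p

theorem ind_ind_nn (p : Pat α) : ∀ q, (0 : ℝ) ≤ HS.ind p q := ind_nn p

theorem SeqH.le_V [Finite α] (h : SeqH T S A V) {F : Pat α → ℝ} (hF : ∀ p, 0 ≤ F p) (n : ℕ) :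
    seqF T n F Pat.empty ≤ (V (fun p => (F p : ℂ))).re := by
  classical
  have : Fintype (NE A) := Fintype.ofFinite _
  rw [← h.fixn n F, h.expand]
  have : 0 ≤ ∑ p : NE A, seqF T n F p.1 * vv V p.1 :=
    Finset.sum_nonneg fun p _ => mul_nonneg (seqF_nn h.pos n hF _) (h.vv_eq _).1
  linarith

/-- all weights of the planar states are positive. -/
theorem SeqH.vv_pos [Finite α] (h : SeqH T S A V) {p : Pat α} (hp : p ≠ Pat.empty) (hA : A p) : 0 < vv V p := by
  obtain ⟨m, hm⟩ := h.reach p hp hA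
  have h1 := seqF_ge h.pos h.posS h.linS h.dom m (ind_nn p) Pat.empty
  have h2 := h.le_V (ind_nn p) m
  rw [← ind_ofReal] at h2
  exact hm.trans_le (h1.trans h2)

/-- **One block.** -/
theorem SeqH.block [Finite α] [Fintype (NE A)] (h : SeqH T S A V) : ∃ N : ℕ, ∃ c : ℝ, 0 < c ∧ c ≤ 1 ∧
    ∀ m : ℕ, ∀ F : Pat α → ℝ, (∀ p, 0 ≤ F p) →
      F Pat.empty + c * ∑ p : NE A, F p.1 * vv V p.1 ≤ seqF (fun i => T (m + i)) N F Pat.empty := by
  classical
  have hr : ∀ p : NE A, ∃ m, 0 < S^[m] (HS.ind p.1) Pat.empty := fun p => h.reach p.1 p.2.1 p.2.2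
  choose M hM using hr
  set N := ∑ p : NE A, M p with hN
  have hMN : ∀ p : NE A, M p ≤ N := fun p => Finset.single_le_sum (fun q _ => Nat.zero_le _) (Finset.mem_univ p)
  have hpos : ∀ p : NE A, 0 < S^[N] (HS.ind p.1) Pat.empty := fun p =>
    (hM p).trans_le (h.S_mono (ind_nn p.1) (hMN p))
  -- the constant
  obtain ⟨c, hc, hc1, hcp⟩ : ∃ c : ℝ, 0 < c ∧ c ≤ 1 ∧ ∀ p : NE A, c * vv V p.1 ≤ S^[N] (HS.ind p.1) Pat.empty := by
    by_cases hne : Nonempty (NE A)
    · obtain ⟨p0, hp0⟩ := Finite.exists_min (fun p : NE A => S^[N] (HS.ind p.1) Pat.empty / vv V p.1)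
      have hv : ∀ p : NE A, 0 < vv V p.1 := fun p => h.vv_pos p.2.1 p.2.2
      refine ⟨min 1 (S^[N] (HS.ind p0.1) Pat.empty / vv V p0.1), lt_min one_pos (div_pos (hpos p0) (hv p0)),
        min_le_left _ _, fun p => ?_⟩
      have h1 := (min_le_right (1 : ℝ) _).trans (hp0 p)
      exact (le_div_iff₀ (hv p)).1 h1
    · exact ⟨1, one_pos, le_rfl, fun p => (hne ⟨p⟩).elim⟩
  refine ⟨N, c, hc, hc1, fun m F hF => ?_⟩
  have hs := h.shift m
  have h1 := seqF_ge hs.pos hs.posS hs.linS hs.dom N hF Pat.empty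
  refine le_trans ?_ h1
  have hLn := lin_iterate h.linS N
  have hPn : PosOp (S^[N]) := fun G hG p => NUG.posOp_iter h.posS N G hG p
  -- the minorant
  set G : Pat α → ℝ := fun p => F Pat.empty * HS.ind Pat.empty p + ∑ q : NE A, F q.1 * HS.ind q.1 p with hG
  have hGF : ∀ p, G p ≤ F p := by
    intro p
    rw [hG]
    simp only
    by_cases h0 : p = Pat.empty
    · rw [h0, HS.ind_self, mul_one, Finset.sum_eq_zero, add_zero]
      intro q _
      rw [HS.ind_ne (Ne.symm q.2.1), mul_zero]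
    · rw [HS.ind_ne h0, mul_zero, zero_add]
      by_cases hA : A p
      · rw [Finset.sum_eq_single (⟨p, h0, hA⟩ : NE A)]
        · rw [HS.ind_self, mul_one]
        · intro q _ hq
          rw [HS.ind_ne (fun e => hq (Subtype.ext e.symm)), mul_zero]
        · intro hh
          exact (hh (Finset.mem_univ _)).elim
      · rw [Finset.sum_eq_zero]
        · exact hF p
        · intro q _
          rw [HS.ind_ne (fun e => hA (by rw [e]; exact q.2.2)), mul_zero]
  have h2 := hPn.mono hLn hGF Pat.empty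
  refine le_trans ?_ h2
  -- linearity
  have h3 : S^[N] G = fun p => F Pat.empty * S^[N] (HS.ind Pat.empty) p +
      ∑ q : NE A, F q.1 * S^[N] (HS.ind q.1) p := by
    have e1 : G = fun p => F Pat.empty * HS.ind Pat.empty p + 1 * ∑ q : NE A, F q.1 * HS.ind q.1 p := by
      funext p; rw [hG]; simp only [one_mul]
    rw [e1, hLn]
    funext p
    rw [one_mul]
    congr 1
    have e2 := EXL.Lin.sum hLn (Finset.univ : Finset (NE A)) (fun q => F q.1) (fun q => (HS.ind q.1 : Pat α → ℝ))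
    exact congrFun e2 p
  rw [h3]
  simp only
  have h4 : 1 ≤ S^[N] (HS.ind Pat.empty) Pat.empty := by
    have := h.S_mono (ind_nn Pat.empty) (Nat.zero_le N)
    simp only [Function.iterate_zero, id_eq, HS.ind_self] at this
    exact this
  have h5 : F Pat.empty ≤ F Pat.empty * S^[N] (HS.ind Pat.empty) Pat.empty := by
    have := mul_le_mul_of_nonneg_left h4 (hF Pat.empty)
    rwa [mul_one] at this
  have h6 : c * ∑ p : NE A, F p.1 * vv V p.1 ≤ ∑ q : NE A, F q.1 * S^[N] (HS.ind q.1) Pat.empty := by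
    rw [Finset.mul_sum]
    refine Finset.sum_le_sum fun q _ => ?_
    have := mul_le_mul_of_nonneg_left (hcp q) (hF q.1)
    linarith
  linarith

/-- **The products tend to the functional.** -/
theorem SeqH.lim [Finite α] (h : SeqH T S A V) {F : Pat α → ℝ} (hF : ∀ p, 0 ≤ F p) :
    Tendsto (fun n => seqF T n F Pat.empty) atTop (𝓝 (V (fun p => (F p : ℂ))).re) := by
  classical
  have : Fintype (NE A) := Fintype.ofFinite _
  obtain ⟨N, c, hc, hc1, hb⟩ := h.block
  have hmono := h.T_mono hF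
  obtain ⟨L, hL⟩ : ∃ L, Tendsto (fun n => seqF T n F Pat.empty) atTop (𝓝 L) :=
    ⟨_, tendsto_atTop_ciSup hmono ⟨_, by rintro _ ⟨n, rfl⟩; exact h.le_V hF n⟩⟩
  set v := (V (fun p => (F p : ℂ))).re with hv
  have h1 : ∀ m, seqF T m F Pat.empty + c * (v - seqF T m F Pat.empty) ≤ seqF T (m + N) F Pat.empty := by
    intro m
    have h2 := hb m (seqF T m F) (seqF_nn h.pos m hF)
    rw [← seqF_add] at h2
    have h3 := h.expand (seqF T m F)
    rw [h.fixn m F] at h3
    have h4 : ∑ p : NE A, seqF T m F p.1 * vv V p.1 = v - seqF T m F Pat.empty := by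
      rw [hv, h3]; ring
    rwa [h4] at h2
  have h2 : Tendsto (fun m => seqF T (m + N) F Pat.empty) atTop (𝓝 L) := hL.comp (tendsto_add_atTop_nat N)
  have h3 : Tendsto (fun m => seqF T m F Pat.empty + c * (v - seqF T m F Pat.empty)) atTop
      (𝓝 (L + c * (v - L))) := hL.add ((tendsto_const_nhds.sub hL).const_mul c)
  have h4 := le_of_tendsto_of_tendsto' h3 h2 h1
  have h5 : L ≤ v := le_of_tendsto' hL (h.le_V hF)
  have h6 : v ≤ L := by
    have : c * (v - L) ≤ 0 := by linarith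
    nlinarith
  rw [le_antisymm h6 h5]
  exact hL

/-- **The products tend to 0 at the non-empty states.** -/
theorem SeqH.decay [Finite α] (h : SeqH T S A V) {F : Pat α → ℝ} (hF : ∀ p, 0 ≤ F p) {p : Pat α}
    (hp : p ≠ Pat.empty) (hA : A p) : Tendsto (fun n => seqF T n F p) atTop (𝓝 0) := by
  classical
  have : Fintype (NE A) := Fintype.ofFinite _
  have hv := h.vv_pos hp hA
  have h1 := (tendsto_const_nhds (x := (V (fun p => (F p : ℂ))).re) (f := atTop (α := ℕ))).sub (h.lim hF)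
  rw [sub_self] at h1
  have h2 := h1.div_const (vv V p)
  rw [zero_div] at h2
  refine squeeze_zero (fun n => seqF_nn h.pos n hF p) (fun n => ?_) h2
  rw [le_div_iff₀ hv]
  have h3 := h.expand (seqF T n F)
  rw [h.fixn n F] at h3
  rw [h3, add_sub_cancel_left]
  exact Finset.single_le_sum (f := fun q : NE A => seqF T n F q.1 * vv V q.1)
    (fun q _ => mul_nonneg (seqF_nn h.pos n hF _) (h.vv_eq _).1) (Finset.mem_univ (⟨p, hp, hA⟩ : NE A))

end abs

end Pool.Agent.YBC
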