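import Pool.Agent.YBC.Loc4
import Pool.Agent.YBC.Seq
import Pool.Agent.NUNC.Front

/-!
# Evaluation of the rings of the network of crossings on fronts (as `NUN/Front`, `NUNC/Front`)
-/

set_option autoImplicit false

namespace Pool.Agent.YBC

open Pool.Agent.EXL hiding cc
open Pool.Agent.EXL.Pat Pool.Agent.EXL.Net
open Pool.Agent.NUN (fr Fr fr_inj Fr_move Fr_empty Xr Xl cc)
open Pool.Agent.NUNC (dd UO_Fr Co_Fr fr_ccf fr_cct fr_dd)
open Pool.Agent.NUF.Cyl (UO PO PL UO_apply PO_apply Co_eq_glue glue_congr U_symm glue_symm)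

variable {K : Type*} [CommRing K]

theorem rho_gen4 (W : W5 K) {ι : Type*} [DecidableEq ι] {κ κ' : ι → Lab} (hκ : Function.Injective κ)
    (hκ' : Function.Injective κ') {c j : ι} {s e aS aW bE bN : Lab} (h1 : κ c = s)
    (h2 : κ j = e) (h3 : κ' c = bN) (h4 : κ' j = aW) (h5 : ∀ b, b ≠ c → b ≠ j → κ' b = κ b)
    (hd : [e, s, aS, aW, bE, bN].Nodup)
    (hout : ∀ y ∈ [aS, aW, bE, bN], ∀ b, κ b ≠ y) (G : Pat Lab → K) (q : Pat ι) :
    (Vt4 W bE bN aW aS * (Co s aS * Co e bE) : Op Lab K) G (lft κ hκ q) =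
      R (tw W) c j (fun q => G (lft κ' hκ' q)) q := by
  have f : ∀ y ∈ [aS, aW, bE, bN], ∀ q : Pat ι, lft κ hκ q y = y := by
    intro y hy q
    apply lft_of_notMem
    rintro ⟨b, hb⟩
    exact hout y hy b hb
  have hl := cell_op W hd G (f aS (by simp) q) (f aW (by simp) q) (f bE (by simp) q) (f bN (by simp) q)
  have hd' := hd
  simp only [List.nodup_cons, List.mem_cons, not_or, List.not_mem_nil, not_false_eq_true,
    and_true, List.nodup_nil] at hd'
  obtain ⟨⟨a1, a2, a3, a4, a5⟩, ⟨b1, b2, b3, b4⟩, ⟨c1, c2, c3⟩, ⟨d1, d2⟩, e1⟩ := hd'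
  rw [hl]
  have h6 := R_lft (tw W) κ hκ c j (ren e aW (ren s bN G)) q
  rw [h1, h2] at h6
  rw [h6]
  congr 1
  funext q
  unfold ren
  rw [if_pos (f aW (by simp) q)]
  rw [swap_lft, swap_lft]
  have hk : (fun b => Equiv.swap s bN (Equiv.swap e aW (κ b))) = κ' := by
    funext b
    by_cases hb : b = c
    · subst hb
      rw [h1, h3, Equiv.swap_apply_of_ne_of_ne (Ne.symm a1) b2, Equiv.swap_apply_left]
    · by_cases hb' : b = j
      · subst hb'
        rw [h2, h4, Equiv.swap_apply_left, Equiv.swap_apply_of_ne_of_ne (Ne.symm b2) d2]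
      · rw [h5 b hb hb', Equiv.swap_apply_of_ne_of_ne (fun e => hb' (hκ (e.trans h2.symm)))
          (hout aW (by simp) b), Equiv.swap_apply_of_ne_of_ne (fun e => hb (hκ (e.trans h1.symm)))
          (hout bN (by simp) b)]
  rw [if_pos]
  · congr 1
    exact lft_congr _ _ (fun b _ => congrFun hk b)
  · rw [lft_of_notMem]
    rintro ⟨b, hb⟩
    refine hout bN (by simp) b ?_
    have h7 := congrArg (Equiv.swap e aW) hb
    beta_reduce at h7
    rwa [Equiv.swap_apply_self, Equiv.swap_apply_of_ne_of_ne (Ne.symm a5) (Ne.symm d2)] at h7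

variable {N : ℕ}

/-- the crossing (column k, row i) of the right part with the contractions to the processed part. -/
noncomputable def Rho4 (W : W5 K) (k i : ℤ) : Op Lab K :=
  Vt4 W (lE k i) (lN k i) (lW k i) (lS k i) * (Co (lN k (i - 1)) (lS k i) * Co (lW (k + 1) i) (lE k i))

/-- the crossing of the left part. -/
noncomputable def lRho4 (W : W5 K) (k i : ℤ) : Op Lab K :=
  Vt4 W (lW k i) (lS k i) (lE k i) (lN k i) * (Co (lS k (i + 1)) (lN k i) * Co (lE (k - 1) i) (lW k i))

theorem rho_right4 (W : W5 K) (k : ℤ) (i : Fin N) (kb : ℕ → ℤ) (hkb : ∀ i, i < N → kb i ≠ k)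
    (G : Pat Lab → K) (q : Pat (NUF.St N)) :
    Rho4 W k ((i : ℕ) : ℤ) G (Fr (fun n => if n < (i : ℕ) then k else k + 1) kb false k
        (((i : ℕ) : ℤ) - 1) q) =
      R (tw W) cc (Xr i) (fun q => G (Fr (fun n => if n < (i : ℕ) + 1 then k else k + 1) kb false k
        ((i : ℕ) : ℤ) q)) q := by
  set j : ℤ := ((i : ℕ) : ℤ) with hj
  unfold Rho4
  refine rho_gen4 W _ _ (c := cc) (j := Xr i) (s := lN k (j - 1)) (e := lW (k + 1) j)
    (bN := lN k j) (aW := lW k j) ?_ ?_ ?_ ?_ ?_ ?_ ?_ G q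
  · simp [fr]
  · simp [fr, Xr, hj]
  · simp [fr]
  · simp [fr, Xr, hj]
  · intro b hb hb'
    rcases b with ⟨i', _ | _⟩ | l
    · have h3 : (i' : ℕ) ≠ (i : ℕ) := fun e => hb' (by rw [Xr, Fin.ext e])
      simp only [fr]
      congr 1
      by_cases c : (i' : ℕ) < (i : ℕ)
      · rw [if_pos c, if_pos (by omega)]
      · rw [if_neg c, if_neg (by omega)]
    · rfl
    · have h3 : l ≠ 0 := fun e => hb (by rw [e])
      simp [fr, h3]
  · simp only [List.nodup_cons, List.mem_cons, not_or, List.not_mem_nil, not_false_eq_true,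
      and_true, List.nodup_nil]
    refine ⟨⟨?_, ?_, ?_, ?_, ?_⟩, ⟨?_, ?_, ?_, ?_⟩, ⟨?_, ?_, ?_⟩, ⟨?_, ?_⟩, ?_⟩ <;> simp
  · intro y hy b
    simp only [List.mem_cons, List.not_mem_nil, or_false] at hy
    have h0 : ∀ i' : Fin N, ((i' : ℕ) : ℤ) = j → (i' : ℕ) = (i : ℕ) := by
      intro i' h
      rw [hj] at h
      exact_mod_cast h
    rcases b with ⟨i', _ | _⟩ | l
    · rcases hy with rfl | rfl | rfl | rfl
      · simp [fr]
      · simp only [fr, Ne, lW_inj, not_and]
        intro h1 h2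
        have h3 := h0 i' h2
        rw [if_neg (by omega)] at h1
        omega
      · simp [fr]
      · simp [fr]
    · rcases hy with rfl | rfl | rfl | rfl
      · simp [fr]
      · simp [fr]
      · simp only [fr, Ne, lE_inj, not_and]
        intro h1
        exact absurd h1 (hkb i' i'.2)
      · simp [fr]
    · rcases hy with rfl | rfl | rfl | rfl <;> simp only [fr] <;> split_ifs <;> simp

theorem rho_left4 (W : W5 K) (k : ℤ) (i : Fin N) (ka : ℕ → ℤ) (hka : ∀ i, i < N → ka i ≠ k)
    (G : Pat Lab → K) (q : Pat (NUF.St N)) :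
    lRho4 W k ((i : ℕ) : ℤ) G (Fr ka (fun n => if n < (i : ℕ) + 1 then k - 1 else k) true k
        (((i : ℕ) : ℤ) + 1) q) =
      R (tw W) cc (Xl i) (fun q => G (Fr ka (fun n => if n < (i : ℕ) then k - 1 else k) true k
        ((i : ℕ) : ℤ) q)) q := by
  set j : ℤ := ((i : ℕ) : ℤ) with hj
  unfold lRho4
  refine rho_gen4 W _ _ (c := cc) (j := Xl i) (s := lS k (j + 1)) (e := lE (k - 1) j)
    (bN := lS k j) (aW := lE k j) ?_ ?_ ?_ ?_ ?_ ?_ ?_ G q
  · simp [fr]
  · simp [fr, Xl, hj]
  · simp [fr]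
  · simp [fr, Xl, hj]
  · intro b hb hb'
    rcases b with ⟨i', _ | _⟩ | l
    · rfl
    · have h3 : (i' : ℕ) ≠ (i : ℕ) := fun e => hb' (by rw [Xl, Fin.ext e])
      simp only [fr]
      congr 1
      by_cases c : (i' : ℕ) < (i : ℕ)
      · rw [if_pos c, if_pos (by omega)]
      · rw [if_neg c, if_neg (by omega)]
    · have h3 : l ≠ 0 := fun e => hb (by rw [e])
      simp [fr, h3]
  · simp only [List.nodup_cons, List.mem_cons, not_or, List.not_mem_nil, not_false_eq_true,
      and_true, List.nodup_nil]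
    refine ⟨⟨?_, ?_, ?_, ?_, ?_⟩, ⟨?_, ?_, ?_, ?_⟩, ⟨?_, ?_, ?_⟩, ⟨?_, ?_⟩, ?_⟩ <;> simp
  · intro y hy b
    simp only [List.mem_cons, List.not_mem_nil, or_false] at hy
    have h0 : ∀ i' : Fin N, ((i' : ℕ) : ℤ) = j → (i' : ℕ) = (i : ℕ) := by
      intro i' h
      rw [hj] at h
      exact_mod_cast h
    rcases b with ⟨i', _ | _⟩ | l
    · rcases hy with rfl | rfl | rfl | rfl
      · simp [fr]
      · simp [fr]
      · simp only [fr, Ne, lW_inj, not_and]
        intro h1
        exact absurd h1 (hka i' i'.2)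
      · simp [fr]
    · rcases hy with rfl | rfl | rfl | rfl
      · simp [fr]
      · simp only [fr, Ne, lE_inj, not_and]
        intro h1 h2
        have h3 := h0 i' h2
        rw [if_pos (by omega)] at h1
        omega
      · simp [fr]
      · simp [fr]
    · rcases hy with rfl | rfl | rfl | rfl <;> simp only [fr] <;> split_ifs <;> simp

/-- the weights of the lines: the weights of the row. -/
def wr (W : ℕ → W5 K) : NUF.St N → Wt K
  | Sum.inl (i, _) => tw (W (i : ℕ))
  | Sum.inr _ => tw (W 0)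

/-! ### rows -/

theorem rows_right4 (W : ℕ → W5 K) (k : ℤ) (kb : ℕ → ℤ) (hkb : ∀ i, i < N → kb i ≠ k) (G : Pat Lab → K) :
    ∀ (n j : ℕ), j + n = N → ∀ q : Pat (NUF.St N),
    (((List.range N).drop j).map (fun i : ℕ => Rho4 (W i) k (i : ℤ))).prod G
        (Fr (fun n => if n < j then k else k + 1) kb false k ((j : ℤ) - 1) q) =
      M (wr W) cc (((List.finRange N).drop j).map Xr)
        (fun q => G (Fr (fun n => if n < N then k else k + 1) kb false k ((N : ℤ) - 1) q)) q
  | 0, j, h, q => by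
    have h1 : (List.finRange N).drop j = [] := by
      apply List.drop_eq_nil_of_le
      rw [List.length_finRange]
      omega
    have h2 : (List.range N).drop j = [] := by
      apply List.drop_eq_nil_of_le
      rw [List.length_range]
      omega
    rw [h1, h2]
    have : j = N := by omega
    subst this
    rfl
  | n + 1, j, h, q => by
    have hj : j < N := by omega
    have h1 : (List.finRange N).drop j = ⟨j, hj⟩ :: (List.finRange N).drop (j + 1) := by
      rw [List.drop_eq_getElem_cons (by rw [List.length_finRange]; exact hj)]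
      simp
    have h2 : (List.range N).drop j = j :: (List.range N).drop (j + 1) := by
      rw [List.drop_eq_getElem_cons (by rw [List.length_range]; exact hj)]
      simp
    rw [h1, h2, List.map_cons, List.prod_cons, List.map_cons, M_cons, Module.End.mul_apply]
    have h3 := rho_right4 (W j) k ⟨j, hj⟩ kb hkb
      ((((List.range N).drop (j + 1)).map (fun i : ℕ => Rho4 (W i) k (i : ℤ))).prod G) q
    refine h3.trans ?_
    congr 1
    funext q'
    have h4 := rows_right4 W k kb hkb G n (j + 1) (by omega) q'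
    have e : (((j + 1 : ℕ) : ℤ) - 1) = (j : ℤ) := by push_cast; ring
    rw [e] at h4
    exact h4

theorem rows_left4 (W : ℕ → W5 K) (k : ℤ) (ka : ℕ → ℤ) (hka : ∀ i, i < N → ka i ≠ k) (G : Pat Lab → K)
    (j : ℕ) : j ≤ N → ∀ q : Pat (NUF.St N),
    ((List.range j).reverse.map (fun i : ℕ => lRho4 (W i) k (i : ℤ))).prod G
        (Fr ka (fun n => if n < j then k - 1 else k) true k (j : ℤ) q) =
      M (wr W) cc ((((List.finRange N).take j).map Xl).reverse)
        (fun q => G (Fr ka (fun n => if n < 0 then k - 1 else k) true k 0 q)) q := by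
  induction j with
  | zero => intro _ q; rfl
  | succ j ih =>
    intro h q
    have hj : j < N := by omega
    have h1 : (List.finRange N).take (j + 1) = (List.finRange N).take j ++ [⟨j, hj⟩] := by
      rw [List.take_succ_eq_append_getElem (by rw [List.length_finRange]; exact hj)]
      simp
    have h2 : (((List.finRange N).take (j + 1)).map Xl).reverse =
        Xl ⟨j, hj⟩ :: (((List.finRange N).take j).map Xl).reverse := by
      rw [h1, List.map_append, List.reverse_append]
      rfl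
    have h2' : (List.range (j + 1)).reverse = j :: (List.range j).reverse := by
      rw [List.range_succ, List.reverse_append]
      rfl
    rw [h2, h2', List.map_cons, List.prod_cons, M_cons, Module.End.mul_apply]
    have ih' := ih (by omega)
    generalize ((List.range j).reverse.map (fun i : ℕ => lRho4 (W i) k (i : ℤ))).prod G = P at ih' ⊢
    rw [← funext ih']
    have h3 := rho_left4 (W j) k ⟨j, hj⟩ ka hka P q
    have hv : ((⟨j, hj⟩ : Fin N) : ℕ) = j := rfl
    rw [hv] at h3
    have e : ((j + 1 : ℕ) : ℤ) = (j : ℤ) + 1 := by push_cast; ring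
    rw [e, h3]
    rfl

/-! ### rings -/

/-- a ring of the right part. -/
noncomputable def rRing4 (W : ℕ → W5 K) (N : ℕ) (k : ℤ) : Op Lab K :=
  UO (lX 1) (lN k (-1)) * ((List.range N).map (fun i : ℕ => Rho4 (W i) k (i : ℤ))).prod *
    Co (lX 1) (lN k ((N : ℤ) - 1))

/-- a ring of the left part. -/
noncomputable def lRing4 (W : ℕ → W5 K) (N : ℕ) (k : ℤ) : Op Lab K :=
  UO (lX 1) (lS k N) * ((List.range N).reverse.map (fun i : ℕ => lRho4 (W i) k (i : ℤ))).prod *
    Co (lX 1) (lS k 0)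

/-- a ring of the right part. -/
theorem rRing4_eq (W : ℕ → W5 K) (k : ℤ) (kb : ℕ → ℤ) (hkb : ∀ i, i < N → kb i ≠ k) (G : Pat Lab → K)
    (q : Pat (NUF.St N)) :
    rRing4 W N k G (Fr (fun _ => k + 1) kb false k (-1) q) =
      NUG.ringF (wr W) cc dd ((List.finRange N).map Xr)
        (fun q => G (Fr (fun _ => k) kb false 0 0 q)) q := by
  unfold rRing4
  rw [Module.End.mul_apply, Module.End.mul_apply]
  have h1 := UO_Fr (fun _ => k + 1) kb false k (-1)
    (((List.range N).map (fun i : ℕ => Rho4 (W i) k (i : ℤ))).prod (Co (lX 1) (lN k ((N : ℤ) - 1)) G)) q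
  rw [fr_ccf] at h1
  rw [h1]
  unfold NUG.ringF
  congr 1
  funext q1
  have h2 := rows_right4 W k kb hkb (Co (lX 1) (lN k ((N : ℤ) - 1)) G) N 0 (by omega) q1
  rw [List.drop_zero, List.drop_zero] at h2
  have e : Fr (fun n => if n < 0 then k else k + 1) kb false k (((0 : ℕ) : ℤ) - 1) q1 =
      Fr (fun _ => k + 1) kb false k (-1) q1 := by
    have e1 : (fun n : ℕ => if n < 0 then k else k + 1) = fun _ => k + 1 := by
      funext n
      simp
    have e2 : (((0 : ℕ) : ℤ) - 1) = -1 := by norm_num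
    rw [e1, e2]
  rw [e] at h2
  rw [h2]
  congr 1
  funext q2
  have h3 := Co_Fr (fun n => if n < N then k else k + 1) kb false k ((N : ℤ) - 1) G q2
  rw [fr_ccf] at h3
  rw [h3]
  apply congrFun
  apply glue_congr (by simp)
  intro q3 hq3 _
  congr 1
  exact Fr_move hq3 (fun i hi => by simp [hi]) (fun _ _ => rfl)

/-- a ring of the left part. -/
theorem lRing4_eq (W : ℕ → W5 K) (k : ℤ) (ka : ℕ → ℤ) (hka : ∀ i, i < N → ka i ≠ k) (G : Pat Lab → K)
    (q : Pat (NUF.St N)) :
    lRing4 W N k G (Fr ka (fun _ => k - 1) true k N q) =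
      NUG.ringF (wr W) cc dd (((List.finRange N).map Xl).reverse)
        (fun q => G (Fr ka (fun _ => k) false 0 0 q)) q := by
  unfold lRing4
  rw [Module.End.mul_apply, Module.End.mul_apply]
  have h1 := UO_Fr ka (fun _ => k - 1) true k N
    (((List.range N).reverse.map (fun i : ℕ => lRho4 (W i) k (i : ℤ))).prod (Co (lX 1) (lS k 0) G)) q
  rw [fr_cct] at h1
  rw [h1]
  unfold NUG.ringF
  congr 1
  funext q1
  have h2 := rows_left4 W k ka hka (Co (lX 1) (lS k 0) G) N le_rfl q1
  have h3 : (List.finRange N).take N = List.finRange N := by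
    apply List.take_of_length_le
    rw [List.length_finRange]
  rw [h3] at h2
  have e : Fr ka (fun n => if n < N then k - 1 else k) true k (N : ℤ) q1 =
      Fr ka (fun _ => k - 1) true k N q1 := by
    unfold Fr
    apply lft_congr
    intro b _
    rcases b with ⟨i, _ | _⟩ | l
    · rfl
    · simp only [fr, i.2, if_true]
    · rfl
  rw [e] at h2
  rw [h2]
  congr 1
  funext q2
  have h4 := Co_Fr ka (fun n => if n < 0 then k - 1 else k) true k 0 G q2
  rw [fr_cct] at h4
  rw [h4]
  apply congrFun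
  apply glue_congr (by simp)
  intro q3 hq3 _
  congr 1
  exact Fr_move hq3 (fun _ _ => rfl) (fun i hi => by simp)

/-! ### all rings -/

/-- the right part: the rings `m - 1, .., 0`. -/
noncomputable def rTot4 (W : ℤ → ℕ → W5 K) (N : ℕ) : ℕ → Op Lab K
  | 0 => 1
  | m + 1 => rRing4 (W m) N m * rTot4 W N m

/-- the left part: the rings `-m, .., -1`. -/
noncomputable def lTot4 (W : ℤ → ℕ → W5 K) (N : ℕ) : ℕ → Op Lab K
  | 0 => 1
  | m + 1 => lRing4 (W (-(m : ℤ) - 1)) N (-(m : ℤ) - 1) * lTot4 W N m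

/-- the ring operators of the right part. -/
def RR (W : ℤ → ℕ → W5 K) (N : ℕ) : ℕ → (Pat (NUF.St N) → K) → (Pat (NUF.St N) → K) :=
  fun n => NUG.ringF (wr (W n)) cc dd ((List.finRange N).map Xr)

/-- the ring operators of the left part. -/
def RL (W : ℤ → ℕ → W5 K) (N : ℕ) : ℕ → (Pat (NUF.St N) → K) → (Pat (NUF.St N) → K) :=
  fun n => NUG.ringF (wr (W (-(n : ℤ) - 1))) cc dd (((List.finRange N).map Xl).reverse)

theorem rTot4_eq (W : ℤ → ℕ → W5 K) (m : ℕ) (kb : ℕ → ℤ) (hkb : ∀ i, kb i < 0) (G : Pat Lab → K) :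
    ∀ q : Pat (NUF.St N), q cc = cc → rTot4 W N m G (Fr (fun _ => (m : ℤ)) kb false 0 0 q) =
      seqF (RR W N) m (fun q => G (Fr (fun _ => 0) kb false 0 0 q)) q := by
  induction m with
  | zero => intro q _; rfl
  | succ m ih =>
    intro q hq
    have e : Fr (fun _ : ℕ => ((m + 1 : ℕ) : ℤ)) kb false 0 0 q =
        Fr (fun _ => (m : ℤ) + 1) kb false m (-1) q :=
      Fr_move hq (fun _ _ => by push_cast; rfl) (fun _ _ => rfl)
    have e2 : rTot4 W N (m + 1) = rRing4 (W m) N m * rTot4 W N m := rfl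
    rw [e, e2, Module.End.mul_apply, rRing4_eq (W m) (m : ℤ) kb (fun i _ => by
      have := hkb i
      omega) _ q, seqF_succ]
    exact congrFun (NUNC.ring_congr (by simp) ih) q

theorem lTot4_eq (W : ℤ → ℕ → W5 K) (m : ℕ) (G : Pat Lab → K) :
    ∀ q : Pat (NUF.St N), q cc = cc →
      lTot4 W N m G (Fr (fun _ => 0) (fun _ => -(m : ℤ) - 1) false 0 0 q) =
      seqF (RL W N) m (fun q => G (Fr (fun _ => 0) (fun _ => -1) false 0 0 q)) q := by
  induction m with
  | zero => intro q _; rfl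
  | succ m ih =>
    intro q hq
    have e : Fr (fun _ => 0) (fun _ : ℕ => -((m + 1 : ℕ) : ℤ) - 1) false 0 0 q =
        Fr (fun _ => 0) (fun _ => (-(m : ℤ) - 1) - 1) true (-(m : ℤ) - 1) N q :=
      Fr_move hq (fun _ _ => rfl) (fun _ _ => by push_cast; ring)
    have e2 : lTot4 W N (m + 1) = lRing4 (W (-(m : ℤ) - 1)) N (-(m : ℤ) - 1) * lTot4 W N m := rfl
    rw [e, e2, Module.End.mul_apply, lRing4_eq (W (-(m : ℤ) - 1)) (-(m : ℤ) - 1) (fun _ => 0)
      (fun i _ => by omega) _ q, seqF_succ]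
    exact congrFun (NUNC.ring_congr (by simp) ih) q

omit [CommRing K] in
theorem seq_congr {T : ℕ → (Pat (NUF.St N) → K) → (Pat (NUF.St N) → K)}
    (hT : ∀ n, ∀ F F' : Pat (NUF.St N) → K, (∀ q : Pat (NUF.St N), q cc = cc → F q = F' q) → T n F = T n F')
    {F F' : Pat (NUF.St N) → K} (h : ∀ q : Pat (NUF.St N), q cc = cc → F q = F' q) (m : ℕ) :
    ∀ q : Pat (NUF.St N), q cc = cc → seqF T m F q = seqF T m F' q := by
  induction m with
  | zero => exact h
  | succ m ih =>
    intro q _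
    rw [seqF_succ, seqF_succ, hT m _ _ ih]

/-- **The network in ring order.** -/
theorem tot4_eq (W : ℤ → ℕ → W5 K) (N m : ℕ) (G : Pat Lab → K) :
    (rTot4 W N m * lTot4 W N m) G Pat.empty =
      seqF (RR W N) m (seqF (RL W N) m (fun q => G (Fr (fun _ => 0) (fun _ => -1) false 0 0 q))) Pat.empty := by
  have e0 : (Pat.empty : Pat (NUF.St N)) cc = cc := rfl
  rw [Module.End.mul_apply, ← Fr_empty (N := N) (fun _ => (m : ℤ)) (fun _ => -(m : ℤ) - 1) false 0 0,
    rTot4_eq W m (fun _ => -(m : ℤ) - 1) (fun i => by omega) _ _ e0]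
  have hT : ∀ n, ∀ F F' : Pat (NUF.St N) → K, (∀ q : Pat (NUF.St N), q cc = cc → F q = F' q) →
      RR W N n F = RR W N n F' := by
    intro n F F' h
    unfold RR
    exact NUNC.ring_congr (by simp) h
  exact seq_congr hT (lTot4_eq W m G) m _ e0

end Pool.Agent.YBC
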