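import Pool.Agent.YBC.Pub

/-!
# Crossings with honeycomb weights are pairs of trivalent vertices: the weight of a walk

A crossing of the type `false` is resolved by an edge between the vertices `false` (sides S, W) and `true` (sides E, N);
in the type `true` the sides are S, E and N, W.  A passage visits one or two of these vertices; the weight of a walk is
`x ^ (number of the visited vertices)` if they are distinct.
-/

set_option autoImplicit false

namespace Pool.Agent.YBC

variable {N : ℕ} {K : Type*} [CommRing K]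

/-- The trivalent vertex at a side of a crossing of the type `m`. -/
def sd (m : Bool) : Dir → Bool
  | .E => !m
  | .N => true
  | .W => m
  | .S => false

/-- The honeycomb weights of a crossing of the type `m`. -/
def hexT (x : K) (m : Bool) : W5 K := if m then ⟨x ^ 2, x ^ 2, x, 0, x ^ 2⟩ else ⟨x ^ 2, x, x ^ 2, x ^ 2, 0⟩

/-- The trivalent vertices that are visited by a passage. -/
def blk (m : Bool) (s d : Dir) : List Bool := if sd m s = sd m d then [sd m s] else [sd m s, sd m d]

theorem blk_ne_nil (m : Bool) (s d : Dir) : 1 ≤ (blk m s d).length := by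
  unfold blk
  split_ifs <;> simp

theorem flat_length (m : Bool) : ∀ l : List (Dir × Dir),
    l.length ≤ (l.flatMap (fun p => blk m p.1 p.2)).length
  | [] => le_rfl
  | p :: l => by
    have := flat_length m l
    have := blk_ne_nil m p.1 p.2
    simp only [List.flatMap_cons, List.length_append, List.length_cons]
    omega

/-- **The local lemma.** -/
theorem lw_hex (x : K) (m : Bool) : ∀ l : List (Dir × Dir), (hexT x m).lw l =
    if (∀ p ∈ l, p.1 ≠ p.2) ∧ (l.flatMap (fun p => blk m p.1 p.2)).Nodup then
      x ^ (l.flatMap (fun p => blk m p.1 p.2)).length else 0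
  | [] => by simp [W5.lw]
  | [p] => by
    obtain ⟨a, b⟩ := p
    cases m <;> cases a <;> cases b <;> simp [W5.lw, W5.one, hexT, blk, sd]
  | [p, q] => by
    obtain ⟨a, b⟩ := p
    obtain ⟨c, d⟩ := q
    cases m <;> cases a <;> cases b <;> cases c <;> cases d <;> rfl
  | p :: q :: r :: l => by
    rw [if_neg]
    · rfl
    · rintro ⟨-, h⟩
      have h1 := h.length_le_card
      have h2 := flat_length m (p :: q :: r :: l)
      simp only [List.length_cons, Fintype.card_bool] at h1 h2
      omega

/-- The visited trivalent vertices. -/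
def pth (τ : Vx N → Bool) (l : List (Vx N × (Dir × Dir))) : List (Vx N × Bool) :=
  l.flatMap fun p => (blk (τ p.1) p.2.1 p.2.2).map fun c => (p.1, c)

theorem pth_cons (τ : Vx N → Bool) (p : Vx N × (Dir × Dir)) (l : List (Vx N × (Dir × Dir))) :
    pth τ (p :: l) = ((blk (τ p.1) p.2.1 p.2.2).map fun c => (p.1, c)) ++ pth τ l := by
  unfold pth
  rw [List.flatMap_cons]

theorem mem_pth_fst {τ : Vx N → Bool} {l : List (Vx N × (Dir × Dir))} {q : Vx N × Bool}
    (h : q ∈ pth τ l) : ∃ p ∈ l, p.1 = q.1 := by
  unfold pth at h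
  obtain ⟨p, hp, hq⟩ := List.mem_flatMap.1 h
  obtain ⟨c, -, rfl⟩ := List.mem_map.1 hq
  exact ⟨p, hp, rfl⟩

theorem pth_filter (τ : Vx N → Bool) (v : Vx N) : ∀ l : List (Vx N × (Dir × Dir)),
    (pth τ l).filter (fun q => q.1 = v) =
      ((psAt l v).flatMap (fun p => blk (τ v) p.1 p.2)).map fun c => (v, c)
  | [] => rfl
  | p :: l => by
    rw [pth_cons, List.filter_append, pth_filter τ v l]
    by_cases h : p.1 = v
    · have e : psAt (p :: l) v = p.2 :: psAt l v := by simp [psAt, h]
      rw [e, List.flatMap_cons, List.map_append]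
      congr 1
      rw [List.filter_eq_self.2]
      · rw [h]
      · intro q hq
        obtain ⟨c, -, rfl⟩ := List.mem_map.1 hq
        simpa using h
    · have e : psAt (p :: l) v = psAt l v := by simp [psAt, h]
      rw [e, List.filter_eq_nil_iff.2, List.nil_append]
      intro q hq
      obtain ⟨c, -, rfl⟩ := List.mem_map.1 hq
      simpa using h

/-! ### lists by their first components -/

theorem sum_filter_length {V : Type*} [DecidableEq V] (s : Finset V) : ∀ L : List (V × Bool),
    (∀ q ∈ L, q.1 ∈ s) → ∑ v ∈ s, (L.filter (fun q => q.1 = v)).length = L.length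
  | [], _ => by simp
  | q :: L, h => by
    have ih := sum_filter_length s L (fun q' hq => h q' (List.mem_cons_of_mem _ hq))
    have hq : q.1 ∈ s := h q List.mem_cons_self
    have e : ∀ v ∈ s, ((q :: L).filter (fun q => q.1 = v)).length =
        (L.filter (fun q => q.1 = v)).length + if q.1 = v then 1 else 0 := by
      intro v _
      by_cases hv : q.1 = v
      · simp [hv]
      · simp [hv]
    rw [Finset.sum_congr rfl e, Finset.sum_add_distrib, ih, Finset.sum_ite_eq, if_pos hq,
      List.length_cons]

theorem nodup_filter {V : Type*} [DecidableEq V] {s : Finset V} {L : List (V × Bool)}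
    (h : ∀ q ∈ L, q.1 ∈ s) : L.Nodup ↔ ∀ v ∈ s, (L.filter (fun q => q.1 = v)).Nodup := by
  constructor
  · intro hn v _
    exact hn.filter _
  · intro hn
    rw [List.nodup_iff_count_le_one]
    intro q
    by_cases hq : q ∈ L
    · have h1 := List.nodup_iff_count_le_one.1 (hn q.1 (h q hq)) q
      rwa [List.count_filter (by simp)] at h1
    · rw [List.count_eq_zero_of_not_mem hq]
      exact Nat.zero_le _

/-- **The weight of a walk with honeycomb weights.** -/
theorem wt_hex (x : K) (τ : Vx N → Bool) (h : He N) (t : List Dir) :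
    wt (fun v => hexT x (τ v)) h t =
      if (∀ p ∈ pass h t, p.2.1 ≠ p.2.2) ∧ (pth τ (pass h t)).Nodup then
        x ^ (pth τ (pass h t)).length else 0 := by
  classical
  set l := pass h t with hl
  have hs : ∀ q ∈ pth τ l, q.1 ∈ vis h t := by
    intro q hq
    obtain ⟨p, hp, e⟩ := mem_pth_fst hq
    exact mem_vis.2 ⟨p, hp, e⟩
  have flat : ∀ v, ((psAt l v).flatMap (fun p => blk (τ v) p.1 p.2)).length =
      ((pth τ l).filter (fun q => q.1 = v)).length := by
    intro v
    rw [pth_filter, List.length_map]
  have flatn : ∀ v, ((psAt l v).flatMap (fun p => blk (τ v) p.1 p.2)).Nodup ↔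
      ((pth τ l).filter (fun q => q.1 = v)).Nodup := by
    intro v
    rw [pth_filter, List.nodup_map_iff (fun c c' e => congrArg Prod.snd e)]
  unfold wt
  simp only [lw_hex, ← hl]
  rw [Finset.prod_ite_zero, Finset.prod_pow_eq_pow_sum]
  have e1 : ∑ v ∈ vis h t, ((psAt l v).flatMap (fun p => blk (τ v) p.1 p.2)).length =
      (pth τ l).length := by
    rw [Finset.sum_congr rfl (fun v _ => flat v), sum_filter_length _ _ hs]
  have e2 : (∀ v ∈ vis h t, (∀ p ∈ psAt l v, p.1 ≠ p.2) ∧
      ((psAt l v).flatMap (fun p => blk (τ v) p.1 p.2)).Nodup) ↔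
      (∀ p ∈ l, p.2.1 ≠ p.2.2) ∧ (pth τ l).Nodup := by
    rw [nodup_filter hs]
    constructor
    · intro hv
      refine ⟨fun p hp => ?_, fun v hv' => (flatn v).1 (hv v hv').2⟩
      refine (hv p.1 (mem_vis.2 ⟨p, hp, rfl⟩)).1 p.2 ?_
      unfold psAt
      exact List.mem_map.2 ⟨p, List.mem_filter.2 ⟨hp, by simp⟩, rfl⟩
    · rintro ⟨h1, h2⟩ v hv
      refine ⟨fun p hp => ?_, (flatn v).2 (h2 v hv)⟩
      unfold psAt at hp
      obtain ⟨q, hq, rfl⟩ := List.mem_map.1 hp
      exact h1 q (List.mem_filter.1 hq).1
  rw [e1]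
  simp only [e2]

end Pool.Agent.YBC
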