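import Pool.Agent.YBC.Hex1
import Pool.Agent.YBC.Expl

/-!
# Words and self-avoiding walks of the trivalent graph

The words without U-turns whose trivalent vertices are distinct, from the half edge `a` to the half edge `b`, are in
bijection with the self-avoiding walks of the trivalent graph from the vertex of `a` to the vertex of `b` that do not use
the edges of `a` and `b`.
-/

set_option autoImplicit false

namespace Pool.Agent.YBC

variable {N : ℕ}

/-- The trivalent vertex of a half edge. -/
def tv (τ : Vx N → Bool) (h : He N) : Vx N × Bool := (h.1, sd (τ h.1) h.2)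

/-- One step of a walk that does not use the edges of `a` and `b`: inside a crossing or along an edge. -/
def Stp (τ : Vx N → Bool) (a b : He N) (p q : Vx N × Bool) : Prop :=
  (p.1 = q.1 ∧ p.2 ≠ q.2) ∨
    ∃ k : He N, p = tv τ k ∧ q = tv τ (rv k) ∧ k ≠ a ∧ k ≠ rv a ∧ k ≠ b ∧ k ≠ rv b

theorem tv_det {τ : Vx N → Bool} {h k : He N} (e1 : tv τ h = tv τ k) (e2 : tv τ (rv h) = tv τ (rv k)) :
    h = k := by
  obtain ⟨v, d⟩ := h
  obtain ⟨v', d'⟩ := k
  have h1 : v = v' := congrArg Prod.fst e1
  subst h1
  have h2 : sd (τ v) d = sd (τ v) d' := congrArg Prod.snd e1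
  have h3 : nx v d = nx v d' := congrArg Prod.fst e2
  have h4 : (nx v d).1 = (nx v d').1 := congrArg Prod.fst h3
  congr 1
  generalize τ v = m at h2
  cases m <;> cases d <;> cases d' <;> simp [sd, nx] at h2 h4 ⊢ <;> omega

theorem one_ne_zero' (hN : N ≠ 1) : (1 : ZMod N) ≠ 0 := by
  intro h
  have h1 : ((1 : ℕ) : ZMod N) = 0 := by exact_mod_cast h
  rw [ZMod.natCast_eq_zero_iff] at h1
  exact hN (Nat.dvd_one.1 h1)

theorem nx_ne (hN : N ≠ 1) (v : Vx N) (d : Dir) : nx v d ≠ v := by
  intro h
  have h1 := congrArg Prod.fst h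
  have h2 := congrArg Prod.snd h
  have h3 := one_ne_zero' hN
  cases d <;> simp [nx, h3] at h1 h2

/-- The visited vertices. -/
def P (τ : Vx N → Bool) (h : He N) (t : List Dir) : List (Vx N × Bool) := pth τ (pass h t)

/-- No U-turn. -/
def NoU (h : He N) (t : List Dir) : Prop := ∀ p ∈ pass h t, p.2.1 ≠ p.2.2

section basic

variable (τ : Vx N → Bool)

theorem P_nil (h : He N) : P τ h [] = [] := rfl

theorem P_cons (h : He N) (d : Dir) (t : List Dir) : P τ h (d :: t) =
    ((blk (τ (rv h).1) (rv h).2 d).map fun c => ((rv h).1, c)) ++ P τ ((rv h).1, d) t := by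
  unfold P
  rw [pass, pth_cons]

theorem NoU_cons (h : He N) (d : Dir) (t : List Dir) :
    NoU h (d :: t) ↔ (rv h).2 ≠ d ∧ NoU ((rv h).1, d) t := by
  unfold NoU
  rw [pass]
  simp

theorem P_same {h : He N} {d : Dir} (e : sd (τ (rv h).1) (rv h).2 = sd (τ (rv h).1) d) (t : List Dir) :
    P τ h (d :: t) = tv τ (rv h) :: P τ ((rv h).1, d) t := by
  rw [P_cons]
  unfold blk
  rw [if_pos e]
  rfl

theorem P_diff {h : He N} {d : Dir} (e : sd (τ (rv h).1) (rv h).2 ≠ sd (τ (rv h).1) d) (t : List Dir) :
    P τ h (d :: t) = tv τ (rv h) :: tv τ ((rv h).1, d) :: P τ ((rv h).1, d) t := by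
  rw [P_cons]
  unfold blk
  rw [if_neg e]
  rfl

theorem P_head (h : He N) (d : Dir) (t : List Dir) : ∃ L, P τ h (d :: t) = tv τ (rv h) :: L := by
  by_cases e : sd (τ (rv h).1) (rv h).2 = sd (τ (rv h).1) d
  · exact ⟨_, P_same τ e t⟩
  · exact ⟨_, P_diff τ e t⟩

theorem P_ne_nil {h : He N} {t : List Dir} (ht : t ≠ []) : P τ h t ≠ [] := by
  cases t with
  | nil => exact absurd rfl ht
  | cons d t =>
    obtain ⟨L, hL⟩ := P_head τ h d t
    rw [hL]
    simp

theorem P_last : ∀ (t : List Dir) (h : He N), t ≠ [] → (P τ h t).getLast? = some (tv τ (fin h t))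
  | [], _, ht => absurd rfl ht
  | [d], h, _ => by
    by_cases e : sd (τ (rv h).1) (rv h).2 = sd (τ (rv h).1) d
    · rw [P_same τ e, P_nil, fin, fin, List.getLast?_singleton]
      unfold tv
      rw [e]
    · rw [P_diff τ e, P_nil, fin, fin]
      rfl
  | d :: d' :: t, h, _ => by
    rw [P_cons, List.getLast?_append_of_ne_nil _ (P_ne_nil τ (by simp)),
      P_last (d' :: t) _ (by simp)]
    rfl

/-- the exit is visited. -/
theorem exit_mem (h : He N) (d : Dir) :
    tv τ ((rv h).1, d) ∈ ((blk (τ (rv h).1) (rv h).2 d).map fun c => ((rv h).1, c)) := by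
  unfold blk
  split_ifs with e
  · rw [List.map_singleton, List.mem_singleton]
    unfold tv
    rw [e]
  · simp [tv]

theorem entry_mem (h : He N) (d : Dir) :
    tv τ (rv h) ∈ ((blk (τ (rv h).1) (rv h).2 d).map fun c => ((rv h).1, c)) := by
  unfold blk
  split_ifs with e
  · rw [List.map_singleton, List.mem_singleton]
    rfl
  · simp [tv]

theorem head_mem {h : He N} {t : List Dir} (ht : t ≠ []) : tv τ (rv h) ∈ P τ h t := by
  cases t with
  | nil => exact absurd rfl ht
  | cons d t =>
    obtain ⟨L, hL⟩ := P_head τ h d t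
    rw [hL]
    exact List.mem_cons_self

theorem last_mem {h : He N} {t : List Dir} (ht : t ≠ []) : tv τ (fin h t) ∈ P τ h t :=
  List.mem_of_getLast? (P_last τ t h ht)

end basic

/-! ### the cut edges are not used -/

/-- All exits except the last one have the property `Q`. -/
def Gd (Q : He N → Prop) : He N → List Dir → Prop
  | _, [] => True
  | h, d :: t => (t ≠ [] → Q ((rv h).1, d)) ∧ Gd Q ((rv h).1, d) t

theorem Gd.and {Q Q' : He N → Prop} : ∀ {t : List Dir} {h : He N}, Gd Q h t → Gd Q' h t →
    Gd (fun k => Q k ∧ Q' k) h t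
  | [], _, _, _ => trivial
  | _ :: _, _, h1, h2 => ⟨fun ht => ⟨h1.1 ht, h2.1 ht⟩, Gd.and h1.2 h2.2⟩

theorem gd_b (τ : Vx N → Bool) (b : He N) : ∀ (t : List Dir) (h : He N), NoU h t → (P τ h t).Nodup →
    fin h t = b → Gd (fun k => k ≠ b ∧ k ≠ rv b) h t
  | [], _, _, _, _ => trivial
  | d :: t, h, hU, hn, hf => by
    rw [NoU_cons] at hU
    rw [P_cons, List.nodup_append] at hn
    obtain ⟨-, hn2, hn3⟩ := hn
    have hf' : fin ((rv h).1, d) t = b := hf
    refine ⟨fun ht => ⟨?_, ?_⟩, gd_b τ b t _ hU.2 hn2 hf'⟩
    · intro e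
      have h1 := exit_mem τ h d
      have h2 := last_mem τ (h := ((rv h).1, d)) ht
      rw [hf', ← e] at h2
      exact hn3 _ h1 _ h2 rfl
    · intro e
      cases t with
      | nil => exact absurd rfl ht
      | cons d' t =>
        have e' : rv ((rv h).1, d) = b := by rw [e, rv_rv]
        rw [NoU_cons, e'] at hU
        rw [P_cons, List.nodup_append] at hn2
        by_cases ht' : t = []
        · subst ht'
          have h3 : ((rv ((rv h).1, d)).1, d') = b := hf'
          rw [e'] at h3
          exact hU.2.1 (congrArg Prod.snd h3).symm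
        · have h1 := entry_mem τ ((rv h).1, d) d'
          have h2 := last_mem τ (h := ((rv ((rv h).1, d)).1, d')) ht'
          have h3 : fin ((rv ((rv h).1, d)).1, d') t = b := hf'
          rw [h3, ← e'] at h2
          exact hn2.2.2 _ h1 _ h2 rfl

theorem gd_a0 (τ : Vx N → Bool) (a : He N) : ∀ (t : List Dir) (h : He N), tv τ a ∉ P τ h t →
    Gd (fun k => k ≠ a ∧ k ≠ rv a) h t
  | [], _, _ => trivial
  | d :: t, h, ha => by
    rw [P_cons, List.mem_append, not_or] at ha
    refine ⟨fun ht => ⟨?_, ?_⟩, gd_a0 τ a t _ ha.2⟩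
    · intro e
      apply ha.1
      rw [← e]
      exact exit_mem τ h d
    · intro e
      apply ha.2
      have e' : rv ((rv h).1, d) = a := by rw [e, rv_rv]
      rw [← e']
      exact head_mem τ ht

theorem gd_a (τ : Vx N → Bool) (a : He N) (t : List Dir) (hU : NoU (rv a) t)
    (hn : (P τ (rv a) t).Nodup) : Gd (fun k => k ≠ a ∧ k ≠ rv a) (rv a) t := by
  cases t with
  | nil => trivial
  | cons d t =>
    rw [NoU_cons] at hU
    rw [P_cons, List.nodup_append] at hn
    have h1 := entry_mem τ (rv a) d
    rw [rv_rv] at h1 hU hn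
    have h2 : tv τ a ∉ P τ (a.1, d) t := fun h => hn.2.2 _ h1 _ h rfl
    have h3 : ((rv (rv a)).1, d) = (a.1, d) := by rw [rv_rv]
    refine ⟨fun ht => ⟨?_, ?_⟩, ?_⟩
    · rw [h3]
      intro e
      exact hU.1 (congrArg Prod.snd e).symm
    · rw [h3]
      intro e
      apply h2
      have e' : rv (a.1, d) = a := by rw [e, rv_rv]
      have := head_mem τ (h := (a.1, d)) ht
      rwa [e'] at this
    · rw [h3]
      exact gd_a0 τ a t _ h2

/-- The chain. -/
theorem chain_P (τ : Vx N → Bool) (a b : He N) : ∀ (t : List Dir) (h : He N),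
    Gd (fun k => (k ≠ a ∧ k ≠ rv a) ∧ (k ≠ b ∧ k ≠ rv b)) h t → (P τ h t).IsChain (Stp τ a b)
  | [], _, _ => by
    rw [P_nil]
    exact List.isChain_nil
  | d :: t, h, hg => by
    have ih := chain_P τ a b t _ hg.2
    have stepX : ∀ L, P τ ((rv h).1, d) t = L → ∀ y ∈ L.head?, Stp τ a b (tv τ ((rv h).1, d)) y := by
      intro L hL y hy
      cases t with
      | nil =>
        rw [P_nil] at hL
        subst hL
        simp at hy
      | cons d' t =>
        obtain ⟨L', hL'⟩ := P_head τ ((rv h).1, d) d' t
        rw [← hL, hL'] at hy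
        simp only [List.head?_cons, Option.mem_def, Option.some.injEq] at hy
        obtain ⟨⟨g1, g2⟩, g3, g4⟩ := hg.1 (by simp)
        exact Or.inr ⟨_, rfl, hy.symm, g1, g2, g3, g4⟩
    by_cases e : sd (τ (rv h).1) (rv h).2 = sd (τ (rv h).1) d
    · rw [P_same τ e, List.isChain_cons]
      refine ⟨?_, ih⟩
      have e2 : tv τ (rv h) = tv τ ((rv h).1, d) := by
        unfold tv
        rw [e]
      rw [e2]
      exact stepX _ rfl
    · rw [P_diff τ e, List.isChain_cons, List.isChain_cons]
      refine ⟨?_, stepX _ rfl, ih⟩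
      intro y hy
      simp only [List.head?_cons, Option.mem_def, Option.some.injEq] at hy
      subst hy
      exact Or.inl ⟨rfl, e⟩

/-! ### injectivity -/

theorem side_unique {m : Bool} {s d d' : Dir} (h1 : s ≠ d) (h2 : s ≠ d') (h3 : sd m s = sd m d)
    (h4 : sd m s = sd m d') : d = d' := by
  cases m <;> cases s <;> cases d <;> cases d' <;> simp_all [sd]

theorem P_inj (hN : N ≠ 1) (τ : Vx N → Bool) : ∀ (t t' : List Dir) (h : He N), NoU h t → NoU h t' →
    fin h t = fin h t' → P τ h t = P τ h t' → t = t'
  | [], [], _, _, _, _, _ => rfl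
  | [], d :: t, h, _, _, _, e => absurd e.symm (P_ne_nil τ (by simp))
  | d :: t, [], h, _, _, _, e => absurd e (P_ne_nil τ (by simp))
  | d :: s, d' :: s', h, hU, hU', hf, e => by
    rw [NoU_cons] at hU hU'
    have hd : d = d' := by
      by_cases c : sd (τ (rv h).1) (rv h).2 = sd (τ (rv h).1) d
      · by_cases c' : sd (τ (rv h).1) (rv h).2 = sd (τ (rv h).1) d'
        · exact side_unique hU.1 hU'.1 c c'
        · exfalso
          rw [P_same τ c, P_diff τ c'] at e
          have e1 := (List.cons.inj e).2
          cases s with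
          | nil => rw [P_nil] at e1; simp at e1
          | cons x s =>
            obtain ⟨L, hL⟩ := P_head τ ((rv h).1, d) x s
            rw [hL] at e1
            have e2 := congrArg Prod.fst (List.cons.inj e1).1
            exact nx_ne hN _ _ e2
      · by_cases c' : sd (τ (rv h).1) (rv h).2 = sd (τ (rv h).1) d'
        · exfalso
          rw [P_same τ c', P_diff τ c] at e
          have e1 := (List.cons.inj e).2
          cases s' with
          | nil => rw [P_nil] at e1; simp at e1
          | cons x s =>
            obtain ⟨L, hL⟩ := P_head τ ((rv h).1, d') x s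
            rw [hL] at e1
            have e2 := congrArg Prod.fst (List.cons.inj e1).1
            exact nx_ne hN _ _ e2.symm
        · rw [P_diff τ c, P_diff τ c'] at e
          have e1 := (List.cons.inj e).2
          have e2 := (List.cons.inj e1).1
          have e3 := (List.cons.inj e1).2
          cases s with
          | nil =>
            cases s' with
            | nil => exact congrArg Prod.snd hf
            | cons x s => exact absurd e3.symm (P_ne_nil τ (by simp))
          | cons y s =>
            cases s' with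
            | nil => exact absurd e3 (P_ne_nil τ (by simp))
            | cons x s' =>
              obtain ⟨L, hL⟩ := P_head τ ((rv h).1, d) y s
              obtain ⟨L', hL'⟩ := P_head τ ((rv h).1, d') x s'
              rw [hL, hL'] at e3
              have e4 := tv_det e2 (List.cons.inj e3).1
              exact congrArg Prod.snd e4
    subst hd
    rw [P_cons, P_cons] at e
    have e1 := List.append_cancel_left e
    rw [P_inj hN τ s s' _ hU.2 hU'.2 hf e1]

/-! ### surjectivity -/

theorem P_surj (τ : Vx N → Bool) (a b : He N) : ∀ (n : ℕ) (L : List (Vx N × Bool)) (h : He N),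
    L.length ≤ n → L.head? = some (tv τ (rv h)) → L.IsChain (Stp τ a b) → L.Nodup →
    L.getLast? = some (tv τ b) → h ≠ rv b → L[1]? ≠ some (tv τ h) →
    ∃ t, NoU h t ∧ P τ h t = L ∧ fin h t = b ∧ t ≠ [] := by
  intro n
  induction n with
  | zero =>
    intro L h hl hh
    rw [Nat.le_zero, List.length_eq_zero_iff] at hl
    subst hl
    simp at hh
  | succ n ih =>
    intro L h hl hh hc hn hlast hb h1
    rcases L with _ | ⟨q0, L1⟩
    · simp at hh
    simp only [List.head?_cons, Option.some.injEq] at hh
    subst hh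
    rcases L1 with _ | ⟨q1, L2⟩
    · -- one vertex
      simp only [List.getLast?_singleton, Option.some.injEq] at hlast
      have e1' : (tv τ (rv h)).1 = (tv τ b).1 := congrArg Prod.fst hlast
      have e1 : (rv h).1 = b.1 := e1'
      have e2' : (tv τ (rv h)).2 = (tv τ b).2 := congrArg Prod.snd hlast
      have e2 : sd (τ (rv h).1) (rv h).2 = sd (τ b.1) b.2 := e2'
      have e3 : ((rv h).1, b.2) = b := Prod.ext e1 rfl
      refine ⟨[b.2], ?_, ?_, e3, by simp⟩
      · rw [NoU_cons]
        refine ⟨fun e => hb ?_, by unfold NoU; simp [pass]⟩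
        have : rv h = b := Prod.ext e1 e
        rw [← this, rv_rv]
      · rw [P_same τ (by rw [e2, e1]), P_nil]
    · rw [List.isChain_cons_cons] at hc
      obtain ⟨hs, hc⟩ := hc
      have hn' := List.nodup_cons.1 hn
      rcases hs with ⟨m1, m2⟩ | ⟨k, k1, k2, k3, k4, k5, k6⟩
      · -- through the edge inside the crossing
        rcases L2 with _ | ⟨q2, L3⟩
        · have hl' : q1 = tv τ b := by simpa using hlast
          subst hl'
          have e1 : (rv h).1 = b.1 := m1
          have e3 : ((rv h).1, b.2) = b := Prod.ext e1 rfl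
          have e2 : sd (τ (rv h).1) (rv h).2 ≠ sd (τ (rv h).1) b.2 := by
            intro e
            apply m2
            show sd (τ (rv h).1) (rv h).2 = sd (τ b.1) b.2
            rw [← e1]
            exact e
          refine ⟨[b.2], ?_, ?_, e3, by simp⟩
          · rw [NoU_cons]
            exact ⟨fun e => e2 (by rw [e]), by unfold NoU; simp [pass]⟩
          · rw [P_diff τ e2, P_nil, e3]
        · rw [List.isChain_cons_cons] at hc
          obtain ⟨hs, hc⟩ := hc
          have hn'' := List.nodup_cons.1 hn'.2
          rcases hs with ⟨m3, m4⟩ | ⟨k, k1, k2, k3, k4, k5, k6⟩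
          · exfalso
            apply hn'.1
            have : tv τ (rv h) = q2 := by
              refine Prod.ext (m1.trans m3) ?_
              revert m2 m4
              cases (tv τ (rv h)).2 <;> cases q1.2 <;> cases q2.2 <;> simp
            rw [this]
            simp
          · obtain ⟨t, t1, t2, t3, t4⟩ := ih (q2 :: L3) k (by simp at hl ⊢; omega)
              (by rw [k2]; rfl) hc hn''.2 (by simpa using hlast) k6 (by
                intro e
                apply hn''.1
                rw [k1]
                have : tv τ k ∈ L3 := by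
                  have e' : L3[0]? = some (tv τ k) := by simpa using e
                  exact List.mem_of_getElem? e'
                exact List.mem_cons_of_mem _ this)
            have e1 : (rv h).1 = k.1 := m1.trans (congrArg Prod.fst k1)
            have e3 : ((rv h).1, k.2) = k := Prod.ext e1 rfl
            have e2 : sd (τ (rv h).1) (rv h).2 ≠ sd (τ (rv h).1) k.2 := by
              intro e
              apply m2
              rw [k1]
              show sd (τ (rv h).1) (rv h).2 = sd (τ k.1) k.2
              rw [← e1]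
              exact e
            refine ⟨k.2 :: t, ?_, ?_, ?_, by simp⟩
            · rw [NoU_cons, e3]
              exact ⟨fun e => e2 (by rw [e]), t1⟩
            · rw [P_diff τ e2, e3, t2, k1]
            · show fin ((rv h).1, k.2) t = b
              rw [e3]
              exact t3
      · -- through the edge of the half edge `k`
        obtain ⟨t, t1, t2, t3, t4⟩ := ih (q1 :: L2) k (by simp at hl ⊢; omega)
          (by rw [k2]; rfl) hc hn'.2 (by simpa using hlast) k6 (by
            intro e
            apply hn'.1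
            rw [k1]
            have : tv τ k ∈ L2 := by
              have e' : L2[0]? = some (tv τ k) := by simpa using e
              exact List.mem_of_getElem? e'
            exact List.mem_cons_of_mem _ this)
        have e1' : (tv τ (rv h)).1 = (tv τ k).1 := congrArg Prod.fst k1
        have e1 : (rv h).1 = k.1 := e1'
        have e3 : ((rv h).1, k.2) = k := Prod.ext e1 rfl
        have e2' : (tv τ (rv h)).2 = (tv τ k).2 := congrArg Prod.snd k1
        have e2'' : sd (τ (rv h).1) (rv h).2 = sd (τ k.1) k.2 := e2'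
        have e2 : sd (τ (rv h).1) (rv h).2 = sd (τ (rv h).1) k.2 := by
          rw [e2'', e1]
        refine ⟨k.2 :: t, ?_, ?_, ?_, by simp⟩
        · rw [NoU_cons, e3]
          refine ⟨fun e => h1 ?_, t1⟩
          have : rv h = k := Prod.ext e1 e
          rw [k2, ← this, rv_rv]
          rfl
        · rw [P_same τ e2, e3, t2]
        · show fin ((rv h).1, k.2) t = b
          rw [e3]
          exact t3

/-! ### the bijection -/

/-- The words. -/
def Wd (τ : Vx N → Bool) (a b : He N) : Set (List Dir) :=
  {t | NoU (rv a) t ∧ (P τ (rv a) t).Nodup ∧ fin (rv a) t = b}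

/-- **The self-avoiding walks** of the trivalent graph from the vertex of `a` to the vertex of `b` that do not use the
edges of `a` and `b`. -/
def Sw (τ : Vx N → Bool) (a b : He N) : Set (List (Vx N × Bool)) :=
  {L | L.IsChain (Stp τ a b) ∧ L.Nodup ∧ L.head? = some (tv τ a) ∧ L.getLast? = some (tv τ b)}

theorem bij_Wd (hN : N ≠ 1) (τ : Vx N → Bool) {a b : He N} (hab : a ≠ b) (hab' : rv a ≠ b) :
    Set.BijOn (P τ (rv a)) (Wd τ a b) (Sw τ a b) := by
  refine ⟨?_, ?_, ?_⟩
  · rintro t ⟨h1, h2, h3⟩
    have ht : t ≠ [] := by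
      rintro rfl
      exact hab' h3
    refine ⟨chain_P τ a b t _ ((gd_a τ a t h1 h2).and (gd_b τ b t _ h1 h2 h3)), h2, ?_, ?_⟩
    · cases t with
      | nil => exact absurd rfl ht
      | cons d t =>
        obtain ⟨L, hL⟩ := P_head τ (rv a) d t
        rw [hL, rv_rv]
        rfl
    · rw [P_last τ t _ ht, h3]
  · rintro t ⟨h1, h2, h3⟩ t' ⟨h1', h2', h3'⟩ e
    exact P_inj hN τ t t' _ h1 h1' (h3.trans h3'.symm) e
  · rintro L ⟨h1, h2, h3, h4⟩
    obtain ⟨t, t1, t2, t3, -⟩ := P_surj τ a b L.length L (rv a) le_rfl (by rw [rv_rv]; exact h3) h1 h2 h4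
      (fun e => hab (rv_inj e)) (by
        intro e
        rcases L with _ | ⟨q0, _ | ⟨q1, L2⟩⟩
        · simp at e
        · simp at e
        · simp only [List.head?_cons, Option.some.injEq] at h3
          have e' : q1 = tv τ (rv a) := by simpa using e
          subst h3 e'
          rw [List.isChain_cons_cons] at h1
          rcases h1.1 with ⟨m1, -⟩ | ⟨k, k1, k2, k3, -⟩
          · exact nx_ne hN a.1 a.2 m1.symm
          · exact k3 (tv_det k1.symm k2.symm))
    exact ⟨t, ⟨t1, by rw [t2]; exact h2, t3⟩, t2⟩

end Pool.Agent.YBC
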