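import Pool.Agent.YBC.Hex2

/-!
# The sum over the walks with honeycomb weights is the generating function of the self-avoiding walks
-/

set_option autoImplicit false

open Filter Topology

namespace Pool.Agent.YBC

variable {N : ℕ}

theorem hexT_nn {x : ℝ} (hx : 0 ≤ x) (m : Bool) : (hexT x m).Nn := by
  have h2 : 0 ≤ x ^ 2 := by positivity
  cases m
  · exact ⟨h2, hx, h2, h2, le_rfl⟩
  · exact ⟨h2, h2, hx, le_rfl, h2⟩

theorem length_le_P (τ : Vx N → Bool) : ∀ (t : List Dir) (h : He N), t.length ≤ (P τ h t).length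
  | [], _ => Nat.zero_le _
  | d :: t, h => by
    have h1 := length_le_P τ t ((rv h).1, d)
    have h2 := blk_ne_nil (τ (rv h).1) (rv h).2 d
    rw [P_cons, List.length_append, List.length_map, List.length_cons]
    omega

open scoped Classical in
theorem wb_hex (x : ℝ) (τ : Vx N → Bool) (a b : He N) (t : List Dir) :
    wb (fun v => hexT x (τ v)) (rv a) b t =
      (Wd τ a b).indicator (fun t => x ^ (P τ (rv a) t).length) t := by
  unfold wb
  rw [wt_hex, Set.indicator_apply]
  by_cases h1 : fin (rv a) t = b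
  · rw [if_pos h1]
    by_cases h2 : NoU (rv a) t ∧ (P τ (rv a) t).Nodup
    · rw [if_pos (show t ∈ Wd τ a b from ⟨h2.1, h2.2, h1⟩)]
      exact if_pos h2
    · rw [if_neg (fun h : t ∈ Wd τ a b => h2 ⟨h.1, h.2.1⟩)]
      exact if_neg h2
  · rw [if_neg h1, if_neg (fun h : t ∈ Wd τ a b => h1 h.2.2)]

/-- The sum over the self-avoiding walks. -/
theorem hasSum_Sw (hN : N ≠ 1) (x : ℝ) (τ : Vx N → Bool) {a b : He N} (hab : a ≠ b) (hab' : rv a ≠ b)
    {W : ℝ} (h : HasSum (wb (fun v => hexT x (τ v)) (rv a) b) W) :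
    HasSum (fun L : Sw τ a b => x ^ L.1.length) W := by
  classical
  have h1 : HasSum ((Wd τ a b).indicator (fun t => x ^ (P τ (rv a) t).length)) W := by
    rw [← funext (wb_hex x τ a b)]
    exact h
  rw [← hasSum_subtype_iff_indicator] at h1
  let E : Wd τ a b ≃ Sw τ a b := Set.BijOn.equiv _ (bij_Wd hN τ hab hab')
  rw [← E.hasSum_iff]
  exact h1

/-- The self-avoiding walks with `n` steps. -/
def SwN (τ : Vx N → Bool) (a b : He N) (n : ℕ) : Set (List (Vx N × Bool)) :=
  {L | L ∈ Sw τ a b ∧ L.length = n + 1}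

theorem finite_SwN (hN : N ≠ 1) (τ : Vx N → Bool) {a b : He N} (hab : a ≠ b) (hab' : rv a ≠ b) (n : ℕ) :
    (SwN τ a b n).Finite := by
  refine ((words (n + 1)).finite_toSet.image (P τ (rv a))).subset ?_
  rintro L ⟨h1, h2⟩
  obtain ⟨t, -, rfl⟩ := (bij_Wd hN τ hab hab').surjOn h1
  refine ⟨t, ?_, rfl⟩
  rw [Finset.mem_coe, mem_words, ← h2]
  exact length_le_P τ t _

/-- **The generating function of the self-avoiding walks.** -/
theorem hasSum_SwN (hN : N ≠ 1) (x : ℝ) (τ : Vx N → Bool) {a b : He N} (hab : a ≠ b) (hab' : rv a ≠ b)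
    {W : ℝ} (h : HasSum (wb (fun v => hexT x (τ v)) (rv a) b) W) :
    HasSum (fun n : ℕ => ((SwN τ a b n).ncard : ℝ) * x ^ (n + 1)) W := by
  classical
  have h1 := hasSum_Sw hN x τ hab hab' h
  let g : Sw τ a b → ℕ := fun L => L.1.length - 1
  have hlen : ∀ L : Sw τ a b, L.1.length = g L + 1 := by
    rintro ⟨L, hL⟩
    have : L ≠ [] := by
      rintro rfl
      exact absurd hL.2.2.1 (by simp)
    have := List.length_pos_iff.2 this
    show L.length = L.length - 1 + 1
    omega
  rw [← (Equiv.sigmaFiberEquiv g).hasSum_iff] at h1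
  refine h1.sigma (fun n => ?_)
  -- the fibre
  let F : {L : Sw τ a b // g L = n} ≃ SwN τ a b n :=
    { toFun := fun L => ⟨L.1.1, L.1.2, by rw [hlen L.1, L.2]⟩
      invFun := fun L => ⟨⟨L.1, L.2.1⟩, by
        show L.1.length - 1 = n
        rw [L.2.2]
        omega⟩
      left_inv := fun L => rfl
      right_inv := fun L => rfl }
  have hf : Finite (SwN τ a b n) := (finite_SwN hN τ hab hab' n).to_subtype
  have : Finite {L : Sw τ a b // g L = n} := Finite.of_equiv _ F.symm
  have : Fintype {L : Sw τ a b // g L = n} := Fintype.ofFinite _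
  have h2 := hasSum_fintype (fun L : {L : Sw τ a b // g L = n} =>
    x ^ ((Equiv.sigmaFiberEquiv g) ⟨n, L⟩).1.length)
  have e : ∑ L : {L : Sw τ a b // g L = n}, x ^ ((Equiv.sigmaFiberEquiv g) ⟨n, L⟩).1.length =
      ((SwN τ a b n).ncard : ℝ) * x ^ (n + 1) := by
    have e1 : ∀ L : {L : Sw τ a b // g L = n},
        x ^ ((Equiv.sigmaFiberEquiv g) ⟨n, L⟩).1.length = x ^ (n + 1) := by
      rintro ⟨L, hL⟩
      show x ^ L.1.length = _
      rw [hlen L, hL]
    rw [Finset.sum_congr rfl (fun L _ => e1 L), Finset.sum_const, nsmul_eq_mul, Finset.card_univ,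
      ← Nat.card_eq_fintype_card, Nat.card_congr F, Nat.card_coe_set_eq]
  rw [← e]
  exact h2

end Pool.Agent.YBC
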