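import Pool.Agent.YBC.UnivA

/-!
# The limit of the two sequences of rings on every complex function of the cut
-/

set_option autoImplicit false

namespace Pool.Agent.YBC

open Filter Topology
open _root_.Pool.Agent.EXL hiding cc
open _root_.Pool.Agent.EXL.Pat _root_.Pool.Agent.EXL.HS
open _root_.Pool.Agent.NUF _root_.Pool.Agent.NUG
open _root_.Pool.Agent.NUN (cc Xr Xl)
open _root_.Pool.Agent.NUNC (dd)
open _root_.Pool.Agent.MXR (XR XL cc_XR dd_XR cc_XL dd_XL cc_ne_dd ind_nn)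

/-- The complex weights. -/
def W5.cx (w : W5 ℝ) : W5 ℂ := ⟨w.v, w.u1, w.u2, w.w1, w.w2⟩

/-- the complex weights of the columns. -/
noncomputable def WcolC (θ : ℤ → ℝ) : ℤ → ℕ → W5 ℂ := fun j _ => (yb (θ j)).cx

/-! ### products of linear maps -/

section lin

variable {β : Type*} [AddCommGroup β] [Module ℂ β]

/-- the product of the linear maps. -/
def seqL (L : ℕ → Module.End ℂ β) : ℕ → Module.End ℂ β
  | 0 => 1
  | n + 1 => L n * seqL L n

theorem seqL_eq (L : ℕ → Module.End ℂ β) (n : ℕ) (F : β) : seqF (fun n F => L n F) n F = seqL L n F := by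
  induction n with
  | zero => rfl
  | succ n ih => rw [seqF_succ, ih]; rfl

end lin

variable {N : ℕ}

theorem tw_cx (w : W5 ℝ) : tw w.cx = (tw w).map Complex.ofRealHom := rfl

theorem wr_cx (θ : ℝ) : (wr (fun _ => (yb θ).cx) : NUF.St N → Wt ℂ) = fun _ => rwt ((3 * θ / 8 : ℝ) : ℂ) := by
  funext x
  rcases x with ⟨i, b⟩ | y
  · show tw (yb θ).cx = _
    rw [tw_cx, tw_yb, yw_map]
  · show tw (yb θ).cx = _
    rw [tw_cx, tw_yb, yw_map]

/-- the linear maps of the rings. -/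
noncomputable def rgC (u : ℝ) (X : List (NUF.St N)) : Module.End ℂ (Pat (NUF.St N) → ℂ) :=
  NUT2.rg (fun _ => (0 : ℂ)) cc dd (u : ℂ) X

theorem rgC_eq (u : ℝ) {X : List (NUF.St N)} (hc : cc ∉ X) :
    (fun F => rgC u X F) = NUG.ringF (fun _ => rwt (u : ℂ)) cc dd X := by
  unfold rgC
  rw [NUT2.rg_fun _ _ (cc_ne_dd N) hc]
  simp only [sub_zero]

theorem rgC_ofReal (u : ℝ) {X : List (NUF.St N)} (hc : cc ∉ X) (F : Pat (NUF.St N) → ℝ) :
    rgC u X (fun p => (F p : ℂ)) = fun p => ((NUG.ringF (fun _ => yw u) cc dd X F p : ℝ) : ℂ) := by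
  rw [← MXR.ringC_ofReal]
  have h := congrFun (rgC_eq u hc) (fun p => (F p : ℂ))
  rw [h]
  congr 1
  funext j
  unfold MXR.wC
  rw [yw_map]

theorem RR_cx (θ : ℤ → ℝ) : RR (WcolC θ) N = fun (n : ℕ) F => rgC (3 * θ n / 8) (XR N) F := by
  funext n
  rw [rgC_eq _ (cc_XR N)]
  unfold RR WcolC
  rw [wr_cx]
  rfl

theorem RL_cx (θ : ℤ → ℝ) : RL (WcolC θ) N = fun (n : ℕ) F => rgC (3 * θ (-(n : ℤ) - 1) / 8) (XL N) F := by
  funext n
  rw [rgC_eq _ (cc_XL N)]
  unfold RL WcolC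
  rw [wr_cx]
  rfl

theorem seq_ofReal (u : ℕ → ℝ) {X : List (NUF.St N)} (hc : cc ∉ X) (m : ℕ) (F : Pat (NUF.St N) → ℝ) :
    seqL (fun n => rgC (u n) X) m (fun p => (F p : ℂ)) =
      fun p => ((seqF (TR (fun n (_ : NUF.St N) => yw (u n)) cc dd X) m F p : ℝ) : ℂ) := by
  induction m with
  | zero => rfl
  | succ m ih =>
    show rgC (u m) X (seqL (fun n => rgC (u n) X) m (fun p => (F p : ℂ))) = _
    rw [ih, rgC_ofReal _ hc]
    rfl

/-- **The limit for every complex function of the cut.** -/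
theorem rings_limC {θ : ℤ → ℝ} (hθ : ∀ j, AnT (θ j)) (F : Pat (NUF.St N) → ℂ) :
    Tendsto (fun m => seqF (RR (WcolC θ) N) m (seqF (RL (WcolC θ) N) m F) Pat.empty) atTop
      (𝓝 (pU (NUT2.VR cc dd (fun _ => (0 : ℂ)) (XR N)) (NUT2.VR cc dd (fun _ => (0 : ℂ)) (XL N)) F)) := by
  classical
  have : Fintype (Pat (NUF.St N)) := Fintype.ofFinite _
  set P := pU (NUT2.VR cc dd (fun _ => (0 : ℂ)) (XR N)) (NUT2.VR cc dd (fun _ => (0 : ℂ)) (XL N)) with hP
  have key : ∀ p : Pat (NUF.St N), Tendsto (fun m => (seqL (fun n : ℕ => rgC (3 * θ n / 8) (XR N)) m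
      (seqL (fun n : ℕ => rgC (3 * θ (-(n : ℤ) - 1) / 8) (XL N)) m
        (fun q => ((HS.ind p q : ℝ) : ℂ)))) Pat.empty) atTop (𝓝 (P (fun q => ((HS.ind p q : ℝ) : ℂ)))) := by
    intro p
    have h := rings_lim (N := N) hθ (F := HS.ind p) (ind_nn p)
    refine h.congr fun m => ?_
    rw [RR_yb, RL_yb, seq_ofReal (fun n : ℕ => 3 * θ (-(n : ℤ) - 1) / 8) (cc_XL N),
      seq_ofReal (fun n : ℕ => 3 * θ n / 8) (cc_XR N)]
  have hF : F = ∑ p, F p • (fun q => ((HS.ind p q : ℝ) : ℂ)) := by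
    funext q
    rw [Finset.sum_apply, Finset.sum_eq_single q]
    · rw [Pi.smul_apply, HS.ind_self, Complex.ofReal_one, smul_eq_mul, mul_one]
    · intro p _ hp
      rw [Pi.smul_apply, HS.ind_ne hp.symm, Complex.ofReal_zero, smul_zero]
    · intro h
      exact absurd (Finset.mem_univ q) h
  have e1 : ∀ m, seqF (RR (WcolC θ) N) m (seqF (RL (WcolC θ) N) m F) Pat.empty =
      ∑ p, F p * (seqL (fun n : ℕ => rgC (3 * θ n / 8) (XR N)) m
        (seqL (fun n : ℕ => rgC (3 * θ (-(n : ℤ) - 1) / 8) (XL N)) m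
          (fun q => ((HS.ind p q : ℝ) : ℂ)))) Pat.empty := by
    intro m
    rw [RR_cx, RL_cx, seqL_eq, seqL_eq]
    conv_lhs => rw [hF]
    rw [map_sum, map_sum, Finset.sum_apply]
    refine Finset.sum_congr rfl fun p _ => ?_
    rw [map_smul, map_smul, Pi.smul_apply, smul_eq_mul]
  have e2 : P F = ∑ p, F p * P (fun q => ((HS.ind p q : ℝ) : ℂ)) := by
    conv_lhs => rw [hF]
    rw [map_sum]
    refine Finset.sum_congr rfl fun p _ => ?_
    rw [map_smul, smul_eq_mul]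
  rw [e2]
  simp only [e1]
  exact tendsto_finsetSum _ fun p _ => (key p).const_mul _

end Pool.Agent.YBC
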