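import Pool.Agent.YBC.Pub
import Pool.Agent.WND.TailA

/-!
# Sums over the walks from the sums over boxes; the law of an integer label from its characteristic function
-/

set_option autoImplicit false

open Filter Topology

namespace Pool.Agent.YBC

section words

variable {N : ℕ}

open scoped Classical in
/-- the words of a growing box exhaust the words. -/
theorem tendsto_box {h : He N} {A : ℕ → Finset (Vx N)} {n : ℕ → ℕ}
    (hA : ∀ v, ∀ᶠ m in atTop, v ∈ A m) (hn : Tendsto n atTop atTop) :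
    Tendsto (fun m => (words (n m)).filter fun t => vis h t ⊆ A m) atTop atTop := by
  refine tendsto_atTop.2 fun s => ?_
  have e1 : ∀ᶠ m in atTop, ∀ v ∈ s.biUnion (fun t => vis h t), v ∈ A m :=
    (Filter.eventually_all_finset _).2 fun v _ => hA v
  have e2 : ∀ᶠ m in atTop, s.sup List.length ≤ n m := hn.eventually_ge_atTop _
  filter_upwards [e1, e2] with m m1 m2 t ht
  rw [Finset.mem_filter, mem_words]
  exact ⟨(Finset.le_sup (f := List.length) ht).trans m2,
    fun v hv => m1 v (Finset.mem_biUnion.2 ⟨t, ht, hv⟩)⟩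

open scoped Classical in
theorem sum_box {E : Type*} [AddCommMonoid E] (f : List Dir → E) (h b : He N) (A : Finset (Vx N))
    (n : ℕ) : ∑ t ∈ (words n).filter (fun t => vis h t ⊆ A ∧ fin h t = b), f t =
      ∑ t ∈ (words n).filter (fun t => vis h t ⊆ A), if fin h t = b then f t else 0 := by
  rw [← Finset.sum_filter, Finset.filter_filter]

open scoped Classical in
/-- **The sum over all walks**, summable functions. -/
theorem hasSum_words {E : Type*} [AddCommMonoid E] [TopologicalSpace E] [T2Space E]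
    {f : List Dir → E} {h b : He N} {A : ℕ → Finset (Vx N)} {n : ℕ → ℕ}
    (hs : Summable fun t => if fin h t = b then f t else 0)
    (hA : ∀ v, ∀ᶠ m in atTop, v ∈ A m) (hn : Tendsto n atTop atTop) {W : E}
    (hl : Tendsto (fun m => ∑ t ∈ (words (n m)).filter (fun t => vis h t ⊆ A m ∧ fin h t = b), f t)
      atTop (𝓝 W)) : HasSum (fun t => if fin h t = b then f t else 0) W := by
  have h1 := hs.hasSum.comp (tendsto_box (h := h) hA hn)
  have h2 : (fun m => ∑ t ∈ (words (n m)).filter (fun t => vis h t ⊆ A m ∧ fin h t = b), f t) =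
      (fun s : Finset (List Dir) => ∑ t ∈ s, if fin h t = b then f t else 0) ∘
        fun m => (words (n m)).filter fun t => vis h t ⊆ A m :=
    funext fun m => sum_box f h b (A m) (n m)
  rw [h2] at hl
  have h3 := tendsto_nhds_unique hl h1
  rw [h3]
  exact hs.hasSum

open scoped Classical in
/-- **(P1)** non-negative functions. -/
theorem hasSum_wordsR {f : List Dir → ℝ} (hf : ∀ t, 0 ≤ f t) {h b : He N} {A : ℕ → Finset (Vx N)}
    {n : ℕ → ℕ} (hA : ∀ v, ∀ᶠ m in atTop, v ∈ A m) (hn : Tendsto n atTop atTop) {W : ℝ}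
    (hl : Tendsto (fun m => ∑ t ∈ (words (n m)).filter (fun t => vis h t ⊆ A m ∧ fin h t = b), f t)
      atTop (𝓝 W)) : HasSum (fun t => if fin h t = b then f t else 0) W := by
  have h0 : ∀ t, 0 ≤ (if fin h t = b then f t else 0) := by
    intro t
    split_ifs
    · exact hf t
    · exact le_rfl
  refine hasSum_words ?_ hA hn hl
  refine summable_of_sum_le h0 (c := W) fun s => ?_
  refine ge_of_tendsto hl ?_
  have e := (tendsto_box (h := h) hA hn).eventually_ge_atTop s
  filter_upwards [e] with m hm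
  rw [sum_box]
  exact Finset.sum_le_sum_of_subset_of_nonneg hm fun t _ _ => h0 t

open scoped Classical in
/-- **(P2)** absolutely summable functions. -/
theorem hasSum_wordsC {f : List Dir → ℂ} (hf : Summable fun t => ‖f t‖) {h b : He N}
    {A : ℕ → Finset (Vx N)} {n : ℕ → ℕ} (hA : ∀ v, ∀ᶠ m in atTop, v ∈ A m)
    (hn : Tendsto n atTop atTop) {W : ℂ}
    (hl : Tendsto (fun m => ∑ t ∈ (words (n m)).filter (fun t => vis h t ⊆ A m ∧ fin h t = b), f t)
      atTop (𝓝 W)) : HasSum (fun t => if fin h t = b then f t else 0) W := by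
  refine hasSum_words ?_ hA hn hl
  refine Summable.of_norm_bounded hf fun t => ?_
  split_ifs
  · exact le_rfl
  · rw [norm_zero]
    exact norm_nonneg _

end words

/-! ### (P3) the law of an integer label -/

section law

variable {ι κ : Type*}

/-- The total weight of the label `n`. -/
noncomputable def lawZ (a : ι → ℝ) (c : ι → ℤ) (n : ℤ) : ℝ := ∑' i, if c i = n then a i else 0

theorem tsum_fiber (a : ι → ℝ) (c : ι → ℤ) (n : ℤ) : ∑' i : {i // c i = n}, a i = lawZ a c n := by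
  have h := tsum_subtype {i | c i = n} a
  refine Eq.trans h ?_
  unfold lawZ
  refine tsum_congr fun i => ?_
  by_cases hi : c i = n
  · rw [Set.indicator_of_mem (show i ∈ {i | c i = n} from hi), if_pos hi]
  · rw [Set.indicator_of_notMem (show i ∉ {i | c i = n} from hi), if_neg hi]

theorem lawZ_nonneg {a : ι → ℝ} (ha : ∀ i, 0 ≤ a i) (c : ι → ℤ) (n : ℤ) : 0 ≤ lawZ a c n := by
  refine tsum_nonneg fun i => ?_
  split_ifs
  · exact ha i
  · exact le_rfl

theorem summable_law {a : ι → ℝ} (ha : ∀ i, 0 ≤ a i) (hs : Summable a) (c : ι → ℤ) (f : ℤ → ℂ) :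
    Summable (fun i => (a i : ℂ) * f (c i)) ↔ Summable fun n => lawZ a c n * ‖f n‖ := by
  rw [← summable_norm_iff]
  have e1 : (fun i => ‖(a i : ℂ) * f (c i)‖) = fun i => a i * ‖f (c i)‖ := by
    funext i
    rw [norm_mul, Complex.norm_real, Real.norm_of_nonneg (ha i)]
  rw [e1, ← (Equiv.sigmaFiberEquiv c).summable_iff,
    summable_sigma_of_nonneg (f := (fun i => a i * ‖f (c i)‖) ∘ (Equiv.sigmaFiberEquiv c))
      (fun x => mul_nonneg (ha _) (norm_nonneg _))]
  have e2 : ∀ (n : ℤ) (y : {i // c i = n}),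
      ((fun i => a i * ‖f (c i)‖) ∘ (Equiv.sigmaFiberEquiv c)) ⟨n, y⟩ = a y * ‖f n‖ := by
    intro n y
    show a y * ‖f (c y)‖ = a y * ‖f n‖
    rw [y.2]
  simp only [e2]
  have e3 : ∀ n : ℤ, ∑' y : {i // c i = n}, a y * ‖f n‖ = lawZ a c n * ‖f n‖ := by
    intro n
    rw [tsum_mul_right, tsum_fiber]
  simp only [e3]
  refine ⟨fun h => h.2, fun h => ⟨fun n => ?_, h⟩⟩
  exact (hs.comp_injective Subtype.val_injective).mul_right _

theorem tsum_law {a : ι → ℝ} (c : ι → ℤ) {f : ℤ → ℂ}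
    (h : Summable fun i => (a i : ℂ) * f (c i)) :
    ∑' i, (a i : ℂ) * f (c i) = ∑' n, (lawZ a c n : ℂ) * f n := by
  rw [← (Equiv.sigmaFiberEquiv c).tsum_eq]
  refine (Summable.tsum_sigma ((Equiv.sigmaFiberEquiv c).summable_iff.2 h)).trans ?_
  refine tsum_congr fun n => ?_
  have e2 : ∀ y : {i // c i = n}, ((a ((Equiv.sigmaFiberEquiv c) ⟨n, y⟩) : ℝ) : ℂ) *
      f (c ((Equiv.sigmaFiberEquiv c) ⟨n, y⟩)) = ((a y : ℝ) : ℂ) * f n := by
    intro y
    show (a y : ℂ) * f (c y) = (a y : ℂ) * f n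
    rw [y.2]
  refine (tsum_congr e2).trans ?_
  rw [tsum_mul_right, ← tsum_fiber, Complex.ofReal_tsum]

theorem lawZ_ofReal (a : ι → ℝ) (c : ι → ℤ) (n : ℤ) :
    ∑' i, (if c i = n then (a i : ℂ) else 0) = (lawZ a c n : ℂ) := by
  unfold lawZ
  rw [Complex.ofReal_tsum]
  refine tsum_congr fun i => ?_
  split_ifs <;> simp

variable [Countable ι] [Countable κ]

/-- **the characteristic function determines the law.** -/
theorem law_eq {a : ι → ℝ} {b : κ → ℝ} (ha : ∀ i, 0 ≤ a i) (hb : ∀ j, 0 ≤ b j) (hsa : Summable a)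
    (hsb : Summable b) {c : ι → ℤ} {d : κ → ℤ}
    (h : ∀ z : ℂ, ‖z‖ = 1 → ∑' i, (a i : ℂ) * z ^ c i = ∑' j, (b j : ℂ) * z ^ d j) (n : ℤ) :
    lawZ a c n = lawZ b d n := by
  have h1 := WNDT.int_tsum ha hsa (fun i => -c i) n
  have h2 := WNDT.int_tsum hb hsb (fun j => -d j) n
  simp only [neg_neg] at h1 h2
  rw [lawZ_ofReal] at h1 h2
  have e : (fun θ : ℝ => (Complex.exp (θ * Complex.I)) ^ (-n) *
      ∑' i, (a i : ℂ) * (Complex.exp (θ * Complex.I)) ^ c i) =
      fun θ : ℝ => (Complex.exp (θ * Complex.I)) ^ (-n) *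
        ∑' j, (b j : ℂ) * (Complex.exp (θ * Complex.I)) ^ d j :=
    funext fun θ => by rw [h _ (WNDT.norm_s θ)]
  rw [e, h2] at h1
  have hpi : (2 * Real.pi : ℂ) ≠ 0 := by
    have := Real.pi_ne_zero
    exact_mod_cast mul_ne_zero two_ne_zero this
  have h3 := mul_left_cancel₀ hpi h1
  exact_mod_cast h3.symm

/-- **(P3)** equality of the laws, the form for sums. -/
theorem law_P3 {a : ι → ℝ} {b : κ → ℝ} (ha : ∀ i, 0 ≤ a i) (hb : ∀ j, 0 ≤ b j) (hsa : Summable a)
    (hsb : Summable b) {c : ι → ℤ} {d : κ → ℤ}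
    (h : ∀ z : ℂ, ‖z‖ = 1 → ∑' i, (a i : ℂ) * z ^ c i = ∑' j, (b j : ℂ) * z ^ d j) :
    (∀ n : ℤ, ∑' i, (if c i = n then a i else 0) = ∑' j, (if d j = n then b j else 0)) ∧
    (∀ f : ℤ → ℂ, (Summable (fun i => (a i : ℂ) * f (c i)) ↔ Summable fun j => (b j : ℂ) * f (d j)) ∧
      ∑' i, (a i : ℂ) * f (c i) = ∑' j, (b j : ℂ) * f (d j)) := by
  have key := law_eq ha hb hsa hsb h
  have key' : lawZ a c = lawZ b d := funext key
  refine ⟨key, fun f => ?_⟩
  have h1 : Summable (fun i => (a i : ℂ) * f (c i)) ↔ Summable fun j => (b j : ℂ) * f (d j) := by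
    rw [summable_law ha hsa, summable_law hb hsb, key']
  refine ⟨h1, ?_⟩
  by_cases hf : Summable fun i => (a i : ℂ) * f (c i)
  · rw [tsum_law c hf, tsum_law d (h1.1 hf), key']
  · rw [tsum_eq_zero_of_not_summable hf, tsum_eq_zero_of_not_summable (fun h2 => hf (h1.2 h2))]

/-- real functions of the label. -/
theorem law_P3R {a : ι → ℝ} {b : κ → ℝ} (ha : ∀ i, 0 ≤ a i) (hb : ∀ j, 0 ≤ b j) (hsa : Summable a)
    (hsb : Summable b) {c : ι → ℤ} {d : κ → ℤ}
    (h : ∀ z : ℂ, ‖z‖ = 1 → ∑' i, (a i : ℂ) * z ^ c i = ∑' j, (b j : ℂ) * z ^ d j) (f : ℤ → ℝ) :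
    (Summable (fun i => a i * f (c i)) ↔ Summable fun j => b j * f (d j)) ∧
      ∑' i, a i * f (c i) = ∑' j, b j * f (d j) := by
  obtain ⟨h1, h2⟩ := (law_P3 ha hb hsa hsb h).2 fun n => (f n : ℂ)
  have e1 : (fun i => (a i : ℂ) * ((f (c i) : ℝ) : ℂ)) = fun i => ((a i * f (c i) : ℝ) : ℂ) := by
    funext i; push_cast; rfl
  have e2 : (fun j => (b j : ℂ) * ((f (d j) : ℝ) : ℂ)) = fun j => ((b j * f (d j) : ℝ) : ℂ) := by
    funext j; push_cast; rfl
  rw [e1, e2, Complex.summable_ofReal, Complex.summable_ofReal] at h1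
  rw [e1, e2, ← Complex.ofReal_tsum, ← Complex.ofReal_tsum] at h2
  exact ⟨h1, by exact_mod_cast h2⟩

end law

end Pool.Agent.YBC
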