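import Pool.Agent.YBC.Def4

/-!
# The number of turns around the cylinder: definitions

The cylinder `ℤ × ZMod (2 k)`; a walk from the edge on the left of the vertex `(0, 0)` to the edge on the left of the
vertex `(0, k)`.
-/

set_option autoImplicit false

namespace Pool.Agent.YBC

/-- The signed crossing of the segment between the columns `-1` and `0`, rows `1, ..., k - 1`: `1` to the right, `-1`
to the left. -/
def crs (k : ℕ) (h : He (2 * k)) : ℤ :=
  if h.1.1 = -1 ∧ h.2 = Dir.E ∧ 0 < h.1.2.val ∧ h.1.2.val < k then 1
  else if h.1.1 = 0 ∧ h.2 = Dir.W ∧ 0 < h.1.2.val ∧ h.1.2.val < k then -1 else 0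

/-- **The number of turns** of the word `t` which starts through the half edge `h`: the sum of the signed crossings. -/
def turns (k : ℕ) : He (2 * k) → List Dir → ℤ
  | _, [] => 0
  | h, d :: t => crs k h + turns k ((rv h).1, d) t

end Pool.Agent.YBC
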