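import Pool.Agent.YBC.Pub
import Pool.Agent.YBC.ExplL
import Pool.Agent.YBC.TurnD

/-!
# The label of a walk on the cylinder is the number of its turns
-/

set_option autoImplicit false

namespace Pool.Agent.YBC

variable {N : ℕ}

/-! ### the sides of a walk with non-zero weight are different -/

theorem lw_nodup {K : Type*} [CommRing K] (w : W5 K) : ∀ L : List (Dir × Dir), w.lw L ≠ 0 →
    (L.flatMap fun x => [x.1, x.2]).Nodup
  | [], _ => by simp
  | [x], h => by
    have e : x.1 ≠ x.2 := by
      intro e
      apply h
      show w.one x.1 x.2 = 0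
      rw [e]
      cases x.2 <;> rfl
    simpa using e
  | [x, y], h => by
    by_contra hn
    apply h
    show w.two x.1 x.2 y.1 y.2 = 0
    unfold W5.two
    rw [if_pos]
    simpa using hn
  | _ :: _ :: _ :: _, h => absurd rfl h

/-- The sides used by the passages of the word. -/
def sides : He N → List Dir → List (He N)
  | _, [] => []
  | h, d :: t => rv h :: ((rv h).1, d) :: sides ((rv h).1, d) t

theorem sides_eq (t : List Dir) : ∀ h : He N,
    sides h t = (pass h t).flatMap fun x => [(x.1, x.2.1), (x.1, x.2.2)] := by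
  induction t with
  | nil => intro h; rfl
  | cons d t ih =>
    intro h
    rw [sides, pass, List.flatMap_cons, ih]
    rfl

theorem filter_sides (v : Vx N) : ∀ l : List (Vx N × (Dir × Dir)),
    (((l.flatMap fun x => [(x.1, x.2.1), (x.1, x.2.2)]).filter fun x : He N => x.1 = v).map Prod.snd) =
      (psAt l v).flatMap fun x => [x.1, x.2]
  | [] => rfl
  | x :: l => by
    have ih := filter_sides v l
    rw [psAt_cons]
    by_cases h : x.1 = v
    · simp only [List.flatMap_cons, List.filter_append, List.map_append, h, if_true]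
      rw [ih]
      simp
    · simp only [List.flatMap_cons, List.filter_append, List.map_append, h, if_false]
      rw [ih]
      simp [h]

theorem sides_nodup {K : Type*} [CommRing K] {w : Vx N → W5 K} {h : He N} {t : List Dir}
    (hw : wt w h t ≠ 0) : (sides h t).Nodup := by
  have h1 : ∀ v, ((psAt (pass h t) v).flatMap fun x => [x.1, x.2]).Nodup := by
    intro v
    by_cases hv : v ∈ vis h t
    · apply lw_nodup (w v)
      intro e
      exact hw (Finset.prod_eq_zero hv e)
    · rw [psAt_nil]
      · simp
      · intro x hx e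
        exact hv (mem_vis.2 ⟨x, hx, e⟩)
  rw [List.nodup_iff_count_le_one]
  intro a
  have h2 : ((sides h t).filter fun x : He N => x.1 = a.1).Nodup := by
    have := h1 a.1
    rw [← filter_sides, ← sides_eq] at this
    exact this.of_map _
  have h3 : (sides h t).count a = ((sides h t).filter fun x : He N => x.1 = a.1).count a := by
    rw [List.count_filter]
    simp
  rw [h3]
  exact List.nodup_iff_count_le_one.1 h2 a

theorem fin_mem (t : List Dir) : ∀ h : He N, fin h t ∈ h :: sides h t := by
  induction t with
  | nil => intro h; simp [fin]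
  | cons d t ih =>
    intro h
    rw [fin, sides]
    exact List.mem_cons_of_mem _ (List.mem_cons_of_mem _ (ih _))

/-! ### sums along a walk -/

/-- The sum of `e` over the crossed edges. -/
def sumW (e : He N → ℤ) : He N → List Dir → ℤ
  | _, [] => 0
  | h, d :: t => e h + sumW e ((rv h).1, d) t

theorem sumW_lin {e f : He N → ℤ} (n m : ℤ) {g : He N → ℤ} (hg : ∀ h, g h = n * e h + m * f h)
    (t : List Dir) : ∀ h, sumW g h t = n * sumW e h t + m * sumW f h t := by
  induction t with
  | nil => intro h; simp [sumW]
  | cons d t ih =>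
    intro h
    rw [sumW, sumW, sumW, ih, hg]
    ring

/-- the difference of a function of the vertices telescopes. -/
theorem sumW_tel (S : Vx N → ℤ) (t : List Dir) : ∀ h : He N,
    sumW (fun h => S (rv h).1 - S h.1) h t = S (fin h t).1 - S h.1 := by
  induction t with
  | nil => intro h; simp [sumW, fin]
  | cons d t ih =>
    intro h
    rw [sumW, ih, fin]
    ring

theorem lamW_zpow {K : Type*} [Field K] {χ : K} (hχ : χ ≠ 0) (e : He N → ℤ) (t : List Dir) :
    ∀ h : He N, lamW (fun h => χ ^ e h) h t = χ ^ sumW e h t := by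
  induction t with
  | nil => intro h; simp [lamW, sumW]
  | cons d t ih =>
    intro h
    rw [lamW, sumW, ih, zpow_add₀ hχ]

theorem turns_eq (k : ℕ) (t : List Dir) : ∀ h : He (2 * k), turns k h t = sumW (crs k) h t := by
  induction t with
  | nil => intro h; rfl
  | cons d t ih =>
    intro h
    rw [turns, sumW, ih]

/-- a function which vanishes outside of the edges of `a` and `b`. -/
theorem sumW_zero {a b : He N} {e : He N → ℤ}
    (he : ∀ h, h ≠ a → h ≠ rv a → h ≠ b → h ≠ rv b → e h = 0) (t : List Dir) :
    ∀ h : He N, (h :: sides h t).Nodup → a ∉ h :: sides h t → fin h t = b → sumW e h t = 0 := by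
  induction t with
  | nil => intro h _ _ _; rfl
  | cons d t ih =>
    intro h h1 h2 h3
    rw [sides] at h1 h2
    rw [fin] at h3
    obtain ⟨n1, n2⟩ := List.nodup_cons.1 h1
    obtain ⟨n3, n4⟩ := List.nodup_cons.1 n2
    have hb : b ∈ ((rv h).1, d) :: sides ((rv h).1, d) t := by
      rw [← h3]
      exact fin_mem t _
    have ha1 : h ≠ a := fun e => h2 (by rw [e]; exact List.mem_cons_self)
    have ha2 : rv h ≠ a := fun e => h2 (by rw [← e]; exact List.mem_cons_of_mem _ List.mem_cons_self)
    rw [sumW, ih _ n4 (fun hm => h2 (List.mem_cons_of_mem _ (List.mem_cons_of_mem _ hm))) h3,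
      add_zero]
    refine he h ha1 (fun e => ha2 ?_) (fun e => n1 ?_) (fun e => n3 ?_)
    · rw [e, rv_rv]
    · exact List.mem_cons_of_mem _ (e ▸ hb)
    · have e2 : rv h = b := by rw [e, rv_rv]
      rw [← e2] at hb
      exact hb

/-! ### the label of the seams -/

/-- The exponent of the seam lines at a half edge. -/
def cL (k : ℕ) (h : He (2 * k)) : ℤ :=
  if h.1.1 = 0 ∧ h.2 = Dir.W then
    (if 0 < h.1.2.val ∧ h.1.2.val < k then 1 else if k < h.1.2.val then -1 else 0) else 0

section turn

variable {k : ℕ}

/-- The first half edge. -/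
abbrev hA (k : ℕ) : He (2 * k) := ((0, 0), Dir.W)

/-- The last half edge. -/
abbrev hB (k : ℕ) : He (2 * k) := ((0, (k : ZMod (2 * k))), Dir.W)

/-- The side of the columns `0, 1, 2, ...`. -/
def sR (v : Vx (2 * k)) : ℤ := if 0 ≤ v.1 then 1 else 0

/-- The step of the side. -/
def dS (h : He (2 * k)) : ℤ := sR (rv h).1 - sR h.1

/-- The step of the side on the edges of `hA` and `hB`. -/
def cor (h : He (2 * k)) : ℤ :=
  if h = hA k ∨ h = rv (hA k) ∨ h = hB k ∨ h = rv (hB k) then dS h else 0

theorem dS_eq (h : He (2 * k)) : dS h = if h.1.1 = -1 ∧ h.2 = Dir.E then 1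
    else if h.1.1 = 0 ∧ h.2 = Dir.W then -1 else 0 := by
  obtain ⟨⟨i, r⟩, d⟩ := h
  unfold dS sR rv nx
  cases d
  · simp only [reduceCtorEq, and_true, and_false, if_false]
    split_ifs <;> omega
  · simp
  · simp only [reduceCtorEq, and_true, and_false, if_false]
    split_ifs <;> omega
  · simp

theorem exp_eq (hk : 0 < k) (h : He (2 * k)) :
    cL k h - cL k (rv h) = -2 * crs k h + (dS h - cor h) := by
  have : NeZero (2 * k) := ⟨by omega⟩
  obtain ⟨⟨i, r⟩, d⟩ := h
  have r0 : r.val = 0 ↔ r = 0 := ZMod.val_eq_zero r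
  have rk : r.val = k ↔ r = (k : ZMod (2 * k)) := by
    constructor
    · intro e
      have e1 : ((r.val : ℕ) : ZMod (2 * k)) = (k : ZMod (2 * k)) := congrArg Nat.cast e
      rwa [ZMod.natCast_zmod_val] at e1
    · rintro rfl
      exact ZMod.val_natCast_of_lt (by omega)
  have hr : r.val < 2 * k := ZMod.val_lt r
  unfold cor
  rw [dS_eq]
  unfold cL crs rv nx
  cases d
  · simp only [Dir.op, reduceCtorEq, and_false, if_false, and_true, true_and, Prod.mk.injEq]
    by_cases hi : i = -1
    · subst hi
      rcases Nat.lt_trichotomy r.val k with c | c | c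
      · by_cases c0 : r.val = 0
        · have := r0.1 c0
          subst this
          simp
        · have h1 : r ≠ 0 := fun e => c0 (r0.2 e)
          have h2 : r ≠ (k : ZMod (2 * k)) := fun e => absurd (rk.2 e) (by omega)
          have h3 : 0 < r.val := Nat.pos_of_ne_zero c0
          simp [h1, h2, h3, c]
      · have := rk.1 c
        subst this
        simp [c]
      · have h1 : r ≠ 0 := fun e => absurd (r0.2 e) (by omega)
        have h2 : r ≠ (k : ZMod (2 * k)) := fun e => absurd (rk.2 e) (by omega)
        have h3 : ¬ r.val < k := by omega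
        simp [h1, h2, h3, c]
    · have hi' : i + 1 ≠ 0 := by omega
      simp [hi, hi']
  · simp [Dir.op]
  · simp only [Dir.op, reduceCtorEq, and_false, if_false, and_true, true_and, Prod.mk.injEq]
    by_cases hi : i = 0
    · subst hi
      rcases Nat.lt_trichotomy r.val k with c | c | c
      · by_cases c0 : r.val = 0
        · have := r0.1 c0
          subst this
          simp
        · have h1 : r ≠ 0 := fun e => c0 (r0.2 e)
          have h2 : r ≠ (k : ZMod (2 * k)) := fun e => absurd (rk.2 e) (by omega)
          have h3 : 0 < r.val := Nat.pos_of_ne_zero c0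
          simp [h1, h2, h3, c]
      · have := rk.1 c
        subst this
        simp [c]
      · have h1 : r ≠ 0 := fun e => absurd (r0.2 e) (by omega)
        have h2 : r ≠ (k : ZMod (2 * k)) := fun e => absurd (rk.2 e) (by omega)
        have h3 : ¬ r.val < k := by omega
        simp [h1, h2, h3, c]
    · simp [hi]
  · simp [Dir.op]

/-- **The label of the seams counts the turns.** -/
theorem lamW_turns (hk : 0 < k) {K : Type*} [CommRing K] {w : Vx (2 * k) → W5 K} {t : List Dir}
    (hw : wt w (rv (hA k)) t ≠ 0) (hf : fin (rv (hA k)) t = hB k) {F : Type*} [Field F] {χ : F}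
    (hχ : χ ≠ 0) :
    lamW (fun h => χ ^ (cL k h - cL k (rv h))) (rv (hA k)) t = χ ^ (-2 * turns k (rv (hA k)) t) := by
  rw [lamW_zpow hχ, turns_eq]
  congr 1
  have hnd := sides_nodup hw
  obtain ⟨d, t', rfl⟩ : ∃ d t', t = d :: t' := by
    cases t with
    | nil =>
      rw [fin] at hf
      have := congrArg Prod.snd hf
      simp [rv, Dir.op] at this
    | cons d t' => exact ⟨d, t', rfl⟩
  rw [sides, rv_rv] at hnd
  obtain ⟨n1, n2⟩ := List.nodup_cons.1 hnd
  have hcor : sumW (cor (k := k)) (rv (hA k)) (d :: t') = 1 := by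
    rw [sumW, rv_rv]
    have h1 : cor (rv (hA k)) = 1 := by
      unfold cor
      rw [if_pos (Or.inr (Or.inl rfl)), dS_eq, if_pos]
      exact ⟨rfl, rfl⟩
    rw [fin, rv_rv] at hf
    rw [h1, sumW_zero (a := hA k) (b := hB k) (fun h a1 a2 a3 a4 => ?_) t' _ n2 n1 hf, add_zero]
    unfold cor
    rw [if_neg]
    rintro (e | e | e | e)
    · exact a1 e
    · exact a2 e
    · exact a3 e
    · exact a4 e
  have hdS : sumW (dS (k := k)) (rv (hA k)) (d :: t') = 1 := by
    have := sumW_tel (sR (k := k)) (d :: t') (rv (hA k))
    rw [hf] at this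
    refine Eq.trans this ?_
    rfl
  have h2 := sumW_lin (e := dS (k := k)) (f := cor (k := k)) 1 (-1)
    (g := fun h => dS h - cor h) (fun h => by ring) (d :: t') (rv (hA k))
  have h3 := sumW_lin (e := crs k) (f := fun h => dS h - cor h) (-2) 1
    (g := fun h => cL k h - cL k (rv h)) (fun h => by rw [exp_eq hk]; ring) (d :: t') (rv (hA k))
  rw [h3, h2, hcor, hdS]
  ring

end turn

end Pool.Agent.YBC
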