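import Pool.Agent.YBC.MainL
import Pool.Agent.YBC.LimC
import Pool.Agent.YBC.TurnL
import Pool.Agent.YBC.PubL
import Pool.Agent.WND.LimW

/-!
# The sums over the walks of the boxes with the winding weight tend to the function of the honeycomb lattice
-/

set_option autoImplicit false

namespace Pool.Agent.YBC

open Filter Topology
open _root_.Pool.Agent.EXL hiding cc
open _root_.Pool.Agent.EXL.Pat _root_.Pool.Agent.EXL.HS
open _root_.Pool.Agent.MXR (rowI rowJ r0 rk rest_rows)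
open _root_.Pool.Agent.WND (cS lnL)

/-! ### real and complex weights -/

theorem cx_one (w : W5 ℝ) (a b : Dir) : w.cx.one a b = ((w.one a b : ℝ) : ℂ) := by
  cases a <;> cases b <;> rfl

theorem cx_two (w : W5 ℝ) (a b c d : Dir) : w.cx.two a b c d = ((w.two a b c d : ℝ) : ℂ) := by
  unfold W5.two
  by_cases e : ¬ [a, b, c, d].Nodup
  · rw [if_pos e, if_pos e]
    exact Complex.ofReal_zero.symm
  · rw [if_neg e, if_neg e]
    cases a <;> cases b <;> rfl

theorem cx_lw (w : W5 ℝ) : ∀ l : List (Dir × Dir), w.cx.lw l = ((w.lw l : ℝ) : ℂ)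
  | [] => Complex.ofReal_one.symm
  | [_] => cx_one w _ _
  | [_, _] => cx_two w _ _ _ _
  | _ :: _ :: _ :: _ => Complex.ofReal_zero.symm

variable {k : ℕ}

/-- the weights of the crossings of the environment `θ`. -/
noncomputable abbrev wE (k : ℕ) (θ : ℤ → ℝ) : Vx (2 * k) → W5 ℝ := fun v => yb (θ v.1)

/-- the boxes. -/
noncomputable def bx (k m : ℕ) : Finset (Vx (2 * k)) := (LAh (2 * k) m).toFinset

/-- the lengths. -/
def bn (k m : ℕ) : ℕ := (LEh (N := 2 * k) m (rowI k ++ rowJ k)).length + 1 + m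

theorem mem_bx (hk : 1 ≤ k) (v : Vx (2 * k)) : ∀ᶠ m in atTop, v ∈ bx k m := by
  have : NeZero (2 * k) := ⟨by omega⟩
  filter_upwards [eventually_ge_atTop (v.1.natAbs + 1)] with m hm
  unfold bx
  rw [List.mem_toFinset, mem_LAh]
  omega

theorem bn_tendsto (k : ℕ) : Tendsto (bn k) atTop atTop :=
  tendsto_atTop_mono (fun m => by unfold bn; simp only [id]; omega) tendsto_id

theorem hs_r0 (hk : 1 ≤ k) : hs (r0 hk) = hA k := by
  unfold hs r0
  simp

theorem hs_rk (hk : 1 ≤ k) : hs (rk hk) = hB k := by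
  unfold hs rk
  simp

open scoped Classical in
/-- **The sums over the walks of the boxes.** -/
theorem tendsto_words (hk : 1 ≤ k) {χ : ℂ} (hχ : χ ≠ 0) {θ : ℤ → ℝ} (hθ : ∀ j, AnT (θ j)) :
    Tendsto (fun m => ∑ t ∈ (words (bn k m)).filter
        (fun t => vis (rv (hA k)) t ⊆ bx k m ∧ fin (rv (hA k)) t = hB k),
      ((wt (wE k θ) (rv (hA k)) t : ℝ) : ℂ) * lamW (lamL χ (rowI k) (rowJ k)) (rv (hA k)) t) atTop
      (𝓝 (WND.W0W χ k hk)) := by
  have : NeZero (2 * k) := ⟨by omega⟩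
  rw [WND.W0W_pU]
  refine (rings_limC (N := 2 * k) hθ _).congr' ?_
  filter_upwards [eventually_ge_atTop 1] with m hm
  have h := rings_words (N := 2 * k) hχ (WcolC θ) hm (GLD.r0_ne_rk hk) (rest_rows hk) (n := bn k m)
    (by unfold bn; omega)
  rw [hs_r0, hs_rk] at h
  refine h.trans ?_
  have e : (words (bn k m)).filter (fun t => (∀ x ∈ pass (rv (hA k)) t, x.1 ∈ (LAh (2 * k) m).toFinset) ∧
        fin (rv (hA k)) t = hB k) =
      (words (bn k m)).filter (fun t => vis (rv (hA k)) t ⊆ bx k m ∧ fin (rv (hA k)) t = hB k) :=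
    Finset.filter_congr fun t _ => by unfold bx; rw [vis_sub]
  rw [e]
  refine Finset.sum_congr rfl fun t ht => ?_
  congr 1
  rw [← prod_eq_wt (wE k θ) (Finset.mem_filter.1 ht).2.1, Complex.ofReal_prod]
  refine Finset.prod_congr rfl fun v _ => ?_
  exact cx_lw (yb (θ v.1)) _

/-! ### the labels -/

theorem mem_rowJ' {a : Fin (2 * k)} : a ∈ rowJ k ↔ 0 < (a : ℕ) ∧ (a : ℕ) < k := by
  refine ⟨WND.mem_rowJ, fun h => ?_⟩
  unfold rowJ
  refine List.mem_map.2 ⟨⟨(a : ℕ) - 1, by omega⟩, List.mem_finRange _, Fin.ext ?_⟩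
  simp only
  omega

theorem mem_rowI' {a : Fin (2 * k)} : a ∈ rowI k ↔ k < (a : ℕ) := by
  refine ⟨WND.mem_rowI, fun h => ?_⟩
  unfold rowI
  have := a.2
  refine List.mem_map.2 ⟨⟨(a : ℕ) - (k + 1), by omega⟩, List.mem_finRange _, Fin.ext ?_⟩
  simp only
  omega

theorem cH_eq (hk : 1 ≤ k) (h : He (2 * k)) : cH (rowI k) (rowJ k) h = cL k h := by
  have : NeZero (2 * k) := ⟨by omega⟩
  have key : ∀ l : List (Fin (2 * k)), ps (2 * k) h ∈ (l.map lnL).map Prod.fst ↔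
      h.1.1 = 0 ∧ h.2 = Dir.W ∧ (⟨h.1.2.val, ZMod.val_lt _⟩ : Fin (2 * k)) ∈ l := by
    intro l
    rw [List.map_map, List.mem_map]
    constructor
    · rintro ⟨a, ha, e⟩
      have e1 : ps (2 * k) (hs a) = ps (2 * k) h := by rw [ps_hs]; exact e
      have e2 := ps_inj (2 * k) e1
      subst e2
      refine ⟨rfl, rfl, ?_⟩
      have e : (⟨(hs a).1.2.val, ZMod.val_lt _⟩ : Fin (2 * k)) = a := Fin.ext (val_cast a.2)
      rw [e]
      exact ha
    · rintro ⟨h1, h2, h3⟩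
      refine ⟨_, h3, ?_⟩
      show EXL.Net.lW 0 ((h.1.2.val : ℕ) : ℤ) = ps (2 * k) h
      obtain ⟨⟨x, r⟩, d⟩ := h
      simp only at h1 h2
      subst h1 h2
      rfl
  unfold cH cS cL
  simp only [key, mem_rowI', mem_rowJ']
  by_cases h1 : h.1.1 = 0
  · by_cases h2 : h.2 = Dir.W
    · simp [h1, h2]
    · simp [h2]
  · simp [h1]

theorem lamL_eq (hk : 1 ≤ k) (χ : ℂ) :
    lamL χ (rowI k) (rowJ k) = fun h => χ ^ (cL k h - cL k (rv h)) := by
  funext h
  unfold lamL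
  rw [cH_eq hk, cH_eq hk]

/-- the weight of a word with its label. -/
theorem wt_lam (hk : 1 ≤ k) {χ : ℂ} (hχ : χ ≠ 0) (w : Vx (2 * k) → W5 ℝ) {t : List Dir}
    (hf : fin (rv (hA k)) t = hB k) :
    ((wt w (rv (hA k)) t : ℝ) : ℂ) * lamW (lamL χ (rowI k) (rowJ k)) (rv (hA k)) t =
      ((wt w (rv (hA k)) t : ℝ) : ℂ) * χ ^ (-2 * turns k (rv (hA k)) t) := by
  by_cases h0 : wt w (rv (hA k)) t = 0
  · rw [h0, Complex.ofReal_zero, zero_mul, zero_mul]
  · rw [lamL_eq hk, lamW_turns hk h0 hf hχ]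

/-! ### the sums over all walks -/

/-- the sum over the walks without the winding weight. -/
theorem hasSum_one (hk : 1 ≤ k) {θ : ℤ → ℝ} (hθ : ∀ j, AnT (θ j)) :
    HasSum (wb (wE k θ) (rv (hA k)) (hB k)) (GLD.W0 hk).re := hasSum_col hk hθ

open scoped Classical in
/-- **The sum over all walks with the winding weight on the unit circle.** -/
theorem hasSum_turn (hk : 1 ≤ k) {χ : ℂ} (hχ : ‖χ‖ = 1) {θ : ℤ → ℝ} (hθ : ∀ j, AnT (θ j)) :
    HasSum (fun t => ((wb (wE k θ) (rv (hA k)) (hB k) t : ℝ) : ℂ) * χ ^ (-2 * turns k (rv (hA k)) t))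
      (WND.W0W χ k hk) := by
  have hχ0 : χ ≠ 0 := by
    rintro rfl
    simp at hχ
  have hw : ∀ v, (wE k θ v).Nn := fun v => yb_nn (hθ _).1 (hθ _).2
  have e1 : (fun t => ((wb (wE k θ) (rv (hA k)) (hB k) t : ℝ) : ℂ) * χ ^ (-2 * turns k (rv (hA k)) t)) =
      fun t => if fin (rv (hA k)) t = hB k then
        ((wt (wE k θ) (rv (hA k)) t : ℝ) : ℂ) * lamW (lamL χ (rowI k) (rowJ k)) (rv (hA k)) t else 0 := by
    funext t
    unfold wb
    by_cases hf : fin (rv (hA k)) t = hB k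
    · rw [if_pos hf, if_pos hf, wt_lam hk hχ0 _ hf]
    · rw [if_neg hf, if_neg hf, Complex.ofReal_zero, zero_mul]
  have hs : Summable fun t => ((wb (wE k θ) (rv (hA k)) (hB k) t : ℝ) : ℂ) * χ ^ (-2 * turns k (rv (hA k)) t) := by
    refine Summable.of_norm_bounded (hasSum_one hk hθ).summable fun t => ?_
    rw [norm_mul, norm_zpow, hχ, one_zpow, mul_one, Complex.norm_real,
      Real.norm_of_nonneg (wb_nonneg hw _ _ _)]
  rw [e1] at hs ⊢
  exact hasSum_words hs (mem_bx hk) (bn_tendsto k) (tendsto_words hk hχ0 hθ)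

end Pool.Agent.YBC
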