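import Pool.Agent.YBC.LawA
import Pool.Agent.WND.W1cEnd

/-!
# The law of the number of turns in every column environment is the law on the honeycomb lattice
-/

set_option autoImplicit false

namespace Pool.Agent.YBC

open Filter Topology

variable {k : ℕ}

/-- **The characteristic functions agree.** -/
theorem tsum_turn (hk : 1 ≤ k) {θ : ℤ → ℝ} (hθ : ∀ j, AnT (θ j)) {z : ℂ} (hz : ‖z‖ = 1) :
    ∑' t, ((wb (wE k θ) (rv (hA k)) (hB k) t : ℝ) : ℂ) * z ^ turns k (rv (hA k)) t =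
      ∑' w : CylSaw.Saw k, (CylSaw.wt w : ℂ) * z ^ CylSaw.cn w := by
  obtain ⟨χ, hχ⟩ : ∃ χ : ℂ, χ ^ 2 = z⁻¹ := IsAlgClosed.exists_pow_nat_eq z⁻¹ two_pos
  have h1 : ‖χ‖ = 1 := by
    have h2 := congrArg norm hχ
    rw [norm_pow, norm_inv, hz, inv_one] at h2
    exact (pow_eq_one_iff_of_nonneg (norm_nonneg _) two_ne_zero).1 h2
  have h0 : χ ≠ 0 := by
    rintro rfl
    simp at h1
  have e1 := (hasSum_turn hk h1 hθ).tsum_eq
  have e2 := (WND.W0W_hasSum hk h0).tsum_eq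
  rw [← e2] at e1
  have t1 : ∀ n : ℤ, χ ^ (-2 * n) = z ^ n := by
    intro n
    rw [neg_mul, zpow_neg, zpow_mul, show χ ^ (2 : ℤ) = z⁻¹ from by rw [← hχ]; norm_cast, inv_zpow, inv_inv]
  have t2 : ∀ n : ℤ, (χ ^ 2) ^ (-n) = z ^ n := by
    intro n
    rw [hχ, zpow_neg, inv_zpow, inv_inv]
  simp only [t1, t2] at e1
  exact e1

/-- the total weights agree. -/
theorem summable_wbE (hk : 1 ≤ k) {θ : ℤ → ℝ} (hθ : ∀ j, AnT (θ j)) :
    Summable (wb (wE k θ) (rv (hA k)) (hB k)) := (hasSum_one hk hθ).summable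

/-- **The law of the number of turns does not depend on the environment.** -/
theorem law_turn (hk : 1 ≤ k) {θ : ℤ → ℝ} (hθ : ∀ j, AnT (θ j)) :
    (∀ n : ℤ, ∑' t, (if turns k (rv (hA k)) t = n then wb (wE k θ) (rv (hA k)) (hB k) t else 0) =
      ∑' w : CylSaw.Saw k, (if CylSaw.cn w = n then CylSaw.wt w else 0)) ∧
    ∀ f : ℤ → ℂ, (Summable (fun t => ((wb (wE k θ) (rv (hA k)) (hB k) t : ℝ) : ℂ) * f (turns k (rv (hA k)) t)) ↔
      Summable fun w : CylSaw.Saw k => (CylSaw.wt w : ℂ) * f (CylSaw.cn w)) ∧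
      ∑' t, ((wb (wE k θ) (rv (hA k)) (hB k) t : ℝ) : ℂ) * f (turns k (rv (hA k)) t) =
        ∑' w : CylSaw.Saw k, (CylSaw.wt w : ℂ) * f (CylSaw.cn w) := by
  have : NeZero (2 * k) := ⟨by omega⟩
  have : Countable (ZMod (2 * k)) := Finite.to_countable
  exact law_P3 (fun t => wb_nonneg (fun v => yb_nn (hθ _).1 (hθ _).2) _ _ t) (fun w => (CylSaw.wt_pos w).le)
    (summable_wbE hk hθ) (CylSaw.summable_wt hk) fun _ hz => tsum_turn hk hθ hz

end Pool.Agent.YBC
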