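import Pool.Agent.YBC.UnivB
import Pool.Agent.PB.CylMain

/-!
# The two-point function of the square lattice cylinder with any column angles and of the honeycomb cylinder
-/

set_option autoImplicit false

namespace Pool.Agent.YBC

open Filter

/-- **The honeycomb lattice and the square lattice with any column angles.** -/
theorem two_point_all {a b : ℝ} (h : ∃ A C : ℝ, 0 < A ∧ 0 ≤ C ∧ ∀ᶠ k : ℕ in atTop,
      |PBM.W0r k * (k : ℝ) ^ a - A| ≤ C * (k : ℝ) ^ b) :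
    ∃ (G : ℕ → ℝ) (A C : ℝ), 0 < A ∧ ∀ k : ℕ, 1 ≤ k → |G k * (k : ℝ) ^ a - A| ≤ C * (k : ℝ) ^ b ∧
      HasSum (fun n : ℕ => ((CylSaw.saws k n).ncard : ℝ) * CylSaw.zc ^ (n + 1)) (G k) ∧
      ∀ θ : ℤ → ℝ, (∀ j, Real.pi / 3 ≤ θ j ∧ θ j ≤ 2 * Real.pi / 3) →
        HasSum (wb (fun v : Vx (2 * k) => yb (θ v.1)) (rv ((0, 0), Dir.W)) ((0, (k : ZMod (2 * k))), Dir.W)) (G k) := by
  obtain ⟨A, C, hA, hC, h1⟩ := h
  obtain ⟨K, hK⟩ := eventually_atTop.1 h1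
  refine ⟨PBM.W0r, A, C + ∑ j ∈ Finset.range K, |PBM.W0r j * (j : ℝ) ^ a - A| / (j : ℝ) ^ b, hA, fun k hk =>
    ⟨?_, CylSaw.hasSum_W0r hk, fun θ hθ => ?_⟩⟩
  · have hk0 : (0 : ℝ) < (k : ℝ) ^ b := Real.rpow_pos_of_pos (by exact_mod_cast hk) _
    have hnn : ∀ j ∈ Finset.range K, 0 ≤ |PBM.W0r j * (j : ℝ) ^ a - A| / (j : ℝ) ^ b := fun j _ =>
      div_nonneg (abs_nonneg _) (Real.rpow_nonneg (Nat.cast_nonneg j) _)
    rcases lt_or_ge k K with hkK | hkK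
    · have h2 := Finset.single_le_sum hnn (Finset.mem_range.2 hkK)
      have h3 : |PBM.W0r k * (k : ℝ) ^ a - A| = |PBM.W0r k * (k : ℝ) ^ a - A| / (k : ℝ) ^ b * (k : ℝ) ^ b := by
        field_simp
      rw [h3]
      exact mul_le_mul_of_nonneg_right (by linarith) hk0.le
    · refine (hK k hkK).trans (mul_le_mul_of_nonneg_right ?_ hk0.le)
      have := Finset.sum_nonneg hnn
      linarith
  · rw [PBM.W0r_eq hk]
    exact hasSum_col hk hθ

end Pool.Agent.YBC
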