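import Pool.Agent.YBC.LawFin
import Pool.Agent.YBC.LawB
import Pool.Agent.YBC.UnivC
import Pool.Agent.WND.CylFin

/-!
# The law of the number of turns in every column environment, from the two theorems on the honeycomb cylinder
-/

set_option autoImplicit false

open Filter Topology MeasureTheory ProbabilityTheory Metric

namespace Pool.Agent.YBC

/-- from all large `k` to all `k`. -/
theorem all_of_large {F : ℕ → ℝ} {a b : ℝ} (h : ∃ A C : ℝ, 0 < A ∧ 0 ≤ C ∧ ∀ᶠ k : ℕ in atTop,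
    |F k * (k : ℝ) ^ a - A| ≤ C * (k : ℝ) ^ b) :
    ∃ A C : ℝ, 0 < A ∧ ∀ k : ℕ, 1 ≤ k → |F k * (k : ℝ) ^ a - A| ≤ C * (k : ℝ) ^ b := by
  obtain ⟨A, C, hA, hC, h1⟩ := h
  obtain ⟨K, hK⟩ := eventually_atTop.1 h1
  refine ⟨A, C + ∑ j ∈ Finset.range K, |F j * (j : ℝ) ^ a - A| / (j : ℝ) ^ b, hA, fun k hk => ?_⟩
  have hk0 : (0 : ℝ) < (k : ℝ) ^ b := Real.rpow_pos_of_pos (by exact_mod_cast hk) _
  have hnn : ∀ j ∈ Finset.range K, 0 ≤ |F j * (j : ℝ) ^ a - A| / (j : ℝ) ^ b := fun j _ =>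
    div_nonneg (abs_nonneg _) (Real.rpow_nonneg (Nat.cast_nonneg j) _)
  rcases lt_or_ge k K with hkK | hkK
  · have h2 := Finset.single_le_sum hnn (Finset.mem_range.2 hkK)
    have h3 : |F k * (k : ℝ) ^ a - A| = |F k * (k : ℝ) ^ a - A| / (k : ℝ) ^ b * (k : ℝ) ^ b := by
      field_simp
    rw [h3]
    exact mul_le_mul_of_nonneg_right (by linarith) hk0.le
  · refine (hK k hkK).trans (mul_le_mul_of_nonneg_right ?_ hk0.le)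
    have := Finset.sum_nonneg hnn
    linarith

/-- **The law of the number of turns in every column environment.** -/
theorem law_all
    (h : ∃ A C : ℝ, 0 < A ∧ 0 ≤ C ∧ ∀ᶠ k : ℕ in atTop,
      |PBM.W0r k * (k : ℝ) ^ (5 / 24 : ℝ) - A| ≤ C * (k : ℝ) ^ (-(3 / 8) : ℝ))
    (hW : WindW) :
    ∃ (Z : ℕ → ℝ) (p : ℕ → ℤ → ℝ),
      (∀ k : ℕ, 1 ≤ k → 0 < Z k ∧ (∀ n, 0 ≤ p k n) ∧ (∀ n, p k (-n) = p k n) ∧ HasSum (p k) 1 ∧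
        (∀ s : ℝ, Summable fun n : ℤ => p k n * Real.exp (s * |(n : ℝ)|)) ∧
        ∀ θ : ℤ → ℝ, (∀ j, Real.pi / 3 ≤ θ j ∧ θ j ≤ 2 * Real.pi / 3) → ∀ n : ℤ,
          HasSum (fun t => if turns k (rv (hA k)) t = n then wbC k θ t else 0) (Z k * p k n)) ∧
      (∃ A C : ℝ, 0 < A ∧ ∀ k : ℕ, 1 ≤ k →
        |Z k * (k : ℝ) ^ (5 / 24 : ℝ) - A| ≤ C * (k : ℝ) ^ (-(3 / 8) : ℝ)) ∧
      (∃ (t0 c C : ℝ) (M : ℂ → ℂ), 0 < t0 ∧ 0 < c ∧ DifferentiableOn ℂ M (ball 0 t0) ∧ M 0 = 1 ∧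
        ∀ k : ℕ, 1 ≤ k → ∀ t : ℂ, ‖t‖ < t0 →
          ‖(∑' n : ℤ, (p k n : ℂ) * Complex.exp (2 * Real.pi * t * n)) *
            Complex.exp (-((8 / 3 * Real.log k : ℝ) : ℂ) * t ^ 2) - M t‖ ≤ C * (k : ℝ) ^ (-c)) ∧
      (∃ v c C : ℝ, 0 < c ∧ ∀ k : ℕ, 1 ≤ k →
        |(∑' n : ℤ, p k n * (2 * Real.pi * n) ^ 2) - (16 / 3 * Real.log k + v)| ≤ C * (k : ℝ) ^ (-c)) ∧
      (∃ x0 : ℝ, 0 < x0 ∧ ∀ x : ℝ, 0 < x → x < x0 →
        Tendsto (fun k : ℕ => Real.log (∑' n : ℤ, if x * Real.log k ≤ 2 * Real.pi * n then p k n else 0) /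
          Real.log k) atTop (𝓝 (-(3 / 32 * x ^ 2)))) ∧
      ∀ x : ℝ, Tendsto (fun k : ℕ => ∑' n : ℤ, if 2 * Real.pi * n ≤ x * √(Real.log k) then p k n else 0) atTop
        (𝓝 ((gaussianReal 0 (16 / 3)).real (Set.Iic x))) := by
  refine lawFin (fun k hk θ hθ => ⟨?_, fun z hz => ?_⟩) hW ?_
  · exact summable_wbE hk (θ := θ) fun j => ⟨(hθ j).1, (hθ j).2⟩
  · exact tsum_turn hk (θ := θ) (fun j => ⟨(hθ j).1, (hθ j).2⟩) hz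
  · obtain ⟨A, C, hA, h1⟩ := all_of_large h
    refine ⟨A, C, hA, fun k hk => ?_⟩
    rw [CylSaw.Z_eq hk]
    exact h1 k hk

end Pool.Agent.YBC
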