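import Pool.Agent.YBC.PubL
import Pool.Agent.YBC.TurnL
import Pool.Agent.YBC.Ang
import Pool.Agent.WND.WindAng
import Pool.Agent.WND.AngDef

/-!
# The law of the number of turns in every column environment, from the law on the honeycomb cylinder
-/

set_option autoImplicit false

open Filter Topology MeasureTheory ProbabilityTheory Metric

namespace Pool.Agent.YBC

/-! ### sums over the labels -/

section law

variable {ι : Type*}

theorem tsum_lawR {a : ι → ℝ} (c : ι → ℤ) {f : ℤ → ℝ} (h : Summable fun i => a i * f (c i)) :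
    ∑' i, a i * f (c i) = ∑' n, lawZ a c n * f n := by
  have e1 : (fun i => (a i : ℂ) * ((f (c i) : ℝ) : ℂ)) = fun i => ((a i * f (c i) : ℝ) : ℂ) := by
    funext i; push_cast; rfl
  have h1 := tsum_law (a := a) c (f := fun n => (f n : ℂ)) (by
    rw [e1, Complex.summable_ofReal]; exact h)
  rw [e1, ← Complex.ofReal_tsum] at h1
  have e2 : (fun n => (lawZ a c n : ℂ) * ((f n : ℝ) : ℂ)) = fun n => ((lawZ a c n * f n : ℝ) : ℂ) := by
    funext i; push_cast; rfl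
  rw [e2, ← Complex.ofReal_tsum] at h1
  exact_mod_cast h1

theorem summable_lawR {a : ι → ℝ} (ha : ∀ i, 0 ≤ a i) (hs : Summable a) (c : ι → ℤ) {f : ℤ → ℝ}
    (hf : ∀ n, 0 ≤ f n) (h : Summable fun i => a i * f (c i)) : Summable fun n => lawZ a c n * f n := by
  have h1 := (summable_law ha hs c fun n => (f n : ℂ)).1 (by
    have e1 : (fun i => (a i : ℂ) * ((f (c i) : ℝ) : ℂ)) = fun i => ((a i * f (c i) : ℝ) : ℂ) := by
      funext i; push_cast; rfl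
    rw [e1, Complex.summable_ofReal]; exact h)
  refine h1.congr fun n => ?_
  rw [Complex.norm_real, Real.norm_of_nonneg (hf n)]

theorem hasSum_law1 {a : ι → ℝ} (ha : ∀ i, 0 ≤ a i) (hs : Summable a) (c : ι → ℤ) :
    HasSum (lawZ a c) (∑' i, a i) := by
  have h0 : Summable fun i => a i * (1 : ℝ) := by simpa using hs
  have h1 := tsum_lawR c (f := fun _ => 1) h0
  have h2 := summable_lawR ha hs c (f := fun _ => 1) (fun _ => zero_le_one) h0
  simp only [mul_one] at h1 h2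
  rw [h1]
  exact h2.hasSum

end law

/-- sums of a symmetric function. -/
theorem tsum_symm {E : Type*} [AddCommMonoid E] [TopologicalSpace E] (g : ℤ → E) :
    ∑' n : ℤ, g (-n) = ∑' n : ℤ, g n := (Equiv.neg ℤ).tsum_eq g

/-- The statement of `CylSaw.windW`. -/
def WindW : Prop :=
    (∀ k : ℕ, 1 ≤ k → 0 < CylSaw.Z k ∧
      (∀ t : ℂ, Summable fun w : CylSaw.Saw k => (CylSaw.wt w : ℂ) * Complex.exp (t * (CylSaw.wang w : ℂ))) ∧
      ∑' w : CylSaw.Saw k, CylSaw.wt w * CylSaw.wang w = 0) ∧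
    (∃ (t0 c C : ℝ) (M : ℂ → ℂ), 0 < t0 ∧ 0 < c ∧ DifferentiableOn ℂ M (ball 0 t0) ∧ M 0 = 1 ∧
      ∀ k : ℕ, 1 ≤ k → ∀ t : ℂ, ‖t‖ < t0 →
        ‖CylSaw.angMgf k t * Complex.exp (-((8 / 3 * Real.log k : ℝ) : ℂ) * t ^ 2) - M t‖ ≤ C * (k : ℝ) ^ (-c)) ∧
    (∃ v c C : ℝ, 0 < c ∧ ∀ k : ℕ, 1 ≤ k → |CylSaw.angSq k - (16 / 3 * Real.log k + v)| ≤ C * (k : ℝ) ^ (-c)) ∧
    (∃ x0 : ℝ, 0 < x0 ∧ ∀ x : ℝ, 0 < x → x < x0 →
      Tendsto (fun k : ℕ => Real.log (CylSaw.angProb k (Set.Ici (x * Real.log k))) / Real.log k) atTop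
        (𝓝 (-(3 / 32 * x ^ 2)))) ∧
    ∀ x : ℝ, Tendsto (fun k : ℕ => CylSaw.angProb k (Set.Iic (x * √(Real.log k)))) atTop
      (𝓝 ((gaussianReal 0 (16 / 3)).real (Set.Iic x)))

/-- The law of the crossing number on the honeycomb cylinder. -/
noncomputable def pL (k : ℕ) (n : ℤ) : ℝ :=
  lawZ (fun w : CylSaw.Saw k => CylSaw.wt w) (fun w => CylSaw.cn w) n / CylSaw.Z k

section pL

variable {k : ℕ}

theorem saw_count (hk : 1 ≤ k) : Countable (CylSaw.Saw k) := by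
  have : NeZero (2 * k) := ⟨by omega⟩
  have : Countable (CylSaw.V (2 * k)) := inferInstance
  infer_instance

theorem wt0 (w : CylSaw.Saw k) : 0 ≤ CylSaw.wt w := by
  unfold CylSaw.wt CylSaw.zc
  positivity

theorem wang_cn (hk : 1 ≤ k) (w : CylSaw.Saw k) : CylSaw.wang w = -(2 * Real.pi * CylSaw.cn w) := by
  have h := CylSaw.angS_eq hk w
  unfold CylSaw.angS at h
  unfold CylSaw.wang
  rw [h]
  ring

theorem pL_nn (hZ : 0 < CylSaw.Z k) (n : ℤ) : 0 ≤ pL k n :=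
  div_nonneg (lawZ_nonneg wt0 _ _) hZ.le

theorem pL_symm (hk : 1 ≤ k) (n : ℤ) : pL k (-n) = pL k n := by
  unfold pL lawZ
  congr 1
  rw [← CylSaw.tsum_rS hk fun x j => if j = n then x else 0]
  refine tsum_congr fun w => ?_
  have e : (CylSaw.cn w = -n) ↔ (-CylSaw.cn w = n) := by omega
  simp only [e]

theorem summable_wt (hs : ∀ t : ℂ, Summable fun w : CylSaw.Saw k =>
    (CylSaw.wt w : ℂ) * Complex.exp (t * (CylSaw.wang w : ℂ))) : Summable fun w : CylSaw.Saw k => CylSaw.wt w := by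
  have h := hs 0
  simp only [zero_mul, Complex.exp_zero, mul_one] at h
  exact Complex.summable_ofReal.1 h

theorem pL_hasSum (hZ : 0 < CylSaw.Z k) (hs : Summable fun w : CylSaw.Saw k => CylSaw.wt w) :
    HasSum (pL k) 1 := by
  have h := (hasSum_law1 wt0 hs fun w => CylSaw.cn w).div_const (CylSaw.Z k)
  have e : (∑' w : CylSaw.Saw k, CylSaw.wt w) / CylSaw.Z k = 1 := div_self hZ.ne'
  rw [e] at h
  exact h

/-- sums over the labels, complex functions -/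
theorem pL_tsum {f : ℤ → ℂ} (h : Summable fun w : CylSaw.Saw k => (CylSaw.wt w : ℂ) * f (CylSaw.cn w)) :
    (∑' w : CylSaw.Saw k, (CylSaw.wt w : ℂ) * f (CylSaw.cn w)) / (CylSaw.Z k : ℂ) =
      ∑' n, (pL k n : ℂ) * f n := by
  rw [tsum_law _ h, ← tsum_div_const]
  refine tsum_congr fun n => ?_
  unfold pL
  push_cast
  ring

/-- sums over the labels, real functions -/
theorem pL_tsumR {f : ℤ → ℝ} (h : Summable fun w : CylSaw.Saw k => CylSaw.wt w * f (CylSaw.cn w)) :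
    (∑' w : CylSaw.Saw k, CylSaw.wt w * f (CylSaw.cn w)) / CylSaw.Z k = ∑' n, pL k n * f n := by
  rw [tsum_lawR _ h, ← tsum_div_const]
  refine tsum_congr fun n => ?_
  unfold pL
  ring

theorem pL_mgf (hk : 1 ≤ k) (hs : ∀ t : ℂ, Summable fun w : CylSaw.Saw k =>
    (CylSaw.wt w : ℂ) * Complex.exp (t * (CylSaw.wang w : ℂ))) (t : ℂ) :
    CylSaw.angMgf k t = ∑' n : ℤ, (pL k n : ℂ) * Complex.exp (2 * Real.pi * t * n) := by
  have e1 : ∀ w : CylSaw.Saw k, (CylSaw.wt w : ℂ) * Complex.exp (t * (CylSaw.wang w : ℂ)) =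
      (CylSaw.wt w : ℂ) * (fun n : ℤ => Complex.exp (2 * Real.pi * t * ((-n : ℤ) : ℂ))) (CylSaw.cn w) := by
    intro w
    rw [wang_cn hk]
    push_cast
    ring_nf
  have h0 : Summable fun w : CylSaw.Saw k => (CylSaw.wt w : ℂ) *
      (fun n : ℤ => Complex.exp (2 * Real.pi * t * ((-n : ℤ) : ℂ))) (CylSaw.cn w) := by
    refine (hs t).congr fun w => ?_
    exact e1 w
  have h1 := pL_tsum (k := k) (f := fun n : ℤ => Complex.exp (2 * Real.pi * t * ((-n : ℤ) : ℂ))) h0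
  have h2 := tsum_symm fun n : ℤ => (pL k n : ℂ) * Complex.exp (2 * Real.pi * t * n)
  unfold CylSaw.angMgf
  rw [tsum_congr e1]
  refine h1.trans (Eq.trans (tsum_congr fun n => ?_) h2)
  rw [pL_symm hk]

theorem summable_exp (hk : 1 ≤ k) (hs : ∀ t : ℂ, Summable fun w : CylSaw.Saw k =>
    (CylSaw.wt w : ℂ) * Complex.exp (t * (CylSaw.wang w : ℂ))) (s : ℝ) :
    Summable fun w : CylSaw.Saw k => CylSaw.wt w * Real.exp (s * |(CylSaw.cn w : ℝ)|) := by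
  have h1 : ∀ s : ℝ, Summable fun w : CylSaw.Saw k => CylSaw.wt w * Real.exp (s * (CylSaw.cn w : ℝ)) := by
    intro s
    have h := hs (((-(s / (2 * Real.pi)) : ℝ) : ℂ))
    have e : (fun w : CylSaw.Saw k => (CylSaw.wt w : ℂ) *
        Complex.exp (((-(s / (2 * Real.pi)) : ℝ) : ℂ) * (CylSaw.wang w : ℂ))) =
        fun w => ((CylSaw.wt w * Real.exp (s * (CylSaw.cn w : ℝ)) : ℝ) : ℂ) := by
      funext w
      rw [wang_cn hk, ← Complex.ofReal_mul, ← Complex.ofReal_exp, ← Complex.ofReal_mul]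
      congr 3
      have := Real.pi_ne_zero
      field_simp
    rw [e] at h
    exact Complex.summable_ofReal.1 h
  refine Summable.of_nonneg_of_le (fun w => mul_nonneg (wt0 w) (Real.exp_pos _).le) (fun w => ?_)
    ((h1 s).add (h1 (-s)))
  rw [← mul_add]
  refine mul_le_mul_of_nonneg_left ?_ (wt0 w)
  rcases abs_cases (CylSaw.cn w : ℝ) with ⟨e, -⟩ | ⟨e, -⟩
  · rw [e]
    have := Real.exp_pos (-s * (CylSaw.cn w : ℝ))
    linarith
  · rw [e, mul_neg, ← neg_mul]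
    have := Real.exp_pos (s * (CylSaw.cn w : ℝ))
    linarith

theorem pL_exp (hk : 1 ≤ k) (hs : ∀ t : ℂ, Summable fun w : CylSaw.Saw k =>
    (CylSaw.wt w : ℂ) * Complex.exp (t * (CylSaw.wang w : ℂ))) (s : ℝ) :
    Summable fun n : ℤ => pL k n * Real.exp (s * |(n : ℝ)|) := by
  have h := summable_lawR wt0 (summable_wt hs) (fun w : CylSaw.Saw k => CylSaw.cn w)
    (f := fun n : ℤ => Real.exp (s * |(n : ℝ)|)) (fun n => (Real.exp_pos _).le) (summable_exp hk hs s)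
  refine (h.div_const (CylSaw.Z k)).congr fun n => ?_
  unfold pL
  ring

theorem pL_sq (hk : 1 ≤ k) (hs : ∀ t : ℂ, Summable fun w : CylSaw.Saw k =>
    (CylSaw.wt w : ℂ) * Complex.exp (t * (CylSaw.wang w : ℂ))) :
    CylSaw.angSq k = ∑' n : ℤ, pL k n * (2 * Real.pi * n) ^ 2 := by
  have e1 : ∀ w : CylSaw.Saw k, CylSaw.wt w * CylSaw.wang w ^ 2 =
      CylSaw.wt w * (fun n : ℤ => (2 * Real.pi * (n : ℝ)) ^ 2) (CylSaw.cn w) := by
    intro w
    rw [wang_cn hk, neg_sq]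
  have h0 : Summable fun w : CylSaw.Saw k => CylSaw.wt w *
      (fun n : ℤ => (2 * Real.pi * (n : ℝ)) ^ 2) (CylSaw.cn w) := by
    refine Summable.of_nonneg_of_le (fun w => mul_nonneg (wt0 w) (sq_nonneg _)) (fun w => ?_)
      ((summable_exp hk hs (2 * (2 * Real.pi))).mul_left 1)
    rw [one_mul]
    refine mul_le_mul_of_nonneg_left ?_ (wt0 w)
    have h1 : 2 * Real.pi * |(CylSaw.cn w : ℝ)| ≤ Real.exp (2 * Real.pi * |(CylSaw.cn w : ℝ)|) := by
      have := Real.add_one_le_exp (2 * Real.pi * |(CylSaw.cn w : ℝ)|)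
      linarith
    have h2 : (2 * Real.pi * (CylSaw.cn w : ℝ)) ^ 2 = (2 * Real.pi * |(CylSaw.cn w : ℝ)|) ^ 2 := by
      rw [mul_pow, mul_pow _ |_|, sq_abs]
    show (2 * Real.pi * (CylSaw.cn w : ℝ)) ^ 2 ≤ _
    have h3 : Real.exp (2 * (2 * Real.pi) * |(CylSaw.cn w : ℝ)|) =
        Real.exp (2 * Real.pi * |(CylSaw.cn w : ℝ)|) ^ 2 := by
      rw [← Real.exp_nat_mul]
      congr 1
      push_cast
      ring
    rw [h2, h3]
    exact pow_le_pow_left₀ (by positivity) h1 2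
  have h1 := pL_tsumR (k := k) (f := fun n : ℤ => (2 * Real.pi * (n : ℝ)) ^ 2) h0
  unfold CylSaw.angSq
  rw [tsum_congr e1]
  exact h1

theorem pL_prob (hk : 1 ≤ k) (hs : Summable fun w : CylSaw.Saw k => CylSaw.wt w) (s : Set ℝ)
    (f : ℤ → ℝ) (hf : ∀ n : ℤ, f (-n) = s.indicator (fun _ => 1) (-(2 * Real.pi * n))) :
    CylSaw.angProb k s = ∑' n : ℤ, pL k (-n) * f (-n) := by
  classical
  have e1 : ∀ w : CylSaw.Saw k, s.indicator (fun _ => CylSaw.wt w) (CylSaw.wang w) =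
      CylSaw.wt w * (fun n : ℤ => f (-n)) (CylSaw.cn w) := by
    intro w
    show _ = CylSaw.wt w * f (-CylSaw.cn w)
    rw [hf, wang_cn hk]
    by_cases h : -(2 * Real.pi * (CylSaw.cn w : ℝ)) ∈ s
    · rw [Set.indicator_of_mem h, Set.indicator_of_mem h, mul_one]
    · rw [Set.indicator_of_notMem h, Set.indicator_of_notMem h, mul_zero]
  have h0 : Summable fun w : CylSaw.Saw k => CylSaw.wt w * (fun n : ℤ => f (-n)) (CylSaw.cn w) := by
    refine Summable.of_norm_bounded hs fun w => ?_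
    show ‖CylSaw.wt w * f (-CylSaw.cn w)‖ ≤ _
    rw [hf, norm_mul, Real.norm_of_nonneg (wt0 w)]
    refine mul_le_of_le_one_right (wt0 w) ?_
    by_cases h : -(2 * Real.pi * (CylSaw.cn w : ℝ)) ∈ s
    · rw [Set.indicator_of_mem h]; simp
    · rw [Set.indicator_of_notMem h]; simp
  have h1 := pL_tsumR (k := k) (f := fun n : ℤ => f (-n)) h0
  unfold CylSaw.angProb
  rw [tsum_congr e1]
  refine h1.trans (tsum_congr fun n => ?_)
  rw [pL_symm hk]

theorem pL_le (hk : 1 ≤ k) (hs : Summable fun w : CylSaw.Saw k => CylSaw.wt w) (y : ℝ) :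
    CylSaw.angProb k (Set.Iic y) = ∑' n : ℤ, if 2 * Real.pi * n ≤ y then pL k n else 0 := by
  classical
  rw [pL_prob hk hs (Set.Iic y) (fun n => if 2 * Real.pi * (n : ℝ) ≤ y then 1 else 0) (fun n => ?_),
    tsum_symm fun n : ℤ => pL k n * if 2 * Real.pi * (n : ℝ) ≤ y then 1 else 0]
  · refine tsum_congr fun n => ?_
    split_ifs <;> simp
  · rw [Set.indicator_apply]
    have e : (2 * Real.pi * ((-n : ℤ) : ℝ) ≤ y) ↔ (-(2 * Real.pi * (n : ℝ)) ∈ Set.Iic y) := by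
      rw [Set.mem_Iic]
      push_cast
      rw [mul_neg]
    simp only [e]

theorem pL_ge (hk : 1 ≤ k) (hs : Summable fun w : CylSaw.Saw k => CylSaw.wt w) (y : ℝ) :
    CylSaw.angProb k (Set.Ici y) = ∑' n : ℤ, if y ≤ 2 * Real.pi * n then pL k n else 0 := by
  classical
  rw [pL_prob hk hs (Set.Ici y) (fun n => if y ≤ 2 * Real.pi * (n : ℝ) then 1 else 0) (fun n => ?_),
    tsum_symm fun n : ℤ => pL k n * if y ≤ 2 * Real.pi * (n : ℝ) then 1 else 0]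
  · refine tsum_congr fun n => ?_
    split_ifs <;> simp
  · rw [Set.indicator_apply]
    have e : (y ≤ 2 * Real.pi * ((-n : ℤ) : ℝ)) ↔ (-(2 * Real.pi * (n : ℝ)) ∈ Set.Ici y) := by
      rw [Set.mem_Ici]
      push_cast
      rw [mul_neg]
    simp only [e]

end pL

/-- the weights of the columns with the angles `θ`. -/
noncomputable abbrev wbC (k : ℕ) (θ : ℤ → ℝ) : List Dir → ℝ :=
  wb (fun v : Vx (2 * k) => yb (θ v.1)) (rv (hA k)) (hB k)

/-- **The law of the number of turns.** -/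
theorem lawFin
    (hL : ∀ k : ℕ, 1 ≤ k → ∀ θ : ℤ → ℝ, (∀ j, Real.pi / 3 ≤ θ j ∧ θ j ≤ 2 * Real.pi / 3) →
      Summable (wbC k θ) ∧ ∀ z : ℂ, ‖z‖ = 1 →
        ∑' t, (wbC k θ t : ℂ) * z ^ turns k (rv (hA k)) t =
          ∑' w : CylSaw.Saw k, (CylSaw.wt w : ℂ) * z ^ CylSaw.cn w)
    (hW : WindW)
    (hZ : ∃ A C : ℝ, 0 < A ∧ ∀ k : ℕ, 1 ≤ k →
      |CylSaw.Z k * (k : ℝ) ^ (5 / 24 : ℝ) - A| ≤ C * (k : ℝ) ^ (-(3 / 8) : ℝ)) :
    ∃ (Z : ℕ → ℝ) (p : ℕ → ℤ → ℝ),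
      (∀ k : ℕ, 1 ≤ k → 0 < Z k ∧ (∀ n, 0 ≤ p k n) ∧ (∀ n, p k (-n) = p k n) ∧ HasSum (p k) 1 ∧
        (∀ s : ℝ, Summable fun n : ℤ => p k n * Real.exp (s * |(n : ℝ)|)) ∧
        ∀ θ : ℤ → ℝ, (∀ j, Real.pi / 3 ≤ θ j ∧ θ j ≤ 2 * Real.pi / 3) → ∀ n : ℤ,
          HasSum (fun t => if turns k (rv (hA k)) t = n then wbC k θ t else 0) (Z k * p k n)) ∧
      (∃ A C : ℝ, 0 < A ∧ ∀ k : ℕ, 1 ≤ k →
        |Z k * (k : ℝ) ^ (5 / 24 : ℝ) - A| ≤ C * (k : ℝ) ^ (-(3 / 8) : ℝ)) ∧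
      (∃ (t0 c C : ℝ) (M : ℂ → ℂ), 0 < t0 ∧ 0 < c ∧ DifferentiableOn ℂ M (ball 0 t0) ∧ M 0 = 1 ∧
        ∀ k : ℕ, 1 ≤ k → ∀ t : ℂ, ‖t‖ < t0 →
          ‖(∑' n : ℤ, (p k n : ℂ) * Complex.exp (2 * Real.pi * t * n)) *
            Complex.exp (-((8 / 3 * Real.log k : ℝ) : ℂ) * t ^ 2) - M t‖ ≤ C * (k : ℝ) ^ (-c)) ∧
      (∃ v c C : ℝ, 0 < c ∧ ∀ k : ℕ, 1 ≤ k →
        |(∑' n : ℤ, p k n * (2 * Real.pi * n) ^ 2) - (16 / 3 * Real.log k + v)| ≤ C * (k : ℝ) ^ (-c)) ∧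
      (∃ x0 : ℝ, 0 < x0 ∧ ∀ x : ℝ, 0 < x → x < x0 →
        Tendsto (fun k : ℕ => Real.log (∑' n : ℤ, if x * Real.log k ≤ 2 * Real.pi * n then p k n else 0) /
          Real.log k) atTop (𝓝 (-(3 / 32 * x ^ 2)))) ∧
      ∀ x : ℝ, Tendsto (fun k : ℕ => ∑' n : ℤ, if 2 * Real.pi * n ≤ x * √(Real.log k) then p k n else 0) atTop
        (𝓝 ((gaussianReal 0 (16 / 3)).real (Set.Iic x))) := by
  obtain ⟨h1, ⟨t0, c, C, M, ht0, hc, hM, hM0, h2⟩, ⟨v, c', C', hc', h3⟩, ⟨x0, hx0, h4⟩, h5⟩ := hW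
  refine ⟨CylSaw.Z, pL, fun k hk => ?_, hZ, ⟨t0, c, C, M, ht0, hc, hM, hM0, fun k hk t ht => ?_⟩,
    ⟨v, c', C', hc', fun k hk => ?_⟩, ⟨x0, hx0, fun x hx hx' => ?_⟩, fun x => ?_⟩
  · obtain ⟨Z0, hs, -⟩ := h1 k hk
    refine ⟨Z0, pL_nn Z0, pL_symm hk, pL_hasSum Z0 (summable_wt hs), pL_exp hk hs, fun θ hθ n => ?_⟩
    obtain ⟨s1, s2⟩ := hL k hk θ hθ
    have : Countable (CylSaw.Saw k) := saw_count hk
    have w0 : ∀ t, 0 ≤ wbC k θ t := wb_nonneg (fun v => yb_nn (hθ v.1).1 (hθ v.1).2) _ _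
    have key := law_eq w0 wt0 s1 (summable_wt hs) (c := fun t => turns k (rv (hA k)) t)
      (d := fun w : CylSaw.Saw k => CylSaw.cn w) s2 n
    have e : CylSaw.Z k * pL k n = lawZ (wbC k θ) (fun t => turns k (rv (hA k)) t) n := by
      rw [key]
      unfold pL
      field_simp
    rw [e]
    refine Summable.hasSum ?_
    refine Summable.of_norm_bounded s1 fun t => ?_
    split_ifs
    · exact (Real.norm_of_nonneg (w0 t)).le
    · rw [norm_zero]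
      exact w0 t
  · rw [← pL_mgf hk (h1 k hk).2.1]
    exact h2 k hk t ht
  · rw [← pL_sq hk (h1 k hk).2.1]
    exact h3 k hk
  · refine (h4 x hx hx').congr' ?_
    filter_upwards [eventually_ge_atTop 1] with k hk
    rw [pL_ge hk (summable_wt (h1 k hk).2.1)]
  · refine (h5 x).congr' ?_
    filter_upwards [eventually_ge_atTop 1] with k hk
    rw [pL_le hk (summable_wt (h1 k hk).2.1)]

end Pool.Agent.YBC
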