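import Pool.Agent.YBC.LawAll

/-!
# The law of the number of turns: the honeycomb lattice and every column environment

`law_hex` = `law_all` with the walks on the honeycomb cylinder.
-/

set_option autoImplicit false

open Filter Topology MeasureTheory ProbabilityTheory Metric

namespace Pool.Agent.YBC

/-- **The law of the number of turns, on the honeycomb lattice and in every column environment.** -/
theorem law_hex (hW : WindW) :
    ∃ (Z : ℕ → ℝ) (p : ℕ → ℤ → ℝ),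
      (∀ k : ℕ, 1 ≤ k → 0 < Z k ∧ (∀ n, 0 ≤ p k n) ∧ (∀ n, p k (-n) = p k n) ∧ HasSum (p k) 1 ∧
        (∀ s : ℝ, Summable fun n : ℤ => p k n * Real.exp (s * |(n : ℝ)|)) ∧
        (∀ n : ℤ, HasSum (fun w : CylSaw.Saw k => if CylSaw.cn w = n then CylSaw.wt w else 0) (Z k * p k n)) ∧
        ∀ θ : ℤ → ℝ, (∀ j, Real.pi / 3 ≤ θ j ∧ θ j ≤ 2 * Real.pi / 3) → ∀ n : ℤ,
          HasSum (fun t => if turns k (rv (hA k)) t = n then wbC k θ t else 0) (Z k * p k n)) ∧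
      (∃ (t0 c C : ℝ) (M : ℂ → ℂ), 0 < t0 ∧ 0 < c ∧ DifferentiableOn ℂ M (ball 0 t0) ∧ M 0 = 1 ∧
        ∀ k : ℕ, 1 ≤ k → ∀ t : ℂ, ‖t‖ < t0 →
          ‖(∑' n : ℤ, (p k n : ℂ) * Complex.exp (2 * Real.pi * t * n)) *
            Complex.exp (-((8 / 3 * Real.log k : ℝ) : ℂ) * t ^ 2) - M t‖ ≤ C * (k : ℝ) ^ (-c)) ∧
      (∃ v c C : ℝ, 0 < c ∧ ∀ k : ℕ, 1 ≤ k →
        |(∑' n : ℤ, p k n * (2 * Real.pi * n) ^ 2) - (16 / 3 * Real.log k + v)| ≤ C * (k : ℝ) ^ (-c)) ∧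
      (∃ x0 : ℝ, 0 < x0 ∧ ∀ x : ℝ, 0 < x → x < x0 →
        Tendsto (fun k : ℕ => Real.log (∑' n : ℤ, if x * Real.log k ≤ 2 * Real.pi * n then p k n else 0) /
          Real.log k) atTop (𝓝 (-(3 / 32 * x ^ 2)))) ∧
      ∀ x : ℝ, Tendsto (fun k : ℕ => ∑' n : ℤ, if 2 * Real.pi * n ≤ x * √(Real.log k) then p k n else 0) atTop
        (𝓝 ((gaussianReal 0 (16 / 3)).real (Set.Iic x))) := by
  obtain ⟨h1, ⟨t0, c, C, M, ht0, hc, hM, hM0, h2⟩, ⟨v, c', C', hc', h3⟩, ⟨x0, hx0, h4⟩, h5⟩ := hW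
  refine ⟨CylSaw.Z, pL, fun k hk => ?_, ⟨t0, c, C, M, ht0, hc, hM, hM0, fun k hk t ht => ?_⟩,
    ⟨v, c', C', hc', fun k hk => ?_⟩, ⟨x0, hx0, fun x hx hx' => ?_⟩, fun x => ?_⟩
  · obtain ⟨Z0, hs, -⟩ := h1 k hk
    have hsw := summable_wt hs
    have e0 : ∀ n : ℤ, CylSaw.Z k * pL k n =
        lawZ (fun w : CylSaw.Saw k => CylSaw.wt w) (fun w => CylSaw.cn w) n := fun n => by
      unfold pL
      field_simp
    refine ⟨Z0, pL_nn Z0, pL_symm hk, pL_hasSum Z0 hsw, pL_exp hk hs, fun n => ?_, fun θ hθ n => ?_⟩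
    · rw [e0]
      refine Summable.hasSum ?_
      refine Summable.of_norm_bounded hsw fun w => ?_
      split_ifs
      · exact (Real.norm_of_nonneg (wt0 w)).le
      · rw [norm_zero]
        exact wt0 w
    · have s1 : Summable (wbC k θ) := summable_wbE hk (θ := θ) fun j => ⟨(hθ j).1, (hθ j).2⟩
      have s2 : ∀ z : ℂ, ‖z‖ = 1 → ∑' t, (wbC k θ t : ℂ) * z ^ turns k (rv (hA k)) t =
          ∑' w : CylSaw.Saw k, (CylSaw.wt w : ℂ) * z ^ CylSaw.cn w := fun z hz =>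
        tsum_turn hk (θ := θ) (fun j => ⟨(hθ j).1, (hθ j).2⟩) hz
      have : Countable (CylSaw.Saw k) := saw_count hk
      have w0 : ∀ t, 0 ≤ wbC k θ t := wb_nonneg (fun v => yb_nn (hθ v.1).1 (hθ v.1).2) _ _
      have key := law_eq w0 wt0 s1 hsw (c := fun t => turns k (rv (hA k)) t)
        (d := fun w : CylSaw.Saw k => CylSaw.cn w) s2 n
      rw [e0, ← key]
      refine Summable.hasSum ?_
      refine Summable.of_norm_bounded s1 fun t => ?_
      split_ifs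
      · exact (Real.norm_of_nonneg (w0 t)).le
      · rw [norm_zero]
        exact w0 t
  · rw [← pL_mgf hk (h1 k hk).2.1]
    exact h2 k hk t ht
  · rw [← pL_sq hk (h1 k hk).2.1]
    exact h3 k hk
  · refine (h4 x hx hx').congr' ?_
    filter_upwards [eventually_ge_atTop 1] with k hk
    rw [pL_ge hk (summable_wt (h1 k hk).2.1)]
  · refine (h5 x).congr' ?_
    filter_upwards [eventually_ge_atTop 1] with k hk
    rw [pL_le hk (summable_wt (h1 k hk).2.1)]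

end Pool.Agent.YBC
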