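import Pool.Agent.EXL.Rhomb2
import Pool.Agent.YBC.Net4

/-!
# One crossing of the network = one crossing of the column operators
-/

set_option autoImplicit false

namespace Pool.Agent.YBC

open Pool.Agent.EXL Pool.Agent.EXL.Pat
open Pool.Agent.EXL.Net

variable {α β K : Type*} [DecidableEq α] [DecidableEq β] [CommRing K]

/-- the weights as weights of the column operators. -/
def tw (W : W5 K) : Wt K := ⟨W.v, W.u1, W.u2, W.w1, W.w2⟩

/-- the crossing with four fresh half edges. -/
def VtF (W : W5 K) (e n w s : α) (F : Pat α → K) : Pat α → K := fun p =>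
  F p + W.v * (cuF e w F p + cuF n s F p) + W.u1 * (cuF s w F p + cuF e n F p)
    + W.u2 * (cuF s e F p + cuF n w F p) + W.w1 * cuF s w (cuF e n F) p + W.w2 * cuF s e (cuF n w F) p

theorem cupO_eq (i j : α) (F : Pat α → K) : cupO i j F = cuF i j F := rfl

theorem Vt4_eq (W : W5 K) (e n w s : α) (F : Pat α → K) : Vt4 W e n w s F = VtF W e n w s F := by
  funext p
  simp only [Vt4, VtF, LinearMap.add_apply, Module.End.one_apply, LinearMap.smul_apply,
    Pi.add_apply, Pi.smul_apply, smul_eq_mul, Module.End.mul_apply, cupO_eq]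

section nat
variable (E : Pat.Emb β α) (F : Pat α → K) (q : Pat β)

theorem VtF_st (W : W5 K) (e n w s : β) :
    VtF W (E.φ e) (E.φ n) (E.φ w) (E.φ s) F (E.st q) = VtF W e n w s (fun q => F (E.st q)) q := by
  simp only [VtF, cuF_st]

end nat

/-! ### Formal versions -/

/-- the coefficients. -/
def cf (W : W5 K) : ℕ → K
  | 0 => 1
  | 1 => W.v
  | 2 => W.u1
  | 3 => W.u2
  | 4 => W.w1
  | _ => W.w2

/-- Evaluation of a formal sum. -/
def ev4 (W : W5 K) (F : Pat β → K) (l : List (ℕ × Pat β)) : K := (l.map (fun a => cf W a.1 * F a.2)).sum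

/-- `a` describes the operator `A`. -/
def Rep4 (W : W5 K) (a : FOp β) (A : (Pat β → K) → (Pat β → K)) : Prop := ∀ F p, A F p = ev4 W F (a p)

/-- Formal operators without weights. -/
abbrev FP (β : Type*) := Pat β → List (Pat β)

/-- `a` describes the operator `A`. -/
def RepP (K : Type*) [CommRing K] (a : FP β) (A : (Pat β → K) → (Pat β → K)) : Prop :=
  ∀ F p, A F p = ((a p).map F).sum

/-- Composition. -/
def comp4 (a : FOp β) (b : FP β) : FOp β := fun p => (a p).flatMap (fun u => (b u.2).map (fun v => (u.1, v)))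

omit [DecidableEq β] in
theorem ev4_flatMap (W : W5 K) (F : Pat β → K) (b : FP β) (l : List (ℕ × Pat β)) :
    ev4 W F (l.flatMap (fun u => (b u.2).map (fun v => (u.1, v)))) =
      ev4 W (fun p => ((b p).map F).sum) l := by
  induction l with
  | nil => rfl
  | cons u l ih =>
    unfold ev4 at ih ⊢
    rw [List.flatMap_cons, List.map_append, List.sum_append, ih, List.map_cons, List.sum_cons]
    congr 1
    rw [← List.sum_map_mul_left, List.map_map]
    rfl

omit [DecidableEq β] in
theorem Rep4.comp {W : W5 K} {a : FOp β} {b : FP β} {A B : (Pat β → K) → (Pat β → K)} (ha : Rep4 W a A)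
    (hb : RepP K b B) : Rep4 W (comp4 a b) (fun F => A (B F)) := by
  intro F p
  show A (B F) p = _
  rw [ha, comp4, ev4_flatMap]
  congr 1
  funext q
  exact hb F q

omit [DecidableEq β] in
theorem rep4_eq {W : W5 K} {a b : FOp β} {A B : (Pat β → K) → (Pat β → K)} (ha : Rep4 W a A)
    (hb : Rep4 W b B) {q : Pat β} (h : (a q).Perm (b q)) (F : Pat β → K) : A F q = B F q := by
  rw [ha, hb]
  exact (h.map _).sum_eq

/-- formal arc. -/
def fC (k : ℕ) (i j : β) : FOp β := fun p => if p i = i ∧ p j = j then [(k, cup i j p)] else []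

/-- two formal arcs. -/
def fC2 (k : ℕ) (i j i' j' : β) : FOp β := fun p =>
  if p i = i ∧ p j = j then (if cup i j p i' = i' ∧ cup i j p j' = j' then [(k, cup i' j' (cup i j p))] else [])
  else []

def fVt (e n w s : β) : FOp β := fun p =>
  (0, p) :: (fC 1 e w p ++ fC 1 n s p ++ fC 2 s w p ++ fC 2 e n p ++ fC 3 s e p ++ fC 3 n w p
    ++ fC2 4 s w e n p ++ fC2 5 s e n w p)

def gP (i j : β) : FP β := fun p =>
  if p i = i then (if p j = j then [p] else [])
  else if p j = j then []
  else if p i = j then []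
  else [cut i j p]

def renP (r n : β) : FP β := fun p => if p n = n then [swap r n p] else []

def fR4 (i j : β) : FOp β := fun p =>
  if p i = i then
    if p j = j then [(0, p), (3, cup i j p)] else [(1, p), (2, swap i j p)]
  else if p j = j then [(1, p), (2, swap i j p)]
  else if p i = j then [(4, p)]
  else [(4, swap i j p), (3, cut i j p), (5, cup i j (cut i j p))]

omit [DecidableEq β] in
theorem ev4_append (W : W5 K) (F : Pat β → K) (l l' : List (ℕ × Pat β)) :
    ev4 W F (l ++ l') = ev4 W F l + ev4 W F l' := by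
  unfold ev4
  rw [List.map_append, List.sum_append]

theorem ev4_fC (W : W5 K) (k : ℕ) (i j : β) (F : Pat β → K) (p : Pat β) :
    ev4 W F (fC k i j p) = cf W k * cuF i j F p := by
  unfold ev4 fC cuF
  split_ifs <;> simp

theorem ev4_fC2 (W : W5 K) (k : ℕ) (i j i' j' : β) (F : Pat β → K) (p : Pat β) :
    ev4 W F (fC2 k i j i' j' p) = cf W k * cuF i j (cuF i' j' F) p := by
  unfold ev4 fC2 cuF
  split_ifs <;> simp

theorem rep_Vt (W : W5 K) (e n w s : β) : Rep4 W (fVt e n w s) (VtF W e n w s) := by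
  intro F p
  have e0 : ∀ l : List (ℕ × Pat β), ev4 W F ((0, p) :: l) = F p + ev4 W F l := by
    intro l
    unfold ev4
    rw [List.map_cons, List.sum_cons]
    simp [cf]
  unfold fVt
  rw [e0]
  simp only [ev4_append, ev4_fC, ev4_fC2, cf, VtF]
  ring

theorem rep_gP (i j : β) : RepP K (gP i j) (glue i j) := by
  intro F p
  simp only [glue, gP]
  split_ifs <;> simp

theorem rep_renP (r n : β) : RepP K (renP r n) (ren r n) := by
  intro F p
  simp only [ren, renP]
  split_ifs <;> simp

theorem rep_R4 (W : W5 K) (i j : β) : Rep4 W (fR4 i j) (R (tw W) i j) := by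
  intro F p
  simp only [R, fR4, ev4, tw]
  split_ifs <;> simp [cf] <;> ring

/-! ### Test states: sites e, s, aS, aW, bE, bN (+ partners) -/

def t6 : Pat (Fin 6) := Pat.empty
def t6j : Pat (Fin 6) := ⟨![1, 0, 2, 3, 4, 5], by decide⟩
def t7s : Pat (Fin 7) := ⟨![0, 6, 2, 3, 4, 5, 1], by decide⟩
def t7e : Pat (Fin 7) := ⟨![6, 1, 2, 3, 4, 5, 0], by decide⟩
def t8 : Pat (Fin 8) := ⟨![6, 7, 2, 3, 4, 5, 0, 1], by decide⟩

theorem cell_6 (W : W5 K) (F : Pat (Fin 6) → K) :
    VtF W 4 5 3 2 (glue 1 2 (glue 0 4 F)) t6 = R (tw W) 1 0 (ren 0 3 (ren 1 5 F)) t6 :=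
  rep4_eq (((rep_Vt W 4 5 3 2).comp (rep_gP 1 2)).comp (rep_gP 0 4))
    (((rep_R4 W 1 0).comp (rep_renP 0 3)).comp (rep_renP 1 5)) (by decide +kernel) F

theorem cell_6j (W : W5 K) (F : Pat (Fin 6) → K) :
    VtF W 4 5 3 2 (glue 1 2 (glue 0 4 F)) t6j = R (tw W) 1 0 (ren 0 3 (ren 1 5 F)) t6j :=
  rep4_eq (((rep_Vt W 4 5 3 2).comp (rep_gP 1 2)).comp (rep_gP 0 4))
    (((rep_R4 W 1 0).comp (rep_renP 0 3)).comp (rep_renP 1 5)) (by decide +kernel) F

theorem cell_7s (W : W5 K) (F : Pat (Fin 7) → K) :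
    VtF W 4 5 3 2 (glue 1 2 (glue 0 4 F)) t7s = R (tw W) 1 0 (ren 0 3 (ren 1 5 F)) t7s :=
  rep4_eq (((rep_Vt W 4 5 3 2).comp (rep_gP 1 2)).comp (rep_gP 0 4))
    (((rep_R4 W 1 0).comp (rep_renP 0 3)).comp (rep_renP 1 5)) (by decide +kernel) F

theorem cell_7e (W : W5 K) (F : Pat (Fin 7) → K) :
    VtF W 4 5 3 2 (glue 1 2 (glue 0 4 F)) t7e = R (tw W) 1 0 (ren 0 3 (ren 1 5 F)) t7e :=
  rep4_eq (((rep_Vt W 4 5 3 2).comp (rep_gP 1 2)).comp (rep_gP 0 4))
    (((rep_R4 W 1 0).comp (rep_renP 0 3)).comp (rep_renP 1 5)) (by decide +kernel) F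

theorem cell_8 (W : W5 K) (F : Pat (Fin 8) → K) :
    VtF W 4 5 3 2 (glue 1 2 (glue 0 4 F)) t8 = R (tw W) 1 0 (ren 0 3 (ren 1 5 F)) t8 :=
  rep4_eq (((rep_Vt W 4 5 3 2).comp (rep_gP 1 2)).comp (rep_gP 0 4))
    (((rep_R4 W 1 0).comp (rep_renP 0 3)).comp (rep_renP 1 5)) (by decide +kernel) F

/-- **One crossing of the network = one crossing of the column operators.** -/
theorem cell_gen (W : W5 K) {e s aS aW bE bN : α} (hd : [e, s, aS, aW, bE, bN].Nodup) (F : Pat α → K)
    {p : Pat α} (p1 : p aS = aS) (p2 : p aW = aW) (p3 : p bE = bE) (p4 : p bN = bN) :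
    VtF W bE bN aW aS (glue s aS (glue e bE F)) p = R (tw W) s e (ren e aW (ren s bN F)) p := by
  simp only [List.nodup_cons, List.mem_cons, not_or, List.not_mem_nil, not_false_eq_true,
    and_true, List.nodup_nil] at hd
  obtain ⟨⟨h01, h02, h03, h04, h05⟩, ⟨h12, h13, h14, h15⟩, ⟨h23, h24, h25⟩, ⟨h34, h35⟩, h45⟩ := hd
  have i0 : p (p e) = e := p.inv e
  have i1 : p (p s) = s := p.inv s
  by_cases c0 : p e = e
  · by_cases c1 : p s = s
    · have hφ : Function.Injective ![e, s, aS, aW, bE, bN] := by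
        intro i j; fin_cases i <;> fin_cases j <;> simp <;> grind
      have hc : ∀ b, p (![e, s, aS, aW, bE, bN] b) = ![e, s, aS, aW, bE, bN] (t6 b) := by
        intro b; fin_cases b
        · exact c0
        · exact c1
        · exact p1
        · exact p2
        · exact p3
        · exact p4
      have key := cell_6 W (fun q => F ((temb _ hφ p t6 hc).st q))
      have hst := temb_st _ hφ p t6 hc
      set E := temb _ hφ p t6 hc
      have k1 : VtF W (E.φ 4) (E.φ 5) (E.φ 3) (E.φ 2) (glue (E.φ 1) (E.φ 2) (glue (E.φ 0) (E.φ 4) F)) (E.st t6) =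
          R (tw W) (E.φ 1) (E.φ 0) (ren (E.φ 0) (E.φ 3) (ren (E.φ 1) (E.φ 5) F)) (E.st t6) := by
        rw [VtF_st, R_st]; simp only [glue_st, ren_st]
        exact key
      rw [hst] at k1
      exact k1
    · have hφ : Function.Injective ![e, s, aS, aW, bE, bN, p s] := by
        intro i j; fin_cases i <;> fin_cases j <;> simp <;> grind
      have hc : ∀ b, p (![e, s, aS, aW, bE, bN, p s] b) = ![e, s, aS, aW, bE, bN, p s] (t7s b) := by
        intro b; fin_cases b
        · exact c0
        · exact rfl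
        · exact p1
        · exact p2
        · exact p3
        · exact p4
        · exact i1
      have key := cell_7s W (fun q => F ((temb _ hφ p t7s hc).st q))
      have hst := temb_st _ hφ p t7s hc
      set E := temb _ hφ p t7s hc
      have k1 : VtF W (E.φ 4) (E.φ 5) (E.φ 3) (E.φ 2) (glue (E.φ 1) (E.φ 2) (glue (E.φ 0) (E.φ 4) F)) (E.st t7s) =
          R (tw W) (E.φ 1) (E.φ 0) (ren (E.φ 0) (E.φ 3) (ren (E.φ 1) (E.φ 5) F)) (E.st t7s) := by
        rw [VtF_st, R_st]; simp only [glue_st, ren_st]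
        exact key
      rw [hst] at k1
      exact k1
  · by_cases c1 : p s = s
    · have hφ : Function.Injective ![e, s, aS, aW, bE, bN, p e] := by
        intro i j; fin_cases i <;> fin_cases j <;> simp <;> grind
      have hc : ∀ b, p (![e, s, aS, aW, bE, bN, p e] b) = ![e, s, aS, aW, bE, bN, p e] (t7e b) := by
        intro b; fin_cases b
        · exact rfl
        · exact c1
        · exact p1
        · exact p2
        · exact p3
        · exact p4
        · exact i0
      have key := cell_7e W (fun q => F ((temb _ hφ p t7e hc).st q))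
      have hst := temb_st _ hφ p t7e hc
      set E := temb _ hφ p t7e hc
      have k1 : VtF W (E.φ 4) (E.φ 5) (E.φ 3) (E.φ 2) (glue (E.φ 1) (E.φ 2) (glue (E.φ 0) (E.φ 4) F)) (E.st t7e) =
          R (tw W) (E.φ 1) (E.φ 0) (ren (E.φ 0) (E.φ 3) (ren (E.φ 1) (E.φ 5) F)) (E.st t7e) := by
        rw [VtF_st, R_st]; simp only [glue_st, ren_st]
        exact key
      rw [hst] at k1
      exact k1
    · by_cases c2 : p e = s
      · have hφ : Function.Injective ![e, s, aS, aW, bE, bN] := by
          intro i j; fin_cases i <;> fin_cases j <;> simp <;> grind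
        have hc : ∀ b, p (![e, s, aS, aW, bE, bN] b) = ![e, s, aS, aW, bE, bN] (t6j b) := by
          intro b; fin_cases b
          · exact c2
          · exact (by rw [← c2]; exact i0)
          · exact p1
          · exact p2
          · exact p3
          · exact p4
        have key := cell_6j W (fun q => F ((temb _ hφ p t6j hc).st q))
        have hst := temb_st _ hφ p t6j hc
        set E := temb _ hφ p t6j hc
        have k1 : VtF W (E.φ 4) (E.φ 5) (E.φ 3) (E.φ 2) (glue (E.φ 1) (E.φ 2) (glue (E.φ 0) (E.φ 4) F)) (E.st t6j) =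
            R (tw W) (E.φ 1) (E.φ 0) (ren (E.φ 0) (E.φ 3) (ren (E.φ 1) (E.φ 5) F)) (E.st t6j) := by
          rw [VtF_st, R_st]; simp only [glue_st, ren_st]
          exact key
        rw [hst] at k1
        exact k1
      · have hφ : Function.Injective ![e, s, aS, aW, bE, bN, p e, p s] := by
          intro i j; fin_cases i <;> fin_cases j <;> simp <;> grind
        have hc : ∀ b, p (![e, s, aS, aW, bE, bN, p e, p s] b) = ![e, s, aS, aW, bE, bN, p e, p s] (t8 b) := by
          intro b; fin_cases b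
          · exact rfl
          · exact rfl
          · exact p1
          · exact p2
          · exact p3
          · exact p4
          · exact i0
          · exact i1
        have key := cell_8 W (fun q => F ((temb _ hφ p t8 hc).st q))
        have hst := temb_st _ hφ p t8 hc
        set E := temb _ hφ p t8 hc
        have k1 : VtF W (E.φ 4) (E.φ 5) (E.φ 3) (E.φ 2) (glue (E.φ 1) (E.φ 2) (glue (E.φ 0) (E.φ 4) F)) (E.st t8) =
            R (tw W) (E.φ 1) (E.φ 0) (ren (E.φ 0) (E.φ 3) (ren (E.φ 1) (E.φ 5) F)) (E.st t8) := by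
          rw [VtF_st, R_st]; simp only [glue_st, ren_st]
          exact key
        rw [hst] at k1
        exact k1

/-- the same for the operators. -/
theorem cell_op (W : W5 K) {e s aS aW bE bN : α} (hd : [e, s, aS, aW, bE, bN].Nodup) (G : Pat α → K)
    {p : Pat α} (p1 : p aS = aS) (p2 : p aW = aW) (p3 : p bE = bE) (p4 : p bN = bN) :
    (Vt4 W bE bN aW aS * (Co s aS * Co e bE) : Op α K) G p = R (tw W) s e (ren e aW (ren s bN G)) p := by
  simp only [Module.End.mul_apply]
  rw [Vt4_eq, Co_eq, Co_eq]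
  exact cell_gen W hd G p1 p2 p3 p4

end Pool.Agent.YBC
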