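import Pool.Agent.YBC.Conv4

/-!
# The rings of the line operators = the sum over the walks
-/

set_option autoImplicit false

namespace Pool.Agent.YBC

open Pool.Agent.EXL hiding cc
open Pool.Agent.EXL.Pat Pool.Agent.EXL.Net
open Pool.Agent.NUF.Cyl (UO PO PL PL_apply PL_cons seam UO_apply PO_apply Co_eq_glue)
open Pool.Agent.MXR (gS Rest Co_lft ind_lft lft_empty)
open Pool.Agent.NUN (fr Fr fr_inj Fr_move Fr_empty Xr Xl cc)
open Pool.Agent.NUNC (dd)

variable {K : Type*} [CommRing K] {N : ℕ}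

/-- the list of the vertices. -/
def LAh (N m : ℕ) : List (Vx N) := (LVr N m ++ LVl N m).map (toV N)

/-- the list of the edges. -/
def LEh (m : ℕ) (l : List (Fin N)) : List (He N) := ((LT N m l).filter (inn m)).map (toE N)

theorem toV_inj [NeZero N] {v v' : ℤ × ℕ} (h : v.2 < N) (h' : v'.2 < N) (e : toV N v = toV N v') : v = v' := by
  obtain ⟨k, i⟩ := v
  obtain ⟨k', i'⟩ := v'
  simp only [toV, Prod.mk.injEq] at e h h'
  have h1 := congrArg ZMod.val e.2
  rw [val_cast h, val_cast h'] at h1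
  rw [e.1, h1]

theorem toE_inj [NeZero N] {e e' : ℤ × ℕ × Bool} (h : e.2.1 < N) (h' : e'.2.1 < N) (q : toE N e = toE N e') :
    e = e' := by
  obtain ⟨k, i, b⟩ := e
  obtain ⟨k', i', b'⟩ := e'
  simp only [toE, Prod.mk.injEq] at q h h'
  have h1 := congrArg ZMod.val q.1.2
  rw [val_cast h, val_cast h'] at h1
  have h2 : b = b' := by
    have := q.2
    cases b <;> cases b' <;> simp at this ⊢
  rw [q.1.1, h1, h2]

theorem mem_LV {m : ℕ} {v : ℤ × ℕ} : v ∈ LVr N m ++ LVl N m ↔ -(m : ℤ) ≤ v.1 ∧ v.1 < m ∧ v.2 < N := by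
  rw [List.mem_append, mem_LVr, mem_LVl]
  omega

theorem nodup_LV (m : ℕ) : (LVr N m ++ LVl N m).Nodup := by
  rw [List.nodup_append]
  refine ⟨nodup_LVr m, nodup_LVl m, ?_⟩
  intro a ha b hb hab
  rw [← hab, mem_LVl] at hb
  rw [mem_LVr] at ha
  omega

theorem mem_LAh [NeZero N] {m : ℕ} {v : Vx N} : v ∈ LAh N m ↔ -(m : ℤ) ≤ v.1 ∧ v.1 < m := by
  unfold LAh
  rw [List.mem_map]
  constructor
  · rintro ⟨u, hu, rfl⟩
    rw [mem_LV] at hu
    exact ⟨hu.1, hu.2.1⟩
  · intro h
    refine ⟨(v.1, v.2.val), mem_LV.2 ⟨h.1, h.2, ZMod.val_lt _⟩, ?_⟩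
    unfold toV
    simp

theorem nodup_LAh [NeZero N] (m : ℕ) : (LAh N m).Nodup := by
  refine (nodup_LV m).map_on ?_
  intro u hu v hv e
  exact toV_inj (mem_LV.1 hu).2.2 (mem_LV.1 hv).2.2 e

theorem one_le [NeZero N] : 1 ≤ N := Nat.one_le_iff_ne_zero.2 (NeZero.ne N)

theorem mem_LEh [NeZero N] {m : ℕ} {l : List (Fin N)} {h : He N} : h ∈ LEh m l ↔
    (h.2 = Dir.N ∧ -(m : ℤ) ≤ h.1.1 ∧ h.1.1 < m) ∨
    (h.2 = Dir.E ∧ -(m : ℤ) ≤ h.1.1 ∧ h.1.1 + 1 < m ∧ (h.1.1 = -1 → (⟨h.1.2.val, ZMod.val_lt _⟩ : Fin N) ∈ l)) := by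
  unfold LEh
  rw [List.mem_map]
  constructor
  · rintro ⟨e, he, rfl⟩
    rw [List.mem_filter, mem_LT one_le] at he
    obtain ⟨k, i, b⟩ := e
    simp only [inn, toE] at he ⊢
    cases b
    · simp only [Bool.false_eq_true, false_and, true_and, false_or, Bool.false_or, Bool.and_eq_true,
        decide_eq_true_eq, if_false, reduceCtorEq] at he ⊢
      obtain ⟨⟨h1, h2, h3, h4⟩, h5, h6⟩ := he
      refine ⟨h5, h6, fun h7 => ?_⟩
      have h8 := h4 h7
      have e : (⟨((i : ZMod N)).val, ZMod.val_lt _⟩ : Fin N) = ⟨i, h3⟩ := Fin.ext (val_cast h3)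
      rw [e]
      exact h8
    · simp only [Bool.true_eq_false, false_and, true_and, or_false, if_true, reduceCtorEq] at he ⊢
      exact ⟨he.1.1, he.1.2.1⟩
  · rintro (⟨h1, h2, h3⟩ | ⟨h1, h2, h3, h4⟩)
    · refine ⟨(h.1.1, h.1.2.val, true), ?_, ?_⟩
      · rw [List.mem_filter, mem_LT one_le]
        exact ⟨Or.inl ⟨rfl, h2, h3, ZMod.val_lt _⟩, rfl⟩
      · unfold toE
        simp only [if_true]
        refine Prod.ext (Prod.ext rfl ?_) h1.symm
        simp
    · refine ⟨(h.1.1, h.1.2.val, false), ?_, ?_⟩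
      · rw [List.mem_filter, mem_LT one_le]
        refine ⟨Or.inr ⟨rfl, by omega, by omega, ZMod.val_lt _, h4⟩, ?_⟩
        simp only [inn, Bool.false_or, Bool.and_eq_true, decide_eq_true_eq]
        exact ⟨h2, h3⟩
      · unfold toE
        simp only [Bool.false_eq_true, if_false]
        refine Prod.ext (Prod.ext rfl ?_) h1.symm
        simp

theorem nodup_LEh [NeZero N] (m : ℕ) {l : List (Fin N)} (hl : l.Nodup) : (LEh m l).Nodup := by
  refine ((nodup_LT one_le m hl).filter _).map_on ?_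
  intro u hu v hv e
  exact toE_inj (lt_of_LT one_le (List.mem_of_mem_filter hu)) (lt_of_LT one_le (List.mem_of_mem_filter hv)) e

/-- the half edge at the seam in the row `i`. -/
def hs (i : Fin N) : He N := ((0, ((i : ℕ) : ZMod N)), Dir.W)

theorem rv_hs (i : Fin N) : rv (hs i) = ((-1, ((i : ℕ) : ZMod N)), Dir.E) := by
  unfold rv hs nx Dir.op
  norm_num

/-- the hypotheses of the exploration theorem. -/
theorem exH [NeZero N] {m : ℕ} (hm : 1 ≤ m) {i j : Fin N} (hij : i ≠ j) {l : List (Fin N)} (hl : Rest l i j) :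
    ExH (LAh N m) (LEh m l) (hs i) (hs j) := by
  have hi : i ∉ l := fun h => ((hl.2 i).1 h).1 rfl
  have hj : j ∉ l := fun h => ((hl.2 j).1 h).2 rfl
  have hv : ∀ i : Fin N, (⟨(((i : ℕ) : ZMod N)).val, ZMod.val_lt _⟩ : Fin N) = i := fun i =>
    Fin.ext (val_cast i.2)
  have dirs : ∀ h ∈ LEh m l, h.2 = Dir.N ∨ h.2 = Dir.E := by
    intro h hh
    rcases mem_LEh.1 hh with h1 | h1
    · exact Or.inl h1.1
    · exact Or.inr h1.1
  have rvdirs : ∀ h ∈ LEh m l, (rv h).2 = Dir.S ∨ (rv h).2 = Dir.W := by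
    intro h hh
    rcases dirs h hh with h1 | h1
    · left
      unfold rv
      rw [h1]
      rfl
    · right
      unfold rv
      rw [h1]
      rfl
  have n1 : ∀ k : Fin N, k ∉ l → rv (hs k) ∉ LEh m l := by
    intro k hk h
    rw [rv_hs] at h
    rcases mem_LEh.1 h with h1 | h1
    · exact absurd h1.1 (by simp)
    · apply hk
      have := h1.2.2.2 rfl
      simp only at this
      rwa [hv] at this
  have edg : ∀ (k : ℤ) (r : ZMod N), -(m : ℤ) ≤ k → k + 1 < m →
      ((k, r), Dir.E) ∈ LEh m l ∨ ((k, r), Dir.E) = rv (hs i) ∨ ((k, r), Dir.E) = rv (hs j) := by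
    intro k r h1 h2
    by_cases c : k = -1
    · subst c
      by_cases ci : (⟨r.val, ZMod.val_lt _⟩ : Fin N) = i
      · right; left
        rw [rv_hs, ← ci]
        simp
      by_cases cj : (⟨r.val, ZMod.val_lt _⟩ : Fin N) = j
      · right; right
        rw [rv_hs, ← cj]
        simp
      left
      exact mem_LEh.2 (Or.inr ⟨rfl, h1, h2, fun _ => (hl.2 _).2 ⟨ci, cj⟩⟩)
    · left
      exact mem_LEh.2 (Or.inr ⟨rfl, h1, h2, fun h => absurd h c⟩)
  refine ⟨nodup_LAh m, nodup_LEh m hl.1, ?_, ?_, ?_, ?_, ?_, ?_, ?_, ?_⟩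
  · intro h hh h'
    rcases dirs _ h' with h1 | h1 <;> rcases rvdirs _ hh with h2 | h2 <;> rw [h1] at h2 <;>
      exact absurd h2 (by decide)
  · rintro ⟨⟨k, r⟩, d⟩ hh
    rw [mem_LAh, mem_LAh]
    rcases mem_LEh.1 hh with h1 | h1
    · obtain ⟨h2, h3, h4⟩ := h1
      simp only at h2 h3 h4
      subst h2
      exact ⟨⟨h3, h4⟩, ⟨h3, h4⟩⟩
    · obtain ⟨h2, h3, h4, h5⟩ := h1
      simp only at h2 h3 h4
      subst h2
      refine ⟨⟨h3, by simp only; omega⟩, ?_⟩
      simp only [rv, nx]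
      omega
  · rw [mem_LAh]
    simp only [hs]
    omega
  · rw [mem_LAh]
    simp only [hs]
    omega
  · intro e
    apply hij
    have h1 := congrArg (fun h : He N => h.1.2.val) e
    simp only [hs] at h1
    rw [val_cast i.2, val_cast j.2] at h1
    exact Fin.ext h1
  · intro e
    rw [rv_hs] at e
    have := congrArg Prod.snd e
    exact absurd this (by simp [hs])
  · intro h hh
    refine ⟨?_, ?_, ?_, ?_⟩
    · rintro rfl
      rcases dirs _ hh with h1 | h1 <;> exact absurd h1 (by simp [hs])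
    · rintro rfl
      rcases dirs _ hh with h1 | h1 <;> exact absurd h1 (by simp [hs])
    · intro e
      apply n1 i hi
      rw [← e, rv_rv]
      exact hh
    · intro e
      apply n1 j hj
      rw [← e, rv_rv]
      exact hh
  · rintro ⟨⟨k, r⟩, d⟩ h1 h2
    rw [mem_LAh] at h1 h2
    simp only at h1
    cases d
    case E =>
      simp only [rv, nx] at h2
      rcases edg k r h1.1 (by omega) with h | h | h
      · exact Or.inl h
      · exact Or.inr (Or.inr (Or.inr (Or.inl h)))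
      · exact Or.inr (Or.inr (Or.inr (Or.inr (Or.inr h))))
    case N => exact Or.inl (mem_LEh.2 (Or.inl ⟨rfl, h1.1, h1.2⟩))
    case W =>
      simp only [rv, nx] at h2
      have e : rv ((k, r), Dir.W) = ((k - 1, r), Dir.E) := rfl
      rw [e]
      rcases edg (k - 1) r h2.1 (by omega) with h | h | h
      · exact Or.inr (Or.inl h)
      · right; right; left
        rw [← rv_rv (hs i), ← h]
        simp [rv, nx, Dir.op]
      · right; right; right; right; left
        rw [← rv_rv (hs j), ← h]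
        simp [rv, nx, Dir.op]
    case S =>
      right; left
      have e : rv ((k, r), Dir.S) = ((k, r - 1), Dir.N) := rfl
      rw [e]
      exact mem_LEh.2 (Or.inl ⟨rfl, h1.1, h1.2⟩)

/-! ### assembly -/

theorem loc_Vlist (W : ℤ → ℕ → W5 K) (m : ℕ) : (VVr W N m * VVl W N m : Op Lab K) ∈ Loc K (Us N (-m) m) :=
  mul_mem (Loc.mono (us_mono (by omega) le_rfl) (loc_VVr W m)) (Loc.mono (us_mono le_rfl (by omega)) (loc_VVl W m))

/-- **The rings of the line operators = the network of the half edges.** -/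
theorem rings_Nt [NeZero N] (W : ℤ → ℕ → W5 K) {m : ℕ} (hm : 1 ≤ m) {i j : Fin N} {l : List (Fin N)}
    (hl : Rest l i j) :
    seqF (RR W N) m (seqF (RL W N) m (gS K l (HS.ind (cup (Xr i) (Xr j) Pat.empty)))) Pat.empty =
      Nt (wV W N) (LAh N m) (LEh m l) (HS.ind (cup (hs i) (hs j) Pat.empty)) Pat.empty := by
  have hN : 1 ≤ N := one_le
  set F0 : Pat Lab → K := HS.ind (cup (lW 0 ((i : ℕ) : ℤ)) (lW 0 ((j : ℕ) : ℤ)) Pat.empty) with hF0
  set S : Op Lab K := (l.map fun a : Fin N => (Co (lW 0 ((a : ℕ) : ℤ)) (lE (-1) ((a : ℕ) : ℤ)) : Op Lab K)).prod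
    with hS
  have t := tot4_eq W N m (S F0)
  have e : (fun q => S F0 (NUN.Fr (fun _ => 0) (fun _ => -1) false 0 0 q)) =
      gS K l (HS.ind (cup (Xr i) (Xr j) Pat.empty)) := funext fun q => GLD.gS_lft0 l (Xr i) (Xr j) q
  rw [e] at t
  rw [← t, tot4_sorted W hN]
  have e1 : S = ((LS l).map (eo N K)).prod := by
    rw [hS]
    unfold LS
    rw [List.map_map]
    congr 1
    apply List.map_congr_left
    intro a _
    simp only [Function.comp, eo, Eh, Bool.false_eq_true, if_false]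
    rw [Co_symm]
    norm_num
  have e2 : ((VVr W N m * VVl W N m) * (CCr K N m * CCl K N m)) (S F0) Pat.empty =
      ((VVr W N m * VVl W N m) * (((LT N m l).filter (inn m)).map (eo N K)).prod *
        (((LT N m l).filter (fun e => ! inn m e)).map (eo N K)).prod) F0 Pat.empty := by
    rw [← Module.End.mul_apply, mul_assoc (VVr W N m * VVl W N m), mul_assoc (VVr W N m * VVl W N m),
      ← prod_LT hN m hl.1, e1, CCr_list, CCl_list]
    unfold LT
    rw [List.map_append, List.map_append, List.prod_append, List.prod_append]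
  rw [e2, hF0, outer_remove hm]
  · -- the network on the half edges
    have e3 : (Pat.empty : Pat Lab) = lft (ps N) (ps_inj N) Pat.empty := (lft_empty _ _).symm
    have e4 : ∀ q : Pat (He N), HS.ind (cup (lW 0 ((i : ℕ) : ℤ)) (lW 0 ((j : ℕ) : ℤ)) Pat.empty)
        (lft (ps N) (ps_inj N) q) = (HS.ind (cup (hs i) (hs j) Pat.empty) q : K) := by
      intro q
      have a1 : lW 0 ((i : ℕ) : ℤ) = ps N (hs i) := by simp only [hs, ps, val_cast i.2]
      have a2 : lW 0 ((j : ℕ) : ℤ) = ps N (hs j) := by simp only [hs, ps, val_cast j.2]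
      rw [a1, a2]
      exact ind_lft _ _ _ _ _
    rw [Module.End.mul_apply, VVr_list, VVl_list, ← List.prod_append, ← List.map_append]
    have key : ∀ G : Pat Lab → K, ((LVr N m ++ LVl N m).map fun v => Vo (W v.1 v.2) v.1 v.2).prod G Pat.empty =
        ((LVr N m ++ LVl N m).map (fun v => Vt (wV W N (toV N v)) (toV N v))).prod
          (fun q => G (lft (ps N) (ps_inj N) q)) Pat.empty := by
      intro G
      conv_lhs => rw [e3]
      exact list_lft (g := fun v => Vt (wV W N (toV N v)) (toV N v)) _ (fun v hv F q =>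
        Vo_lft W (mem_LV.1 hv).2.2 F q) G Pat.empty
    rw [key]
    have e5 : (fun q => ((((LT N m l).filter (inn m)).map (eo N K)).prod)
        (HS.ind (cup (lW 0 ((i : ℕ) : ℤ)) (lW 0 ((j : ℕ) : ℤ)) Pat.empty)) (lft (ps N) (ps_inj N) q)) =
        ((((LT N m l).filter (inn m)).map (fun e => CoE K (toE N e))).prod)
          (HS.ind (cup (hs i) (hs j) Pat.empty)) := by
      funext q
      rw [list_lft (g := fun e => CoE K (toE N e)) _ (fun e he F q =>
        eo_lft (lt_of_LT hN (List.mem_of_mem_filter he)) F q), funext e4]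
    rw [e5]
    unfold Nt LAh LEh
    rw [List.map_map, List.map_map, Module.End.mul_apply]
    rfl
  · refine mul_mem (loc_Vlist W m) (loc_prod fun e he => ?_)
    rw [List.mem_filter, mem_LT hN] at he
    obtain ⟨k, r, b⟩ := e
    simp only [inn] at he
    unfold eo
    cases b
    · simp only [Bool.false_eq_true, false_and, true_and, false_or, Bool.false_or, Bool.and_eq_true,
        decide_eq_true_eq, if_false] at he ⊢
      obtain ⟨⟨_, _, h3, _⟩, h5, h6⟩ := he
      refine Loc.mono ?_ (loc_Eh k h3)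
      exact Set.union_subset (cs_us h5 (by omega)) (cs_us (by omega) h6)
    · simp only [Bool.true_eq_false, false_and, true_and, or_false, if_true] at he ⊢
      exact Loc.mono (cs_us he.1.1 he.1.2.1) (loc_Ev k he.1.2.2)
  · intro e he
    rw [List.mem_filter, mem_LT hN] at he
    obtain ⟨k, r, b⟩ := e
    simp only [inn] at he ⊢
    cases b
    · simp only [Bool.false_eq_true, false_and, true_and, false_or, Bool.false_or, Bool.not_eq_true',
        Bool.and_eq_false_iff, decide_eq_false_iff_not, not_le, not_lt] at he ⊢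
      obtain ⟨⟨h1, h2, h3, _⟩, h5⟩ := he
      exact ⟨h3, by omega⟩
    · simp at he

/-- **The rings of the line operators = the sum over the walks.** -/
theorem rings_eq4 [NeZero N] (W : ℤ → ℕ → W5 K) {m : ℕ} (hm : 1 ≤ m) {i j : Fin N} (hij : i ≠ j)
    {l : List (Fin N)} (hl : Rest l i j) {n : ℕ} (hn : (LEh (N := N) m l).length + 1 ≤ n) :
    seqF (RR W N) m (seqF (RL W N) m (gS K l (HS.ind (cup (Xr i) (Xr j) Pat.empty)))) Pat.empty =
      Zw (wV W N) (LAh N m).toFinset n (rv (hs i)) (hs j) := by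
  rw [rings_Nt W hm hl]
  exact expl (wV W N) (exH hm hij hl) hn

end Pool.Agent.YBC
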