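import Pool.Agent.YBC.PhiL
import Pool.Agent.YBC.ExplL

/-!
# The rings on the function of the cut with the winding weight = the sum over the walks with the labels
-/

set_option autoImplicit false

namespace Pool.Agent.YBC

open Pool.Agent.EXL hiding cc
open Pool.Agent.EXL.Pat Pool.Agent.EXL.Net
open Pool.Agent.MXR (Rest prs)
open Pool.Agent.NUN (Xr Xl)
open Pool.Agent.WND (PG cS)

variable {N : ℕ} {I J : List (Fin N)} {i j : Fin N} {χ : ℂ}

/-- the edges of the box have the properties. -/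
theorem eok_LEh [NeZero N] {m : ℕ} (hm : 1 ≤ m) (hij : i ≠ j) (hl : Rest (I ++ J) i j) :
    EOk I J i j (LEh m (I ++ J)).toFinset := by
  have h := exH hm hij hl
  refine ⟨fun k hk h' => h.rvE k (List.mem_toFinset.1 hk) (List.mem_toFinset.1 h'),
    fun k hk => h.nE k (List.mem_toFinset.1 hk), fun k hk => ?_, fun a ha => ?_⟩
  · rcases mem_LEh.1 (List.mem_toFinset.1 hk) with h1 | h1
    · exact Or.inl h1.1
    · exact Or.inr h1.1
  · rw [List.mem_toFinset, rv_hs, mem_LEh] at ha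
    rcases ha with h1 | h1
    · exact absurd h1.1 (by simp)
    · have h2 := h1.2.2.2 rfl
      have e : (⟨(((a : ℕ) : ZMod N)).val, ZMod.val_lt _⟩ : Fin N) = a := Fin.ext (val_cast a.2)
      simp only at h2
      rwa [e] at h2

/-- the family has the properties. -/
theorem famL_Phi [NeZero N] (hχ : χ ≠ 0) {m : ℕ} (hm : 1 ≤ m) (hij : i ≠ j) (hl : Rest (I ++ J) i j) :
    FamL (hs i) (hs j) (lamL χ I J) (Phi χ I J i j) (LEh m (I ++ J)).toFinset := by
  have hE := eok_LEh hm hij hl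
  have hi : i ∉ I ++ J := fun h => ((hl.2 i).1 h).1 rfl
  have hj : j ∉ I ++ J := fun h => ((hl.2 j).1 h).2 rfl
  exact ⟨fun E hs => Phi_vn hl.1 hij hi hj (hE.sub hs), fun E hs x h1 h2 h3 h4 => Phi_oc (hE.sub hs) h1 h2 h3 h4,
    fun E hs => Phi_fr (hE.sub hs), fun E hs p hp q hq => Phi_step hl.1 hij hi hj hχ (hE.sub hs) hp hq⟩

/-- the function with all seam lines and all plain edges. -/
theorem Phi_full [NeZero N] {m : ℕ} (hm : 1 ≤ m) (hij : i ≠ j) (hl : Rest (I ++ J) i j) :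
    ((LEh m ([] : List (Fin N))).map fun h => CoE ℂ h).prod (PG χ (cH I J) (hs i) (hs j) (lnH (I ++ J))) =
      Phi χ I J i j (LEh m (I ++ J)).toFinset := by
  have hE := eok_LEh hm hij hl
  have hP := hE.ee.sub (plain_sub _)
  rw [Phi_eq hP]
  have e1 : rwE (I ++ J) (LEh m (I ++ J)).toFinset = I ++ J := by
    unfold rwE
    rw [List.filter_eq_self]
    intro a ha
    have h1 : rv (hs a) ∈ (LEh m (I ++ J)).toFinset := by
      rw [List.mem_toFinset, rv_hs, mem_LEh]
      refine Or.inr ⟨rfl, by simp only; omega, by simp only; omega, fun _ => ?_⟩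
      have e : (⟨(((a : ℕ) : ZMod N)).val, ZMod.val_lt _⟩ : Fin N) = a := Fin.ext (val_cast a.2)
      simp only
      rw [e]
      exact ha
    simpa using h1
  have e2 : plain (LEh m (I ++ J)).toFinset = (LEh m ([] : List (Fin N))).toFinset := by
    ext h
    simp only [plain, Finset.mem_filter, List.mem_toFinset, mem_LEh, IsS]
    constructor
    · rintro ⟨h1 | h1, h2⟩
      · exact Or.inl h1
      · exact Or.inr ⟨h1.1, h1.2.1, h1.2.2.1, fun h3 => absurd ⟨h3, h1.1⟩ h2⟩
    · rintro (h1 | h1)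
      · refine ⟨Or.inl h1, ?_⟩
        rintro ⟨-, h3⟩
        rw [h1.1] at h3
        exact absurd h3 (by decide)
      · refine ⟨Or.inr ⟨h1.1, h1.2.1, h1.2.2.1, fun h3 => absurd (h1.2.2.2 h3) (by simp)⟩, ?_⟩
        rintro ⟨h3, -⟩
        exact absurd (h1.2.2.2 h3) (by simp)
  rw [e1]
  have e3 : ∀ (P P' : Finset (He N)) (hP : EE P) (hP' : EE P'), P = P' → (CE ℂ P hP : Op (He N) ℂ) = CE ℂ P' hP' := by
    intro P P' hP hP' e
    subst e
    rfl
  have hP2 : EE (LEh m ([] : List (Fin N))).toFinset := by rw [← e2]; exact hP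
  rw [e3 _ _ hP hP2 e2, CE_toFinset (nodup_LEh m List.nodup_nil)]

open scoped Classical in
/-- **The rings on the function of the cut with the winding weight.** -/
theorem rings_words [NeZero N] (hχ : χ ≠ 0) (W : ℤ → ℕ → W5 ℂ) {m : ℕ} (hm : 1 ≤ m) (hij : i ≠ j)
    (hl : Rest (I ++ J) i j) {n : ℕ} (hn : (LEh m (I ++ J)).length + 1 ≤ n) :
    seqF (RR W N) m (seqF (RL W N) m
      (PG χ (cS (prs I) (prs J)) (Xr i) (Xr j) (prs I ++ prs J))) Pat.empty =
      ∑ t ∈ (words n).filter (fun t => (∀ x ∈ pass (rv (hs i)) t, x.1 ∈ (LAh N m).toFinset) ∧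
        fin (rv (hs i)) t = hs j), (∏ v ∈ (LAh N m).toFinset, (wV W N v).lw (psAt (pass (rv (hs i)) t) v)) *
          lamW (lamL χ I J) (rv (hs i)) t := by
  have hi : i ∉ I ++ J := fun h => ((hl.2 i).1 h).1 rfl
  have hj : j ∉ I ++ J := fun h => ((hl.2 j).1 h).2 rfl
  rw [rings_NtL W hm hl.1 hij hi hj]
  unfold Nt
  rw [Module.End.mul_apply, Phi_full hm hij hl]
  refine explL (wV W N) (exH hm hij hl) (famL_Phi hχ hm hij hl) ?_ hn
  have ci : cH I J (hs i) = 0 := cH_off fun a ha e => hi (hs_inj e ▸ ha)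
  unfold lamL
  rw [rv_rv, cH_rv, ci, sub_zero, zpow_zero]

end Pool.Agent.YBC
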