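import Pool.Agent.YBC.ConvL

/-!
# The functions of the cut with some of the seam lines, and the plain edges
-/

set_option autoImplicit false

namespace Pool.Agent.YBC

open Pool.Agent.EXL hiding cc
open Pool.Agent.EXL.Pat Pool.Agent.EXL.Net
open Pool.Agent.NUF (Gd Gd_cons)
open Pool.Agent.WND (PG PG_off PG_free PG_end PG_step cS_off lnL)
open Pool.Agent.WND (cS)

/-! ### functions that agree -/

section agree

variable {α K : Type*} [DecidableEq α] [CommRing K]

/-- the functions agree on the states in which `u` is joined to `v`. -/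
def Ag (u v : α) (F F' : Pat α → K) : Prop := ∀ q : Pat α, q u = v → F q = F' q

variable {u v a b : α} {F F' : Pat α → K}

theorem ag_cupO (hu : a ≠ u ∧ b ≠ u) (h : Ag u v F F') : Ag u v (cupO a b F) (cupO a b F') := by
  intro q hq
  rw [cupO_apply, cupO_apply]
  split_ifs with c
  · apply h
    rw [EXL.cup_apply c, if_neg hu.1.symm, if_neg hu.2.symm, hq]
  · rfl

theorem ag_Co (hab : a ≠ b) (hu : a ≠ u ∧ b ≠ u) (hv : a ≠ v ∧ b ≠ v) (h : Ag u v F F') :
    Ag u v (Co a b F) (Co a b F') := by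
  intro q hq
  rw [Co_apply, Co_apply]
  split_ifs with c1 c2
  · exact h q hq
  · rfl
  · rw [not_or, not_or] at c2
    apply h
    have hc : EXL.Pat.CtOK a b q := ⟨hab, c2.1, c2.2.1, c2.2.2⟩
    have n1 : u ≠ q a := fun e => hv.1 (by rw [← hq, e, q.inv])
    have n2 : u ≠ q b := fun e => hv.2 (by rw [← hq, e, q.inv])
    rw [EXL.cut_apply hc, if_neg hu.1.symm, if_neg hu.2.symm, if_neg n1, if_neg n2, hq]

end agree

theorem ag_CE {N : ℕ} {K : Type*} [CommRing K] {E : Finset (He N)} (hE : EE E) {u v : He N}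
    (hu : ∀ k ∈ E, k ≠ u ∧ rv k ≠ u) (hv : ∀ k ∈ E, k ≠ v ∧ rv k ≠ v) {F F' : Pat (He N) → K}
    (h : Ag u v F F') : Ag u v (CE K E hE F) (CE K E hE F') := by
  have key : ∀ F F' : Pat (He N) → K, Ag u v F F' → Ag u v (CE K E hE F) (CE K E hE F') := by
    refine Finset.noncommProd_induction E _ _
      (fun B : Op (He N) K => ∀ F F', Ag u v F F' → Ag u v (B F) (B F'))
      (fun a b ha hb F F' h => ha _ _ (hb F F' h)) (fun F F' h => h) (fun k hk F F' h => ?_)
    exact ag_Co (rv_ne k).symm (hu k hk) (hv k hk) h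
  exact key F F' h

/-! ### the family -/

variable {N : ℕ} {I J : List (Fin N)} {i j : Fin N} {χ : ℂ}

/-- the edges of the seam. -/
def IsS (h : He N) : Prop := h.1.1 = -1 ∧ h.2 = Dir.E

instance (h : He N) : Decidable (IsS h) := by unfold IsS; infer_instance

/-- the other edges. -/
def plain (E : Finset (He N)) : Finset (He N) := E.filter (fun h => ¬ IsS h)

/-- the rows whose seam edge is in the set. -/
def rwE (l : List (Fin N)) (E : Finset (He N)) : List (Fin N) := l.filter (fun a => rv (hs a) ∈ E)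

open scoped Classical in
/-- **The family.** -/
noncomputable def Phi (χ : ℂ) (I J : List (Fin N)) (i j : Fin N) (E : Finset (He N)) : Pat (He N) → ℂ :=
  if h : EE (plain E) then CE ℂ (plain E) h (PG χ (cH I J) (hs i) (hs j) (lnH (rwE (I ++ J) E))) else 0

theorem Phi_eq {E : Finset (He N)} (h : EE (plain E)) :
    Phi χ I J i j E = CE ℂ (plain E) h (PG χ (cH I J) (hs i) (hs j) (lnH (rwE (I ++ J) E))) := by
  unfold Phi
  rw [dif_pos h]

/-- the weight of a step. -/
noncomputable def lamL (χ : ℂ) (I J : List (Fin N)) (h : He N) : ℂ := χ ^ (cH I J h - cH I J (rv h))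

theorem isS_rv_hs (a : Fin N) : IsS (rv (hs a)) := by
  rw [rv_hs]
  exact ⟨rfl, rfl⟩

theorem not_isS_hs (a : Fin N) : ¬ IsS (hs a) := fun h => absurd h.2 (by simp [hs])

theorem isS_eq [NeZero N] {h : He N} (hh : IsS h) : h = rv (hs ⟨h.1.2.val, ZMod.val_lt _⟩) := by
  rw [rv_hs]
  obtain ⟨⟨x, r⟩, d⟩ := h
  obtain ⟨h1, h2⟩ := hh
  simp only at h1 h2
  subst h1 h2
  simp

theorem hs_inj {a b : Fin N} (e : hs a = hs b) : a = b := by
  have : NeZero N := ⟨by have := a.2; omega⟩
  have h1 := congrArg (fun h : He N => h.1.2.val) e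
  simp only [hs] at h1
  rw [val_cast a.2, val_cast b.2] at h1
  exact Fin.ext h1

/-- the labels vanish off the seam. -/
theorem cH_off [NeZero N] {h : He N} (hh : ∀ a ∈ I ++ J, h ≠ hs a) : cH I J h = 0 := by
  refine cS_off fun a ha e => hh a ha ?_
  apply ps_inj N
  rw [e, ps_hs]

theorem cH_rv [NeZero N] (a : Fin N) : cH I J (rv (hs a)) = 0 := by
  refine cH_off fun b _ e => ?_
  rw [rv_hs] at e
  exact absurd (congrArg Prod.snd e) (by simp [hs])

theorem filter_perm {β : Type*} [DecidableEq β] {l : List β} (hl : l.Nodup) {p p' : β → Bool} {a : β} (ha : a ∈ l)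
    (h1 : p a = true) (h2 : p' a = false) (h3 : ∀ b ∈ l, b ≠ a → p b = p' b) :
    (l.filter p).Perm (a :: l.filter p') := by
  rw [List.perm_ext_iff_of_nodup (hl.filter _)]
  · intro x
    rw [List.mem_filter, List.mem_cons, List.mem_filter]
    by_cases hx : x = a
    · subst hx
      simp [ha, h1]
    · constructor
      · rintro ⟨m1, m2⟩
        exact Or.inr ⟨m1, by rw [← h3 x m1 hx]; exact m2⟩
      · rintro (m1 | ⟨m1, m2⟩)
        · exact absurd m1 hx
        · exact ⟨m1, by rw [h3 x m1 hx]; exact m2⟩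
  · rw [List.nodup_cons]
    refine ⟨fun h => ?_, hl.filter _⟩
    rw [List.mem_filter, h2] at h
    exact absurd h.2 (by simp)

theorem filter_same {β : Type*} {l : List β} {p p' : β → Bool} (h : ∀ b ∈ l, p b = p' b) :
    l.filter p = l.filter p' := List.filter_congr h

/-- the properties of the edges. -/
structure EOk (I J : List (Fin N)) (i j : Fin N) (E : Finset (He N)) : Prop where
  ee : EE E
  nE : ∀ k ∈ E, k ≠ hs i ∧ k ≠ hs j ∧ rv k ≠ hs i ∧ rv k ≠ hs j
  dir : ∀ k ∈ E, k.2 = Dir.N ∨ k.2 = Dir.E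
  row : ∀ a : Fin N, rv (hs a) ∈ E → a ∈ I ++ J

theorem EOk.sub {E E' : Finset (He N)} (h : EOk I J i j E) (hs : E' ⊆ E) : EOk I J i j E' :=
  ⟨h.ee.sub hs, fun k hk => h.nE k (hs hk), fun k hk => h.dir k (hs hk), fun a ha => h.row a (hs ha)⟩

theorem plain_sub (E : Finset (He N)) : plain E ⊆ E := Finset.filter_subset _ _

variable {E : Finset (He N)}

theorem hs_notMem (h : EOk I J i j E) (a : Fin N) : hs a ∉ E := by
  intro hh
  rcases h.dir _ hh with e | e <;> exact absurd e (by simp [hs])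

theorem rwE_sub {l : List (Fin N)} {a : Fin N} (h : a ∈ rwE l E) : a ∈ l ∧ rv (hs a) ∈ E := by
  unfold rwE at h
  rw [List.mem_filter] at h
  exact ⟨h.1, by simpa using h.2⟩

section ok

variable [NeZero N] (hl : (I ++ J).Nodup) (hij : i ≠ j) (hi : i ∉ I ++ J) (hj : j ∉ I ++ J)

include hl hij hi hj in
theorem gd_E (E : Finset (He N)) : Gd ((hs i, hs j) :: lnH (rwE (I ++ J) E)) :=
  gd_lnH (hl.filter _) hij (fun h => hi (rwE_sub h).1) (fun h => hj (rwE_sub h).1)

include hl hij hi hj in
/-- (vn) -/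
theorem Phi_vn (h : EOk I J i j E) : Vn (hs i) (hs j) (Phi χ I J i j E) ∧ Phi χ I J i j E (sa (hs i) (hs j)) = 1 := by
  have hE := h.ee.sub (plain_sub E)
  rw [Phi_eq hE]
  have ci : cH I J (hs i) = 0 := cH_off fun a ha e => hi (hs_inj e ▸ ha)
  have cj : cH I J (hs j) = 0 := cH_off fun a ha e => hj (hs_inj e ▸ ha)
  have ev : ∀ q : Pat (He N), q (hs i) = hs j → PG χ (cH I J) (hs i) (hs j) (lnH (rwE (I ++ J) E)) q =
      (HS.ind (NUT2.ark (hs i) (hs j)) : Pat (He N) → ℂ) q := by
    intro q hq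
    rw [PG_end (gd_E hl hij hi hj E) hq, ci, cj, sub_zero, zpow_zero, one_mul]
  have hark : (NUT2.ark (hs i) (hs j) : Pat (He N)) = sa (hs i) (hs j) := rfl
  have v1 : Vn (hs i) (hs j) (PG χ (cH I J) (hs i) (hs j) (lnH (rwE (I ++ J) E))) := by
    intro q hq hne
    rw [ev q hq, hark, HS.ind_ne hne]
  have v2 := vn_CE hE (fun k hk => h.nE k (plain_sub E hk)) v1
  refine ⟨v2.1, ?_⟩
  rw [v2.2, ev _ sa_z, hark, HS.ind_self]

/-- (oc) -/
theorem Phi_oc (h : EOk I J i j E) {x : He N} (h1 : x ∉ E) (h2 : rv x ∉ E) (h3 : x ≠ hs i) (h4 : x ≠ hs j) :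
    Oc x (Phi χ I J i j E) := by
  have hE := h.ee.sub (plain_sub E)
  rw [Phi_eq hE]
  refine oc_CE hE (fun m => h1 (plain_sub E m)) (fun m => h2 (plain_sub E m)) ?_
  intro q hq
  refine PG_off h3 h4 (fun t ht => ?_) hq
  unfold lnH at ht
  obtain ⟨a, ha, rfl⟩ := List.mem_map.1 ht
  have h5 := (rwE_sub ha).2
  refine ⟨?_, ?_⟩
  · rintro rfl
    exact h2 h5
  · rintro rfl
    exact h1 h5

/-- (fr) -/
theorem Phi_fr (h : EOk I J i j E) : Fr (hs i) (Phi χ I J i j E) := by
  have hE := h.ee.sub (plain_sub E)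
  rw [Phi_eq hE]
  exact fr_CE hE (fun k hk => ⟨(h.nE k (plain_sub E hk)).1, (h.nE k (plain_sub E hk)).2.2.1⟩)
    fun q hq => PG_free hq

theorem plain_er (p : He N) : plain (er E p) = er (plain E) p := by
  ext k
  simp only [plain, Finset.mem_filter, mem_er]
  tauto

theorem rwE_er_ne {l : List (Fin N)} {h : He N} (h1 : ∀ a ∈ l, rv (hs a) ≠ h) (h2 : ∀ a ∈ l, rv (hs a) ≠ rv h) :
    rwE l (er E h) = rwE l E := by
  unfold rwE
  refine List.filter_congr fun a ha => ?_
  have e : rv (hs a) ∈ er E h ↔ rv (hs a) ∈ E := by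
    rw [mem_er]
    exact ⟨fun x => x.2.2, fun x => ⟨h2 a ha, h1 a ha, x⟩⟩
  simp only [e]

/-- the commutation of the plain edges with a seam edge. -/
theorem CE_comm_Co {P : Finset (He N)} (hP : EE P) {h : He N} (h1 : ∀ k ∈ P, k ≠ h ∧ rv k ≠ h)
    (F : Pat (He N) → ℂ) : CE ℂ P hP (Co h (rv h) F) = Co h (rv h) (CE ℂ P hP F) := by
  have hc : Commute (Co h (rv h) : Op (He N) ℂ) (CE ℂ P hP) := by
    refine Finset.noncommProd_commute _ _ _ _ fun k hk => ?_
    exact CoE_comm (K := ℂ) (h := h) (k := k) (h1 k hk).1.symm (fun e => (h1 k hk).2 (by rw [← e, rv_rv]))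
  exact congrArg (fun X : Op (He N) ℂ => X F) hc.eq.symm

include hl hij hi hj in
/-- (step) -/
theorem Phi_step (hχ : χ ≠ 0) (h : EOk I J i j E) {p : He N} (hp : p ∈ E ∨ rv p ∈ E) {q : Pat (He N)}
    (hq : q (hs i) = p) :
    Phi χ I J i j E q = lamL χ I J p * Co p (rv p) (Phi χ I J i j (er E p)) q := by
  have hE := h.ee.sub (plain_sub E)
  have hE' := (h.sub (er_sub E p)).ee.sub (plain_sub (er E p))
  rw [Phi_eq hE, Phi_eq hE']
  by_cases hS : IsS p ∨ IsS (rv p)
  · -- a seam edge
    obtain ⟨a, ha⟩ : ∃ a : Fin N, p = rv (hs a) ∨ p = hs a := by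
      rcases hS with hS | hS
      · exact ⟨_, Or.inl (isS_eq hS)⟩
      · exact ⟨_, Or.inr (rv_inj (isS_eq hS))⟩
    have haE : rv (hs a) ∈ E := by
      rcases ha with rfl | rfl
      · rcases hp with hp | hp
        · exact hp
        · rw [rv_rv] at hp
          exact absurd hp (hs_notMem h a)
      · rcases hp with hp | hp
        · exact absurd hp (hs_notMem h a)
        · exact hp
    have haR := h.row a haE
    -- the plain edges
    have pl : plain (er E p) = plain E := by
      ext k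
      simp only [plain, Finset.mem_filter, mem_er]
      constructor
      · rintro ⟨⟨-, -, k1⟩, k2⟩
        exact ⟨k1, k2⟩
      · rintro ⟨k1, k2⟩
        refine ⟨⟨?_, ?_, k1⟩, k2⟩
        · rintro rfl
          rcases ha with rfl | rfl
          · rw [rv_rv] at k1
            exact hs_notMem h a k1
          · exact k2 (isS_rv_hs a)
        · rintro rfl
          rcases ha with rfl | rfl
          · exact k2 (isS_rv_hs a)
          · exact hs_notMem h a k1
    have nP : ∀ k ∈ plain E, k ≠ p ∧ rv k ≠ p := by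
      intro k hk
      have hk' := hk
      simp only [plain, Finset.mem_filter] at hk'
      constructor
      · rintro rfl
        rcases ha with rfl | rfl
        · exact hk'.2 (isS_rv_hs a)
        · exact hs_notMem h a hk'.1
      · intro e
        rcases ha with rfl | rfl
        · exact hs_notMem h a (rv_inj e ▸ hk'.1)
        · have e2 : k = rv (hs a) := by rw [← e, rv_rv]
          exact hk'.2 (by rw [e2]; exact isS_rv_hs a)
    -- the lines
    have hperm : (lnH (rwE (I ++ J) E)).Perm ((hs a, rv (hs a)) :: lnH (rwE (I ++ J) (er E p))) := by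
      have h1 : (rwE (I ++ J) E).Perm (a :: rwE (I ++ J) (er E p)) := by
        unfold rwE
        refine filter_perm hl haR (by simpa using haE) ?_ ?_
        · have : rv (hs a) ∉ er E p := by
            rw [mem_er]
            rintro ⟨x1, x2, -⟩
            rcases ha with rfl | rfl
            · exact x2 rfl
            · exact x1 rfl
          simpa using this
        · intro b _ hba
          have e : rv (hs b) ∈ er E p ↔ rv (hs b) ∈ E := by
            rw [mem_er]
            refine ⟨fun x => x.2.2, fun x => ⟨?_, ?_, x⟩⟩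
            · intro e
              rcases ha with rfl | rfl
              · rw [rv_rv] at e
                exact absurd (e ▸ isS_rv_hs b) (not_isS_hs a)
              · exact hba (hs_inj (rv_inj e))
            · intro e
              rcases ha with rfl | rfl
              · exact hba (hs_inj (rv_inj e))
              · exact absurd (e ▸ isS_rv_hs b) (not_isS_hs a)
          simp only [e]
      exact h1.map _
    have hperm2 : (lnH (rwE (I ++ J) E)).Perm ((p, rv p) :: lnH (rwE (I ++ J) (er E p))) ∨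
        (lnH (rwE (I ++ J) E)).Perm ((rv p, p) :: lnH (rwE (I ++ J) (er E p))) := by
      rcases ha with rfl | rfl
      · right
        rw [rv_rv]
        exact hperm
      · left
        exact hperm
    have agr : Ag (hs i) p (PG χ (cH I J) (hs i) (hs j) (lnH (rwE (I ++ J) E)))
        (lamL χ I J p • Co p (rv p) (PG χ (cH I J) (hs i) (hs j) (lnH (rwE (I ++ J) (er E p))))) := by
      intro q hq
      rw [Pi.smul_apply, smul_eq_mul]
      exact PG_step hχ hperm2 (gd_E hl hij hi hj E) hq
    have h2 := ag_CE hE (fun k hk => ⟨(h.nE k (plain_sub E hk)).1, (h.nE k (plain_sub E hk)).2.2.1⟩) nP agr q hq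
    rw [h2, map_smul, Pi.smul_apply, smul_eq_mul, CE_comm_Co hE nP]
    congr 2
    simp only [pl]
  · -- a plain edge
    rw [not_or] at hS
    have n1 : ∀ a : Fin N, rv (hs a) ≠ p := fun a e => hS.1 (e ▸ isS_rv_hs a)
    have n2 : ∀ a : Fin N, rv (hs a) ≠ rv p := fun a e => hS.2 (e ▸ isS_rv_hs a)
    have hlam : lamL χ I J p = 1 := by
      unfold lamL
      rw [cH_off (fun a _ e => n2 a (by rw [e])), cH_off (fun a _ e => n1 a (by rw [← e, rv_rv])), sub_zero,
        zpow_zero]
    rw [hlam, one_mul, rwE_er_ne (fun a _ => n1 a) (fun a _ => n2 a)]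
    have hpP : p ∈ plain E ∨ rv p ∈ plain E := by
      simp only [plain, Finset.mem_filter]
      rcases hp with hp | hp
      · exact Or.inl ⟨hp, hS.1⟩
      · exact Or.inr ⟨hp, hS.2⟩
    rw [CE_er hE hpP, Module.End.mul_apply]
    simp only [plain_er]

end ok

end Pool.Agent.YBC
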