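import Pool.Agent.YBC.Front4
import Pool.Agent.EXL.Comm
import Pool.Agent.NUF.Cyl.Seam

/-!
# Sorting the network of the rings
-/

set_option autoImplicit false

namespace Pool.Agent.YBC

open Pool.Agent.EXL hiding cc
open Pool.Agent.EXL.Pat Pool.Agent.EXL.Net
open Pool.Agent.NUF.Cyl (UO PO seam UO_apply PO_apply Co_eq_glue)

variable {K : Type*} [CommRing K]

/-! ### local operators -/

section loc

variable {α : Type*} [DecidableEq α]

theorem mem_loc_of {S : Set α} {A : Op α K} (h : IsLoc S (fun F => A F)) : A ∈ Loc K S := by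
  obtain ⟨L, hL, e⟩ := h
  have : A = L := LinearMap.ext e
  rw [this]
  exact hL

theorem loc_cupO (i j : α) : (cupO i j : Op α K) ∈ Loc K {i, j} := by
  have hi : i ∈ ({i, j} : Set α) := by simp
  have hj : j ∈ ({i, j} : Set α) := by simp
  have e : (cupO i j : Op α K) = opE K i * opE K j * opCu K i j := by
    ext F p
    simp only [Module.End.mul_apply, opE_apply, opCu_apply, cupO_apply, CuOK]
    by_cases h1 : p i = i <;> by_cases h2 : p j = j <;> simp [h1, h2]
  rw [e]
  exact mul_mem (mul_mem (Loc.e hi) (Loc.e hj)) (Loc.cu hi hj)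

theorem loc_Co {i j : α} (hij : i ≠ j) : (Co i j : Op α K) ∈ Loc K {i, j} := by
  apply mem_loc_of
  obtain ⟨L, hL, e⟩ := glue_isLoc (K := K) hij
  refine ⟨L, hL, fun F => ?_⟩
  show Co i j F = L F
  rw [Co_eq_glue]
  exact e F

theorem loc_UO (i j : α) : (UO i j : Op α K) ∈ Loc K {i, j} := by
  apply mem_loc_of
  obtain ⟨L, hL, e⟩ := U_isLoc (K := K) i j
  exact ⟨L, hL, fun F => e F⟩

theorem loc_PO (i : α) : (PO i : Op α K) ∈ Loc K {i} := by
  apply mem_loc_of
  obtain ⟨L, hL, e⟩ := emp_isLoc (K := K) i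
  exact ⟨L, hL, fun F => e F⟩

theorem loc_Vt4 (W : W5 K) (e n w s : α) : (Vt4 W e n w s : Op α K) ∈ Loc K {e, n, w, s} := by
  have sub : ∀ {i j : α}, i ∈ ({e, n, w, s} : Set α) → j ∈ ({e, n, w, s} : Set α) →
      (cupO i j : Op α K) ∈ Loc K {e, n, w, s} := by
    intro i j hi hj
    refine Loc.mono ?_ (loc_cupO i j)
    rintro x (rfl | rfl)
    · exact hi
    · exact hj
  have h1 : e ∈ ({e, n, w, s} : Set α) := by simp
  have h2 : n ∈ ({e, n, w, s} : Set α) := by simp
  have h3 : w ∈ ({e, n, w, s} : Set α) := by simp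
  have h4 : s ∈ ({e, n, w, s} : Set α) := by simp
  unfold Vt4
  exact add_mem (add_mem (add_mem (add_mem (add_mem (Subalgebra.one_mem _)
    (Subalgebra.smul_mem _ (add_mem (sub h1 h3) (sub h2 h4)) _))
    (Subalgebra.smul_mem _ (add_mem (sub h4 h3) (sub h1 h2)) _))
    (Subalgebra.smul_mem _ (add_mem (sub h4 h1) (sub h2 h3)) _))
    (Subalgebra.smul_mem _ (mul_mem (sub h4 h3) (sub h1 h2)) _))
    (Subalgebra.smul_mem _ (mul_mem (sub h4 h1) (sub h2 h3)) _)

theorem loc_prod {ι : Type*} {S : Set α} {f : ι → Op α K} {l : List ι} (h : ∀ i ∈ l, f i ∈ Loc K S) :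
    (l.map f).prod ∈ Loc K S := by
  induction l with
  | nil => exact Subalgebra.one_mem _
  | cons a l ih =>
    rw [List.map_cons, List.prod_cons]
    exact mul_mem (h a (by simp)) (ih fun i hi => h i (by simp [hi]))

end loc

/-- sorting of a product of pairs. -/
theorem prod_pairs {M ι : Type*} [Monoid M] (f g : ι → M) (l : List ι)
    (h : l.Pairwise fun i j => Commute (g i) (f j)) :
    (l.map fun i => f i * g i).prod = (l.map f).prod * (l.map g).prod := by
  induction l with
  | nil => simp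
  | cons a l ih =>
    rw [List.pairwise_cons] at h
    have c : Commute (g a) (l.map f).prod := by
      apply Commute.list_prod_right
      intro x hx
      obtain ⟨b, hb, rfl⟩ := List.mem_map.1 hx
      exact h.1 b hb
    rw [List.map_cons, List.prod_cons, List.map_cons, List.prod_cons, List.map_cons, List.prod_cons,
      ih h.2]
    calc f a * g a * ((l.map f).prod * (l.map g).prod) = f a * (g a * (l.map f).prod) * (l.map g).prod := by
          simp only [mul_assoc]
      _ = _ := by rw [c.eq]; simp only [mul_assoc]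

/-! ### the labels of the columns -/

/-- the labels of the column `k`. -/
def Cs (N : ℕ) (k : ℤ) : Set Lab := {x | ∃ i : ℤ, 0 ≤ i ∧ i < N ∧ (x = lE k i ∨ x = lN k i ∨ x = lW k i ∨ x = lS k i)}

/-- the labels that are not labels of the cylinder. -/
def Bd (N : ℕ) : Set Lab := {x | x = lX 1 ∨ ∃ k : ℤ, x = lN k (-1) ∨ x = lS k N}

theorem cs_disj {N : ℕ} {k k' : ℤ} (h : k ≠ k') : Disjoint (Cs N k) (Cs N k') := by
  rw [Set.disjoint_left]
  rintro x ⟨i, _, _, hx⟩ ⟨i', _, _, hx'⟩
  rcases hx with rfl | rfl | rfl | rfl <;> rcases hx' with e | e | e | e <;> simp at e <;> exact h e.1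

theorem cs_bd {N : ℕ} {k : ℤ} : Disjoint (Bd N) (Cs N k) := by
  rw [Set.disjoint_left]
  rintro x hx ⟨i', h1, h2, hx'⟩
  rcases hx with rfl | ⟨k', rfl | rfl⟩ <;> rcases hx' with e | e | e | e <;> simp at e <;> omega

section ring

variable {N : ℕ} (W : W5 K) (k : ℤ)

/-- the vertex operator. -/
noncomputable def Vo (W : W5 K) (k i : ℤ) : Op Lab K := Vt4 W (lE k i) (lN k i) (lW k i) (lS k i)

/-- the vertex operator, turned by 180 degrees. -/
theorem Vo_turn (i : ℤ) : Vt4 W (lW k i) (lS k i) (lE k i) (lN k i) = Vo W k i := by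
  have e1 : (cupO (lN k i) (lE k i) * cupO (lW k i) (lS k i) : Op Lab K) =
      cupO (lS k i) (lW k i) * cupO (lE k i) (lN k i) := by
    rw [cupO_symm (lN k i), cupO_symm (lW k i)]
    exact (cupO_comm (by simp) (by simp) (by simp) (by simp)).eq
  have e2 : (cupO (lN k i) (lW k i) * cupO (lS k i) (lE k i) : Op Lab K) =
      cupO (lS k i) (lE k i) * cupO (lN k i) (lW k i) :=
    (cupO_comm (by simp) (by simp) (by simp) (by simp)).eq
  unfold Vo Vt4
  rw [e1, e2, cupO_symm (lW k i) (lE k i), cupO_symm (lS k i) (lN k i), cupO_symm (lN k i) (lE k i),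
    cupO_symm (lW k i) (lS k i)]
  simp only [smul_add]
  abel

/-- the vertical edge. -/
noncomputable def Ev (N : ℕ) (K : Type*) [CommRing K] (k : ℤ) (i : ℕ) : Op Lab K :=
  if i + 1 = N then Co (lN k i) (lS k 0) else Co (lN k i) (lS k (i + 1))

/-- the horizontal edge from the column `k` to the column `k + 1`. -/
noncomputable def Eh (K : Type*) [CommRing K] (k : ℤ) (i : ℕ) : Op Lab K := Co (lE k i) (lW (k + 1) i)

theorem loc_Vo {i : ℤ} (h1 : 0 ≤ i) (h2 : i < N) : (Vo W k i : Op Lab K) ∈ Loc K (Cs N k) := by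
  refine Loc.mono ?_ (loc_Vt4 W _ _ _ _)
  rintro x (rfl | rfl | rfl | rfl)
  · exact ⟨i, h1, h2, Or.inl rfl⟩
  · exact ⟨i, h1, h2, Or.inr (Or.inl rfl)⟩
  · exact ⟨i, h1, h2, Or.inr (Or.inr (Or.inl rfl))⟩
  · exact ⟨i, h1, h2, Or.inr (Or.inr (Or.inr rfl))⟩

theorem loc_Ev {i : ℕ} (h2 : i < N) : (Ev N K k i : Op Lab K) ∈ Loc K (Cs N k) := by
  unfold Ev
  split_ifs with h
  · refine Loc.mono ?_ (loc_Co (by simp))
    rintro x (rfl | rfl)
    · exact ⟨i, by omega, by omega, Or.inr (Or.inl rfl)⟩
    · exact ⟨0, le_rfl, by omega, Or.inr (Or.inr (Or.inr rfl))⟩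
  · refine Loc.mono ?_ (loc_Co (by simp))
    rintro x (rfl | rfl)
    · exact ⟨i, by omega, by omega, Or.inr (Or.inl rfl)⟩
    · exact ⟨i + 1, by omega, by omega, Or.inr (Or.inr (Or.inr rfl))⟩

theorem loc_Eh {i : ℕ} (h2 : i < N) : (Eh K k i : Op Lab K) ∈ Loc K (Cs N k ∪ Cs N (k + 1)) := by
  unfold Eh
  refine Loc.mono ?_ (loc_Co (by simp))
  rintro x (rfl | rfl)
  · exact Or.inl ⟨i, by omega, by omega, Or.inl rfl⟩
  · exact Or.inr ⟨i, by omega, by omega, Or.inr (Or.inr (Or.inl rfl))⟩

/-- the labels of one crossing. -/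
theorem vo_comm {i : ℤ} {T : Set Lab} {A : Op Lab K} (hA : A ∈ Loc K T)
    (h : ∀ x ∈ T, x ≠ lE k i ∧ x ≠ lN k i ∧ x ≠ lW k i ∧ x ≠ lS k i) : Commute (Vo W k i) A := by
  refine Loc.commute ?_ (loc_Vt4 W _ _ _ _) hA
  rw [Set.disjoint_left]
  rintro x (rfl | rfl | rfl | rfl) hx
  · exact (h _ hx).1 rfl
  · exact (h _ hx).2.1 rfl
  · exact (h _ hx).2.2.1 rfl
  · exact (h _ hx).2.2.2 rfl

end ring

section ring

variable {N : ℕ} (W : ℕ → W5 K) (k : ℤ)

/-- the product of the vertices of a ring. -/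
noncomputable def VR4 (W : ℕ → W5 K) (N : ℕ) (k : ℤ) : Op Lab K := ((List.range N).map fun i : ℕ => Vo (W i) k i).prod

/-- the edges of a ring of the right part. -/
noncomputable def CR4 (K : Type*) [CommRing K] (N : ℕ) (k : ℤ) : Op Lab K :=
  Ev N K k (N - 1) * ((List.range (N - 1)).map fun i : ℕ => Ev N K k i).prod *
    ((List.range N).map fun i : ℕ => Eh K k i).prod

theorem comm_CoCo {a b c d : Lab} (h1 : a ≠ c) (h2 : a ≠ d) (h3 : b ≠ c) (h4 : b ≠ d) :
    Commute (Co a b : Op Lab K) (Co c d) := Co_comm h1 h2 h3 h4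

/-- **A ring of the right part, sorted.** -/
theorem rRing4_sorted (hN : 1 ≤ N) :
    rRing4 W N k = PO (lX 1) * PO (lN k (-1)) * (VR4 W N k * CR4 K N k) := by
  obtain ⟨n, rfl⟩ : ∃ n, N = n + 1 := ⟨N - 1, by omega⟩
  set cv : ℕ → Op Lab K := fun i => Co (lN k ((i : ℤ) - 1)) (lS k i) with hcv
  set ch : ℕ → Op Lab K := fun i => Co (lW (k + 1) i) (lE k i) with hch
  have e1 : ((List.range (n + 1)).map (fun i : ℕ => Rho4 (W i) k (i : ℤ))).prod =
      VR4 W (n + 1) k * (((List.range (n + 1)).map cv).prod * ((List.range (n + 1)).map ch).prod) := by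
    have a1 : ((List.range (n + 1)).map (fun i : ℕ => Rho4 (W i) k (i : ℤ))) =
        (List.range (n + 1)).map (fun i : ℕ => Vo (W i) k i * (cv i * ch i)) := rfl
    have a2 : (List.range (n + 1)).Pairwise (fun i j => i < j) := List.pairwise_lt_range
    rw [a1, prod_pairs _ _ _ (a2.imp fun {i j} hij => ?_), prod_pairs cv ch _ (a2.imp fun {i j} hij => ?_)]
    · rfl
    · rw [hcv, hch]
      exact comm_CoCo (by simp) (by simp) (by simp) (by simp)
    · refine Commute.mul_left ?_ ?_
      · refine (vo_comm _ k (loc_Co (by simp)) ?_).symm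
        rintro x (rfl | rfl)
        · refine ⟨by simp, ?_, by simp, by simp⟩
          simp
          omega
        · refine ⟨by simp, by simp, by simp, ?_⟩
          simp
          omega
      · refine (vo_comm _ k (loc_Co (by simp)) ?_).symm
        rintro x (rfl | rfl)
        · refine ⟨by simp, by simp, ?_, by simp⟩
          simp
        · refine ⟨?_, by simp, by simp, by simp⟩
          simp
          omega
  have e2 : ((List.range (n + 1)).map cv).prod = cv 0 * ((List.range n).map fun i : ℕ => Ev (n + 1) K k i).prod := by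
    rw [List.range_succ_eq_map, List.map_cons, List.prod_cons, List.map_map]
    congr 2
    apply List.map_congr_left
    intro i hi
    rw [List.mem_range] at hi
    simp only [Function.comp, hcv]
    unfold Ev
    rw [if_neg (by omega)]
    push_cast
    congr 2
    ring
  set Q : Op Lab K := ((List.range n).map fun i : ℕ => Ev (n + 1) K k i).prod with hQ
  set H : Op Lab K := ((List.range (n + 1)).map ch).prod with hH
  have cQ : Commute (Co (lX 1) (lN k n) : Op Lab K) Q := by
    apply Commute.list_prod_right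
    intro x hx
    obtain ⟨i, hi, rfl⟩ := List.mem_map.1 hx
    rw [List.mem_range] at hi
    unfold Ev
    rw [if_neg (by omega)]
    exact comm_CoCo (by simp) (by simp) (by simp; omega) (by simp)
  have cH : Commute (Co (lX 1) (lN k n) : Op Lab K) H := by
    apply Commute.list_prod_right
    intro x hx
    obtain ⟨i, hi, rfl⟩ := List.mem_map.1 hx
    exact comm_CoCo (by simp) (by simp) (by simp) (by simp)
  have cU : Commute (UO (lX 1) (lN k (-1)) : Op Lab K) (VR4 W (n + 1) k) := by
    apply Commute.list_prod_right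
    intro x hx
    obtain ⟨i, hi, rfl⟩ := List.mem_map.1 hx
    refine (vo_comm _ k (loc_UO _ _) ?_).symm
    rintro x (rfl | rfl)
    · exact ⟨by simp, by simp, by simp, by simp⟩
    · refine ⟨by simp, ?_, by simp, by simp⟩
      simp
  have cP : Commute (PO (lX 1) * PO (lN k (-1)) : Op Lab K) (VR4 W (n + 1) k) := by
    apply Commute.list_prod_right
    intro x hx
    obtain ⟨i, hi, rfl⟩ := List.mem_map.1 hx
    refine Commute.mul_left ?_ ?_
    · refine (vo_comm _ k (loc_PO _) ?_).symm
      rintro x rfl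
      exact ⟨by simp, by simp, by simp, by simp⟩
    · refine (vo_comm _ k (loc_PO _) ?_).symm
      rintro x rfl
      refine ⟨by simp, ?_, by simp, by simp⟩
      simp
  have hs := seam (K := K) (z := lX 1) (s := lN k (-1)) (a := lS k 0) (n := lN k n) (by
    simp)
  have eN : lN k (((n + 1 : ℕ) : ℤ) - 1) = lN k n := by push_cast; ring_nf
  have c0 : cv 0 = Co (lN k (-1)) (lS k 0) := by
    simp only [hcv]
    norm_num
  have eC : CR4 K (n + 1) k = Co (lS k 0) (lN k n) * Q * H := by
    unfold CR4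
    have a1 : Ev (n + 1) K k (n + 1 - 1) = Co (lS k 0) (lN k n) := by
      unfold Ev
      rw [if_pos (by omega), Co_symm]
      congr 2
    have a2 : ((List.range (n + 1)).map fun i : ℕ => Eh K k i) = (List.range (n + 1)).map ch := by
      apply List.map_congr_left
      intro i _
      unfold Eh
      rw [Co_symm]
    rw [a1, a2]
    rfl
  unfold rRing4
  rw [e1, e2, c0, eN, eC]
  calc UO (lX 1) (lN k (-1)) * (VR4 W (n + 1) k * (Co (lN k (-1)) (lS k 0) * Q * H)) * Co (lX 1) (lN k n)
      = (UO (lX 1) (lN k (-1)) * VR4 W (n + 1) k) * Co (lN k (-1)) (lS k 0) * (Q * (H * Co (lX 1) (lN k n))) := by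
        simp only [mul_assoc]
    _ = VR4 W (n + 1) k * (UO (lX 1) (lN k (-1)) * Co (lN k (-1)) (lS k 0) * Co (lX 1) (lN k n)) * (Q * H) := by
        rw [cU.eq, ← cH.eq, ← mul_assoc Q, ← cQ.eq]
        simp only [mul_assoc]
    _ = (VR4 W (n + 1) k * (PO (lX 1) * PO (lN k (-1)))) * Co (lS k 0) (lN k n) * (Q * H) := by
        rw [hs]
        simp only [mul_assoc]
    _ = _ := by
        rw [← cP.eq]
        simp only [mul_assoc]

/-- the product of the vertices of a ring of the left part. -/
noncomputable def VL4 (W : ℕ → W5 K) (N : ℕ) (k : ℤ) : Op Lab K :=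
  ((List.range N).reverse.map fun i : ℕ => Vo (W i) k i).prod

/-- the edges of a ring of the left part. -/
noncomputable def CL4 (K : Type*) [CommRing K] (N : ℕ) (k : ℤ) : Op Lab K :=
  Ev N K k (N - 1) * ((List.range (N - 1)).reverse.map fun i : ℕ => Ev N K k i).prod *
    ((List.range N).reverse.map fun i : ℕ => Eh K (k - 1) i).prod

/-- **A ring of the left part, sorted.** -/
theorem lRing4_sorted (hN : 1 ≤ N) :
    lRing4 W N k = PO (lX 1) * PO (lS k N) * (VL4 W N k * CL4 K N k) := by
  obtain ⟨n, rfl⟩ : ∃ n, N = n + 1 := ⟨N - 1, by omega⟩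
  set cv : ℕ → Op Lab K := fun i => Co (lS k ((i : ℤ) + 1)) (lN k i) with hcv
  set ch : ℕ → Op Lab K := fun i => Co (lE (k - 1) i) (lW k i) with hch
  have e1 : ((List.range (n + 1)).reverse.map (fun i : ℕ => lRho4 (W i) k (i : ℤ))).prod =
      VL4 W (n + 1) k * (((List.range (n + 1)).reverse.map cv).prod * ((List.range (n + 1)).reverse.map ch).prod) := by
    have a1 : ((List.range (n + 1)).reverse.map (fun i : ℕ => lRho4 (W i) k (i : ℤ))) =
        (List.range (n + 1)).reverse.map (fun i : ℕ => Vo (W i) k i * (cv i * ch i)) := by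
      apply List.map_congr_left
      intro i _
      unfold lRho4
      rw [Vo_turn]
    have a2 : (List.range (n + 1)).reverse.Pairwise (fun i j => j < i) := by
      rw [List.pairwise_reverse]
      exact List.pairwise_lt_range
    rw [a1, prod_pairs _ _ _ (a2.imp fun {i j} hij => ?_), prod_pairs cv ch _ (a2.imp fun {i j} hij => ?_)]
    · rfl
    · rw [hcv, hch]
      exact comm_CoCo (by simp) (by simp) (by simp) (by simp)
    · refine Commute.mul_left ?_ ?_
      · refine (vo_comm _ k (loc_Co (by simp)) ?_).symm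
        rintro x (rfl | rfl)
        · refine ⟨by simp, by simp, by simp, ?_⟩
          simp
          omega
        · refine ⟨by simp, ?_, by simp, by simp⟩
          simp
          omega
      · refine (vo_comm _ k (loc_Co (by simp)) ?_).symm
        rintro x (rfl | rfl)
        · refine ⟨?_, by simp, by simp, by simp⟩
          simp
        · refine ⟨by simp, by simp, ?_, by simp⟩
          simp
          omega
  have e2 : ((List.range (n + 1)).reverse.map cv).prod =
      cv n * ((List.range n).reverse.map fun i : ℕ => Ev (n + 1) K k i).prod := by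
    rw [List.range_succ, List.reverse_append, List.reverse_singleton, List.singleton_append, List.map_cons,
      List.prod_cons]
    congr 2
    apply List.map_congr_left
    intro i hi
    rw [List.mem_reverse, List.mem_range] at hi
    simp only [hcv]
    unfold Ev
    rw [if_neg (by omega), Co_symm]
  set Q : Op Lab K := ((List.range n).reverse.map fun i : ℕ => Ev (n + 1) K k i).prod with hQ
  set H : Op Lab K := ((List.range (n + 1)).reverse.map ch).prod with hH
  have cQ : Commute (Co (lX 1) (lS k 0) : Op Lab K) Q := by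
    apply Commute.list_prod_right
    intro x hx
    obtain ⟨i, hi, rfl⟩ := List.mem_map.1 hx
    rw [List.mem_reverse, List.mem_range] at hi
    unfold Ev
    rw [if_neg (by omega)]
    exact comm_CoCo (by simp) (by simp) (by simp) (by simp; omega)
  have cH : Commute (Co (lX 1) (lS k 0) : Op Lab K) H := by
    apply Commute.list_prod_right
    intro x hx
    obtain ⟨i, hi, rfl⟩ := List.mem_map.1 hx
    exact comm_CoCo (by simp) (by simp) (by simp) (by simp)
  have bad : ∀ i : ℕ, i < n + 1 → ∀ x ∈ ({lX 1, lS k ((n + 1 : ℕ) : ℤ)} : Set Lab),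
      x ≠ lE k i ∧ x ≠ lN k i ∧ x ≠ lW k i ∧ x ≠ lS k i := by
    rintro i hi x (rfl | rfl)
    · exact ⟨by simp, by simp, by simp, by simp⟩
    · refine ⟨by simp, by simp, by simp, ?_⟩
      simp
      omega
  have cU : Commute (UO (lX 1) (lS k ((n + 1 : ℕ) : ℤ)) : Op Lab K) (VL4 W (n + 1) k) := by
    apply Commute.list_prod_right
    intro x hx
    obtain ⟨i, hi, rfl⟩ := List.mem_map.1 hx
    rw [List.mem_reverse, List.mem_range] at hi
    exact (vo_comm _ k (loc_UO _ _) (bad i hi)).symm
  have cP : Commute (PO (lX 1) * PO (lS k ((n + 1 : ℕ) : ℤ)) : Op Lab K) (VL4 W (n + 1) k) := by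
    apply Commute.list_prod_right
    intro x hx
    obtain ⟨i, hi, rfl⟩ := List.mem_map.1 hx
    rw [List.mem_reverse, List.mem_range] at hi
    refine Commute.mul_left ?_ ?_
    · exact (vo_comm _ k (loc_PO _) (fun x hx => bad i hi x (Or.inl hx))).symm
    · exact (vo_comm _ k (loc_PO _) (fun x hx => bad i hi x (Or.inr hx))).symm
  have hs := seam (K := K) (z := lX 1) (s := lS k ((n + 1 : ℕ) : ℤ)) (a := lN k n) (n := lS k 0) (by
    simp
    omega)
  have c0 : cv n = Co (lS k ((n + 1 : ℕ) : ℤ)) (lN k n) := by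
    simp only [hcv]
    push_cast
    rfl
  have eC : CL4 K (n + 1) k = Co (lN k n) (lS k 0) * Q * H := by
    unfold CL4
    have a1 : Ev (n + 1) K k (n + 1 - 1) = Co (lN k n) (lS k 0) := by
      unfold Ev
      rw [if_pos (by omega)]
      congr 2
    have a2 : ((List.range (n + 1)).reverse.map fun i : ℕ => Eh K (k - 1) i) = (List.range (n + 1)).reverse.map ch := by
      apply List.map_congr_left
      intro i _
      unfold Eh
      rw [sub_add_cancel]
    rw [a1, a2]
    rfl
  unfold lRing4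
  rw [e1, e2, c0, eC]
  calc UO (lX 1) (lS k ((n + 1 : ℕ) : ℤ)) * (VL4 W (n + 1) k * (Co (lS k ((n + 1 : ℕ) : ℤ)) (lN k n) * Q * H)) *
        Co (lX 1) (lS k 0)
      = (UO (lX 1) (lS k ((n + 1 : ℕ) : ℤ)) * VL4 W (n + 1) k) * Co (lS k ((n + 1 : ℕ) : ℤ)) (lN k n) *
          (Q * (H * Co (lX 1) (lS k 0))) := by
        simp only [mul_assoc]
    _ = VL4 W (n + 1) k * (UO (lX 1) (lS k ((n + 1 : ℕ) : ℤ)) * Co (lS k ((n + 1 : ℕ) : ℤ)) (lN k n) *
          Co (lX 1) (lS k 0)) * (Q * H) := by
        rw [cU.eq, ← cH.eq, ← mul_assoc Q, ← cQ.eq]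
        simp only [mul_assoc]
    _ = (VL4 W (n + 1) k * (PO (lX 1) * PO (lS k ((n + 1 : ℕ) : ℤ)))) * Co (lN k n) (lS k 0) * (Q * H) := by
        rw [hs]
        simp only [mul_assoc]
    _ = _ := by
        rw [← cP.eq]
        simp only [mul_assoc]

end ring

end Pool.Agent.YBC
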