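import Pool.Agent.YBC.Sort4
import Pool.Agent.MXR.Fin
import Pool.Agent.GLD.Net0

/-!
# The network of the rings = the network of the half edges of the cylinder
-/

set_option autoImplicit false

namespace Pool.Agent.YBC

open Pool.Agent.EXL hiding cc
open Pool.Agent.EXL.Pat Pool.Agent.EXL.Net
open Pool.Agent.NUF.Cyl (UO PO PL PL_apply PL_cons seam UO_apply PO_apply Co_eq_glue)

variable {K : Type*} [CommRing K] {N : ℕ}

/-- the labels of the columns `a, .., b - 1`. -/
def Us (N : ℕ) (a b : ℤ) : Set Lab := {x | ∃ k : ℤ, a ≤ k ∧ k < b ∧ x ∈ Cs N k}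

theorem us_mono {a b c d : ℤ} (h1 : c ≤ a) (h2 : b ≤ d) : Us N a b ⊆ Us N c d := by
  rintro x ⟨k, h3, h4, h5⟩
  exact ⟨k, by omega, by omega, h5⟩

theorem cs_us {k a b : ℤ} (h1 : a ≤ k) (h2 : k < b) : Cs N k ⊆ Us N a b := fun x hx => ⟨k, h1, h2, hx⟩

theorem us_disj {a b c d : ℤ} (h : b ≤ c) : Disjoint (Us N a b) (Us N c d) := by
  rw [Set.disjoint_left]
  rintro x ⟨k, h3, h4, h5⟩ ⟨k', h3', h4', h5'⟩
  exact Set.disjoint_left.1 (cs_disj (N := N) (k := k) (k' := k') (by omega)) h5 h5'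

theorem us_bd {a b : ℤ} : Disjoint (Bd N) (Us N a b) := by
  rw [Set.disjoint_left]
  rintro x hx ⟨k', _, _, h5'⟩
  exact Set.disjoint_left.1 cs_bd hx h5'

theorem loc_VR4 (W : ℕ → W5 K) (k : ℤ) : (VR4 W N k : Op Lab K) ∈ Loc K (Cs N k) :=
  loc_prod fun i hi => loc_Vo _ k (by omega) (by exact_mod_cast List.mem_range.1 hi)

theorem loc_VL4 (W : ℕ → W5 K) (k : ℤ) : (VL4 W N k : Op Lab K) ∈ Loc K (Cs N k) :=
  loc_prod fun i hi => loc_Vo _ k (by omega) (by
    rw [List.mem_reverse, List.mem_range] at hi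
    exact_mod_cast hi)

theorem loc_CR4 (hN : 1 ≤ N) (k : ℤ) : (CR4 K N k : Op Lab K) ∈ Loc K (Us N k (k + 2)) := by
  have h1 : Cs N k ⊆ Us N k (k + 2) := cs_us le_rfl (by omega)
  have h2 : Cs N k ∪ Cs N (k + 1) ⊆ Us N k (k + 2) := Set.union_subset h1 (cs_us (by omega) (by omega))
  refine mul_mem (mul_mem (Loc.mono h1 (loc_Ev k (by omega))) (loc_prod fun i hi => ?_)) (loc_prod fun i hi => ?_)
  · rw [List.mem_range] at hi
    exact Loc.mono h1 (loc_Ev k (by omega))
  · rw [List.mem_range] at hi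
    exact Loc.mono h2 (loc_Eh k hi)

theorem loc_CL4 (hN : 1 ≤ N) (k : ℤ) : (CL4 K N k : Op Lab K) ∈ Loc K (Us N (k - 1) (k + 1)) := by
  have h1 : Cs N k ⊆ Us N (k - 1) (k + 1) := cs_us (by omega) (by omega)
  have h2 : Cs N (k - 1) ∪ Cs N (k - 1 + 1) ⊆ Us N (k - 1) (k + 1) :=
    Set.union_subset (cs_us (by omega) (by omega)) (cs_us (by omega) (by omega))
  refine mul_mem (mul_mem (Loc.mono h1 (loc_Ev k (by omega))) (loc_prod fun i hi => ?_)) (loc_prod fun i hi => ?_)
  · rw [List.mem_reverse, List.mem_range] at hi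
    exact Loc.mono h1 (loc_Ev k (by omega))
  · rw [List.mem_reverse, List.mem_range] at hi
    exact Loc.mono h2 (loc_Eh (k - 1) hi)

/-- all vertices of the right part. -/
noncomputable def VVr (W : ℤ → ℕ → W5 K) (N : ℕ) : ℕ → Op Lab K
  | 0 => 1
  | m + 1 => VR4 (W m) N m * VVr W N m

/-- all edges of the right part. -/
noncomputable def CCr (K : Type*) [CommRing K] (N : ℕ) : ℕ → Op Lab K
  | 0 => 1
  | m + 1 => CR4 K N m * CCr K N m

/-- all vertices of the left part. -/
noncomputable def VVl (W : ℤ → ℕ → W5 K) (N : ℕ) : ℕ → Op Lab K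
  | 0 => 1
  | m + 1 => VL4 (W (-(m : ℤ) - 1)) N (-(m : ℤ) - 1) * VVl W N m

/-- all edges of the left part. -/
noncomputable def CCl (K : Type*) [CommRing K] (N : ℕ) : ℕ → Op Lab K
  | 0 => 1
  | m + 1 => CL4 K N (-(m : ℤ) - 1) * CCl K N m

theorem loc_VVr (W : ℤ → ℕ → W5 K) (m : ℕ) : (VVr W N m : Op Lab K) ∈ Loc K (Us N 0 m) := by
  induction m with
  | zero => exact Subalgebra.one_mem _
  | succ m ih =>
    exact mul_mem (Loc.mono (cs_us (by omega) (by push_cast; omega)) (loc_VR4 _ _))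
      (Loc.mono (us_mono le_rfl (by push_cast; omega)) ih)

theorem loc_VVl (W : ℤ → ℕ → W5 K) (m : ℕ) : (VVl W N m : Op Lab K) ∈ Loc K (Us N (-m) 0) := by
  induction m with
  | zero => exact Subalgebra.one_mem _
  | succ m ih =>
    exact mul_mem (Loc.mono (cs_us (by push_cast; omega) (by omega)) (loc_VL4 _ _))
      (Loc.mono (us_mono (by push_cast; omega) le_rfl) ih)

theorem loc_CCr (hN : 1 ≤ N) (m : ℕ) : (CCr K N m : Op Lab K) ∈ Loc K (Us N 0 (m + 1)) := by
  induction m with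
  | zero => exact Subalgebra.one_mem _
  | succ m ih =>
    exact mul_mem (Loc.mono (us_mono (by omega) (by push_cast; omega)) (loc_CR4 hN _))
      (Loc.mono (us_mono le_rfl (by push_cast; omega)) ih)

/-- `P` does nothing at the empty state. -/
structure Triv (N : ℕ) (P : Op Lab K) : Prop where
  loc : P ∈ Loc K (Bd N)
  emp : ∀ F : Pat Lab → K, P F Pat.empty = F Pat.empty

theorem Triv.mul {P Q : Op Lab K} (hP : Triv N P) (hQ : Triv N Q) : Triv N (P * Q) :=
  ⟨mul_mem hP.loc hQ.loc, fun F => by rw [Module.End.mul_apply, hP.emp, hQ.emp]⟩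

theorem Triv.one : Triv N (1 : Op Lab K) := ⟨Subalgebra.one_mem _, fun _ => rfl⟩

theorem Triv.po {a : Lab} (h : a ∈ Bd N) : Triv N (PO a : Op Lab K) := by
  refine ⟨Loc.mono (by rintro x rfl; exact h) (loc_PO a), fun F => ?_⟩
  rw [PO_apply]
  exact if_pos rfl

/-- **The right part, sorted.** -/
theorem rTot4_sorted (W : ℤ → ℕ → W5 K) (hN : 1 ≤ N) (m : ℕ) :
    ∃ P : Op Lab K, Triv N P ∧ rTot4 W N m = P * (VVr W N m * CCr K N m) := by
  induction m with
  | zero => exact ⟨1, Triv.one, by simp [rTot4, VVr, CCr]⟩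
  | succ m ih =>
    obtain ⟨P, hP, e⟩ := ih
    refine ⟨PO (lX 1) * PO (lN m (-1)) * P, ((Triv.po (Or.inl rfl)).mul (Triv.po (Or.inr ⟨m, Or.inl rfl⟩))).mul hP, ?_⟩
    have e2 : rTot4 W N (m + 1) = rRing4 (W m) N m * rTot4 W N m := rfl
    have c1 : Commute (VR4 (W m) N m * CR4 K N m) P := by
      refine (Loc.commute (us_bd (a := m) (b := m + 2)) hP.loc ?_).symm
      exact mul_mem (Loc.mono (cs_us le_rfl (by omega)) (loc_VR4 _ _)) (loc_CR4 hN _)
    have c2 : Commute (CR4 K N m) (VVr W N m) := by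
      refine (Loc.commute (us_disj (a := 0) (b := m) (c := m) (d := m + 2) le_rfl) (loc_VVr W m) ?_).symm
      exact loc_CR4 hN _
    have e3 : VVr W N (m + 1) = VR4 (W m) N m * VVr W N m := rfl
    have e4 : CCr K N (m + 1) = CR4 K N m * CCr K N m := rfl
    rw [e2, rRing4_sorted _ _ hN, e, e3, e4]
    calc PO (lX 1) * PO (lN (m : ℤ) (-1)) * (VR4 (W m) N m * CR4 K N m) * (P * (VVr W N m * CCr K N m))
        = PO (lX 1) * PO (lN (m : ℤ) (-1)) * ((VR4 (W m) N m * CR4 K N m) * P) * (VVr W N m * CCr K N m) := by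
          simp only [mul_assoc]
      _ = PO (lX 1) * PO (lN (m : ℤ) (-1)) * P * (VR4 (W m) N m * (CR4 K N m * VVr W N m) * CCr K N m) := by
          rw [c1.eq]; simp only [mul_assoc]
      _ = _ := by rw [c2.eq]; simp only [mul_assoc]

/-- **The left part, sorted.** -/
theorem lTot4_sorted (W : ℤ → ℕ → W5 K) (hN : 1 ≤ N) (m : ℕ) :
    ∃ P : Op Lab K, Triv N P ∧ lTot4 W N m = P * (VVl W N m * CCl K N m) := by
  induction m with
  | zero => exact ⟨1, Triv.one, by simp [lTot4, VVl, CCl]⟩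
  | succ m ih =>
    obtain ⟨P, hP, e⟩ := ih
    set k : ℤ := -(m : ℤ) - 1 with hk
    refine ⟨PO (lX 1) * PO (lS k N) * P, ((Triv.po (Or.inl rfl)).mul (Triv.po (Or.inr ⟨k, Or.inr rfl⟩))).mul hP, ?_⟩
    have e2 : lTot4 W N (m + 1) = lRing4 (W k) N k * lTot4 W N m := rfl
    have c1 : Commute (VL4 (W k) N k * CL4 K N k) P := by
      refine (Loc.commute (us_bd (a := k - 1) (b := k + 1)) hP.loc ?_).symm
      exact mul_mem (Loc.mono (cs_us (by omega) (by omega)) (loc_VL4 _ _)) (loc_CL4 hN _)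
    have c2 : Commute (CL4 K N k) (VVl W N m) := by
      refine Loc.commute (us_disj (a := k - 1) (b := k + 1) (c := -m) (d := 0) (by omega)) (loc_CL4 hN _) ?_
      exact loc_VVl W m
    have e3 : VVl W N (m + 1) = VL4 (W k) N k * VVl W N m := rfl
    have e4 : CCl K N (m + 1) = CL4 K N k * CCl K N m := rfl
    rw [e2, lRing4_sorted _ _ hN, e, e3, e4]
    calc PO (lX 1) * PO (lS k N) * (VL4 (W k) N k * CL4 K N k) * (P * (VVl W N m * CCl K N m))
        = PO (lX 1) * PO (lS k N) * ((VL4 (W k) N k * CL4 K N k) * P) * (VVl W N m * CCl K N m) := by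
          simp only [mul_assoc]
      _ = PO (lX 1) * PO (lS k N) * P * (VL4 (W k) N k * (CL4 K N k * VVl W N m) * CCl K N m) := by
          rw [c1.eq]; simp only [mul_assoc]
      _ = _ := by rw [c2.eq]; simp only [mul_assoc]

/-- **Both parts at the empty state.** -/
theorem tot4_sorted (W : ℤ → ℕ → W5 K) (hN : 1 ≤ N) (m : ℕ) (F : Pat Lab → K) :
    (rTot4 W N m * lTot4 W N m) F Pat.empty =
      ((VVr W N m * VVl W N m) * (CCr K N m * CCl K N m)) F Pat.empty := by
  obtain ⟨P, hP, e⟩ := rTot4_sorted W hN m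
  obtain ⟨Q, hQ, e'⟩ := lTot4_sorted W hN m
  have c1 : Commute (VVr W N m * CCr K N m) Q := by
    refine (Loc.commute (us_bd (a := 0) (b := m + 1)) hQ.loc ?_).symm
    exact mul_mem (Loc.mono (us_mono le_rfl (by omega)) (loc_VVr _ _)) (loc_CCr hN _)
  have c2 : Commute (CCr K N m) (VVl W N m) := by
    refine (Loc.commute (us_disj (a := -m) (b := 0) (c := 0) (d := m + 1) le_rfl) (loc_VVl W m) ?_).symm
    exact loc_CCr hN _
  have e2 : rTot4 W N m * lTot4 W N m =
      (P * Q) * ((VVr W N m * VVl W N m) * (CCr K N m * CCl K N m)) := by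
    rw [e, e']
    calc P * (VVr W N m * CCr K N m) * (Q * (VVl W N m * CCl K N m))
        = P * ((VVr W N m * CCr K N m) * Q) * (VVl W N m * CCl K N m) := by simp only [mul_assoc]
      _ = P * Q * (VVr W N m * (CCr K N m * VVl W N m) * CCl K N m) := by
          rw [c1.eq]; simp only [mul_assoc]
      _ = _ := by rw [c2.eq]; simp only [mul_assoc]
  rw [e2, Module.End.mul_apply, (hP.mul hQ).emp]

/-! ### lists -/

/-- the vertices of the right part. -/
def LVr (N : ℕ) : ℕ → List (ℤ × ℕ)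
  | 0 => []
  | m + 1 => (List.range N).map (fun i => ((m : ℤ), i)) ++ LVr N m

/-- the vertices of the left part. -/
def LVl (N : ℕ) : ℕ → List (ℤ × ℕ)
  | 0 => []
  | m + 1 => (List.range N).reverse.map (fun i => (-(m : ℤ) - 1, i)) ++ LVl N m

/-- the edges of the right part: (column, row, vertical or horizontal). -/
def LEr (N : ℕ) : ℕ → List (ℤ × ℕ × Bool)
  | 0 => []
  | m + 1 => (((m : ℤ), N - 1, true) :: ((List.range (N - 1)).map (fun i => ((m : ℤ), i, true)) ++
      (List.range N).map (fun i => ((m : ℤ), i, false)))) ++ LEr N m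

/-- the edges of the left part. -/
def LEl (N : ℕ) : ℕ → List (ℤ × ℕ × Bool)
  | 0 => []
  | m + 1 => ((-(m : ℤ) - 1, N - 1, true) :: ((List.range (N - 1)).reverse.map (fun i => (-(m : ℤ) - 1, i, true)) ++
      (List.range N).reverse.map (fun i => (-(m : ℤ) - 1 - 1, i, false)))) ++ LEl N m

/-- the operator of an edge. -/
noncomputable def eo (N : ℕ) (K : Type*) [CommRing K] (e : ℤ × ℕ × Bool) : Op Lab K :=
  if e.2.2 then Ev N K e.1 e.2.1 else Eh K e.1 e.2.1

theorem VVr_list (W : ℤ → ℕ → W5 K) (m : ℕ) :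
    VVr W N m = ((LVr N m).map fun v => Vo (W v.1 v.2) v.1 v.2).prod := by
  induction m with
  | zero => rfl
  | succ m ih =>
    have e : LVr N (m + 1) = (List.range N).map (fun i => ((m : ℤ), i)) ++ LVr N m := rfl
    rw [e, List.map_append, List.prod_append, List.map_map, ← ih]
    rfl

theorem VVl_list (W : ℤ → ℕ → W5 K) (m : ℕ) :
    VVl W N m = ((LVl N m).map fun v => Vo (W v.1 v.2) v.1 v.2).prod := by
  induction m with
  | zero => rfl
  | succ m ih =>
    have e : LVl N (m + 1) = (List.range N).reverse.map (fun i => (-(m : ℤ) - 1, i)) ++ LVl N m := rfl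
    rw [e, List.map_append, List.prod_append, List.map_map, ← ih]
    rfl

theorem CCr_list (m : ℕ) : CCr K N m = ((LEr N m).map (eo N K)).prod := by
  induction m with
  | zero => rfl
  | succ m ih =>
    have e : LEr N (m + 1) = (((m : ℤ), N - 1, true) :: ((List.range (N - 1)).map (fun i => ((m : ℤ), i, true)) ++
      (List.range N).map (fun i => ((m : ℤ), i, false)))) ++ LEr N m := rfl
    have e2 : CCr K N (m + 1) = CR4 K N m * CCr K N m := rfl
    rw [e, e2, List.map_append, List.prod_append, List.map_cons, List.prod_cons, List.map_append, List.prod_append,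
      List.map_map, List.map_map, ← ih]
    unfold CR4
    simp only [mul_assoc]
    rfl

theorem CCl_list (m : ℕ) : CCl K N m = ((LEl N m).map (eo N K)).prod := by
  induction m with
  | zero => rfl
  | succ m ih =>
    have e : LEl N (m + 1) = ((-(m : ℤ) - 1, N - 1, true) ::
      ((List.range (N - 1)).reverse.map (fun i => (-(m : ℤ) - 1, i, true)) ++
      (List.range N).reverse.map (fun i => (-(m : ℤ) - 1 - 1, i, false)))) ++ LEl N m := rfl
    have e2 : CCl K N (m + 1) = CL4 K N (-(m : ℤ) - 1) * CCl K N m := rfl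
    rw [e, e2, List.map_append, List.prod_append, List.map_cons, List.prod_cons, List.map_append, List.prod_append,
      List.map_map, List.map_map, ← ih]
    unfold CL4
    simp only [mul_assoc]
    rfl

end Pool.Agent.YBC
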