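import Pool.Agent.YBC.Wts

/-!
# The two half cylinders with arbitrary column angles (universality, (b))

`two_lim`: for all sequences `u`, `u'` of angles in `[π / 8, π / 4]` the product of the rings with these angles on the two
halves, evaluated on a non-negative function at the empty state, tends to the value of the pairing of the two
functionals: it does not depend on the angles.
-/

set_option autoImplicit false

namespace Pool.Agent.YBC

open Filter Topology
open _root_.Pool.Agent.EXL hiding cc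
open _root_.Pool.Agent.EXL.Pat _root_.Pool.Agent.EXL.HS
open _root_.Pool.Agent.NUF _root_.Pool.Agent.NUG
open _root_.Pool.Agent.UNI.Mv (WP)

section seq

variable {α : Type*} [DecidableEq α] {c d : α} {X Y : List α} {w w' : ℕ → α → Wt ℝ}

/-- the rings with the weights `w n`. -/
abbrev TR (w : ℕ → α → Wt ℝ) (c d : α) (X : List α) : ℕ → (Pat α → ℝ) → (Pat α → ℝ) :=
  fun n => NUG.ringF (w n) c d X

theorem relU_seq {q : Pat α} {F H : Pat α → ℝ} (h : RelU q F H) (hc : q c = c) (hd : q d = d)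
    (hL : ∀ x ∈ X, q x = x) (n : ℕ) : RelU q (seqF (TR w c d X) n F) (seqF (TR w c d X) n H) := by
  induction n with
  | zero => exact h
  | succ n ih => exact ih.ringF (w n) hc hd hL

theorem seq_un_left (F : Pat α → ℝ) {p q : Pat α} (h : Dj p q) (hc : q c = c) (hd : q d = d)
    (hL : ∀ x ∈ X, q x = x) (n : ℕ) :
    seqF (TR w c d X) n F (un p q) = seqF (TR w c d X) n (fun p' => F (un p' q)) p :=
  relU_seq (F := F) (H := fun p' => F (un p' q)) (fun _ _ => rfl) hc hd hL n p h

theorem seq_un_right (F : Pat α → ℝ) {p q : Pat α} (h : Dj p q) (hc : p c = c) (hd : p d = d)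
    (hL : ∀ x ∈ X, p x = x) (n : ℕ) :
    seqF (TR w c d X) n F (un p q) = seqF (TR w c d X) n (fun q' => F (un p q')) q := by
  rw [un_comm h]
  exact relU_seq (F := F) (H := fun q' => F (un p q')) (fun q' hq' => by rw [un_comm hq']) hc hd hL n q h.symm

theorem lin_TR (n : ℕ) : Lin (TR w c d X n) := lin_ringF _ c d X

theorem lin_seq (n : ℕ) : Lin (seqF (TR w c d X) n) := by
  induction n with
  | zero => intro a b F G; rfl
  | succ n ih =>
    intro a b F G
    rw [seqF_succ, ih a b F G]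
    exact lin_TR n a b _ _

theorem pos_TR (hw : ∀ n x, WP (w n x)) (n : ℕ) : PosOp (TR w c d X n) := MXR.posOp_ringF (hw n)

theorem pos_seq (hw : ∀ n x, WP (w n x)) (n : ℕ) : PosOp (seqF (TR w c d X) n) :=
  fun _ hF p => seqF_nn (pos_TR hw) n hF p

theorem pres_seq (hn : X.Nodup) (hcd : c ≠ d) (hc : c ∉ X) (hd : d ∉ X) (n : ℕ) {G H : Pat α → ℝ}
    (h : ∀ r, AX X r → G r = H r) : ∀ r, AX X r → seqF (TR w c d X) n G r = seqF (TR w c d X) n H r := by
  induction n with
  | zero => exact h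
  | succ n ih =>
    intro r hr
    exact pres_ringF (w n) hn hcd hc hd _ _ ih r hr

end seq

section two

variable {ι : Type*} [DecidableEq ι] [Finite ι] {c d : ι} {X Y : List ι} {V V' : Fnl ι} {w w' : ℕ → ι → Wt ℝ}
  {S S' : (Pat ι → ℝ) → (Pat ι → ℝ)}

/-- the pairing is fixed by the rings of the right half. -/
theorem pU_fix_left (hXY : ∀ x ∈ X, x ∉ Y) (hc' : c ∉ Y) (hd' : d ∉ Y) (h : SeqH (TR w c d X) S (AX X) V)
    (hW : Sup Y V') (F : Pat ι → ℝ) (n : ℕ) :
    pU V V' (fun r => ((seqF (TR w c d X) n F r : ℝ) : ℂ)) = pU V V' (fun r => (F r : ℂ)) := by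
  rw [pU_apply, pU_apply, dual_swap, dual_swap V V']
  apply hW.congr
  intro q hq
  have a2 : (V fun p => ((seqF (TR w c d X) n F (un p q) : ℝ) : ℂ)) =
      V (fun p => ((seqF (TR w c d X) n (fun p => F (un p q)) p : ℝ) : ℂ)) := by
    apply h.sup.congr
    intro p hp
    exact congrArg _ (seq_un_left _ (dj_lists hXY hp hq) (ax_out hq hc') (ax_out hq hd')
      (fun x hx => ax_out hq (hXY x hx)) n)
  rw [a2, h.fixn]

omit [Finite ι] in
/-- the pairing is fixed by the rings of the left half. -/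
theorem pU_fix_right (hXY : ∀ x ∈ X, x ∉ Y) (hc : c ∉ X) (hd : d ∉ X) (hV : Sup X V)
    (h : SeqH (TR w' c d Y) S' (AX Y) V') (F : Pat ι → ℝ) (n : ℕ) :
    pU V V' (fun r => ((seqF (TR w' c d Y) n F r : ℝ) : ℂ)) = pU V V' (fun r => (F r : ℂ)) := by
  rw [pU_apply, pU_apply]
  apply hV.congr
  intro p hp
  have a2 : (V' fun q => ((seqF (TR w' c d Y) n F (un p q) : ℝ) : ℂ)) =
      V' (fun q => ((seqF (TR w' c d Y) n (fun q => F (un p q)) q : ℝ) : ℂ)) := by
    apply h.sup.congr
    intro q hq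
    exact congrArg _ (seq_un_right _ (dj_lists hXY hp hq) (ax_out hp hc) (ax_out hp hd)
      (fun x hx => ax_out hp fun h => hXY x h hx) n)
  rw [a2, h.fixn]

/-- the products tend to 0 on the non-empty states. -/
theorem two_zero (hw : ∀ n x, WP (w n x)) (hw' : ∀ n x, WP (w' n x)) (hX : X.Nodup) (hXY : ∀ x ∈ X, x ∉ Y)
    (hcd : c ≠ d) (hc : c ∉ X) (hd : d ∉ X) (hc' : c ∉ Y) (hd' : d ∉ Y) (h : SeqH (TR w c d X) S (AX X) V)
    (h' : SeqH (TR w' c d Y) S' (AX Y) V') {F : Pat ι → ℝ} (hF : ∀ p, 0 ≤ F p) {p q : Pat ι} (hp : AX X p)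
    (hq : AX Y q) (hpq : p ≠ Pat.empty ∨ q ≠ Pat.empty) :
    Tendsto (fun n => seqF (TR w c d X) n (seqF (TR w' c d Y) n F) (un p q)) atTop (𝓝 0) := by
  classical
  cases nonempty_fintype ι
  have : Fintype (Pat ι) := Fintype.ofFinite _
  have hYX : ∀ x ∈ Y, x ∉ X := fun x hx hx' => hXY x hx' hx
  have hdj := dj_lists hXY hp hq
  set one : Pat ι → ℝ := fun _ => 1 with hone
  have h1n : ∀ p, 0 ≤ one p := fun _ => zero_le_one
  have prod1 : ∀ n, seqF (TR w c d X) n (seqF (TR w' c d Y) n one) (un p q) =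
      seqF (TR w' c d Y) n one q * seqF (TR w c d X) n one p := by
    intro n
    have e1 := seq_un_left (w := w) (X := X) (seqF (TR w' c d Y) n one) hdj (ax_out hq hc') (ax_out hq hd')
      (fun x hx => ax_out hq (hXY x hx)) n
    have e2 : seqF (TR w c d X) n (fun p' => seqF (TR w' c d Y) n one (un p' q)) p =
        seqF (TR w c d X) n (fun p' => seqF (TR w' c d Y) n one q * one p') p := by
      apply pres_seq hX hcd hc hd n _ p hp
      intro p' hp'
      have e3 := seq_un_right (w := w') (X := Y) one (dj_lists hXY hp' hq) (ax_out hp' hc) (ax_out hp' hd)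
        (fun x hx => ax_out hp' (hYX x hx)) n
      rw [e3, hone, mul_one]
    have e4 : seqF (TR w c d X) n (fun p' => seqF (TR w' c d Y) n one q * one p') p =
        seqF (TR w' c d Y) n one q * seqF (TR w c d X) n one p := by
      have := lin_seq (w := w) (c := c) (d := d) (X := X) n (seqF (TR w' c d Y) n one q) 0 one one
      simpa using congrFun this p
    rw [e1, e2, e4]
  have lim1 : Tendsto (fun n => seqF (TR w c d X) n (seqF (TR w' c d Y) n one) (un p q)) atTop (𝓝 0) := by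
    simp only [prod1]
    by_cases h1 : p = Pat.empty
    · have h2 : q ≠ Pat.empty := hpq.resolve_left (fun h' => h' h1)
      have l1 := h'.decay h1n h2 hq
      have l2 := h.lim h1n
      rw [h1]
      simpa using l1.mul l2
    · have l2 := h.decay h1n h1 hp
      by_cases h2 : q = Pat.empty
      · have l1 := h'.lim h1n
        rw [h2]
        simpa using l1.mul l2
      · have l1 := h'.decay h1n h2 hq
        simpa using l1.mul l2
  obtain ⟨C, hC⟩ : ∃ C : ℝ, ∀ r, F r ≤ C := by
    refine ⟨∑ q, F q, fun p => ?_⟩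
    exact Finset.single_le_sum (f := fun q => F q) (fun _ _ => hF _) (Finset.mem_univ p)
  have key : ∀ n, seqF (TR w c d X) n (seqF (TR w' c d Y) n F) (un p q) ≤
      C * seqF (TR w c d X) n (seqF (TR w' c d Y) n one) (un p q) := by
    intro n
    have a1 : ∀ r, seqF (TR w' c d Y) n F r ≤ C * seqF (TR w' c d Y) n one r := by
      intro r
      have := seqF_mono (pos_TR hw') (lin_TR (w := w') (c := c) (d := d) (X := Y)) n (F := F) (G := fun r => C * one r)
        (fun r => by rw [hone, mul_one]; exact hC r) r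
      rwa [PosOp.smul (lin_seq n) C one] at this
    have a2 := seqF_mono (pos_TR hw) (lin_TR (w := w) (c := c) (d := d) (X := X)) n a1 (un p q)
    rwa [PosOp.smul (lin_seq n) C] at a2
  have h1 := lim1.const_mul C
  rw [mul_zero] at h1
  exact squeeze_zero (fun n => seqF_nn (pos_TR hw) n (seqF_nn (pos_TR hw') n hF) _) key h1

/-- **The limit of the two families of rings.** -/
theorem two_lim (hw : ∀ n x, WP (w n x)) (hw' : ∀ n x, WP (w' n x)) (hX : X.Nodup) (hXY : ∀ x ∈ X, x ∉ Y)
    (hcd : c ≠ d) (hc : c ∉ X) (hd : d ∉ X) (hc' : c ∉ Y) (hd' : d ∉ Y) (h : SeqH (TR w c d X) S (AX X) V)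
    (h' : SeqH (TR w' c d Y) S' (AX Y) V') {F : Pat ι → ℝ} (hF : ∀ p, 0 ≤ F p) :
    Tendsto (fun n => ((seqF (TR w c d X) n (seqF (TR w' c d Y) n F) Pat.empty : ℝ) : ℂ)) atTop
      (𝓝 (pU V V' (fun r => (F r : ℂ)))) := by
  classical
  have : Fintype (NE (AU X Y)) := Fintype.ofFinite _
  have hsup : SupF (AU X Y) (pU V V') := by
    intro G hG
    rw [pU_apply]
    apply h.sup
    intro p hp
    apply h'.sup
    intro q hq
    exact hG _ ⟨p, q, hp, hq, rfl⟩
  have hone : pU V V' (HS.ind Pat.empty) = 1 := MXR.pU_one hXY h.sup h.vone h'.sup h'.vone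
  set G : ℕ → Pat ι → ℂ := fun n r => ((seqF (TR w c d X) n (seqF (TR w' c d Y) n F) r : ℝ) : ℂ) with hG
  have e1 : ∀ n, pU V V' (G n) = pU V V' (fun r => (F r : ℂ)) := by
    intro n
    rw [hG]
    rw [pU_fix_left hXY hc' hd' h h'.sup, pU_fix_right hXY hc hd h.sup h']
  have e3 : ∀ n, G n Pat.empty = pU V V' (fun r => (F r : ℂ)) -
      ∑ p : NE (AU X Y), G n p.1 * pU V V' (HS.ind p.1) := by
    intro n
    have := sup_sum hsup (G n)
    rw [e1, hone, mul_one] at this
    rw [this]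
    ring
  have e4 : Tendsto (fun n => ∑ p : NE (AU X Y), G n p.1 * pU V V' (HS.ind p.1)) atTop (𝓝 0) := by
    have : (0 : ℂ) = ∑ p : NE (AU X Y), 0 * pU V V' (HS.ind p.1) := by simp
    rw [this]
    refine tendsto_finsetSum _ fun r _ => Tendsto.mul_const _ ?_
    obtain ⟨r, hr1, p, q, hp, hq, rfl⟩ := r
    have := two_zero hw hw' hX hXY hcd hc hd hc' hd' h h' hF hp hq (un_eq_empty (dj_lists hXY hp hq) hr1)
    have h7 := (Complex.continuous_ofReal.tendsto 0).comp this
    rw [Complex.ofReal_zero] at h7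
    exact h7
  have e5 := (tendsto_const_nhds (x := pU V V' (fun r => (F r : ℂ))) (f := atTop (α := ℕ))).sub e4
  rw [sub_zero] at e5
  exact e5.congr fun n => (e3 n).symm

end two

/-! ### The rings with the Yang–Baxter weights -/

section yb

variable {ι : Type*} [DecidableEq ι] [Finite ι] {c d e f : ι} {X : List ι} {u : ℕ → ℝ}

omit [DecidableEq ι] [Finite ι] in
theorem wY_WP (hu : ∀ n, An (u n)) (n : ℕ) (x : ι) : WP ((fun _ : ι => yw (u n)) x) := yw_WP (hu n)

/-- **The functional of the honeycomb rings is the functional of every sequence of rings.** -/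
theorem seqH_yb (hu : ∀ n, An (u n)) (hn : X.Nodup) (hcd : c ≠ d) (hef : e ≠ f)
    (h1 : c ≠ e) (h2 : c ≠ f) (h3 : d ≠ e) (h4 : d ≠ f) (hc : c ∉ X) (hd : d ∉ X) (he : e ∉ X)
    (hf : f ∉ X) : SeqH (TR (fun n (_ : ι) => yw (u n)) c d X) (NUG.ringF (fun _ => w0) c d X) (AX X)
      (NUT2.VR c d (z0 : ι → ℂ) X) := by
  have hR : NUT2.RegR c d (z0 : ι → ℂ) X := GLD.regR_zero hn hcd hc hd
  have hD := GLD.isD_VR0 hn hcd hc hd
  have one1 : ∀ w : ι → Wt ℝ, NUG.ringF w c d X (HS.ind Pat.empty) Pat.empty = 1 := fun w => by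
    rw [NUG.ringF_ind w hcd hc, HS.ind_self]
  refine ⟨pos_TR (wY_WP hu), fun n => lin_TR n, fun n => one1 _, fun n F => ?_, MXR.posOp_ringF fun _ => w0_WP,
    lin_ringF _ c d X, one1 _, fun n G hG p => ?_, fun p hp hA => reach_ring (fun _ => w0_WP) hn hc hd p hp hA,
    hD.sup, hD.one, ?_⟩
  · -- the functional is fixed
    have hp := Real.pi_pos
    set t := u n / (Real.pi / 8) with ht
    have hut : t * (Real.pi / 8) = u n := by rw [ht]; field_simp
    have ht1 : 1 ≤ t := by rw [ht, le_div_iff₀ (by positivity)]; linarith [(hu n).1]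
    have ht2 : t ≤ 2 := by rw [ht, div_le_iff₀ (by positivity)]; linarith [(hu n).2]
    have h5 := VR_fix ht1 ht2 hn hcd hef h1 h2 h3 h4 hc hd he hf hR (fun p => (F p : ℂ))
    rw [hut] at h5
    have h6 : NUT2.rg (z0 : ι → ℂ) c d ((u n : ℝ) : ℂ) X (fun p => (F p : ℂ)) =
        fun p => ((NUG.ringF (fun _ => yw (u n)) c d X F p : ℝ) : ℂ) := by
      have h7 := congrFun (NUT2.rg_fun (z0 : ι → ℂ) ((u n : ℝ) : ℂ) (X := X) hcd hc) (fun p => (F p : ℂ))
      rw [h7, ← MXR.ringC_ofReal]
      congr 1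
      funext j
      unfold MXR.wC
      rw [yw_map, sub_zero]
    rw [h6] at h5
    exact h5
  · exact ring_dom (fun _ => w0_le (hu n)) (fun _ => w0_WP.nn) hG p
  · intro F hF
    have hlim : Tendsto (fun n => (((ringH c d X)^[n] F Pat.empty : ℝ) : ℂ)) atTop
        (𝓝 (NUT2.VR c d (z0 : ι → ℂ) X fun p => (F p : ℂ))) := by
      refine val_lim (A := AX X) hD.sup hD.one (T := ringH c d X) (F := F) (fun G => ?_)
        (fun p hp hA => (majR_all hn hcd hc hd).iter hn hcd hc hd F hp hA)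
      rw [← NUG.ringC_ofReal]
      exact hD.fixA _
    exact real_lim (fun n => posOp_iter (ringH_pos c d X) n F hF _) hlim

end yb

end Pool.Agent.YBC
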