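import Pool.Agent.YBC.Main4
import Pool.Agent.YBC.Two
import Pool.Agent.YBC.Pub
import Pool.Agent.YBC.Ang
import Pool.Agent.GLD.W0

/-!
# The walks on the square lattice cylinder with any column angles: the sum is the two-point function of the
honeycomb cylinder
-/

set_option autoImplicit false

namespace Pool.Agent.YBC

open Filter Topology
open _root_.Pool.Agent.EXL hiding cc
open _root_.Pool.Agent.EXL.Pat _root_.Pool.Agent.EXL.HS
open _root_.Pool.Agent.NUF _root_.Pool.Agent.NUG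
open _root_.Pool.Agent.NUN (cc Xr Xl)
open _root_.Pool.Agent.NUNC (dd)
open _root_.Pool.Agent.MXR (XR XL gS Rest rowI rowJ r0 rk rest_rows nodup_XR nodup_XL
  cc_XR dd_XR cc_XL dd_XL cc_ne_dd Xr_notMem gS_nn ind_nn)
open _root_.Pool.Agent.UNI.Mv (WP)
open _root_.Pool.Agent.GLD (W0 F0)

/-- the angles between `π / 3` and `2 π / 3`. -/
def AnT (θ : ℝ) : Prop := Real.pi / 3 ≤ θ ∧ θ ≤ 2 * Real.pi / 3

theorem AnT.an {θ : ℝ} (h : AnT θ) : An (3 * θ / 8) := ⟨by linarith [h.1], by linarith [h.2]⟩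

theorem tw_yb (θ : ℝ) : tw (yb θ) = yw (3 * θ / 8) := by
  have e : den θ = yD (3 * θ / 8) := by
    unfold den yD
    rw [add_comm (3 * θ / 8), add_comm (3 * θ / 8)]
  unfold tw yb yw
  rw [e]

variable {N : ℕ}

/-- the weights of the columns. -/
noncomputable def Wcol (θ : ℤ → ℝ) : ℤ → ℕ → W5 ℝ := fun j _ => yb (θ j)

theorem wr_yb (θ : ℝ) : (wr (fun _ => yb θ) : NUF.St N → Wt ℝ) = fun _ => yw (3 * θ / 8) := by
  funext x
  rcases x with ⟨i, b⟩ | y
  · exact tw_yb θ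
  · exact tw_yb θ

theorem RR_yb (θ : ℤ → ℝ) : RR (Wcol θ) N = TR (fun n (_ : NUF.St N) => yw (3 * θ n / 8)) cc dd (XR N) := by
  funext n
  unfold RR TR Wcol
  rw [wr_yb]
  rfl

theorem RL_yb (θ : ℤ → ℝ) : RL (Wcol θ) N =
    TR (fun n (_ : NUF.St N) => yw (3 * θ (-(n : ℤ) - 1) / 8)) cc dd (XL N) := by
  funext n
  unfold RL TR Wcol
  rw [wr_yb]
  rfl

/-- **The two sequences of rings tend to the two-point function of the honeycomb cylinder.** -/
theorem rings_lim {θ : ℤ → ℝ} (hθ : ∀ j, AnT (θ j)) {F : Pat (NUF.St N) → ℝ} (hF : ∀ p, 0 ≤ F p) :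
    Tendsto (fun m => ((seqF (RR (Wcol θ) N) m (seqF (RL (Wcol θ) N) m F) Pat.empty : ℝ) : ℂ)) atTop
      (𝓝 (pU (NUT2.VR cc dd (fun _ => (0 : ℂ)) (XR N)) (NUT2.VR cc dd (fun _ => (0 : ℂ)) (XL N))
        (fun r => (F r : ℂ)))) := by
  rw [RR_yb, RL_yb]
  have hXY : ∀ x ∈ XR N, x ∉ XL N := by
    intro x hx hx'
    obtain ⟨a, -, rfl⟩ := List.mem_map.1 hx
    exact Xr_notMem a hx'
  have n1 : ∀ (y : Fin 4), (Sum.inr y : NUF.St N) ∉ XR N := by
    intro y h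
    obtain ⟨a, -, h⟩ := List.mem_map.1 h
    unfold Xr at h
    simp at h
  have n2 : ∀ (y : Fin 4), (Sum.inr y : NUF.St N) ∉ XL N := by
    intro y h
    rw [XL, List.mem_reverse] at h
    obtain ⟨a, -, h⟩ := List.mem_map.1 h
    unfold Xl at h
    simp at h
  have ne : ∀ y z : Fin 4, y ≠ z → (Sum.inr y : NUF.St N) ≠ Sum.inr z := fun y z h h' => h (Sum.inr.inj h')
  have hu : ∀ n : ℕ, An (3 * θ n / 8) := fun n => (hθ n).an
  have hu' : ∀ n : ℕ, An (3 * θ (-(n : ℤ) - 1) / 8) := fun n => (hθ _).an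
  exact two_lim (fun n x => yw_WP (hu n)) (fun n x => yw_WP (hu' n)) (nodup_XR N) hXY (cc_ne_dd N) (cc_XR N)
    (dd_XR N) (cc_XL N) (dd_XL N)
    (seqH_yb (u := fun n => 3 * θ n / 8) hu (nodup_XR N) (cc_ne_dd N) (e := Sum.inr 2) (f := Sum.inr 3)
      (ne _ _ (by decide)) (ne _ _ (by decide)) (ne _ _ (by decide)) (ne _ _ (by decide)) (ne _ _ (by decide))
      (cc_XR N) (dd_XR N) (n1 _) (n1 _))
    (seqH_yb (u := fun n => 3 * θ (-(n : ℤ) - 1) / 8) hu' (nodup_XL N) (cc_ne_dd N) (e := Sum.inr 2)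
      (f := Sum.inr 3) (ne _ _ (by decide)) (ne _ _ (by decide)) (ne _ _ (by decide)) (ne _ _ (by decide))
      (ne _ _ (by decide)) (cc_XL N) (dd_XL N) (n2 _) (n2 _)) hF

theorem F0_nn {k : ℕ} (hk : 1 ≤ k) (p : Pat (NUF.St (2 * k))) : 0 ≤ F0 hk p :=
  gS_nn _ (ind_nn _) p

/-- **The sum over the walks of the square lattice cylinder with any column angles.** -/
theorem hasSum_col {k : ℕ} (hk : 1 ≤ k) {θ : ℤ → ℝ} (hθ : ∀ j, AnT (θ j)) :
    HasSum (wb (fun v : Vx (2 * k) => yb (θ v.1)) (rv (((0 : ℤ), (0 : ZMod (2 * k))), Dir.W))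
      (((0 : ℤ), (k : ZMod (2 * k))), Dir.W)) (W0 hk).re := by
  have : NeZero (2 * k) := ⟨by omega⟩
  have hw : ∀ v : Vx (2 * k), (wV (Wcol θ) (2 * k) v).Nn := fun v => yb_nn (hθ _).1 (hθ _).2
  have h1 : Tendsto (fun m => (((seqF (RR (Wcol θ) (2 * k)) m (seqF (RL (Wcol θ) (2 * k)) m (F0 hk)) Pat.empty : ℝ)
      : ℂ)).re) atTop (𝓝 (W0 hk).re) := by
    have := rings_lim hθ (F0_nn hk)
    rw [← GLD.W0_eq] at this
    exact (Complex.continuous_re.tendsto _).comp this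
  simp only [Complex.ofReal_re] at h1
  refine hasSum_Zw (w := wV (Wcol θ) (2 * k)) hw (A := fun m => (LAh (2 * k) m).toFinset)
    (n := fun m => (LEh (N := 2 * k) m (rowI k ++ rowJ k)).length + 1 + m) ?_ ?_ ?_
  · intro v
    filter_upwards [eventually_ge_atTop (v.1.natAbs + 1)] with m hm
    rw [List.mem_toFinset, mem_LAh]
    omega
  · exact tendsto_atTop_mono (fun m => by simp only [id]; omega) tendsto_id
  · refine h1.congr' ?_
    filter_upwards [eventually_ge_atTop 1] with m hm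
    have h2 := rings_eq4 (Wcol θ) hm (GLD.r0_ne_rk hk) (rest_rows hk)
      (n := (LEh (N := 2 * k) m (rowI k ++ rowJ k)).length + 1 + m) (by omega)
    have e0 : hs (r0 hk) = (((0 : ℤ), (0 : ZMod (2 * k))), Dir.W) := by
      unfold hs r0
      simp
    have ek : hs (rk hk) = (((0 : ℤ), (k : ZMod (2 * k))), Dir.W) := by
      unfold hs rk
      simp
    rw [e0, ek] at h2
    exact h2

end Pool.Agent.YBC
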