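import Pool.Agent.YBC.UnivA

/-!
# All cylinders, all pairs of rows: the sum over the walks does not depend on the column angles
-/

set_option autoImplicit false

namespace Pool.Agent.YBC

open Filter Topology
open _root_.Pool.Agent.EXL hiding cc
open _root_.Pool.Agent.EXL.Pat _root_.Pool.Agent.EXL.HS
open _root_.Pool.Agent.NUF _root_.Pool.Agent.NUG
open _root_.Pool.Agent.NUN (cc Xr Xl)
open _root_.Pool.Agent.NUNC (dd)
open _root_.Pool.Agent.MXR (XR XL gS Rest gS_nn ind_nn)

variable {N : ℕ}

/-- the rows different from `i`, `j`. -/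
def rst (i j : Fin N) : List (Fin N) := (List.finRange N).filter fun a => a ≠ i ∧ a ≠ j

theorem rest_rst (i j : Fin N) : Rest (rst i j) i j := by
  refine ⟨(List.nodup_finRange N).filter _, fun a => ?_⟩
  unfold rst
  rw [List.mem_filter]
  simp

/-- The function of the cut. -/
noncomputable def Fg (i j : Fin N) : Pat (NUF.St N) → ℝ :=
  gS ℝ (rst i j) (HS.ind (cup (Xr i) (Xr j) Pat.empty))

/-- **The two-point function of the rows `i`, `j`.** -/
noncomputable def Wg (i j : Fin N) : ℝ :=
  (pU (NUT2.VR cc dd (fun _ => (0 : ℂ)) (XR N)) (NUT2.VR cc dd (fun _ => (0 : ℂ)) (XL N))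
    (fun r => (Fg i j r : ℂ))).re

/-- **The sum over the walks, any cylinder, any pair of rows, any column angles.** -/
theorem hasSum_gen {i j : Fin N} (hij : i ≠ j) {θ : ℤ → ℝ} (hθ : ∀ x, AnT (θ x)) :
    HasSum (wb (fun v : Vx N => yb (θ v.1)) (rv ((0, ((i : ℕ) : ZMod N)), Dir.W)) ((0, ((j : ℕ) : ZMod N)), Dir.W))
      (Wg i j) := by
  have : NeZero N := ⟨by have := i.2; omega⟩
  have hw : ∀ v : Vx N, (wV (Wcol θ) N v).Nn := fun v => yb_nn (hθ _).1 (hθ _).2
  have h1 : Tendsto (fun m => (((seqF (RR (Wcol θ) N) m (seqF (RL (Wcol θ) N) m (Fg i j)) Pat.empty : ℝ)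
      : ℂ)).re) atTop (𝓝 (Wg i j)) :=
    (Complex.continuous_re.tendsto _).comp (rings_lim hθ (gS_nn _ (ind_nn _)))
  simp only [Complex.ofReal_re] at h1
  refine hasSum_Zw (w := wV (Wcol θ) N) hw (A := fun m => (LAh N m).toFinset)
    (n := fun m => (LEh (N := N) m (rst i j)).length + 1 + m) ?_ ?_ ?_
  · intro v
    filter_upwards [eventually_ge_atTop (v.1.natAbs + 1)] with m hm
    rw [List.mem_toFinset, mem_LAh]
    omega
  · exact tendsto_atTop_mono (fun m => by simp only [id]; omega) tendsto_id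
  · refine h1.congr' ?_
    filter_upwards [eventually_ge_atTop 1] with m hm
    exact rings_eq4 (Wcol θ) hm hij (rest_rst i j) (n := (LEh (N := N) m (rst i j)).length + 1 + m) (by omega)

end Pool.Agent.YBC
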