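import Pool.Agent.YBC.Seq
import Pool.Agent.YBC.Fix

/-!
# The real weights of the columns (universality, (b))
-/

set_option autoImplicit false

namespace Pool.Agent.YBC

open Filter Topology
open _root_.Pool.Agent.EXL hiding cc
open _root_.Pool.Agent.EXL.Pat _root_.Pool.Agent.EXL.HS
open _root_.Pool.Agent.NUF
open _root_.Pool.Agent.UNI.Mv (WP)

/-- The denominator of the Yang–Baxter weights. -/
noncomputable def yD (u : ℝ) : ℝ := Real.sin (Real.pi / 4 + u) * Real.sin (3 * Real.pi / 8 + u)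

/-- **The Yang–Baxter weights** (loop weight 0) at the crossing with the angle `u`. -/
noncomputable def yw (u : ℝ) : Wt ℝ where
  v := Real.sin u * Real.sin (3 * Real.pi / 8 - u) / yD u
  u1 := Real.sin (Real.pi / 4) * Real.sin (3 * Real.pi / 8 - u) / yD u
  u2 := Real.sin (Real.pi / 4) * Real.sin u / yD u
  w1 := Real.sin (Real.pi / 4 - u) * Real.sin (3 * Real.pi / 8 - u) / yD u
  w2 := Real.sin u * Real.sin (u - Real.pi / 8) / yD u

theorem yw_map (u : ℝ) : (yw u).map Complex.ofRealHom = rwt (u : ℂ) := by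
  rw [Fm.rwt_eq]
  have e1 : (2 * ((Real.pi : ℂ) / 8)) = (Real.pi : ℂ) / 4 := by ring
  have e2 : (3 * ((Real.pi : ℂ) / 8)) = 3 * (Real.pi : ℂ) / 8 := by ring
  unfold Fm.Wc Fm.Wn Wt.sc Wt.map yw yD Fm.Dn Fm.lam
  simp only [e1, e2, Complex.ofRealHom_eq_coe, Complex.ofReal_div, Complex.ofReal_mul, Complex.ofReal_sin,
    Complex.ofReal_add, Complex.ofReal_sub, Complex.ofReal_ofNat, Wt.mk.injEq]
  exact ⟨by ring, by ring, by ring, by ring, by ring⟩

/-- The angles of the model. -/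
def An (u : ℝ) : Prop := Real.pi / 8 ≤ u ∧ u ≤ Real.pi / 4

theorem sin_ge {x : ℝ} (h1 : Real.pi / 8 ≤ x) (h2 : x ≤ 7 * Real.pi / 8) : Real.sin (Real.pi / 8) ≤ Real.sin x := by
  have hp := Real.pi_pos
  rcases le_total x (Real.pi / 2) with h | h
  · exact Real.sin_le_sin_of_le_of_le_pi_div_two (by linarith) h h1
  · rw [← Real.sin_pi_sub x]
    exact Real.sin_le_sin_of_le_of_le_pi_div_two (by linarith) (by linarith) (by linarith)

theorem s8_pos : 0 < Real.sin (Real.pi / 8) :=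
  Real.sin_pos_of_pos_of_lt_pi (by positivity) (by linarith [Real.pi_pos])

theorem yD_pos {u : ℝ} (h : An u) : 0 < yD u := by
  have hp := Real.pi_pos
  obtain ⟨h1, h2⟩ := h
  unfold yD
  have a := sin_ge (x := Real.pi / 4 + u) (by linarith) (by linarith)
  have b := sin_ge (x := 3 * Real.pi / 8 + u) (by linarith) (by linarith)
  exact mul_pos (s8_pos.trans_le a) (s8_pos.trans_le b)

theorem yD_le (u : ℝ) (h : An u) : yD u ≤ 1 := by
  have hp := Real.pi_pos
  obtain ⟨h1, h2⟩ := h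
  unfold yD
  have a := Real.sin_le_one (Real.pi / 4 + u)
  have b := Real.sin_le_one (3 * Real.pi / 8 + u)
  have b' := sin_ge (x := 3 * Real.pi / 8 + u) (by linarith) (by linarith)
  have := s8_pos
  nlinarith

/-- the constant. -/
noncomputable def s0 : ℝ := Real.sin (Real.pi / 8) * Real.sin (Real.pi / 8)

theorem s0_pos : 0 < s0 := mul_pos s8_pos s8_pos

/-- the minorant of the weights. -/
noncomputable def w0 : Wt ℝ := ⟨s0, s0, s0, 0, 0⟩

theorem w0_WP : WP w0 := ⟨s0_pos, s0_pos, s0_pos, le_rfl, le_rfl⟩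

/-- comparison of weights. -/
structure LeW (w w' : Wt ℝ) : Prop where
  v : w.v ≤ w'.v
  u1 : w.u1 ≤ w'.u1
  u2 : w.u2 ≤ w'.u2
  w1 : w.w1 ≤ w'.w1
  w2 : w.w2 ≤ w'.w2

theorem frac_ge {a b u : ℝ} (h : An u) (ha : Real.sin (Real.pi / 8) ≤ a) (hb : Real.sin (Real.pi / 8) ≤ b) :
    s0 ≤ a * b / yD u := by
  have h1 := yD_pos h
  have h2 := yD_le u h
  have h3 := s8_pos
  rw [le_div_iff₀ h1]
  have h4 : s0 ≤ a * b := mul_le_mul ha hb h3.le (h3.le.trans ha)
  have h5 : s0 * yD u ≤ s0 * 1 := mul_le_mul_of_nonneg_left h2 s0_pos.le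
  linarith

theorem w0_le {u : ℝ} (h : An u) : LeW w0 (yw u) := by
  have hp := Real.pi_pos
  have h' := h
  obtain ⟨h1, h2⟩ := h'
  have a1 := sin_ge (x := u) h1 (by linarith)
  have a2 := sin_ge (x := 3 * Real.pi / 8 - u) (by linarith) (by linarith)
  have a3 := sin_ge (x := Real.pi / 4) (by linarith) (by linarith)
  refine ⟨frac_ge h a1 a2, frac_ge h a3 a2, frac_ge h a3 a1, ?_, ?_⟩
  · refine div_nonneg (mul_nonneg ?_ (s8_pos.le.trans a2)) (yD_pos h).le
    exact Real.sin_nonneg_of_nonneg_of_le_pi (by linarith) (by linarith)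
  · refine div_nonneg (mul_nonneg (s8_pos.le.trans a1) ?_) (yD_pos h).le
    exact Real.sin_nonneg_of_nonneg_of_le_pi (by linarith) (by linarith)

theorem LeW.WP {w w' : Wt ℝ} (h : LeW w w') (hw : WP w) : WP w' :=
  ⟨hw.v.trans_le h.v, hw.u1.trans_le h.u1, hw.u2.trans_le h.u2, hw.w1.trans h.w1, hw.w2.trans h.w2⟩

theorem yw_WP {u : ℝ} (h : An u) : WP (yw u) := (w0_le h).WP w0_WP

section dom

variable {α : Type*} [DecidableEq α] {c d : α} {X : List α}

theorem R_dom {w w' : Wt ℝ} (h : LeW w w') (hw : w.Nn) (i j : α) {F G : Pat α → ℝ} (hF : ∀ p, 0 ≤ F p)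
    (hFG : ∀ p, F p ≤ G p) (p : Pat α) : R w i j F p ≤ R w' i j G p := by
  have hv : ∀ q, w.v * F q ≤ w'.v * G q := fun q =>
    (mul_le_mul_of_nonneg_right h.v (hF q)).trans (mul_le_mul_of_nonneg_left (hFG q) (hw.v.trans h.v))
  have hu1 : ∀ q, w.u1 * F q ≤ w'.u1 * G q := fun q =>
    (mul_le_mul_of_nonneg_right h.u1 (hF q)).trans (mul_le_mul_of_nonneg_left (hFG q) (hw.u1.trans h.u1))
  have hu2 : ∀ q, w.u2 * F q ≤ w'.u2 * G q := fun q =>
    (mul_le_mul_of_nonneg_right h.u2 (hF q)).trans (mul_le_mul_of_nonneg_left (hFG q) (hw.u2.trans h.u2))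
  have hw1 : ∀ q, w.w1 * F q ≤ w'.w1 * G q := fun q =>
    (mul_le_mul_of_nonneg_right h.w1 (hF q)).trans (mul_le_mul_of_nonneg_left (hFG q) (hw.w1.trans h.w1))
  have hw2 : ∀ q, w.w2 * F q ≤ w'.w2 * G q := fun q =>
    (mul_le_mul_of_nonneg_right h.w2 (hF q)).trans (mul_le_mul_of_nonneg_left (hFG q) (hw.w2.trans h.w2))
  simp only [R]
  split_ifs
  · exact add_le_add (hFG _) (hu2 _)
  · exact add_le_add (hv _) (hu1 _)
  · exact add_le_add (hv _) (hu1 _)
  · exact hw1 _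
  · exact add_le_add (add_le_add (hw1 _) (hu2 _)) (hw2 _)

theorem M_dom {w w' : α → Wt ℝ} (h : ∀ x, LeW (w x) (w' x)) (hw : ∀ x, (w x).Nn) (a : α) (L : List α)
    {F G : Pat α → ℝ} (hF : ∀ p, 0 ≤ F p) (hFG : ∀ p, F p ≤ G p) (p : Pat α) : M w a L F p ≤ M w' a L G p := by
  induction L generalizing p with
  | nil => exact hFG p
  | cons j L ih =>
    rw [M_cons, M_cons]
    exact R_dom (h j) (hw j) a j (fun q => M_nn hw a L hF q) ih p

theorem glue_mono (i j : α) {F G : Pat α → ℝ} (h : ∀ p, F p ≤ G p) (p : Pat α) : glue i j F p ≤ glue i j G p := by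
  simp only [glue]
  split_ifs
  · exact h p
  · exact le_rfl
  · exact le_rfl
  · exact le_rfl
  · exact h _

theorem U_mono (i j : α) {F G : Pat α → ℝ} (h : ∀ p, F p ≤ G p) (p : Pat α) : EXL.U i j F p ≤ EXL.U i j G p := by
  simp only [EXL.U]
  split_ifs
  · exact add_le_add (h _) (h _)
  · exact le_rfl
  · exact le_rfl

/-- **Domination of the rings.** -/
theorem ring_dom {w w' : α → Wt ℝ} (h : ∀ x, LeW (w x) (w' x)) (hw : ∀ x, (w x).Nn) {F : Pat α → ℝ}
    (hF : ∀ p, 0 ≤ F p) (p : Pat α) : NUG.ringF w c d X F p ≤ NUG.ringF w' c d X F p := by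
  unfold NUG.ringF
  exact U_mono c d (fun q => M_dom h hw c X (NUG.glue_nn c d hF) (fun _ => le_rfl) q) p

/-- the empty state leads to every planar state. -/
theorem reach_ring {w : α → Wt ℝ} (hw : ∀ x, WP (w x)) (hn : X.Nodup) (hc : c ∉ X) (hd : d ∉ X) (p : Pat α)
    (hp : p ≠ Pat.empty) (hA : AX X p) : ∃ m, 0 < (NUG.ringF w c d X)^[m] (HS.ind p) Pat.empty := by
  obtain ⟨x1, x2, X', hX⟩ := NUG.two_rows (fun x hx => ax_out hA hx) hp
  have m1 : x1 ∈ X := by rw [hX]; simp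
  have m2 : x2 ∈ X := by rw [hX]; simp
  have h12 : x1 ≠ x2 := by
    intro e
    rw [hX, e] at hn
    simp at hn
  have hi : X.idxOf x1 < X.idxOf x2 := by
    rw [hX, idx_cons_self, idx_cons_ne h12.symm]
    omega
  have hl1 : Leads (NUG.ringF w c d X) Pat.empty (cup x1 x2 Pat.empty) :=
    NUG.mv_create hw ⟨hn, m1, m2, hi, hc, hd, rfl, rfl, fun _ _ _ _ => rfl⟩ rfl rfl
  obtain ⟨m, hm⟩ := NUG.ring_irred (c := c) (d := d) hw hn hc hd (NUG.ax_arc m2 m1)
    (NUG.arc_ne_empty h12) hA hp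
  have hpp : Pos (NUG.ringF w c d X) := NUG.pos_ringF hw
  exact ⟨m + 1, NUG.Leads.ind_pos (Leads.iterate_succ hpp hl1 hm)⟩

end dom

end Pool.Agent.YBC
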